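import Pool.Agent.U507.PC.VS
import Pool.Agent.H370R2.NT

/-!
# Windows: change of variables, and the windows below exponent `1`
-/

set_option autoImplicit false

open Complex Filter Topology Set MeasureTheory Metric
open scoped Real

namespace Pool.Agent.U507.PC

open Pool.Agent.U507.GM hiding step_low low_pt low_unif rigid

/-- the mean square over `[T^a, T^b]` -/
noncomputable def Mt (T a b : ℝ) : ℝ :=
  T / Real.log T ^ 2 * ∫ x in (T ^ a)..(T ^ b), (Chebyshev.psi (x + x / T) - Chebyshev.psi x - x / T) ^ 2 / x ^ 2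

lemma image_pow {T a b : ℝ} (hT : 1 < T) : (fun α : ℝ => T ^ α) '' Ioc a b = Ioc (T ^ a) (T ^ b) := by
  have hT0 : 0 < T := by linarith
  ext x
  constructor
  · rintro ⟨α, hα, rfl⟩
    exact ⟨Real.rpow_lt_rpow_of_exponent_lt hT hα.1, Real.rpow_le_rpow_of_exponent_le hT.le hα.2⟩
  · rintro ⟨h1, h2⟩
    have hx : 0 < x := (Real.rpow_pos_of_pos hT0 a).trans h1
    have e : T ^ (Real.logb T x) = x := Real.rpow_logb hT0 hT.ne' hx
    refine ⟨Real.logb T x, ⟨?_, ?_⟩, e⟩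
    · exact (Real.lt_logb_iff_rpow_lt hT hx).2 h1
    · exact (Real.logb_le_iff_le_rpow hT hx).2 h2

lemma vs_M {T a b : ℝ} (hT : 1 < T) (hab : a ≤ b) : ∫ α in a..b, vs T α = Mt T a b := by
  have hT0 : 0 < T := by linarith
  have hlog : 0 < Real.log T := Real.log_pos hT
  unfold Mt
  rw [intervalIntegral.integral_of_le hab,
    intervalIntegral.integral_of_le (Real.rpow_le_rpow_of_exponent_le hT.le hab), ← image_pow hT,
    integral_image_eq_integral_abs_deriv_smul (f' := fun α => T ^ α * Real.log T) measurableSet_Ioc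
      (fun α _ => (Real.hasStrictDerivAt_const_rpow hT0 α).hasDerivAt.hasDerivWithinAt)
      (fun α _ β _ h => (Real.rpow_right_inj hT0 hT.ne').1 h), ← integral_const_mul]
  refine setIntegral_congr_fun measurableSet_Ioc fun α _ => ?_
  have hX : 0 < T ^ α := Real.rpow_pos_of_pos hT0 α
  simp only [smul_eq_mul]
  rw [abs_of_pos (by positivity), vs, Dd]
  field_simp

open ArithmeticFunction in
lemma lam_win {m N : ℕ} (hm : 1 ≤ m) (h : m ≤ N) :
    ∑ n ∈ Finset.Ioc m N, vonMangoldt n ^ 2 / n ≤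
      (Real.log N ^ 2 - Real.log m ^ 2) / 2 + 10 * (Real.log N + 1) := by
  have hN1 : (1 : ℝ) ≤ N := by exact_mod_cast hm.trans h
  have hm1 : (1 : ℝ) ≤ m := by exact_mod_cast hm
  have hlogN : 0 ≤ Real.log N := Real.log_nonneg hN1
  have hlogm : 0 ≤ Real.log m := Real.log_nonneg hm1
  have hmN : Real.log m ≤ Real.log N := Real.log_le_log (by linarith) (by exact_mod_cast h)
  have h1 : ∑ n ∈ Finset.Ioc m N, vonMangoldt n ^ 2 / n ≤
      ∑ n ∈ Finset.Ioc m N, (vonMangoldt n / n) * Real.log n := by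
    refine Finset.sum_le_sum fun n hn => ?_
    have hn0 : (0 : ℝ) < n := by
      have := (Finset.mem_Ioc.1 hn).1
      exact_mod_cast (by omega : 0 < n)
    have h2 : vonMangoldt n ≤ Real.log n := vonMangoldt_le_log
    have h3 : 0 ≤ vonMangoldt n := vonMangoldt_nonneg
    rw [div_mul_eq_mul_div, sq]
    gcongr
  refine h1.trans ?_
  have hsplit : ∀ f : ℕ → ℝ, ∑ n ∈ Finset.Ioc m N, f n = ∑ n ∈ Finset.Icc 1 N, f n - ∑ n ∈ Finset.Icc 1 m, f n := by
    intro f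
    have e : Finset.Icc 1 N = Finset.Icc 1 m ∪ Finset.Ioc m N := by
      ext n
      simp only [Finset.mem_Icc, Finset.mem_Ioc, Finset.mem_union]
      omega
    have hd : Disjoint (Finset.Icc 1 m) (Finset.Ioc m N) := by
      rw [Finset.disjoint_left]
      intro n h1 h2
      simp only [Finset.mem_Icc, Finset.mem_Ioc] at h1 h2
      omega
    rw [e, Finset.sum_union hd]
    ring
  have hup := H370.nt_mertens_upper N (hm.trans h)
  have hlo := H370.nt_mertens_lower m hm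
  have hIco : ∀ g : ℕ → ℝ, ∑ n ∈ Finset.Ico 1 N, g n = ∑ n ∈ Finset.Ico 1 m, g n + ∑ n ∈ Finset.Ico m N, g n := by
    intro g
    rw [Finset.sum_Ico_consecutive _ hm h]
  rw [hsplit, H370.nt_abel (fun n => vonMangoldt n / n) (fun n => Real.log n) N (hm.trans h),
    H370.nt_abel (fun n => vonMangoldt n / n) (fun n => Real.log n) m hm, hIco]
  have key : ∀ n ∈ Finset.Ico m N, ((Real.log ((n + 1 : ℕ) : ℝ)) ^ 2 / 2 -
        3 / 2 * Real.log ((n + 1 : ℕ) : ℝ)) - ((Real.log (n : ℝ)) ^ 2 / 2 - 3 / 2 * Real.log n) ≤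
      (∑ k ∈ Finset.Icc 1 n, vonMangoldt k / k) * (Real.log ((n + 1 : ℕ) : ℝ) - Real.log n) := by
    intro n hn
    have hn1 : 1 ≤ n := hm.trans (Finset.mem_Ico.1 hn).1
    have hn1' : (1 : ℝ) ≤ n := by exact_mod_cast hn1
    have hlow := H370.nt_mertens_lower n hn1
    have hd0 : 0 ≤ Real.log ((n + 1 : ℕ) : ℝ) - Real.log n := by
      rw [sub_nonneg]; apply Real.log_le_log (by linarith); push_cast; linarith
    have hd1 : Real.log ((n + 1 : ℕ) : ℝ) - Real.log n ≤ 1 := by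
      rw [← Real.log_div (by positivity) (by positivity)]
      have := Real.log_le_sub_one_of_pos (x := ((n + 1 : ℕ) : ℝ) / n) (by positivity)
      have h5 : ((n + 1 : ℕ) : ℝ) / n - 1 = 1 / n := by push_cast; field_simp; ring
      have h6 : 1 / (n : ℝ) ≤ 1 := by rw [div_le_one (by linarith)]; exact hn1'
      linarith
    have h7 := mul_le_mul_of_nonneg_right hlow hd0
    refine le_trans ?_ h7
    nlinarith
  have htel : ∑ n ∈ Finset.Ico m N, (((Real.log ((n + 1 : ℕ) : ℝ)) ^ 2 / 2 -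
        3 / 2 * Real.log ((n + 1 : ℕ) : ℝ)) - ((Real.log (n : ℝ)) ^ 2 / 2 - 3 / 2 * Real.log n)) =
      (Real.log (N : ℝ) ^ 2 / 2 - 3 / 2 * Real.log N) - (Real.log (m : ℝ) ^ 2 / 2 - 3 / 2 * Real.log m) :=
    Finset.sum_Ico_sub (fun n : ℕ => Real.log (n : ℝ) ^ 2 / 2 - 3 / 2 * Real.log n) h
  have h3 := Finset.sum_le_sum key
  rw [htel] at h3
  have h4 := mul_le_mul_of_nonneg_right hup hlogN
  have h5 := mul_le_mul_of_nonneg_right hlo hlogm
  push_cast at h3 ⊢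
  nlinarith

open ArithmeticFunction in
/-- intervals of length at most one contain at most one integer -/
lemma psi_one {x δ : ℝ} (hx : 0 < x) (hδ : 0 ≤ δ) (h : x * δ ≤ 1) :
    (Chebyshev.psi (x + x * δ) - Chebyshev.psi x) ^ 2 = ∑ n ∈ Finset.Ioc ⌊x⌋₊ ⌊x + x * δ⌋₊, vonMangoldt n ^ 2 ∧
    0 ≤ Chebyshev.psi (x + x * δ) - Chebyshev.psi x := by
  have hxd : 0 ≤ x * δ := by positivity
  have h1 : Chebyshev.psi (x + x * δ) - Chebyshev.psi x = ∑ n ∈ Finset.Ioc ⌊x⌋₊ ⌊x + x * δ⌋₊, vonMangoldt n := by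
    have hle : ⌊x⌋₊ ≤ ⌊x + x * δ⌋₊ := Nat.floor_mono (by linarith)
    have e : Finset.Ioc 0 ⌊x + x * δ⌋₊ = Finset.Ioc 0 ⌊x⌋₊ ∪ Finset.Ioc ⌊x⌋₊ ⌊x + x * δ⌋₊ := by
      ext n
      simp only [Finset.mem_Ioc, Finset.mem_union]
      omega
    have hd : Disjoint (Finset.Ioc 0 ⌊x⌋₊) (Finset.Ioc ⌊x⌋₊ ⌊x + x * δ⌋₊) := by
      rw [Finset.disjoint_left]
      intro n h1 h2
      simp only [Finset.mem_Ioc] at h1 h2
      omega
    unfold Chebyshev.psi
    rw [e, Finset.sum_union hd]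
    ring
  have h2 : ⌊x + x * δ⌋₊ ≤ ⌊x⌋₊ + 1 := by
    have h3 : ⌊x + x * δ⌋₊ < ⌊x⌋₊ + 2 := by
      rw [Nat.floor_lt (by linarith)]
      push_cast
      linarith [Nat.lt_floor_add_one x]
    omega
  constructor
  · rw [h1]
    rcases Nat.eq_or_lt_of_le (Nat.floor_mono (show x ≤ x + x * δ by linarith)) with h3 | h3
    · rw [← h3]
      simp
    · have h4 : ⌊x + x * δ⌋₊ = ⌊x⌋₊ + 1 := by omega
      rw [h4, Nat.Ioc_succ_singleton]
      simp
  · rw [h1]
    exact Finset.sum_nonneg fun n _ => vonMangoldt_nonneg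

open ArithmeticFunction in
lemma sw1 {T a b : ℝ} (hT : 16 ≤ T) (ha : 0 ≤ a) (hab : a ≤ b) (hb : b ≤ 1) :
    ∫ x in (T ^ a)..(T ^ b), (Chebyshev.psi (x + x / T) - Chebyshev.psi x - x / T) ^ 2 / x ^ 2 ≤
      1 / T * ((1 + 1 / T) * (∑ n ∈ Finset.Ioc ⌊T ^ a⌋₊ ⌊2 * T ^ b⌋₊, vonMangoldt n ^ 2 / n) + 1) := by
  have hT0 : 0 < T := by linarith
  have hT1 : 1 < T := by linarith
  obtain ⟨δ, hδ⟩ : ∃ δ : ℝ, δ = 1 / T := ⟨_, rfl⟩
  have hδ0 : 0 < δ := by rw [hδ]; positivity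
  have hδ1 : δ ≤ 1 := by rw [hδ, div_le_one hT0]; linarith
  obtain ⟨y, hy⟩ : ∃ y : ℝ, y = T ^ a := ⟨_, rfl⟩
  obtain ⟨z, hz⟩ : ∃ z : ℝ, z = T ^ b := ⟨_, rfl⟩
  have hy1 : 1 ≤ y := by rw [hy]; exact Real.one_le_rpow hT1.le ha
  have hyz : y ≤ z := by rw [hy, hz]; exact Real.rpow_le_rpow_of_exponent_le hT1.le hab
  have hzT : z ≤ T := by
    rw [hz]
    calc T ^ b ≤ T ^ (1 : ℝ) := Real.rpow_le_rpow_of_exponent_le hT1.le hb
      _ = T := Real.rpow_one T
  have hzδ : z * δ ≤ 1 := by rw [hδ, mul_one_div, div_le_one hT0]; exact hzT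
  rw [← hy, ← hz, ← hδ, intervalIntegral.integral_of_le hyz]
  obtain ⟨S, hS⟩ : ∃ S : Finset ℕ, S = Finset.Ioc ⌊y⌋₊ ⌊2 * z⌋₊ := ⟨_, rfl⟩
  rw [← hS]
  obtain ⟨g, hg⟩ : ∃ g : ℝ → ℝ, g = fun x => (∑ n ∈ S, (Ico ((n : ℝ) / (1 + δ)) n).indicator
      (fun _ => vonMangoldt n ^ 2 * (1 + δ) ^ 2 / (n : ℝ) ^ 2) x) + δ ^ 2 := ⟨_, rfl⟩
  have hSn : ∀ n ∈ S, (1 : ℝ) ≤ n := by
    intro n hn
    rw [hS, Finset.mem_Ioc] at hn
    exact_mod_cast (by omega : 1 ≤ n)
  have hii : ∀ n : ℕ, Integrable ((Ico ((n : ℝ) / (1 + δ)) n).indicator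
      (fun _ => vonMangoldt n ^ 2 * (1 + δ) ^ 2 / (n : ℝ) ^ 2)) (volume.restrict (Ioc y z)) := fun n =>
    ((integrable_indicator_iff measurableSet_Ico).2 (integrableOn_const measure_Ico_lt_top.ne)).integrableOn
  have hgi : Integrable g (volume.restrict (Ioc y z)) := by
    rw [hg]
    exact (integrable_finsetSum _ fun n _ => hii n).add (integrableOn_const measure_Ioc_lt_top.ne)
  have hpt : ∀ x ∈ Ioc y z, (Chebyshev.psi (x + x / T) - Chebyshev.psi x - x / T) ^ 2 / x ^ 2 ≤ g x := by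
    intro x hx
    have hx1 : 1 < x := lt_of_le_of_lt hy1 hx.1
    have hx0 : 0 < x := by linarith
    have hxδ : x * δ ≤ 1 := le_trans (by gcongr; exact hx.2) hzδ
    have e1 : x / T = x * δ := by rw [hδ]; ring
    obtain ⟨h1, h2⟩ := psi_one hx0 hδ0.le hxδ
    rw [e1]
    have h3 : (Chebyshev.psi (x + x * δ) - Chebyshev.psi x - x * δ) ^ 2 ≤
        (Chebyshev.psi (x + x * δ) - Chebyshev.psi x) ^ 2 + (x * δ) ^ 2 := by
      have : 0 ≤ x * δ := by positivity
      nlinarith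
    have h4 : (∑ n ∈ Finset.Ioc ⌊x⌋₊ ⌊x + x * δ⌋₊, vonMangoldt n ^ 2) / x ^ 2 ≤
        ∑ n ∈ S, (Ico ((n : ℝ) / (1 + δ)) n).indicator (fun _ => vonMangoldt n ^ 2 * (1 + δ) ^ 2 / (n : ℝ) ^ 2) x := by
      have h5 : ∀ n ∈ Finset.Ioc ⌊x⌋₊ ⌊x + x * δ⌋₊, vonMangoldt n ^ 2 / x ^ 2 ≤
          (Ico ((n : ℝ) / (1 + δ)) n).indicator (fun _ => vonMangoldt n ^ 2 * (1 + δ) ^ 2 / (n : ℝ) ^ 2) x := by
        intro n hn
        rw [Finset.mem_Ioc] at hn
        have h6 : x < n := (Nat.floor_lt hx0.le).1 hn.1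
        have h7 : (n : ℝ) ≤ x + x * δ := (Nat.le_floor_iff (by positivity)).1 hn.2
        have h8 : (n : ℝ) / (1 + δ) ≤ x := by
          rw [div_le_iff₀ (by positivity)]
          linarith
        rw [indicator_of_mem (show x ∈ Ico ((n : ℝ) / (1 + δ)) n from ⟨h8, h6⟩), div_le_div_iff₀ (by positivity) (by
          have : (0 : ℝ) < n := by linarith
          positivity)]
        have h9 : (n : ℝ) ^ 2 ≤ (x + x * δ) ^ 2 := pow_le_pow_left₀ (by linarith) h7 2
        have h10 : 0 ≤ vonMangoldt n ^ 2 := sq_nonneg _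
        calc vonMangoldt n ^ 2 * (n : ℝ) ^ 2 ≤ vonMangoldt n ^ 2 * (x + x * δ) ^ 2 := by gcongr
          _ = _ := by ring
      rw [Finset.sum_div]
      refine (Finset.sum_le_sum h5).trans ?_
      refine Finset.sum_le_sum_of_subset_of_nonneg ?_ fun n _ _ => indicator_nonneg (fun _ _ => by positivity) x
      intro n hn
      rw [Finset.mem_Ioc] at hn
      rw [hS, Finset.mem_Ioc]
      refine ⟨lt_of_le_of_lt (Nat.floor_mono hx.1.le) hn.1, hn.2.trans (Nat.floor_mono ?_)⟩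
      have : x * δ ≤ x := mul_le_of_le_one_right hx0.le hδ1
      linarith [hx.2]
    rw [hg]
    calc (Chebyshev.psi (x + x * δ) - Chebyshev.psi x - x * δ) ^ 2 / x ^ 2 ≤
          ((Chebyshev.psi (x + x * δ) - Chebyshev.psi x) ^ 2 + (x * δ) ^ 2) / x ^ 2 := by gcongr
      _ = (∑ n ∈ Finset.Ioc ⌊x⌋₊ ⌊x + x * δ⌋₊, vonMangoldt n ^ 2) / x ^ 2 + δ ^ 2 := by
          rw [h1]
          field_simp
      _ ≤ _ := by
          simp only []
          linarith
  calc ∫ x in Ioc y z, (Chebyshev.psi (x + x / T) - Chebyshev.psi x - x / T) ^ 2 / x ^ 2 ≤ ∫ x in Ioc y z, g x := by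
        refine integral_mono_of_nonneg (ae_of_all _ fun x => by simp only [Pi.zero_apply]; positivity) hgi ?_
        exact (ae_restrict_iff' measurableSet_Ioc).2 (Filter.Eventually.of_forall hpt)
    _ = (∑ n ∈ S, ∫ x in Ioc y z, (Ico ((n : ℝ) / (1 + δ)) n).indicator
          (fun _ => vonMangoldt n ^ 2 * (1 + δ) ^ 2 / (n : ℝ) ^ 2) x) + ∫ x in Ioc y z, δ ^ 2 := by
        rw [hg, integral_add (integrable_finsetSum _ fun n _ => hii n) (integrableOn_const measure_Ioc_lt_top.ne),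
          integral_finsetSum _ fun n _ => hii n]
    _ ≤ (∑ n ∈ S, δ * (1 + δ) * (vonMangoldt n ^ 2 / n)) + δ := by
        gcongr with n hn
        · have hn1 := hSn n hn
          have hn0 : (0 : ℝ) < n := by linarith
          calc ∫ x in Ioc y z, (Ico ((n : ℝ) / (1 + δ)) n).indicator
                (fun _ => vonMangoldt n ^ 2 * (1 + δ) ^ 2 / (n : ℝ) ^ 2) x ≤
                ∫ x, (Ico ((n : ℝ) / (1 + δ)) n).indicator (fun _ => vonMangoldt n ^ 2 * (1 + δ) ^ 2 / (n : ℝ) ^ 2) x := by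
                refine setIntegral_le_integral ((integrable_indicator_iff measurableSet_Ico).2
                  (integrableOn_const measure_Ico_lt_top.ne)) (ae_of_all _ fun x => ?_)
                exact indicator_nonneg (fun _ _ => by positivity) x
            _ = (n - n / (1 + δ)) * (vonMangoldt n ^ 2 * (1 + δ) ^ 2 / (n : ℝ) ^ 2) := by
                rw [integral_indicator measurableSet_Ico, setIntegral_const, Real.volume_real_Ico, smul_eq_mul,
                  max_eq_left]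
                rw [sub_nonneg]
                exact div_le_self hn0.le (by linarith)
            _ = δ * (1 + δ) * (vonMangoldt n ^ 2 / n) := by
                field_simp
                ring
        · rw [setIntegral_const, Real.volume_real_Ioc, max_eq_left (by linarith), smul_eq_mul]
          calc (z - y) * δ ^ 2 ≤ z * δ ^ 2 := by gcongr; linarith
            _ = z * δ * δ := by ring
            _ ≤ 1 * δ := by gcongr
            _ = δ := one_mul _
    _ = _ := by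
        rw [← Finset.mul_sum]
        ring

/-- the windows with exponents in `[0, 1]` -/
theorem sw_lim {a b : ℝ} (ha : 0 ≤ a) (hab : a ≤ b) (hb : b ≤ 1) {ε : ℝ} (hε : 0 < ε) :
    ∀ᶠ T in atTop, Mt T a b ≤ (b ^ 2 - a ^ 2) / 2 + ε := by
  have hl1 : Tendsto (fun T : ℝ => 12 * (Real.log T)⁻¹ + 57 * ((Real.log T)⁻¹ * (Real.log T)⁻¹)) atTop (𝓝 0) := by
    have h1 : Tendsto (fun T : ℝ => (Real.log T)⁻¹) atTop (𝓝 0) := tendsto_inv_atTop_zero.comp Real.tendsto_log_atTop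
    simpa using (h1.const_mul 12).add ((h1.mul h1).const_mul 57)
  filter_upwards [hl1.eventually_lt_const hε, eventually_ge_atTop 16] with T h1 hT
  have hT0 : 0 < T := by linarith
  have hT1 : 1 < T := by linarith
  obtain ⟨L, hL⟩ : ∃ L : ℝ, L = Real.log T := ⟨_, rfl⟩
  have hL0 : 0 < L := by rw [hL]; exact Real.log_pos hT1
  have hLT : L ^ 2 ≤ 4 * T := by
    have hs0 : 0 < √T := Real.sqrt_pos.2 hT0
    have h10 : L = 2 * Real.log √T := by
      rw [hL, Real.log_sqrt hT0.le]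
      ring
    have h11 := Real.log_le_sub_one_of_pos hs0
    have h12 : L ≤ 2 * √T := by linarith
    calc L ^ 2 ≤ (2 * √T) ^ 2 := pow_le_pow_left₀ hL0.le h12 2
      _ = 4 * T := by rw [mul_pow, Real.sq_sqrt hT0.le]; norm_num
  have hLT1 : L ≤ T := by
    rw [hL]
    linarith [Real.log_le_sub_one_of_pos hT0]
  have hsw := sw1 hT ha hab hb
  obtain ⟨m, hm⟩ : ∃ m : ℕ, m = ⌊T ^ a⌋₊ := ⟨_, rfl⟩
  obtain ⟨N, hN⟩ : ∃ N : ℕ, N = ⌊2 * T ^ b⌋₊ := ⟨_, rfl⟩
  have hy1 : 1 ≤ T ^ a := Real.one_le_rpow hT1.le ha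
  have hyz : T ^ a ≤ T ^ b := Real.rpow_le_rpow_of_exponent_le hT1.le hab
  have hm1 : 1 ≤ m := by rw [hm]; exact (Nat.one_le_floor_iff _).2 hy1
  have hmN : m ≤ N := by rw [hm, hN]; exact Nat.floor_mono (by linarith)
  have hm1' : (1 : ℝ) ≤ m := by exact_mod_cast hm1
  have hN1' : (1 : ℝ) ≤ N := by exact_mod_cast hm1.trans hmN
  have hlN : Real.log N ≤ b * L + 1 := by
    have h2 : (N : ℝ) ≤ 2 * T ^ b := by rw [hN]; exact Nat.floor_le (by positivity)
    calc Real.log N ≤ Real.log (2 * T ^ b) := Real.log_le_log (by linarith) h2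
      _ = Real.log 2 + b * L := by
          rw [Real.log_mul (by norm_num) (by positivity), Real.log_rpow hT0, hL]
      _ ≤ _ := by have := Real.log_two_lt_d9; linarith
  have hlm : a * L - 1 ≤ Real.log m := by
    have h2 : T ^ a / 2 ≤ m := by
      have := Nat.lt_floor_add_one (T ^ a)
      rw [← hm] at this
      linarith
    calc a * L - 1 ≤ a * L - Real.log 2 := by have := Real.log_two_lt_d9; linarith
      _ = Real.log (T ^ a / 2) := by
          rw [Real.log_div (by positivity) (by norm_num), Real.log_rpow hT0, hL]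
      _ ≤ _ := Real.log_le_log (by positivity) h2
  have hlm0 : 0 ≤ Real.log m := Real.log_nonneg hm1'
  have hlN0 : 0 ≤ Real.log N := Real.log_nonneg hN1'
  have haL : 0 ≤ a * L := by positivity
  have hm2 : (a * L) ^ 2 - 2 * (a * L) ≤ Real.log m ^ 2 := by
    rcases le_total 1 (a * L) with h2 | h2
    · have := pow_le_pow_left₀ (by linarith) hlm 2
      nlinarith
    · nlinarith [sq_nonneg (Real.log m)]
  have hN2 : Real.log N ^ 2 ≤ (b * L + 1) ^ 2 := pow_le_pow_left₀ hlN0 hlN 2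
  have hS := lam_win hm1 hmN
  rw [← hm, ← hN] at hsw
  obtain ⟨S, hSd⟩ : ∃ S : ℝ, S = ∑ n ∈ Finset.Ioc m N, ArithmeticFunction.vonMangoldt n ^ 2 / (n : ℝ) := ⟨_, rfl⟩
  rw [← hSd] at hS hsw
  have hbL : b * L ≤ L := by nlinarith
  have haL1 : a * L ≤ L := by nlinarith [hab.trans hb]
  have hS2 : S ≤ (b ^ 2 - a ^ 2) / 2 * L ^ 2 + 12 * L + 21 := by
    nlinarith
  have hS3 : S / T ≤ 35 := by
    rw [div_le_iff₀ hT0]
    have h3 : (b ^ 2 - a ^ 2) / 2 * L ^ 2 ≤ 1 / 2 * (4 * T) := by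
      have h4 : (b ^ 2 - a ^ 2) / 2 ≤ 1 / 2 := by nlinarith
      have h5 : 0 ≤ L ^ 2 := sq_nonneg L
      calc (b ^ 2 - a ^ 2) / 2 * L ^ 2 ≤ 1 / 2 * L ^ 2 := by gcongr
        _ ≤ _ := by gcongr
    linarith
  have h6 : Mt T a b ≤ 1 / L ^ 2 * ((1 + 1 / T) * S + 1) := by
    unfold Mt
    rw [← hL]
    calc T / L ^ 2 * ∫ x in (T ^ a)..(T ^ b), (Chebyshev.psi (x + x / T) - Chebyshev.psi x - x / T) ^ 2 / x ^ 2 ≤
          T / L ^ 2 * (1 / T * ((1 + 1 / T) * S + 1)) := by gcongr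
      _ = _ := by field_simp
  refine h6.trans ?_
  rw [← hL] at h1
  calc 1 / L ^ 2 * ((1 + 1 / T) * S + 1) = 1 / L ^ 2 * (S + S / T + 1) := by ring
    _ ≤ 1 / L ^ 2 * ((b ^ 2 - a ^ 2) / 2 * L ^ 2 + 12 * L + 21 + 35 + 1) := by gcongr
    _ = (b ^ 2 - a ^ 2) / 2 + (12 * L⁻¹ + 57 * (L⁻¹ * L⁻¹)) := by
        field_simp
        ring
    _ ≤ _ := by linarith

end Pool.Agent.U507.PC
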