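import Pool.Agent.U507.PC.CV
import Pool.Agent.U507.GM.VE

/-!
# The upper bound implies the Riemann hypothesis, intervals of fixed relative length
-/

set_option autoImplicit false

open Complex Filter Topology Set MeasureTheory Metric
open scoped Real ENNReal

namespace Pool.Agent.U507.PC

open Pool.Agent.U507.GM hiding step_low low_pt low_unif rigid

lemma Dd_meas2 : Measurable fun p : ℝ × ℝ => Dd p.1 p.2 := by
  unfold Dd
  exact ((psi_measurable.comp (measurable_fst.add measurable_snd)).sub (psi_measurable.comp measurable_fst)).sub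
    measurable_snd

/-- large second moments from a zero off the line -/
lemma dd_large {θ A : ℝ} (hθ : 1 / 2 < θ) (hz : ∃ s : ℂ, riemannZeta s = 0 ∧ θ < s.re) (hA : 1 ≤ A) :
    ∃ X1 : ℝ, 16 ≤ X1 ∧ ∀ X H : ℝ, X1 ≤ X → 0 < H → H ≤ X ^ (1 - 1 / A) →
      10 * H ^ 2 * X ^ (2 * θ - 1) ≤ ∫ y in X..(X + 1 / 10 * X), Dd y H ^ 2 := by
  have he0 : 0 < 1 / A := by positivity
  have hps := Pool.Agent.R303.SW.psi_short (κ := 0) (c := 1 / 10) (e0 := 1 / A) le_rfl (by norm_num)
    (θ := θ) hθ.le (by nlinarith [sq_nonneg (2 * θ - 1)]) hz he0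
  obtain ⟨X0, hX0⟩ := eventually_atTop.1 hps
  refine ⟨max 16 X0, le_max_left _ _, fun X H hX hHp hHX => ?_⟩
  have hX16 : 16 ≤ X := (le_max_left _ _).trans hX
  have hXX : X0 ≤ X := (le_max_right _ _).trans hX
  have hXp : 0 < X := by linarith
  have h1 := hX0 X hXX H hHp hHX
  rw [Real.rpow_zero, div_one] at h1
  have h1' : H * X ^ θ ≤ ∫ y in X..(X + 1 / 10 * X), |Dd y H| := h1
  obtain ⟨lam, hlam⟩ : ∃ lam : ℝ, lam = 10 * H * X ^ (θ - 1) := ⟨_, rfl⟩
  have hXθ : X ^ (θ - 1) * X = X ^ θ := by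
    nth_rewrite 2 [← Real.rpow_one X]
    rw [← Real.rpow_add hXp]
    congr 1
    ring
  have hXθ0 : 0 < X ^ (θ - 1) := Real.rpow_pos_of_pos hXp _
  have hlam0 : 0 < lam := by rw [hlam]; positivity
  have hle : X ≤ X + 1 / 10 * X := by linarith
  have hii2 := Dd_sq_ii H X (X + 1 / 10 * X)
  have hii1 : IntervalIntegrable (fun y => |Dd y H|) volume X (X + 1 / 10 * X) := by
    have hm : Measurable fun y => Dd y H := by
      unfold Dd
      exact ((psi_measurable.comp (by fun_prop : Measurable fun y : ℝ => y + H)).sub psi_measurable).sub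
        measurable_const
    have hi3 : IntervalIntegrable (fun y => 1 + Dd y H ^ 2) volume X (X + 1 / 10 * X) := (by simp : IntervalIntegrable
      (fun _ => (1 : ℝ)) volume X (X + 1 / 10 * X)).add hii2
    refine hi3.mono_fun hm.norm.aestronglyMeasurable (Filter.Eventually.of_forall fun y => ?_)
    simp only
    rw [Real.norm_eq_abs, abs_abs, Real.norm_eq_abs, abs_of_nonneg (show (0 : ℝ) ≤ 1 + Dd y H ^ 2 by positivity)]
    nlinarith [sq_abs (Dd y H), abs_nonneg (Dd y H), sq_nonneg (|Dd y H| - 1)]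
  have h2 : ∫ y in X..(X + 1 / 10 * X), |Dd y H| ≤ ∫ y in X..(X + 1 / 10 * X), (lam / 2 + 1 / (2 * lam) * Dd y H ^ 2) := by
    refine intervalIntegral.integral_mono_on hle hii1 ((by simp : IntervalIntegrable
      (fun _ => lam / 2) volume X (X + 1 / 10 * X)).add (hii2.const_mul _)) fun y _ => ?_
    have h3 : 0 ≤ 1 / (2 * lam) * (|Dd y H| - lam) ^ 2 := by positivity
    have e : 1 / (2 * lam) * (|Dd y H| - lam) ^ 2 = 1 / (2 * lam) * |Dd y H| ^ 2 - |Dd y H| + lam / 2 := by
      field_simp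
      ring
    rw [e, sq_abs] at h3
    linarith
  rw [intervalIntegral.integral_add (by simp) (hii2.const_mul _), intervalIntegral.integral_const_mul,
    intervalIntegral.integral_const, smul_eq_mul] at h2
  have e2 : (X + 1 / 10 * X - X) * (lam / 2) = H * X ^ θ / 2 := by
    rw [hlam, ← hXθ]
    ring
  rw [e2] at h2
  have h5 : H * X ^ θ / 2 ≤ 1 / (2 * lam) * ∫ y in X..(X + 1 / 10 * X), Dd y H ^ 2 := by linarith
  rw [div_mul_eq_mul_div, one_mul, le_div_iff₀ (by positivity)] at h5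
  have h7 : lam * (H * X ^ θ) = 10 * H ^ 2 * X ^ (2 * θ - 1) := by
    have : X ^ (2 * θ - 1) = X ^ (θ - 1) * X ^ θ := by
      rw [← Real.rpow_add hXp]
      congr 1
      ring
    rw [this, hlam]
    ring
  rw [← h7]
  linarith

/-- change of variables `H = y / t` -/
lemma cv_H {X T y : ℝ} (hX : 0 < X) (hT : 0 < T) (hy1 : X ≤ y) (hy2 : y ≤ X + 1 / 10 * X) (g : ℝ → ℝ≥0∞) :
    ∫⁻ H in Ioc (33 * X / (40 * T)) (X / T), g H ≤
      ∫⁻ t in Icc T (4 * T / 3), ENNReal.ofReal (y / t ^ 2) * g (y / t) := by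
  have hy0 : 0 < y := hX.trans_le hy1
  have hinj : InjOn (fun t : ℝ => y / t) (Icc T (4 * T / 3)) := by
    intro t ht s hs h
    have ht0 : 0 < t := hT.trans_le ht.1
    have hs0 : 0 < s := hT.trans_le hs.1
    simp only at h
    rw [div_eq_div_iff ht0.ne' hs0.ne'] at h
    exact (mul_left_cancel₀ hy0.ne' h).symm
  have hder : ∀ t ∈ Icc T (4 * T / 3), HasDerivWithinAt (fun t : ℝ => y / t) (-(y / t ^ 2)) (Icc T (4 * T / 3)) t := by
    intro t ht
    have ht0 : 0 < t := hT.trans_le ht.1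
    have h1 := (hasDerivAt_inv ht0.ne').const_mul y
    have h2 : HasDerivAt (fun t : ℝ => y / t) (-(y / t ^ 2)) t := by
      refine (h1.congr_deriv (by ring)).congr_of_eventuallyEq (Filter.Eventually.of_forall fun s => ?_)
      simp only
      rw [div_eq_mul_inv]
    exact h2.hasDerivWithinAt
  have h := lintegral_image_eq_lintegral_abs_deriv_mul measurableSet_Icc hder hinj g
  have h1 : ∫⁻ t in Icc T (4 * T / 3), ENNReal.ofReal |-(y / t ^ 2)| * g (y / t) =
      ∫⁻ t in Icc T (4 * T / 3), ENNReal.ofReal (y / t ^ 2) * g (y / t) := by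
    refine lintegral_congr fun t => ?_
    rw [abs_neg, abs_of_nonneg (by positivity)]
  rw [← h1, ← h]
  apply lintegral_mono_set
  intro H hH
  have hH0 : 0 < H := lt_trans (by positivity) hH.1
  refine ⟨y / H, ⟨?_, ?_⟩, ?_⟩
  · rw [le_div_iff₀ hH0]
    have := hH.2
    rw [le_div_iff₀ hT] at this
    linarith
  · rw [div_le_iff₀ hH0]
    have := hH.1
    rw [div_lt_iff₀ (by positivity)] at this
    linarith
  · simp only
    field_simp

lemma D_int {T p q : ℝ} (hT : 1 ≤ T) (hp : 1 ≤ p) :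
    IntegrableOn (fun x => Dd x (x / T) ^ 2 / x ^ 2) (Ioc p q) := by
  have hm : Measurable fun x : ℝ => Dd x (x / T) ^ 2 / x ^ 2 :=
    ((Dd_meas2.comp (measurable_id.prodMk (measurable_id.div_const T))).pow_const 2).div (by fun_prop)
  refine Measure.integrableOn_of_bounded (M := (Chebyshev.psi (2 * q) + q) ^ 2) (by simp) hm.aestronglyMeasurable ?_
  refine (ae_restrict_iff' measurableSet_Ioc).2 (Filter.Eventually.of_forall fun x hx => ?_)
  have hx1 : 1 < x := lt_of_le_of_lt hp hx.1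
  have hx0 : 0 < x := by linarith
  have hxT : x / T ≤ x := div_le_self hx0.le hT
  have hxT0 : 0 ≤ x / T := by positivity
  rw [Real.norm_eq_abs, abs_of_nonneg (by positivity)]
  have h1 := Dd_abs_le (x := x) hxT0 (M := 2 * q) (by linarith [hx.2])
  have h2 : |Dd x (x / T)| ≤ Chebyshev.psi (2 * q) + q := by linarith [hx.2]
  calc Dd x (x / T) ^ 2 / x ^ 2 ≤ Dd x (x / T) ^ 2 / 1 := by
        apply div_le_div_of_nonneg_left (sq_nonneg _) one_pos
        nlinarith
    _ = |Dd x (x / T)| ^ 2 := by rw [div_one, sq_abs]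
    _ ≤ _ := pow_le_pow_left₀ (abs_nonneg _) h2 2

/-- **bounded means imply the Riemann hypothesis** -/
theorem rh_of_M (h : ∀ a : ℝ, 1 ≤ a → ∃ K : ℝ, ∀ᶠ T in atTop, Mt T a (a + 1) ≤ K) : RiemannHypothesis := by
  by_contra hcon
  rw [Pool.Agent.W190.rh_free] at hcon
  push Not at hcon
  obtain ⟨s, hs1, hs0⟩ := hcon
  have hs2 : s.re < 1 := by
    by_contra h1
    exact riemannZeta_ne_zero_of_one_le_re (not_lt.1 h1) hs0
  obtain ⟨θ, hθ⟩ : ∃ θ : ℝ, θ = (1 / 2 + s.re) / 2 := ⟨_, rfl⟩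
  have hθ1 : 1 / 2 < θ := by rw [hθ]; linarith
  have hθ2 : θ < s.re := by rw [hθ]; linarith
  have hθ3 : 0 < 2 * θ - 1 := by linarith
  obtain ⟨a, ha⟩ : ∃ a : ℝ, a = 2 / (2 * θ - 1) := ⟨_, rfl⟩
  have ha2 : 2 ≤ a := by
    rw [ha, le_div_iff₀ hθ3]
    linarith
  obtain ⟨X1, hX1, hlarge⟩ := dd_large (A := a + 1 / 2) hθ1 ⟨s, hs0, hθ2⟩ (by linarith)
  obtain ⟨K, h1⟩ := h a (by linarith)
  obtain ⟨T0, hT0⟩ := eventually_atTop.1 h1
  -- choice of `T`
  have hgrow : Tendsto (fun T : ℝ => Real.log T ^ 2 / T) atTop (𝓝 0) := by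
    have := (isLittleO_log_rpow_atTop (r := 1 / 2) (by norm_num)).tendsto_div_nhds_zero
    have h2 := this.pow 2
    rw [zero_pow (by norm_num)] at h2
    refine h2.congr' ?_
    filter_upwards [eventually_gt_atTop 0] with T hT
    rw [div_pow, ← Real.rpow_natCast (T ^ (1 / 2 : ℝ)), ← Real.rpow_mul hT.le]
    norm_num
  have hg2 := (hgrow.const_mul (2 * (|K| + 1))).eventually_lt_const (show 2 * (|K| + 1) * 0 < 1 by norm_num)
  have hg3 := (tendsto_rpow_atTop (show (0 : ℝ) < 1 / 2 by norm_num)).eventually_ge_atTop ((4 / 3) ^ a)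
  obtain ⟨T, ⟨hTa, hTb⟩, hTc⟩ := ((hg2.and hg3).and (eventually_ge_atTop (max T0 (max X1 16)))).exists
  have hTT0 : T0 ≤ T := (le_max_left _ _).trans hTc
  have hTX1 : X1 ≤ T := (le_max_left _ _).trans ((le_max_right _ _).trans hTc)
  have hT16 : 16 ≤ T := (le_max_right _ _).trans ((le_max_right _ _).trans hTc)
  have hTp : 0 < T := by linarith
  have hlog : 0 < Real.log T := Real.log_pos (by linarith)
  obtain ⟨X, hX⟩ : ∃ X : ℝ, X = T ^ (a + 1 / 2) := ⟨_, rfl⟩
  have hTX : T ≤ X := by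
    rw [hX]
    calc T = T ^ (1 : ℝ) := (Real.rpow_one T).symm
      _ ≤ T ^ (a + 1 / 2) := Real.rpow_le_rpow_of_exponent_le (by linarith) (by linarith)
  have hXp : 0 < X := by linarith
  have hHX : X / T = X ^ (1 - 1 / (a + 1 / 2)) := by
    rw [Real.rpow_sub hXp, Real.rpow_one]
    congr 1
    rw [hX, ← Real.rpow_mul hTp.le, mul_one_div_cancel (by linarith), Real.rpow_one]
  have hXθ : T ^ 2 ≤ X ^ (2 * θ - 1) := by
    rw [hX, ← Real.rpow_mul hTp.le, ← Real.rpow_natCast]
    apply Real.rpow_le_rpow_of_exponent_le (by linarith)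
    have : a * (2 * θ - 1) = 2 := by rw [ha]; field_simp
    push_cast
    nlinarith
  -- the double integral
  obtain ⟨Lw, hLw⟩ : ∃ Lw : ℝ≥0∞, Lw = ∫⁻ H in Ioc (33 * X / (40 * T)) (X / T),
      ∫⁻ y in Ioc X (X + 1 / 10 * X), ENNReal.ofReal (Dd y H ^ 2) := ⟨_, rfl⟩
  have hlow : ENNReal.ofReal ((X / T) ^ 3 * X ^ (2 * θ - 1)) ≤ Lw := by
    have h2 : ∀ H ∈ Ioc (33 * X / (40 * T)) (X / T), ENNReal.ofReal (10 * (33 * X / (40 * T)) ^ 2 * X ^ (2 * θ - 1)) ≤
        ∫⁻ y in Ioc X (X + 1 / 10 * X), ENNReal.ofReal (Dd y H ^ 2) := by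
      intro H hH
      have hH0 : 0 < H := lt_trans (by positivity) hH.1
      have h3 := hlarge X H (hTX1.trans hTX) hH0 (by rw [← hHX]; exact hH.2)
      have h4 := Dd_sq_ii H X (X + 1 / 10 * X)
      rw [intervalIntegrable_iff, uIoc_of_le (by linarith)] at h4
      rw [intervalIntegral.integral_of_le (by linarith)] at h3
      rw [← ofReal_integral_eq_lintegral_ofReal h4 (ae_of_all _ fun y => sq_nonneg _)]
      apply ENNReal.ofReal_le_ofReal
      refine le_trans ?_ h3
      have := hH.1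
      gcongr
    calc ENNReal.ofReal ((X / T) ^ 3 * X ^ (2 * θ - 1)) ≤
          ENNReal.ofReal (10 * (33 * X / (40 * T)) ^ 2 * X ^ (2 * θ - 1)) * volume (Ioc (33 * X / (40 * T)) (X / T)) := by
          rw [Real.volume_Ioc, ← ENNReal.ofReal_mul (by positivity)]
          apply ENNReal.ofReal_le_ofReal
          have e : 10 * (33 * X / (40 * T)) ^ 2 * X ^ (2 * θ - 1) * (X / T - 33 * X / (40 * T)) =
              (10 * (33 / 40) ^ 2 * (7 / 40)) * ((X / T) ^ 3 * X ^ (2 * θ - 1)) := by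
            field_simp
            ring
          rw [e]
          apply le_mul_of_one_le_left (by positivity)
          norm_num
      _ = ∫⁻ H in Ioc (33 * X / (40 * T)) (X / T), ENNReal.ofReal (10 * (33 * X / (40 * T)) ^ 2 * X ^ (2 * θ - 1)) := by
          rw [setLIntegral_const]
      _ ≤ _ := by
          rw [hLw]
          exact setLIntegral_mono' measurableSet_Ioc h2
  have hup : Lw ≤ ENNReal.ofReal (T / 3 * (2 * X ^ 3 / T ^ 2 * (Real.log (4 * T / 3) ^ 2 / T * |K|))) := by
    have hmeas : Measurable fun p : ℝ × ℝ => ENNReal.ofReal (Dd p.2 p.1 ^ 2) :=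
      ((Dd_meas2.comp measurable_swap).pow_const 2).ennreal_ofReal
    rw [hLw, lintegral_lintegral_swap hmeas.aemeasurable]
    have hm2 : Measurable fun p : ℝ × ℝ => ENNReal.ofReal (p.1 / p.2 ^ 2) * ENNReal.ofReal (Dd p.1 (p.1 / p.2) ^ 2) :=
      (by fun_prop : Measurable fun p : ℝ × ℝ => p.1 / p.2 ^ 2).ennreal_ofReal.mul
        ((Dd_meas2.comp (measurable_fst.prodMk (measurable_fst.div measurable_snd))).pow_const 2).ennreal_ofReal
    calc ∫⁻ y in Ioc X (X + 1 / 10 * X), ∫⁻ H in Ioc (33 * X / (40 * T)) (X / T), ENNReal.ofReal (Dd y H ^ 2) ≤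
          ∫⁻ y in Ioc X (X + 1 / 10 * X), ∫⁻ t in Icc T (4 * T / 3),
            ENNReal.ofReal (y / t ^ 2) * ENNReal.ofReal (Dd y (y / t) ^ 2) :=
          setLIntegral_mono' measurableSet_Ioc fun y hy => cv_H hXp hTp hy.1.le hy.2 (fun H => ENNReal.ofReal (Dd y H ^ 2))
      _ = ∫⁻ t in Icc T (4 * T / 3), ∫⁻ y in Ioc X (X + 1 / 10 * X),
            ENNReal.ofReal (y / t ^ 2) * ENNReal.ofReal (Dd y (y / t) ^ 2) :=
          lintegral_lintegral_swap hm2.aemeasurable
      _ ≤ ∫⁻ t in Icc T (4 * T / 3), ENNReal.ofReal (2 * X ^ 3 / T ^ 2 * (Real.log (4 * T / 3) ^ 2 / T * |K|)) := by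
          refine setLIntegral_mono' measurableSet_Icc fun t ht => ?_
          have ht0 : 0 < t := hTp.trans_le ht.1
          have ht1 : 1 < t := by linarith [ht.1]
          have htT0 : T0 ≤ t := hTT0.trans ht.1
          have hlt : 0 < Real.log t := Real.log_pos ht1
          have q1 : t ^ a ≤ X := by
            calc t ^ a ≤ (4 * T / 3) ^ a := Real.rpow_le_rpow ht0.le ht.2 (by linarith)
              _ = (4 / 3) ^ a * T ^ a := by
                  rw [← Real.mul_rpow (by norm_num) hTp.le]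
                  congr 1
                  ring
              _ ≤ T ^ ((1 : ℝ) / 2) * T ^ a := by gcongr
              _ = X := by
                  rw [hX, ← Real.rpow_add hTp]
                  congr 1
                  ring
          have q2 : X + 1 / 10 * X ≤ t ^ (a + 1) := by
            have e : T ^ (a + 1) = X * T ^ ((1 : ℝ) / 2) := by
              rw [hX, ← Real.rpow_add hTp]
              congr 1
              ring
            have e2 : (2 : ℝ) ≤ T ^ ((1 : ℝ) / 2) := by
              rw [← Real.sqrt_eq_rpow]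
              exact Real.le_sqrt_of_sq_le (by linarith)
            calc X + 1 / 10 * X ≤ X * 2 := by linarith
              _ ≤ X * T ^ ((1 : ℝ) / 2) := by gcongr
              _ = T ^ (a + 1) := e.symm
              _ ≤ t ^ (a + 1) := Real.rpow_le_rpow hTp.le ht.1 (by linarith)
          have q3 : 1 ≤ t ^ a := Real.one_le_rpow ht1.le (by linarith)
          have hsub : Ioc X (X + 1 / 10 * X) ⊆ Ioc (t ^ a) (t ^ (a + 1)) := fun y hy => ⟨lt_of_le_of_lt q1 hy.1, hy.2.trans q2⟩
          have hle : t ^ a ≤ t ^ (a + 1) := Real.rpow_le_rpow_of_exponent_le ht1.le (by linarith)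
          have hM := hT0 t htT0
          unfold Mt at hM
          rw [intervalIntegral.integral_of_le hle] at hM
          have hM2 : ∫ x in Ioc (t ^ a) (t ^ (a + 1)), Dd x (x / t) ^ 2 / x ^ 2 ≤ Real.log (4 * T / 3) ^ 2 / T * |K| := by
            have h5 : t / Real.log t ^ 2 * ∫ x in Ioc (t ^ a) (t ^ (a + 1)), Dd x (x / t) ^ 2 / x ^ 2 ≤ |K| :=
              hM.trans (le_abs_self K)
            rw [div_mul_eq_mul_div, div_le_iff₀ (by positivity)] at h5
            have h6 : ∫ x in Ioc (t ^ a) (t ^ (a + 1)), Dd x (x / t) ^ 2 / x ^ 2 ≤ |K| * Real.log t ^ 2 / t := by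
              rw [le_div_iff₀ ht0]
              linarith
            refine h6.trans ?_
            have h7 : Real.log t ≤ Real.log (4 * T / 3) := Real.log_le_log ht0 ht.2
            calc |K| * Real.log t ^ 2 / t = Real.log t ^ 2 / t * |K| := by ring
              _ ≤ _ := by
                  have := ht.1
                  gcongr
          calc ∫⁻ y in Ioc X (X + 1 / 10 * X), ENNReal.ofReal (y / t ^ 2) * ENNReal.ofReal (Dd y (y / t) ^ 2) ≤
                ∫⁻ y in Ioc X (X + 1 / 10 * X), ENNReal.ofReal (2 * X ^ 3 / T ^ 2) * ENNReal.ofReal (Dd y (y / t) ^ 2 / y ^ 2) := by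
                refine setLIntegral_mono' measurableSet_Ioc fun y hy => ?_
                have hy0 : 0 < y := hXp.trans hy.1
                rw [← ENNReal.ofReal_mul (by positivity), ← ENNReal.ofReal_mul (by positivity)]
                apply ENNReal.ofReal_le_ofReal
                have h8 : y ^ 3 ≤ 2 * X ^ 3 := by
                  have h9 : y ^ 3 ≤ (X + 1 / 10 * X) ^ 3 := pow_le_pow_left₀ hy0.le hy.2 3
                  have h10 : (X + 1 / 10 * X) ^ 3 = (11 / 10) ^ 3 * X ^ 3 := by ring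
                  rw [h10] at h9
                  refine h9.trans ?_
                  gcongr
                  norm_num
                have h9 : y ^ 3 / t ^ 2 ≤ 2 * X ^ 3 / T ^ 2 := by
                  have := ht.1
                  gcongr
                calc y / t ^ 2 * Dd y (y / t) ^ 2 = y ^ 3 / t ^ 2 * (Dd y (y / t) ^ 2 / y ^ 2) := by
                      field_simp
                  _ ≤ _ := by gcongr
            _ = ENNReal.ofReal (2 * X ^ 3 / T ^ 2) * ∫⁻ y in Ioc X (X + 1 / 10 * X), ENNReal.ofReal (Dd y (y / t) ^ 2 / y ^ 2) := by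
                rw [lintegral_const_mul]
                exact (((Dd_meas2.comp (measurable_id.prodMk (measurable_id.div_const t))).pow_const 2).div
                  (by fun_prop)).ennreal_ofReal
            _ ≤ ENNReal.ofReal (2 * X ^ 3 / T ^ 2) * ∫⁻ y in Ioc (t ^ a) (t ^ (a + 1)), ENNReal.ofReal (Dd y (y / t) ^ 2 / y ^ 2) := by
                gcongr
            _ = ENNReal.ofReal (2 * X ^ 3 / T ^ 2) * ENNReal.ofReal (∫ y in Ioc (t ^ a) (t ^ (a + 1)), Dd y (y / t) ^ 2 / y ^ 2) := by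
                rw [ofReal_integral_eq_lintegral_ofReal (D_int ht1.le q3) (ae_of_all _ fun y => by positivity)]
            _ ≤ ENNReal.ofReal (2 * X ^ 3 / T ^ 2) * ENNReal.ofReal (Real.log (4 * T / 3) ^ 2 / T * |K|) := by
                gcongr
            _ = _ := by rw [← ENNReal.ofReal_mul (by positivity)]
      _ = _ := by
          rw [setLIntegral_const, Real.volume_Icc, ← ENNReal.ofReal_mul (by positivity)]
          congr 1
          ring
  have hfin := hlow.trans hup
  rw [ENNReal.ofReal_le_ofReal_iff (by positivity)] at hfin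
  have hl43 : Real.log (4 * T / 3) ≤ 3 / 2 * Real.log T := by
    have h2 : Real.log (4 * T / 3) = Real.log (4 / 3) + Real.log T := by
      rw [← Real.log_mul (by norm_num) hTp.ne']
      congr 1
      ring
    have h3 : Real.log (4 / 3) ≤ 1 / 3 := by
      have := Real.log_le_sub_one_of_pos (x := 4 / 3) (by norm_num)
      linarith
    have h4 : 1 ≤ Real.log T := by
      rw [Real.le_log_iff_exp_le hTp]
      have := Real.exp_one_lt_d9
      linarith
    linarith
  have hl43' : 0 ≤ Real.log (4 * T / 3) := Real.log_nonneg (by linarith)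
  have h5 : Real.log (4 * T / 3) ^ 2 ≤ 9 / 4 * Real.log T ^ 2 := by
    calc Real.log (4 * T / 3) ^ 2 ≤ (3 / 2 * Real.log T) ^ 2 := pow_le_pow_left₀ hl43' hl43 2
      _ = _ := by ring
  have h6 : (X / T) ^ 3 * T ^ 2 ≤ T / 3 * (2 * X ^ 3 / T ^ 2 * (9 / 4 * Real.log T ^ 2 / T * |K|)) := by
    calc (X / T) ^ 3 * T ^ 2 ≤ (X / T) ^ 3 * X ^ (2 * θ - 1) := by gcongr
      _ ≤ _ := hfin
      _ ≤ _ := by gcongr
  have e1 : (X / T) ^ 3 * T ^ 2 = (X ^ 3 / T ^ 2) * T := by field_simp
  have e2 : T / 3 * (2 * X ^ 3 / T ^ 2 * (9 / 4 * Real.log T ^ 2 / T * |K|)) =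
      (X ^ 3 / T ^ 2) * (3 / 2 * |K| * Real.log T ^ 2) := by field_simp; ring
  rw [e1, e2] at h6
  have h7 : T ≤ 3 / 2 * |K| * Real.log T ^ 2 := le_of_mul_le_mul_left h6 (by positivity)
  rw [mul_div_assoc'] at hTa
  rw [div_lt_one hTp] at hTa
  have hK := abs_nonneg K
  nlinarith [sq_nonneg (Real.log T)]

end Pool.Agent.U507.PC
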