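import Pool.Agent.U507.PC.VS

/-!
# The limit of the weighted mean squares
-/

set_option autoImplicit false

open Complex Filter Topology Set MeasureTheory Metric
open scoped Real

namespace Pool.Agent.U507.PC

open Pool.Agent.U507.GM hiding step_low low_pt low_unif rigid

/-- the limit of the Laplace transforms -/
noncomputable def sg (c : ℝ) : ℝ := (1 - Real.exp (-c)) / c ^ 2

lemma sg_eq {c : ℝ} (hc : 0 < c) : ∫ α in Ioi 0, Real.exp (-c * α) * min α 1 = sg c := (lap_min hc).2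

lemma sg_cont {c : ℝ} (hc : 0 < c) : ContinuousAt sg c := by
  unfold sg
  have : c ^ 2 ≠ 0 := by positivity
  fun_prop (disch := assumption)

lemma mono_lim {J : ℝ → ℝ → ℝ} {c : ℝ} (hc : 0 < c)
    (hJ : ∀ c' : ℝ, 0 < c' → Tendsto (fun T => J T c') atTop (𝓝 (sg c')))
    (hanti : ∀ᶠ T in atTop, ∀ a b : ℝ, c / 2 ≤ a → a ≤ b → b ≤ 2 * c → J T b ≤ J T a)
    {l : Filter ℝ} {u v : ℝ → ℝ} (hu : Tendsto u l atTop) (hv : Tendsto v l (𝓝 c)) :
    Tendsto (fun x => J (u x) (v x)) l (𝓝 (sg c)) := by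
  rw [Metric.tendsto_nhds]
  intro ε hε
  obtain ⟨κ, hκ0, hκ⟩ := Metric.continuousAt_iff.1 (sg_cont hc) (ε / 2) (by linarith)
  obtain ⟨k, hk⟩ : ∃ k : ℝ, k = min (κ / 2) (c / 2) := ⟨_, rfl⟩
  have hk0 : 0 < k := by rw [hk]; exact lt_min (by linarith) (by linarith)
  have hk1 : k ≤ κ / 2 := by rw [hk]; exact min_le_left _ _
  have hk2 : k ≤ c / 2 := by rw [hk]; exact min_le_right _ _
  have h1 := (hJ (c + k) (by linarith)).comp hu
  have h2 := (hJ (c - k) (by linarith)).comp hu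
  have s1 : dist (sg (c + k)) (sg c) < ε / 2 := by
    apply hκ
    rw [Real.dist_eq, show c + k - c = k by ring, abs_of_pos hk0]
    linarith
  have s2 : dist (sg (c - k)) (sg c) < ε / 2 := by
    apply hκ
    rw [Real.dist_eq, show c - k - c = -k by ring, abs_neg, abs_of_pos hk0]
    linarith
  rw [Real.dist_eq, abs_lt] at s1 s2
  filter_upwards [hu.eventually hanti, h1.eventually (Metric.ball_mem_nhds _ (show 0 < ε / 2 by linarith)),
    h2.eventually (Metric.ball_mem_nhds _ (show 0 < ε / 2 by linarith)), hv.eventually (Metric.ball_mem_nhds _ hk0)]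
    with x k1 k2 k3 k4
  rw [Real.dist_eq, abs_lt] at k2 k3 k4
  simp only [Function.comp_apply] at k2 k3
  have m1 := k1 (c - k) (v x) (by linarith) (by linarith [k4.1]) (by linarith [k4.2])
  have m2 := k1 (v x) (c + k) (by linarith [k4.1]) (by linarith [k4.2]) (by linarith)
  rw [Real.dist_eq, abs_lt]
  constructor <;> linarith [k2.1, k2.2, k3.1, k3.2, s1.1, s1.2, s2.1, s2.2]

/-- **the limit of the weighted mean squares** -/
theorem Q_lim (hRH : RiemannHypothesis)
    (h : ∀ b : ℝ, 0 ≤ b → Tendsto (fun T => Ph (vs T) b) atTop (𝓝 (mp b))) {c s : ℝ} (hc : 0 < c) (hs : 0 < s) :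
    Tendsto (fun T => T / Real.log T ^ 2 * Qf (c / (2 * Real.log T)) (s / T)) atTop
      (𝓝 (π / 2 * (sg c + 1 / 2) * s)) := by
  -- the auxiliary height
  obtain ⟨U, hU⟩ : ∃ U : ℝ → ℝ, U = fun T => 1 / (Real.exp (s / T) - 1) := ⟨_, rfl⟩
  obtain ⟨r, hr⟩ : ∃ r : ℝ → ℝ, r = fun T => T * (Real.exp (s / T) - 1) := ⟨_, rfl⟩
  have hrlim : Tendsto r atTop (𝓝 s) := by
    rw [tendsto_iff_norm_sub_tendsto_zero]
    refine squeeze_zero' (Eventually.of_forall fun v => norm_nonneg _) ?_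
      (tendsto_const_nhds.div_atTop tendsto_id : Tendsto (fun T : ℝ => s ^ 2 / T) atTop (𝓝 0))
    filter_upwards [eventually_ge_atTop (max 1 s)] with T hT
    have hT1 : 1 ≤ T := (le_max_left _ _).trans hT
    have hT2 : s ≤ T := (le_max_right _ _).trans hT
    have hT0 : 0 < T := by linarith
    have h1 := Real.abs_exp_sub_one_sub_id_le (x := s / T) (by
      rw [abs_of_pos (by positivity), div_le_one hT0]
      exact hT2)
    rw [hr, Real.norm_eq_abs]
    have e : T * (Real.exp (s / T) - 1) - s = T * (Real.exp (s / T) - 1 - s / T) := by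
      field_simp
    rw [e, abs_mul, abs_of_pos hT0]
    calc T * |Real.exp (s / T) - 1 - s / T| ≤ T * (s / T) ^ 2 := by gcongr
      _ = s ^ 2 / T := by field_simp
  have hrpos : ∀ᶠ T in atTop, 0 < r T := hrlim.eventually (lt_mem_nhds hs)
  have hUr : ∀ᶠ T : ℝ in atTop, U T = T / r T := by
    filter_upwards [eventually_gt_atTop (0 : ℝ)] with T hT
    rw [hU, hr]
    simp only
    rw [div_mul_eq_div_div_swap]
    field_simp
  have hUlim : Tendsto U atTop atTop := by
    refine Tendsto.congr' (f₁ := fun T => T * (r T)⁻¹) ?_ (tendsto_id.atTop_mul_pos (inv_pos.2 hs) (hrlim.inv₀ hs.ne'))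
    filter_upwards [hUr] with T hT
    rw [hT, div_eq_mul_inv]
  have hlogr : Tendsto (fun T => Real.log (r T)) atTop (𝓝 (Real.log s)) :=
    (Real.continuousAt_log hs.ne').tendsto.comp hrlim
  have hlogU : ∀ᶠ T : ℝ in atTop, Real.log (U T) = Real.log T - Real.log (r T) := by
    filter_upwards [hUr, hrpos, eventually_gt_atTop (0 : ℝ)] with T h1 h2 h3
    rw [h1, Real.log_div h3.ne' h2.ne']
  have hq : Tendsto (fun T => Real.log (U T) / Real.log T) atTop (𝓝 1) := by
    have h1 : Tendsto (fun T => Real.log (r T) / Real.log T) atTop (𝓝 0) :=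
      hlogr.div_atTop Real.tendsto_log_atTop
    have h2 := (tendsto_const_nhds (x := (1 : ℝ))).sub h1
    rw [sub_zero] at h2
    refine h2.congr' ?_
    filter_upwards [hlogU, eventually_gt_atTop (1 : ℝ)] with T h3 h4
    rw [h3]
    have : 0 < Real.log T := Real.log_pos h4
    field_simp
  -- the Laplace transforms
  obtain ⟨J, hJd⟩ : ∃ J : ℝ → ℝ → ℝ, J = fun T c => ∫ α in Ioi 0, Real.exp (-c * α) * vs T α := ⟨_, rfl⟩
  have hJ : ∀ c' : ℝ, 0 < c' → Tendsto (fun T => J T c') atTop (𝓝 (sg c')) := by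
    intro c' hc'
    rw [hJd, ← sg_eq hc']
    exact vs_lap_lim hRH h hc'
  have hanti : ∀ᶠ T in atTop, ∀ a b : ℝ, c / 2 ≤ a → a ≤ b → b ≤ 2 * c → J T b ≤ J T a := by
    filter_upwards [eventually_ge_atTop (max 16 (Real.exp (2 * c)))] with T hT a b ha hab hb
    have hT16 : 16 ≤ T := (le_max_left _ _).trans hT
    have hTe : Real.exp (2 * c) ≤ T := (le_max_right _ _).trans hT
    have hLL : 2 * c ≤ Real.log T := by rwa [Real.le_log_iff_exp_le (by linarith)]
    rw [hJd]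
    refine setIntegral_mono_on (vs_lap hRH hT16 (by linarith) (by linarith)).1
      (vs_lap hRH hT16 (by linarith) (by linarith)).1 measurableSet_Ioi fun α hα => ?_
    have h0 : (0 : ℝ) < α := hα
    have h1 : Real.exp (-b * α) ≤ Real.exp (-a * α) := by
      apply Real.exp_le_exp.2
      nlinarith
    exact mul_le_mul_of_nonneg_right h1 (vs_nonneg (by linarith) α)
  have hv : Tendsto (fun T => c * (Real.log (U T) / Real.log T)) atTop (𝓝 c) := by
    have := hq.const_mul c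
    rwa [mul_one] at this
  have hJlim := mono_lim hc hJ hanti hUlim hv
  -- the limit of the main term
  have hmain : Tendsto (fun T => (Real.log (U T) / Real.log T) ^ 2 * (π / 2 * (r T * J (U T)
      (c * (Real.log (U T) / Real.log T))) + π / 4 * s)) atTop (𝓝 (1 ^ 2 * (π / 2 * (s * sg c) + π / 4 * s))) :=
    (hq.pow 2).mul (((hrlim.mul hJlim).const_mul _).add tendsto_const_nhds)
  have e0 : (1 : ℝ) ^ 2 * (π / 2 * (s * sg c) + π / 4 * s) = π / 2 * (sg c + 1 / 2) * s := by ring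
  rw [e0] at hmain
  -- comparison
  rw [Metric.tendsto_nhds]
  intro ε hε
  obtain ⟨ε1, hε1⟩ : ∃ ε1 : ℝ, ε1 = min 1 (ε / (8 * s)) := ⟨_, rfl⟩
  have hε10 : 0 < ε1 := by rw [hε1]; exact lt_min one_pos (by positivity)
  have hε11 : ε1 ≤ 1 := by rw [hε1]; exact min_le_left _ _
  have hε12 : ε1 * s ≤ ε / 8 := by
    have : ε1 ≤ ε / (8 * s) := by rw [hε1]; exact min_le_right _ _
    rw [le_div_iff₀ (by positivity)] at this
    linarith
  obtain ⟨L0, hL0, hts⟩ := ts_lim hRH (c1 := c / 4) (c2 := c) (by linarith) hε10 hε11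
  have hLU : ∀ᶠ T in atTop, max L0 (2 * c) ≤ Real.log (U T) :=
    (Real.tendsto_log_atTop.comp hUlim).eventually_ge_atTop _
  filter_upwards [hmain.eventually (Metric.ball_mem_nhds _ (show 0 < ε / 2 by linarith)), hUr, hrpos, hLU,
    hq.eventually (lt_mem_nhds (show (1 / 2 : ℝ) < 1 by norm_num)), hq.eventually (gt_mem_nhds (show (1 : ℝ) < 2 by norm_num)),
    eventually_gt_atTop (1 : ℝ), hUlim.eventually_ge_atTop 16] with T k1 k2 k3 k4 k5 k6 k7 k8
  have hT0 : 0 < T := by linarith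
  have hU0 : 0 < U T := by linarith
  have hδ : 0 < s / T := by positivity
  have hdl : dl (U T) 1 = s / T := by
    unfold dl
    rw [hU]
    simp only
    have h1 : 0 < Real.exp (s / T) - 1 := by
      have := Real.add_one_lt_exp (x := s / T) hδ.ne'
      linarith
    rw [one_mul, one_div_one_div, add_sub_cancel, Real.log_exp]
  obtain ⟨-, -, -, d4⟩ := dl1 k8
  rw [hdl] at d4
  obtain ⟨L, hL⟩ : ∃ L : ℝ, L = Real.log T := ⟨_, rfl⟩
  obtain ⟨L', hL'⟩ : ∃ L' : ℝ, L' = Real.log (U T) := ⟨_, rfl⟩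
  rw [← hL, ← hL'] at k1 k5 k6
  rw [← hL'] at d4 k4
  rw [← hL]
  have hLp : 0 < L := by rw [hL]; exact Real.log_pos k7
  have hL'0 : L0 ≤ L' := (le_max_left _ _).trans k4
  have hL'c : 2 * c ≤ L' := (le_max_right _ _).trans k4
  have hL'p : 0 < L' := by linarith
  have hη1 : c / 4 ≤ c / (2 * L) * L' := by
    have : c / (2 * L) * L' = c / 2 * (L' / L) := by field_simp
    rw [this]
    nlinarith
  have hη2 : c / (2 * L) * L' ≤ c := by
    have : c / (2 * L) * L' = c / 2 * (L' / L) := by field_simp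
    rw [this]
    nlinarith
  have h1 := hts L' (s / T) (c / (2 * L)) hL'0 hδ d4 hη1 hη2
  have hJe : J (U T) (c * (L' / L)) = U T / L' ^ 2 * Wv (c / (2 * L)) (s / T) := by
    rw [hJd]
    simp only
    have h2 : c * (L' / L) ≤ Real.log (U T) := by
      rw [← hL']
      nlinarith
    rw [(vs_lap hRH k8 (by positivity) h2).2, hdl, ← hL']
    congr 2
    field_simp
  obtain ⟨W, hW⟩ : ∃ W : ℝ, W = Wv (c / (2 * L)) (s / T) := ⟨_, rfl⟩
  obtain ⟨Q, hQ⟩ : ∃ Q : ℝ, Q = Qf (c / (2 * L)) (s / T) := ⟨_, rfl⟩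
  rw [← hW] at hJe h1
  rw [← hQ] at h1 ⊢
  rw [Real.dist_eq, hJe] at k1
  have e1 : (L' / L) ^ 2 * (π / 2 * (r T * (U T / L' ^ 2 * W)) + π / 4 * s) =
      T / L ^ 2 * (π / 2 * W + π / 4 * (s / T * L' ^ 2)) := by
    have h2 : r T * U T = T := by rw [k2]; field_simp
    have h3 : (L' / L) ^ 2 * (π / 2 * (r T * (U T / L' ^ 2 * W)) + π / 4 * s) =
        (π / 2 * ((r T * U T) * W) + π / 4 * s * L' ^ 2) / L ^ 2 := by
      field_simp
    rw [h3, h2]
    field_simp
  rw [e1] at k1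
  have h4 : |T / L ^ 2 * Q - T / L ^ 2 * (π / 2 * W + π / 4 * (s / T * L' ^ 2))| ≤ ε / 2 := by
    have e2 : T / L ^ 2 * Q - T / L ^ 2 * (π / 2 * W + π / 4 * (s / T * L' ^ 2)) =
        -(T / L ^ 2 * (π / 2 * W - (Q - π / 4 * (s / T * L' ^ 2)))) := by ring
    rw [e2, abs_neg, abs_mul, abs_of_pos (by positivity : 0 < T / L ^ 2)]
    calc T / L ^ 2 * |π / 2 * W - (Q - π / 4 * (s / T * L' ^ 2))| ≤ T / L ^ 2 * (ε1 * (s / T * L' ^ 2)) := by gcongr
      _ = ε1 * s * (L' / L) ^ 2 := by field_simp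
      _ ≤ ε / 8 * 2 ^ 2 := by gcongr
      _ = ε / 2 := by ring
  rw [Real.dist_eq]
  have a1 := abs_lt.1 k1
  have a2 := abs_le.1 h4
  rw [abs_lt]
  constructor <;> linarith [a1.1, a1.2, a2.1, a2.2]

end Pool.Agent.U507.PC
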