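import Pool.Agent.U507.PC.QL
import Pool.Agent.U507.PC.DQ

/-!
# From the second moment kernel to the Gaussian weight
-/

set_option autoImplicit false

open Complex Filter Topology Set MeasureTheory Metric
open scoped Real

namespace Pool.Agent.U507.PC

open Pool.Agent.U507.GM hiding step_low low_pt low_unif rigid

lemma int_pow (k : ℕ) : Integrable (fun s : ℝ => s ^ k * Real.exp (-s ^ 2 / 2)) := by
  have h := integrable_rpow_mul_exp_neg_mul_sq (b := 1 / 2) (by norm_num) (s := (k : ℝ)) (by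
    have : (0 : ℝ) ≤ k := Nat.cast_nonneg k
    linarith)
  refine h.congr (ae_of_all _ fun s => ?_)
  simp only [Real.rpow_natCast]
  congr 2
  ring

lemma tend_pow (k : ℕ) : Tendsto (fun s : ℝ => s ^ k * Real.exp (-s ^ 2 / 2)) atTop (𝓝 0) := by
  have h := rexp_neg_quadratic_isLittleO_rpow_atTop (a := -(1 / 2)) (by norm_num) 0 (-(k : ℝ))
  have h1 := h.tendsto_div_nhds_zero
  refine h1.congr' ?_
  filter_upwards [eventually_gt_atTop 0] with s hs
  rw [Real.rpow_neg hs.le, Real.rpow_natCast, div_inv_eq_mul, mul_comm]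
  congr 2
  ring

lemma gauss_cos (y : ℝ) : ∫ s in Ioi (0 : ℝ), Real.exp (-s ^ 2 / 2) * Real.cos (s * y) =
    √(π / 2) * Real.exp (-y ^ 2 / 2) := by
  have h := fourierIntegral_gaussian (b := 1 / 2) (by norm_num) (y : ℂ)
  have h1 : ∀ x : ℝ, cexp (I * (y : ℂ) * x) * cexp (-(1 / 2 : ℂ) * x ^ 2) =
      ((Real.exp (-x ^ 2 / 2) * Real.cos (x * y) : ℝ) : ℂ) + ((Real.exp (-x ^ 2 / 2) * Real.sin (x * y) : ℝ) : ℂ) * I := by
    intro x
    have e1 : I * (y : ℂ) * x = ((x * y : ℝ) : ℂ) * I := by push_cast; ring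
    have e2 : -(1 / 2 : ℂ) * x ^ 2 = ((-x ^ 2 / 2 : ℝ) : ℂ) := by push_cast; ring
    rw [e1, e2, Complex.exp_mul_I, ← Complex.ofReal_exp, ← Complex.ofReal_cos, ← Complex.ofReal_sin]
    push_cast
    ring
  have hi : Integrable (fun x : ℝ => cexp (I * (y : ℂ) * x) * cexp (-(1 / 2 : ℂ) * x ^ 2)) := by
    have h2 := (int_pow 0).mono' (g := fun s : ℝ => s ^ 0 * Real.exp (-s ^ 2 / 2))
      (f := fun x : ℝ => cexp (I * (y : ℂ) * x) * cexp (-(1 / 2 : ℂ) * x ^ 2)) (by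
        refine Continuous.aestronglyMeasurable ?_
        fun_prop) (ae_of_all _ fun x => by
        have e1 : I * (y : ℂ) * x = ((x * y : ℝ) : ℂ) * I := by push_cast; ring
        have e2 : -(1 / 2 : ℂ) * x ^ 2 = ((-x ^ 2 / 2 : ℝ) : ℂ) := by push_cast; ring
        rw [e1, e2, norm_mul, Complex.norm_exp_ofReal_mul_I, one_mul, ← Complex.ofReal_exp, Complex.norm_real,
          Real.norm_eq_abs, abs_of_pos (Real.exp_pos _), pow_zero, one_mul])
    exact h2
  have h3 : ∫ x : ℝ, Real.exp (-x ^ 2 / 2) * Real.cos (x * y) = (((π : ℂ) / (1 / 2 : ℂ)) ^ (1 / 2 : ℂ) *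
      cexp (-(y : ℂ) ^ 2 / (4 * (1 / 2 : ℂ)))).re := by
    rw [← h]
    have h4 := integral_re hi
    simp only [RCLike.re_eq_complex_re] at h4
    rw [← h4]
    refine integral_congr_ae (ae_of_all _ fun x => ?_)
    simp only []
    rw [h1 x, Complex.add_re, Complex.ofReal_re, Complex.re_ofReal_mul, Complex.I_re, mul_zero, add_zero]
  have h5 : ((π : ℂ) / (1 / 2 : ℂ)) ^ (1 / 2 : ℂ) * cexp (-(y : ℂ) ^ 2 / (4 * (1 / 2 : ℂ))) =
      ((√(2 * π) * Real.exp (-y ^ 2 / 2) : ℝ) : ℂ) := by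
    have e1 : (π : ℂ) / (1 / 2 : ℂ) = ((2 * π : ℝ) : ℂ) := by push_cast; ring
    have e2 : -(y : ℂ) ^ 2 / (4 * (1 / 2 : ℂ)) = ((-y ^ 2 / 2 : ℝ) : ℂ) := by push_cast; ring
    have e3 : (1 / 2 : ℂ) = ((1 / 2 : ℝ) : ℂ) := by push_cast; ring
    rw [e1, e2, e3, ← Complex.ofReal_cpow (by positivity), ← Complex.ofReal_exp, Real.sqrt_eq_rpow]
    push_cast
    ring
  have h6 : ∫ x : ℝ, Real.exp (-x ^ 2 / 2) * Real.cos (x * y) = √(2 * π) * Real.exp (-y ^ 2 / 2) := by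
    rw [h3, h5, Complex.ofReal_re]
  have h7 : ∫ x : ℝ, Real.exp (-|x| ^ 2 / 2) * Real.cos (|x| * y) =
      2 * ∫ x in Ioi (0 : ℝ), Real.exp (-x ^ 2 / 2) * Real.cos (x * y) :=
    integral_comp_abs (f := fun x => Real.exp (-x ^ 2 / 2) * Real.cos (x * y))
  have h8 : ∫ x : ℝ, Real.exp (-|x| ^ 2 / 2) * Real.cos (|x| * y) = ∫ x : ℝ, Real.exp (-x ^ 2 / 2) * Real.cos (x * y) := by
    refine integral_congr_ae (ae_of_all _ fun x => ?_)
    simp only [sq_abs]
    rcases le_total 0 x with hx | hx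
    · rw [abs_of_nonneg hx]
    · rw [abs_of_nonpos hx, neg_mul, Real.cos_neg]
  have h9 : √(2 * π) = 2 * √(π / 2) := by
    rw [show 2 * π = 2 ^ 2 * (π / 2) by ring, Real.sqrt_mul (by norm_num), Real.sqrt_sq (by norm_num)]
  rw [h8, h6, h9] at h7
  linarith

/-- the kernel identity -/
lemma kern (y : ℝ) : ∫ s in Ioi (0 : ℝ), (s ^ 2 - 1) * Real.exp (-s ^ 2 / 2) * (1 - Real.cos (s * y)) =
    y ^ 2 * (√(π / 2) * Real.exp (-y ^ 2 / 2)) := by
  have hexp : ∀ s : ℝ, HasDerivAt (fun s : ℝ => Real.exp (-s ^ 2 / 2)) (Real.exp (-s ^ 2 / 2) * (-s)) s := by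
    intro s
    have h1 : HasDerivAt (fun s : ℝ => -s ^ 2 / 2) (-s) s := by
      have := ((hasDerivAt_pow 2 s).neg).div_const 2
      refine this.congr_deriv ?_
      simp
      ring
    exact h1.exp
  have hcos : ∀ s : ℝ, HasDerivAt (fun s : ℝ => Real.cos (s * y)) (-Real.sin (s * y) * y) s := by
    intro s
    have h1 : HasDerivAt (fun s : ℝ => s * y) y s := by simpa using (hasDerivAt_id s).mul_const y
    exact h1.cos
  have hsin : ∀ s : ℝ, HasDerivAt (fun s : ℝ => Real.sin (s * y)) (Real.cos (s * y) * y) s := by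
    intro s
    have h1 : HasDerivAt (fun s : ℝ => s * y) y s := by simpa using (hasDerivAt_id s).mul_const y
    exact h1.sin
  have hF : ∀ s ∈ Ici (0 : ℝ), HasDerivAt (fun s : ℝ => -(s * Real.exp (-s ^ 2 / 2)) * (1 - Real.cos (s * y)) -
      y * (Real.exp (-s ^ 2 / 2) * Real.sin (s * y)))
      ((s ^ 2 - 1) * Real.exp (-s ^ 2 / 2) * (1 - Real.cos (s * y)) - y ^ 2 * (Real.exp (-s ^ 2 / 2) * Real.cos (s * y))) s := by
    intro s _
    have h1 := ((((hasDerivAt_id s).mul (hexp s)).neg).mul ((hcos s).const_sub 1)).sub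
      ((((hexp s).mul (hsin s))).const_mul y)
    refine h1.congr_deriv ?_
    simp only [id_eq, Pi.neg_apply, Pi.mul_apply]
    ring
  have hc1 : ∀ s : ℝ, |1 - Real.cos (s * y)| ≤ 2 := fun s => by
    rw [abs_le]
    constructor <;> linarith [Real.cos_le_one (s * y), Real.neg_one_le_cos (s * y)]
  have hi1 : IntegrableOn (fun s : ℝ => (s ^ 2 - 1) * Real.exp (-s ^ 2 / 2) * (1 - Real.cos (s * y))) (Ioi 0) := by
    have h1 : Integrable (fun s : ℝ => 2 * (s ^ 2 * Real.exp (-s ^ 2 / 2)) + 2 * (s ^ 0 * Real.exp (-s ^ 2 / 2))) :=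
      ((int_pow 2).const_mul 2).add ((int_pow 0).const_mul 2)
    refine (h1.mono' (Continuous.aestronglyMeasurable (by fun_prop)) (ae_of_all _ fun s => ?_)).integrableOn
    rw [Real.norm_eq_abs, abs_mul, abs_mul, abs_of_pos (Real.exp_pos _)]
    have h2 : |s ^ 2 - 1| ≤ s ^ 2 + 1 := by
      rw [abs_le]; constructor <;> nlinarith [sq_nonneg s]
    calc |s ^ 2 - 1| * Real.exp (-s ^ 2 / 2) * |1 - Real.cos (s * y)|
        ≤ (s ^ 2 + 1) * Real.exp (-s ^ 2 / 2) * 2 := by gcongr; exact hc1 s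
      _ = _ := by ring
  have hi2 : IntegrableOn (fun s : ℝ => Real.exp (-s ^ 2 / 2) * Real.cos (s * y)) (Ioi 0) := by
    refine ((int_pow 0).mono' (Continuous.aestronglyMeasurable (by fun_prop)) (ae_of_all _ fun s => ?_)).integrableOn
    rw [Real.norm_eq_abs, abs_mul, abs_of_pos (Real.exp_pos _), pow_zero, one_mul]
    exact mul_le_of_le_one_right (Real.exp_pos _).le (Real.abs_cos_le_one _)
  have hT : Tendsto (fun s : ℝ => -(s * Real.exp (-s ^ 2 / 2)) * (1 - Real.cos (s * y)) -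
      y * (Real.exp (-s ^ 2 / 2) * Real.sin (s * y))) atTop (𝓝 0) := by
    have h1 : Tendsto (fun s : ℝ => 2 * (s ^ 1 * Real.exp (-s ^ 2 / 2)) + |y| * (s ^ 0 * Real.exp (-s ^ 2 / 2)))
        atTop (𝓝 0) := by
      simpa using ((tend_pow 1).const_mul 2).add ((tend_pow 0).const_mul |y|)
    refine squeeze_zero_norm' ?_ h1
    filter_upwards [eventually_gt_atTop 0] with s hs
    rw [Real.norm_eq_abs]
    calc |(-(s * Real.exp (-s ^ 2 / 2)) * (1 - Real.cos (s * y)) - y * (Real.exp (-s ^ 2 / 2) * Real.sin (s * y)))|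
        ≤ |-(s * Real.exp (-s ^ 2 / 2)) * (1 - Real.cos (s * y))| + |y * (Real.exp (-s ^ 2 / 2) * Real.sin (s * y))| :=
          abs_sub _ _
      _ ≤ s * Real.exp (-s ^ 2 / 2) * 2 + |y| * (Real.exp (-s ^ 2 / 2) * 1) := by
          rw [abs_mul, abs_mul, abs_mul, abs_neg, abs_of_pos (mul_pos hs (Real.exp_pos _)), abs_of_pos (Real.exp_pos _)]
          gcongr
          · exact hc1 s
          · exact Real.abs_sin_le_one _
      _ = _ := by ring
  have h := integral_Ioi_of_hasDerivAt_of_tendsto' hF (hi1.sub (hi2.const_mul (y ^ 2))) hT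
  rw [integral_sub hi1 (hi2.const_mul (y ^ 2)), integral_const_mul, gauss_cos] at h
  simp only [zero_mul, neg_zero, Real.sin_zero, mul_zero, sub_zero] at h
  linarith

lemma kern_mom : ∫ s in Ioi (0 : ℝ), (s ^ 2 - 1) * Real.exp (-s ^ 2 / 2) * s = 1 := by
  have hexp : ∀ s : ℝ, HasDerivAt (fun s : ℝ => Real.exp (-s ^ 2 / 2)) (Real.exp (-s ^ 2 / 2) * (-s)) s := by
    intro s
    have h1 : HasDerivAt (fun s : ℝ => -s ^ 2 / 2) (-s) s := by
      have := ((hasDerivAt_pow 2 s).neg).div_const 2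
      refine this.congr_deriv ?_
      simp
      ring
    exact h1.exp
  have hF : ∀ s ∈ Ici (0 : ℝ), HasDerivAt (fun s : ℝ => -((s ^ 2 + 1) * Real.exp (-s ^ 2 / 2)))
      ((s ^ 2 - 1) * Real.exp (-s ^ 2 / 2) * s) s := by
    intro s _
    have h1 := ((((hasDerivAt_pow 2 s).add_const 1).mul (hexp s))).neg
    refine h1.congr_deriv ?_
    simp
    ring
  have hT : Tendsto (fun s : ℝ => -((s ^ 2 + 1) * Real.exp (-s ^ 2 / 2))) atTop (𝓝 0) := by
    have h1 : Tendsto (fun s : ℝ => -(s ^ 2 * Real.exp (-s ^ 2 / 2) + (s ^ 0 * Real.exp (-s ^ 2 / 2))))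
        atTop (𝓝 0) := by
      simpa using ((tend_pow 2).add (tend_pow 0)).neg
    refine h1.congr fun s => ?_
    ring
  have hi1 : IntegrableOn (fun s : ℝ => (s ^ 2 - 1) * Real.exp (-s ^ 2 / 2) * s) (Ioi 0) := by
    have h1 : Integrable (fun s : ℝ => (s ^ 3 * Real.exp (-s ^ 2 / 2)) - (s ^ 1 * Real.exp (-s ^ 2 / 2))) :=
      (int_pow 3).sub (int_pow 1)
    refine (h1.congr (ae_of_all _ fun s => ?_)).integrableOn
    simp only []
    ring
  have h := integral_Ioi_of_hasDerivAt_of_tendsto' hF hi1 hT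
  rw [h]
  norm_num

lemma gh_cos (δ : ℝ) {v : ℝ} (hv : 0 < v) : gh δ v ^ 2 = 2 * (1 - Real.cos (δ * v)) / v ^ 2 := by
  rcases eq_or_ne δ 0 with hδ | hδ
  · subst hδ
    simp [gh]
  · have h1 : v * δ / 2 ≠ 0 := by positivity
    rw [gh, Real.sinc_of_ne_zero h1]
    have h2 : Real.cos (δ * v) = 1 - 2 * Real.sin (v * δ / 2) ^ 2 := by
      rw [show δ * v = 2 * (v * δ / 2) by ring, Real.cos_two_mul, Real.cos_sq']
      ring
    rw [h2]
    field_simp
    ring

lemma kern_gh {a T v : ℝ} (ha : 0 < a) (hT : 0 < T) (hv : 0 < v) :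
    ∫ s in Ioi (0 : ℝ), (s ^ 2 - 1) * Real.exp (-s ^ 2 / 2) * gh (s * a / T) v ^ 2 =
      2 * (a / T) ^ 2 * √(π / 2) * Real.exp (-(a ^ 2 * ((v / T) ^ 2 / 2))) := by
  have h := kern (a * v / T)
  have h1 : ∀ s ∈ Ioi (0 : ℝ), (s ^ 2 - 1) * Real.exp (-s ^ 2 / 2) * gh (s * a / T) v ^ 2 =
      2 / v ^ 2 * ((s ^ 2 - 1) * Real.exp (-s ^ 2 / 2) * (1 - Real.cos (s * (a * v / T)))) := by
    intro s _
    rw [gh_cos _ hv, show s * a / T * v = s * (a * v / T) by ring]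
    ring
  rw [setIntegral_congr_fun measurableSet_Ioi h1, integral_const_mul, h]
  rw [show -(a * v / T) ^ 2 / 2 = -(a ^ 2 * ((v / T) ^ 2 / 2)) by ring]
  field_simp

lemma fub_int (hRH : RiemannHypothesis) {η : ℝ} (hη : 0 < η) (hη1 : η ≤ 1 / 16) (a T : ℝ) :
    Integrable (Function.uncurry fun s v : ℝ => (s ^ 2 - 1) * Real.exp (-s ^ 2 / 2) * (gh (s * a / T) v ^ 2 * Yf η v ^ 2))
      ((volume.restrict (Ioi 0)).prod (volume.restrict (Ioi 1))) := by
  obtain ⟨C, -, h⟩ := gY_int hRH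
  have h1 : Integrable (fun s : ℝ => (s ^ 2 * Real.exp (-s ^ 2 / 2)) + (s ^ 0 * Real.exp (-s ^ 2 / 2)))
      (volume.restrict (Ioi 0)) := ((int_pow 2).add (int_pow 0)).integrableOn
  have h2 := h1.mul_prod (h η hη hη1).1
  refine h2.mono' ?_ ?_
  · have hm1 : Measurable fun p : ℝ × ℝ => (p.1 ^ 2 - 1) * Real.exp (-p.1 ^ 2 / 2) := by fun_prop
    have hm2 : Measurable fun p : ℝ × ℝ => gh (p.1 * a / T) p.2 := by
      have : Continuous fun p : ℝ × ℝ => gh (p.1 * a / T) p.2 := by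
        unfold gh
        exact (by fun_prop : Continuous fun p : ℝ × ℝ => p.1 * a / T).mul
          (Real.continuous_sinc.comp (by fun_prop : Continuous fun p : ℝ × ℝ => p.2 * (p.1 * a / T) / 2))
      exact this.measurable
    have hm3 : Measurable fun p : ℝ × ℝ => Yf η p.2 := (Yf_meas hRH hη).comp measurable_snd
    exact (hm1.mul ((hm2.pow_const 2).mul (hm3.pow_const 2))).aestronglyMeasurable
  · rw [Measure.prod_restrict]
    refine (ae_restrict_iff' (measurableSet_Ioi.prod measurableSet_Ioi)).2 (Filter.Eventually.of_forall fun p hp => ?_)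
    have hv : (1 : ℝ) < p.2 := hp.2
    have hv0 : 0 < p.2 := by linarith
    simp only [Function.uncurry]
    rw [Real.norm_eq_abs, abs_mul, abs_mul, abs_of_pos (Real.exp_pos _),
      abs_of_nonneg (show 0 ≤ gh (p.1 * a / T) p.2 ^ 2 * Yf η p.2 ^ 2 by positivity)]
    have h3 : |p.1 ^ 2 - 1| ≤ p.1 ^ 2 + 1 := by
      rw [abs_le]; constructor <;> nlinarith [sq_nonneg p.1]
    calc |p.1 ^ 2 - 1| * Real.exp (-p.1 ^ 2 / 2) * (gh (p.1 * a / T) p.2 ^ 2 * Yf η p.2 ^ 2)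
        ≤ (p.1 ^ 2 + 1) * Real.exp (-p.1 ^ 2 / 2) * (4 / p.2 ^ 2 * Yf η p.2 ^ 2) := by
          gcongr
          exact gh_sq_inv _ hv0
      _ = _ := by ring

theorem gk_id (hRH : RiemannHypothesis) {η : ℝ} (hη : 0 < η) (hη1 : η ≤ 1 / 16) {a T : ℝ} (ha : 0 < a) (hT : 0 < T) :
    ∫ s in Ioi (0 : ℝ), (s ^ 2 - 1) * Real.exp (-s ^ 2 / 2) * Qf η (s * a / T) =
      2 * (a / T) ^ 2 * √(π / 2) * ∫ v in Ioi (1 : ℝ), Yf η v ^ 2 * Real.exp (-(a ^ 2 * ((v / T) ^ 2 / 2))) := by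
  have h := integral_integral_swap (fub_int hRH hη hη1 a T)
  have h1 : ∫ s in Ioi (0 : ℝ), (s ^ 2 - 1) * Real.exp (-s ^ 2 / 2) * Qf η (s * a / T) =
      ∫ s in Ioi (0 : ℝ), ∫ v in Ioi (1 : ℝ), (s ^ 2 - 1) * Real.exp (-s ^ 2 / 2) * (gh (s * a / T) v ^ 2 * Yf η v ^ 2) := by
    refine integral_congr_ae (ae_of_all _ fun s => ?_)
    simp only []
    rw [integral_const_mul, Qf]
  rw [h1, h, ← integral_const_mul]
  refine setIntegral_congr_fun measurableSet_Ioi fun v hv => ?_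
  have hv1 : (1 : ℝ) < v := hv
  have hv0 : 0 < v := by linarith
  have h2 : ∀ s ∈ Ioi (0 : ℝ), (s ^ 2 - 1) * Real.exp (-s ^ 2 / 2) * (gh (s * a / T) v ^ 2 * Yf η v ^ 2) =
      Yf η v ^ 2 * ((s ^ 2 - 1) * Real.exp (-s ^ 2 / 2) * gh (s * a / T) v ^ 2) := by
    intro s _
    ring
  rw [setIntegral_congr_fun measurableSet_Ioi h2, integral_const_mul, kern_gh ha hT hv0]
  ring

lemma Qf_aesm (hRH : RiemannHypothesis) {η : ℝ} (hη : 0 < η) (hη1 : η ≤ 1 / 16) (a T : ℝ) :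
    AEStronglyMeasurable (fun s => (s ^ 2 - 1) * Real.exp (-s ^ 2 / 2) * Qf η (s * a / T)) (volume.restrict (Ioi 0)) := by
  have h := (fub_int hRH hη hη1 a T).integral_prod_left
  refine (h.congr (ae_of_all _ fun s => ?_)).aestronglyMeasurable
  simp only [Function.uncurry]
  rw [integral_const_mul, Qf]

theorem gauss_lim (hRH : RiemannHypothesis)
    (h : ∀ b : ℝ, 0 ≤ b → Tendsto (fun T => Ph (vs T) b) atTop (𝓝 (mp b))) {c a : ℝ} (hc : 0 < c) (ha : 0 < a) :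
    Tendsto (fun T => (∫ v in Ioi (1 : ℝ), Yf (c / (2 * Real.log T)) v ^ 2 * Real.exp (-(a ^ 2 * ((v / T) ^ 2 / 2)))) /
      (T * Real.log T ^ 2)) atTop (𝓝 ((sg c + 1 / 2) / 2 * (√(π / 2) / a))) := by
  obtain ⟨C, T0, hC, hT0, hdom⟩ := Q_dom hRH hc
  have hη : ∀ᶠ T : ℝ in atTop, 0 < c / (2 * Real.log T) ∧ c / (2 * Real.log T) ≤ 1 / 16 := by
    filter_upwards [Real.tendsto_log_atTop.eventually_ge_atTop (8 * c + 1)] with T hT
    have hl : 0 < Real.log T := by linarith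
    refine ⟨by positivity, ?_⟩
    rw [div_le_div_iff₀ (by positivity) (by norm_num)]
    linarith
  have hmain : Tendsto (fun T => ∫ s in Ioi (0 : ℝ), (s ^ 2 - 1) * Real.exp (-s ^ 2 / 2) *
      (T / Real.log T ^ 2 * Qf (c / (2 * Real.log T)) (s * a / T))) atTop
      (𝓝 (∫ s in Ioi (0 : ℝ), (s ^ 2 - 1) * Real.exp (-s ^ 2 / 2) * (π / 2 * (sg c + 1 / 2) * (s * a)))) := by
    refine tendsto_integral_filter_of_dominated_convergence
      (fun s => (s ^ 2 + 1) * Real.exp (-s ^ 2 / 2) * (C * (1 + (s * a) ^ 2))) ?_ ?_ ?_ ?_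
    · filter_upwards [hη] with T hT
      have h1 := (Qf_aesm hRH hT.1 hT.2 a T).const_mul (T / Real.log T ^ 2)
      refine h1.congr (ae_of_all _ fun s => ?_)
      simp only []
      ring
    · filter_upwards [eventually_ge_atTop T0] with T hT
      refine (ae_restrict_iff' measurableSet_Ioi).2 (Filter.Eventually.of_forall fun s hs => ?_)
      have hs0 : (0 : ℝ) < s := hs
      have hT00 : 0 < T := by linarith
      rw [Real.norm_eq_abs, abs_mul, abs_mul, abs_of_pos (Real.exp_pos _),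
        abs_of_nonneg (mul_nonneg (by positivity) (Qf_nonneg _ _))]
      have h3 : |s ^ 2 - 1| ≤ s ^ 2 + 1 := by
        rw [abs_le]; constructor <;> nlinarith [sq_nonneg s]
      have h4 := hdom T (s * a) hT (by positivity)
      have h5 : 0 ≤ T / Real.log T ^ 2 * Qf (c / (2 * Real.log T)) (s * a / T) :=
        mul_nonneg (by positivity) (Qf_nonneg _ _)
      gcongr
    · have h1 : Integrable (fun s : ℝ => C * a ^ 2 * (s ^ 4 * Real.exp (-s ^ 2 / 2)) +
          (C * a ^ 2 + C) * (s ^ 2 * Real.exp (-s ^ 2 / 2)) + C * (s ^ 0 * Real.exp (-s ^ 2 / 2))) :=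
        (((int_pow 4).const_mul _).add ((int_pow 2).const_mul _)).add ((int_pow 0).const_mul _)
      refine (h1.congr (ae_of_all _ fun s => ?_)).integrableOn
      simp only []
      ring
    · refine (ae_restrict_iff' measurableSet_Ioi).2 (Filter.Eventually.of_forall fun s hs => ?_)
      have hs0 : (0 : ℝ) < s := hs
      exact (Q_lim hRH h hc (mul_pos hs0 ha)).const_mul _
  have hval : ∫ s in Ioi (0 : ℝ), (s ^ 2 - 1) * Real.exp (-s ^ 2 / 2) * (π / 2 * (sg c + 1 / 2) * (s * a)) =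
      π / 2 * (sg c + 1 / 2) * a := by
    have h1 : ∀ s ∈ Ioi (0 : ℝ), (s ^ 2 - 1) * Real.exp (-s ^ 2 / 2) * (π / 2 * (sg c + 1 / 2) * (s * a)) =
        π / 2 * (sg c + 1 / 2) * a * ((s ^ 2 - 1) * Real.exp (-s ^ 2 / 2) * s) := by
      intro s _
      ring
    rw [setIntegral_congr_fun measurableSet_Ioi h1, integral_const_mul, kern_mom, mul_one]
  rw [hval] at hmain
  have hq0 : 0 < √(π / 2) := Real.sqrt_pos.2 (by positivity)
  have h2 := hmain.const_mul (1 / (2 * a ^ 2 * √(π / 2)))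
  have e1 : 1 / (2 * a ^ 2 * √(π / 2)) * (π / 2 * (sg c + 1 / 2) * a) = (sg c + 1 / 2) / 2 * (√(π / 2) / a) := by
    have hq : √(π / 2) * √(π / 2) = π / 2 := Real.mul_self_sqrt (by positivity)
    generalize √(π / 2) = q at hq hq0 ⊢
    rw [← hq]
    field_simp
  rw [e1] at h2
  refine h2.congr' ?_
  filter_upwards [hη, eventually_ge_atTop T0] with T hT hT1
  have hT00 : 0 < T := by linarith
  have hl : 0 < Real.log T := Real.log_pos (by linarith)
  have h3 : ∀ s ∈ Ioi (0 : ℝ), (s ^ 2 - 1) * Real.exp (-s ^ 2 / 2) *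
      (T / Real.log T ^ 2 * Qf (c / (2 * Real.log T)) (s * a / T)) =
      T / Real.log T ^ 2 * ((s ^ 2 - 1) * Real.exp (-s ^ 2 / 2) * Qf (c / (2 * Real.log T)) (s * a / T)) := by
    intro s _
    ring
  rw [setIntegral_congr_fun measurableSet_Ioi h3, integral_const_mul, gk_id hRH hT.1 hT.2 ha hT00]
  field_simp

end Pool.Agent.U507.PC
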