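import Pool.Agent.U507.PC.HT
import Pool.Agent.U507.PC.Zb

/-!
# The mean square of the Poisson sums over the zeros
-/

set_option autoImplicit false

open Complex Filter Topology Set MeasureTheory Metric
open scoped Real

namespace Pool.Agent.U507.PC

open Pool.Agent.U507.GM hiding step_low low_pt low_unif rigid
open Pool.Agent.Y749.Rig (ZZ mm mm_nonneg mem_ZZ fw fw_eq fw_meas fw_nonneg sup_fw)

lemma fw_int : ∃ C : ℝ, 0 < C ∧ ∀ T : ℝ, 10 ≤ T → ∀ g : ℝ → ℝ, Integrable g → (∀ t, 0 ≤ g t) →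
    ∑ s ∈ ZZ T, mm s * ∫ t in Icc (s.im - 1 / 2) (s.im + 1 / 2), g t ≤ C * Real.log T * ∫ t, g t := by
  obtain ⟨C, hC, h⟩ := sup_fw
  refine ⟨C, hC, fun T hT g hg hg0 => ?_⟩
  have h1 : ∀ s ∈ ZZ T, mm s * ∫ t in Icc (s.im - 1 / 2) (s.im + 1 / 2), g t =
      ∫ t, (Icc (s.im - 1 / 2) (s.im + 1 / 2)).indicator (fun _ => mm s) t * g t := by
    intro s _
    rw [← integral_const_mul, ← integral_indicator measurableSet_Icc]
    refine integral_congr_ae (ae_of_all _ fun t => ?_)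
    simp only [indicator_apply]
    split_ifs <;> ring
  have hi : ∀ s : ℂ, Integrable (fun t => (Icc (s.im - 1 / 2) (s.im + 1 / 2)).indicator (fun _ => mm s) t * g t) := by
    intro s
    have h2 := (hg.const_mul (mm s)).indicator (measurableSet_Icc (a := s.im - 1 / 2) (b := s.im + 1 / 2))
    refine h2.congr (ae_of_all _ fun t => ?_)
    simp only [indicator_apply]
    split_ifs <;> ring
  rw [Finset.sum_congr rfl h1, ← integral_finsetSum _ (fun s _ => hi s), ← integral_const_mul]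
  refine integral_mono (integrable_finsetSum _ fun s _ => hi s) (hg.const_mul _) fun t => ?_
  simp only []
  rw [← Finset.sum_mul]
  refine mul_le_mul_of_nonneg_right ?_ (hg0 t)
  have h3 := h T hT 2 (by norm_num) t
  rw [fw_eq] at h3
  exact h3

/-- pointwise bound -/
lemma PU_one : ∃ C : ℝ, 0 < C ∧ ∀ T : ℝ, 10 ≤ T → ∀ v : ℝ, PU T 1 v ≤ C * Real.log T := by
  obtain ⟨C, hC, h⟩ := fw_int
  refine ⟨2 * π * C, by positivity, fun T hT v => ?_⟩
  obtain ⟨a1, a2⟩ := phi_int one_pos v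
  have hsym : ∀ t : ℝ, (1 : ℝ) / (1 ^ 2 + (t - v) ^ 2) = 1 / (1 ^ 2 + (v - t) ^ 2) := fun t => by
    rw [show (t - v) ^ 2 = (v - t) ^ 2 by ring]
  have h1 := h T hT (fun t => 2 * (1 / (1 ^ 2 + (t - v) ^ 2))) (a1.const_mul 2) (fun t => by positivity)
  rw [integral_const_mul, a2] at h1
  refine le_trans ?_ (h1.trans (by linarith))
  unfold PU
  refine Finset.sum_le_sum fun s _ => ?_
  refine mul_le_mul_of_nonneg_left ?_ (mm_nonneg s)
  have h2 : ∫ t in Icc (s.im - 1 / 2) (s.im + 1 / 2), (1 : ℝ) / (1 ^ 2 + (v - s.im) ^ 2) =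
      1 / (1 ^ 2 + (v - s.im) ^ 2) := by
    rw [setIntegral_const, Real.volume_real_Icc]
    rw [show s.im + 1 / 2 - (s.im - 1 / 2) = 1 by ring]
    simp
  rw [← h2]
  refine setIntegral_mono_on (integrableOn_const (by rw [Real.volume_Icc]; exact ENNReal.ofReal_ne_top))
    ((a1.const_mul 2).integrableOn) measurableSet_Icc fun t ht => ?_
  rw [hsym, mul_one_div 2, div_le_div_iff₀ (by positivity) (by positivity)]
  have h3 : |t - s.im| ≤ 1 / 2 := by rw [abs_le]; constructor <;> linarith [ht.1, ht.2]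
  have h4 : (t - s.im) ^ 2 ≤ 1 / 4 := by
    rw [← sq_abs]
    calc |t - s.im| ^ 2 ≤ (1 / 2) ^ 2 := pow_le_pow_left₀ (abs_nonneg _) h3 2
      _ = 1 / 4 := by norm_num
  nlinarith [sq_nonneg ((v - s.im) + (t - s.im))]

/-- number of zeros -/
lemma mm_count : ∃ C : ℝ, 0 < C ∧ ∀ T : ℝ, 10 ≤ T → ∑ s ∈ ZZ T, mm s ≤ C * (T * Real.log T) := by
  obtain ⟨C, hC, h⟩ := fw_int
  refine ⟨2 * C, by positivity, fun T hT => ?_⟩
  have hlog : 0 < Real.log T := Real.log_pos (by linarith)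
  have h1 := h T hT ((Icc (-(1 / 2)) (T + 1 / 2)).indicator fun _ => (1 : ℝ))
    ((integrable_indicator_iff measurableSet_Icc).2 (integrableOn_const (by rw [Real.volume_Icc]; exact ENNReal.ofReal_ne_top)))
    (fun t => indicator_nonneg (fun _ _ => zero_le_one) t)
  rw [integral_indicator measurableSet_Icc, setIntegral_const, Real.volume_real_Icc] at h1
  have h2 : ∑ s ∈ ZZ T, mm s ≤ ∑ s ∈ ZZ T, mm s * ∫ t in Icc (s.im - 1 / 2) (s.im + 1 / 2),
      (Icc (-(1 / 2)) (T + 1 / 2)).indicator (fun _ => (1 : ℝ)) t := by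
    refine Finset.sum_le_sum fun s hs => ?_
    rw [mem_ZZ] at hs
    have e : ∫ t in Icc (s.im - 1 / 2) (s.im + 1 / 2), (Icc (-(1 / 2)) (T + 1 / 2)).indicator (fun _ => (1 : ℝ)) t = 1 := by
      have : ∀ t ∈ Icc (s.im - 1 / 2) (s.im + 1 / 2), (Icc (-(1 / 2)) (T + 1 / 2)).indicator (fun _ => (1 : ℝ)) t = 1 := by
        intro t ht
        apply indicator_of_mem
        constructor
        · linarith [ht.1, hs.2.2.2.1]
        · linarith [ht.2, hs.2.2.2.2]
      rw [setIntegral_congr_fun measurableSet_Icc this, setIntegral_const, Real.volume_real_Icc]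
      rw [show s.im + 1 / 2 - (s.im - 1 / 2) = 1 by ring]
      simp
    rw [e, mul_one]
  refine h2.trans (h1.trans ?_)
  rw [max_eq_left (by linarith), smul_eq_mul, mul_one]
  calc C * Real.log T * (T + 1 / 2 - -(1 / 2)) = C * Real.log T * (T + 1) := by ring
    _ ≤ C * Real.log T * (2 * T) := by gcongr; linarith
    _ = _ := by ring

/-- comparison of `Yf` and `PU` -/
theorem Y_PU (hRH : RiemannHypothesis) : ∃ C V0 : ℝ, 0 < C ∧ 10 ≤ V0 ∧ ∀ T v η : ℝ, V0 ≤ v → v ≤ T - 1 →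
    0 < η → η ≤ 1 / 16 → |PU T η v - Yf η v| ≤ C * (1 + η * Real.log T) := by
  obtain ⟨C1, V0, hC1, hV0, hza⟩ := za2 hRH
  obtain ⟨C2, hC2, hP⟩ := PU_one
  refine ⟨C1 + 2 * C2, V0, by positivity, hV0, fun T v η hv hvT hη hη1 => ?_⟩
  obtain ⟨A, hA, hx⟩ := hza v hv
  have h1 := hx η hη hη1
  have hT10 : 10 ≤ T := by linarith
  have hlog : 0 < Real.log T := Real.log_pos (by linarith)
  classical
  have hsub : A ⊆ ZZ T := by
    intro s hs
    rw [hA] at hs
    rw [mem_ZZ]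
    have := abs_le.1 hs.2.2.2
    exact ⟨hs.1, hs.2.1, hs.2.2.1, by linarith, by linarith⟩
  have h2 : PU T η v - ∑ s ∈ A, mm s * (η / (η ^ 2 + (v - s.im) ^ 2)) =
      ∑ s ∈ ZZ T \ A, mm s * (η / (η ^ 2 + (v - s.im) ^ 2)) := by
    unfold PU
    rw [← Finset.sum_sdiff hsub]
    ring
  have h3 : ∑ s ∈ ZZ T \ A, mm s * (η / (η ^ 2 + (v - s.im) ^ 2)) ≤ 2 * η * PU T 1 v := by
    have h4 : ∑ s ∈ ZZ T \ A, mm s * (η / (η ^ 2 + (v - s.im) ^ 2)) ≤
        ∑ s ∈ ZZ T \ A, 2 * η * (mm s * (1 / (1 ^ 2 + (v - s.im) ^ 2))) := by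
      refine Finset.sum_le_sum fun s hs => ?_
      rw [Finset.mem_sdiff, mem_ZZ, hA] at hs
      obtain ⟨⟨b1, b2, b3, b4, b5⟩, b6⟩ := hs
      have h5 : 1 < |s.im - v| := by
        by_contra hcon
        exact b6 ⟨b1, b2, b3, not_lt.1 hcon⟩
      have h6 : 1 ≤ (v - s.im) ^ 2 := by
        rw [show (v - s.im) ^ 2 = (s.im - v) ^ 2 by ring, ← sq_abs]
        nlinarith
      have hm := mm_nonneg s
      have h7 : η / (η ^ 2 + (v - s.im) ^ 2) ≤ 2 * η * (1 / (1 ^ 2 + (v - s.im) ^ 2)) := by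
        rw [mul_one_div, div_le_div_iff₀ (by positivity) (by positivity)]
        nlinarith [sq_nonneg η]
      calc mm s * (η / (η ^ 2 + (v - s.im) ^ 2)) ≤ mm s * (2 * η * (1 / (1 ^ 2 + (v - s.im) ^ 2))) := by gcongr
        _ = _ := by ring
    refine h4.trans ?_
    rw [← Finset.mul_sum]
    refine mul_le_mul_of_nonneg_left ?_ (by positivity)
    unfold PU
    refine Finset.sum_le_sum_of_subset_of_nonneg Finset.sdiff_subset fun s _ _ => ?_
    have := mm_nonneg s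
    positivity
  have h3' : 0 ≤ ∑ s ∈ ZZ T \ A, mm s * (η / (η ^ 2 + (v - s.im) ^ 2)) := by
    refine Finset.sum_nonneg fun s _ => ?_
    have := mm_nonneg s
    positivity
  have h8 : Real.log v ≤ Real.log T := Real.log_le_log (by linarith) (by linarith)
  have h9 : C1 * (1 + η * Real.log v) ≤ C1 * (1 + η * Real.log T) := by gcongr
  have h10 : 2 * η * PU T 1 v ≤ 2 * η * (C2 * Real.log T) := by
    have := hP T hT10 v
    gcongr
  have h11 : PU T η v - Yf η v = (PU T η v - ∑ s ∈ A, mm s * (η / (η ^ 2 + (v - s.im) ^ 2))) +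
      ((ZF ⟨1 / 2 + η, v⟩).re - (1 / 2 * Real.log v - ∑ s ∈ A, mm s * (η / (η ^ 2 + (v - s.im) ^ 2)))) := by
    unfold Yf
    ring
  rw [h11, h2]
  refine (abs_add_le _ _).trans ?_
  rw [abs_of_nonneg h3']
  have h12 : |(ZF ⟨1 / 2 + η, v⟩).re - (1 / 2 * Real.log v - ∑ s ∈ A, mm s * (η / (η ^ 2 + (v - s.im) ^ 2)))| ≤
      C1 * (1 + η * Real.log v) := h1
  have h13 : 0 ≤ 2 * C2 * 1 := by positivity
  calc _ ≤ 2 * η * (C2 * Real.log T) + C1 * (1 + η * Real.log T) := by linarith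
    _ ≤ _ := by nlinarith

lemma PU_meas (T η : ℝ) : Measurable (PU T η) := by
  have e : PU T η = fun v => ∑ s ∈ ZZ T, mm s * (η / (η ^ 2 + (v - s.im) ^ 2)) := rfl
  rw [e]
  exact Finset.measurable_fun_sum _ fun s _ => by fun_prop

lemma PU_int (T : ℝ) {η : ℝ} (hη : 0 < η) : Integrable (PU T η) ∧ ∫ v, PU T η v = π * ∑ s ∈ ZZ T, mm s := by
  have e : PU T η = fun v => ∑ s ∈ ZZ T, mm s * (η / (η ^ 2 + (v - s.im) ^ 2)) := rfl
  rw [e]
  refine ⟨integrable_finsetSum _ fun s _ => (phi_int hη s.im).1.const_mul _, ?_⟩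
  rw [integral_finsetSum _ fun s _ => (phi_int hη s.im).1.const_mul _, Finset.mul_sum]
  refine Finset.sum_congr rfl fun s _ => ?_
  rw [integral_const_mul, (phi_int hη s.im).2]
  ring

/-- contributions outside `[V, T - 1]` -/
lemma PU_out : ∃ C : ℝ, 0 < C ∧ ∀ T V η : ℝ, 10 ≤ T → 1 ≤ V → V ≤ T → 0 < η → η ≤ 1 →
    ∫ v in (Ioc V (T - 1))ᶜ, PU T η v ^ 2 ≤
      C * ((V + 4) * (Real.log T / η) ^ 2 + η * Real.log T * (T * Real.log T)) := by
  obtain ⟨C1, hC1, hP⟩ := PU_one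
  obtain ⟨C2, hC2, hN⟩ := mm_count
  refine ⟨C1 ^ 2 + 2 * C1 * π * C2, by positivity, fun T V η hT hV hVT hη hη1 => ?_⟩
  have hlog : 0 < Real.log T := Real.log_pos (by linarith)
  obtain ⟨M, hM⟩ : ∃ M : ℝ, M = (C1 * Real.log T / η) ^ 2 := ⟨_, rfl⟩
  have hM0 : 0 ≤ M := by rw [hM]; positivity
  obtain ⟨i1, i2⟩ := PU_int T hη
  obtain ⟨S, hS⟩ : ∃ S : Set ℝ, S = Icc (-1) V ∪ Icc (T - 1) (T + 1) := ⟨_, rfl⟩
  have hSm : MeasurableSet S := by rw [hS]; exact measurableSet_Icc.union measurableSet_Icc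
  have hSv : volume.real S ≤ V + 4 := by
    rw [hS]
    refine (measureReal_union_le _ _).trans ?_
    rw [Real.volume_real_Icc, Real.volume_real_Icc, max_eq_left (by linarith), max_eq_left (by linarith)]
    linarith
  have hSf : volume S ≠ ⊤ := by
    rw [hS]
    exact ((measure_union_le _ _).trans_lt (ENNReal.add_lt_top.2 ⟨measure_Icc_lt_top, measure_Icc_lt_top⟩)).ne
  have hpt : ∀ v ∈ (Ioc V (T - 1))ᶜ, PU T η v ^ 2 ≤ S.indicator (fun _ => M) v + 2 * C1 * η * Real.log T * PU T η v := by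
    intro v hv
    have hp0 := PU_nonneg T v hη
    have hp1 := hP T hT v
    have hp10 := PU_nonneg T v one_pos
    by_cases hvS : v ∈ S
    · rw [indicator_of_mem hvS, hM]
      have h1 : PU T η v ≤ C1 * Real.log T / η := by
        have h2 : PU T η v ≤ 1 / η * PU T 1 v := by
          unfold PU
          rw [Finset.mul_sum]
          refine Finset.sum_le_sum fun s _ => ?_
          have hm := mm_nonneg s
          have h3 : η / (η ^ 2 + (v - s.im) ^ 2) ≤ 1 / η * (1 / (1 ^ 2 + (v - s.im) ^ 2)) := by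
            rw [div_mul_div_comm, div_le_div_iff₀ (by positivity) (by positivity)]
            have h4 : η ^ 2 ≤ 1 := pow_le_one₀ hη.le hη1
            nlinarith [mul_nonneg (sub_nonneg.2 h4) (sq_nonneg (v - s.im))]
          calc mm s * (η / (η ^ 2 + (v - s.im) ^ 2)) ≤ mm s * (1 / η * (1 / (1 ^ 2 + (v - s.im) ^ 2))) := by gcongr
            _ = _ := by ring
        calc PU T η v ≤ 1 / η * PU T 1 v := h2
          _ ≤ 1 / η * (C1 * Real.log T) := by gcongr
          _ = _ := by ring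
      have h4 : 0 ≤ 2 * C1 * η * Real.log T * PU T η v := by positivity
      have h5 := pow_le_pow_left₀ hp0 h1 2
      linarith
    · rw [indicator_of_notMem hvS, zero_add, sq]
      refine mul_le_mul_of_nonneg_right ?_ hp0
      have h6 : ∀ s ∈ ZZ T, 1 ≤ (v - s.im) ^ 2 := by
        intro s hs
        rw [mem_ZZ] at hs
        obtain ⟨b1, b2, b3, b4, b5⟩ := hs
        rw [hS, mem_union, mem_Icc, mem_Icc, not_or, not_and_or, not_and_or, not_le, not_le, not_le, not_le] at hvS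
        rw [mem_compl_iff, mem_Ioc, not_and_or, not_lt, not_le] at hv
        obtain ⟨c1, c2⟩ := hvS
        rcases c1 with c1 | c1
        · nlinarith
        · rcases c2 with c2 | c2
          · rcases hv with hv | hv <;> linarith
          · nlinarith
      have h7 : PU T η v ≤ 2 * η * PU T 1 v := by
        unfold PU
        rw [Finset.mul_sum]
        refine Finset.sum_le_sum fun s hs => ?_
        have hm := mm_nonneg s
        have h8 := h6 s hs
        have h9 : η / (η ^ 2 + (v - s.im) ^ 2) ≤ 2 * η * (1 / (1 ^ 2 + (v - s.im) ^ 2)) := by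
          rw [mul_one_div, div_le_div_iff₀ (by positivity) (by positivity)]
          nlinarith [sq_nonneg η]
        calc mm s * (η / (η ^ 2 + (v - s.im) ^ 2)) ≤ mm s * (2 * η * (1 / (1 ^ 2 + (v - s.im) ^ 2))) := by gcongr
          _ = _ := by ring
      calc PU T η v ≤ 2 * η * PU T 1 v := h7
        _ ≤ 2 * η * (C1 * Real.log T) := by gcongr
        _ = _ := by ring
  have hgi : Integrable (fun v => S.indicator (fun _ => M) v + 2 * C1 * η * Real.log T * PU T η v) :=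
    ((integrable_indicator_iff hSm).2 (integrableOn_const hSf)).add (i1.const_mul _)
  calc ∫ v in (Ioc V (T - 1))ᶜ, PU T η v ^ 2 ≤
        ∫ v in (Ioc V (T - 1))ᶜ, (S.indicator (fun _ => M) v + 2 * C1 * η * Real.log T * PU T η v) :=
        setIntegral_mono_on (PU_sq T hη).1.integrableOn hgi.integrableOn measurableSet_Ioc.compl hpt
    _ ≤ ∫ v, (S.indicator (fun _ => M) v + 2 * C1 * η * Real.log T * PU T η v) := by
        refine setIntegral_le_integral hgi (ae_of_all _ fun v => ?_)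
        have hp0 := PU_nonneg T v hη
        have : 0 ≤ S.indicator (fun _ => M) v := indicator_nonneg (fun _ _ => hM0) v
        simp only [Pi.zero_apply]
        positivity
    _ = volume.real S * M + 2 * C1 * η * Real.log T * (π * ∑ s ∈ ZZ T, mm s) := by
        rw [integral_add ((integrable_indicator_iff hSm).2 (integrableOn_const hSf)) (i1.const_mul _),
          integral_const_mul, i2, integral_indicator hSm, setIntegral_const, smul_eq_mul]
    _ ≤ (V + 4) * M + 2 * C1 * η * Real.log T * (π * (C2 * (T * Real.log T))) := by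
        have := hN T hT
        gcongr
    _ ≤ _ := by
        rw [hM]
        have h1 : 0 ≤ 2 * C1 * π * C2 * ((V + 4) * (Real.log T / η) ^ 2) := by positivity
        have h2 : 0 ≤ C1 ^ 2 * (η * Real.log T * (T * Real.log T)) := by positivity
        have e1 : (V + 4) * (C1 * Real.log T / η) ^ 2 = C1 ^ 2 * ((V + 4) * (Real.log T / η) ^ 2) := by ring
        rw [e1]
        linarith

lemma eps_lim {y e : ℝ → ℝ} {D : ℝ} (hy : Tendsto y atTop (𝓝 D))
    (h : ∀ ε : ℝ, 0 < ε → ε ≤ 1 → ∀ᶠ T in atTop, e T ≤ (1 + ε) * y T + ε ∧ y T ≤ (1 + ε) * e T + ε) :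
    Tendsto e atTop (𝓝 D) := by
  rw [tendsto_order]
  constructor
  · intro x hx
    obtain ⟨ε, hε, hε1, hε2⟩ : ∃ ε : ℝ, 0 < ε ∧ ε ≤ 1 ∧ (1 + ε) * x + ε < D := by
      have h1 : Tendsto (fun ε : ℝ => (1 + ε) * x + ε) (𝓝[>] 0) (𝓝 ((1 + 0) * x + 0)) := by
        apply Tendsto.mono_left _ nhdsWithin_le_nhds
        exact (by fun_prop : Continuous fun ε : ℝ => (1 + ε) * x + ε).tendsto 0
      have h3 := (h1.eventually_lt_const (show (1 + 0) * x + 0 < D by linarith)).and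
        (Ioo_mem_nhdsGT (show (0 : ℝ) < 1 by norm_num))
      obtain ⟨ε, h4, h5⟩ := h3.exists
      exact ⟨ε, h5.1, h5.2.le, h4⟩
    filter_upwards [hy.eventually_const_lt hε2, h ε hε hε1] with T h1 h2
    by_contra hcon
    rw [not_lt] at hcon
    have : (1 + ε) * e T ≤ (1 + ε) * x := by gcongr
    linarith [h2.2]
  · intro x hx
    obtain ⟨ε, hε, hε1, hε2⟩ : ∃ ε : ℝ, 0 < ε ∧ ε ≤ 1 ∧ (1 + ε) * D + ε < x := by
      have h1 : Tendsto (fun ε : ℝ => (1 + ε) * D + ε) (𝓝[>] 0) (𝓝 ((1 + 0) * D + 0)) := by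
        apply Tendsto.mono_left _ nhdsWithin_le_nhds
        exact (by fun_prop : Continuous fun ε : ℝ => (1 + ε) * D + ε).tendsto 0
      have h3 := (h1.eventually_lt_const (show (1 + 0) * D + 0 < x by linarith)).and
        (Ioo_mem_nhdsGT (show (0 : ℝ) < 1 by norm_num))
      obtain ⟨ε, h4, h5⟩ := h3.exists
      exact ⟨ε, h5.1, h5.2.le, h4⟩
    have h3 : Tendsto (fun T => (1 + ε) * y T + ε) atTop (𝓝 ((1 + ε) * D + ε)) := (hy.const_mul _).add_const _
    filter_upwards [h3.eventually_lt_const hε2, h ε hε hε1] with T h1 h2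
    linarith [h2.1]

/-- **the mean square of the Poisson sums** -/
theorem PU_mean (hRH : RiemannHypothesis)
    (h : ∀ b : ℝ, 0 ≤ b → Tendsto (fun T => Ph (vs T) b) atTop (𝓝 (mp b))) {c : ℝ} (hc : 0 < c) :
    Tendsto (fun T => (∫ v, PU T (c / (2 * Real.log T)) v ^ 2) / (T * Real.log T ^ 2)) atTop
      (𝓝 ((sg c + 1 / 2) / 2)) := by
  have hD : 0 < (sg c + 1 / 2) / 2 := by have := sg_pos hc; positivity
  obtain ⟨K, V0, hK, hV0, hYP⟩ := Y_PU hRH
  obtain ⟨C1, hC1, hout⟩ := PU_out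
  obtain ⟨C2, hC2, hcr⟩ := Yf_crude hRH
  obtain ⟨B, hB⟩ : ∃ B : ℝ, B = (K * (1 + c)) ^ 2 := ⟨_, rfl⟩
  have hB0 : 0 ≤ B := by rw [hB]; positivity
  have hη : ∀ᶠ T : ℝ in atTop, 0 < c / (2 * Real.log T) ∧ c / (2 * Real.log T) ≤ 1 / 16 := by
    filter_upwards [Real.tendsto_log_atTop.eventually_ge_atTop (8 * c + 1)] with T hT
    have hl : 0 < Real.log T := by linarith
    refine ⟨by positivity, ?_⟩
    rw [div_le_div_iff₀ (by positivity) (by norm_num)]
    linarith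
  refine eps_lim (mean_Y hRH h hc) fun ε hε hε1 => ?_
  -- error terms
  have hl2 : Tendsto (fun T : ℝ => Real.log T ^ 2 / T) atTop (𝓝 0) := by
    have := (isLittleO_log_rpow_atTop (r := 1 / 2) (by norm_num)).tendsto_div_nhds_zero
    have h2 := this.pow 2
    rw [zero_pow (by norm_num)] at h2
    refine h2.congr' ?_
    filter_upwards [eventually_gt_atTop 0] with T hT
    rw [div_pow, ← Real.rpow_natCast (T ^ (1 / 2 : ℝ)), ← Real.rpow_mul hT.le]
    norm_num
  have hl1 : Tendsto (fun T : ℝ => 1 / Real.log T) atTop (𝓝 0) := by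
    refine (tendsto_inv_atTop_zero.comp Real.tendsto_log_atTop).congr fun T => ?_
    simp
  have hl3 : Tendsto (fun T : ℝ => T ^ (-(1 / 2) : ℝ)) atTop (𝓝 0) := tendsto_rpow_neg_atTop (by norm_num)
  have herr : Tendsto (fun T : ℝ => (1 + 1 / ε) * B * (1 / Real.log T * (1 / Real.log T)) +
      C1 * (4 * (V0 + 4) / c ^ 2 * (Real.log T ^ 2 / T) + c / 2 * (1 / Real.log T)) +
      8 * C2 / c ^ 2 * (V0 * (V0 ^ ((1 : ℝ) / 2)) * (1 / T) + T ^ (-(1 / 2) : ℝ))) atTop (𝓝 0) := by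
    have h1 := ((hl1.mul hl1).const_mul ((1 + 1 / ε) * B)).add
      ((((hl2.const_mul (4 * (V0 + 4) / c ^ 2)).add (hl1.const_mul (c / 2))).const_mul C1))
    have hT1 : Tendsto (fun T : ℝ => 1 / T) atTop (𝓝 0) := by
      simpa using tendsto_inv_atTop_zero (𝕜 := ℝ)
    have h2 := h1.add (((hT1.const_mul (V0 * (V0 ^ ((1 : ℝ) / 2)))).add hl3).const_mul (8 * C2 / c ^ 2))
    simpa using h2
  filter_upwards [hη, eventually_ge_atTop (V0 + 2), herr.eventually_lt_const hε] with T hT hT1 hTe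
  obtain ⟨η, hηd⟩ : ∃ η : ℝ, η = c / (2 * Real.log T) := ⟨_, rfl⟩
  rw [← hηd] at hT ⊢
  have hT10 : 10 ≤ T := by linarith
  have hT0 : 0 < T := by linarith
  have hlog : 0 < Real.log T := Real.log_pos (by linarith)
  have hηL : η * Real.log T = c / 2 := by rw [hηd]; field_simp
  have hLη : Real.log T / η = 2 * Real.log T ^ 2 / c := by rw [hηd]; field_simp
  -- the middle range
  obtain ⟨I, hI⟩ : ∃ I : Set ℝ, I = Ioc V0 (T - 1) := ⟨_, rfl⟩
  have hIm : MeasurableSet I := by rw [hI]; exact measurableSet_Ioc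
  have hclose : ∀ v ∈ I, (PU T η v - Yf η v) ^ 2 ≤ B := by
    intro v hv
    rw [hI] at hv
    have h1 := hYP T v η hv.1.le hv.2 hT.1 hT.2
    rw [hηL] at h1
    rw [← sq_abs, hB]
    refine pow_le_pow_left₀ (abs_nonneg _) (h1.trans ?_) 2
    gcongr
    linarith
  have hYi : IntegrableOn (fun v => Yf η v ^ 2) (Ioc 1 T) := by
    obtain ⟨C, -, hg⟩ := gY_int hRH
    have h1 := ((hg η hT.1 hT.2).1.mono_set Ioc_subset_Ioi_self (s := Ioc 1 T)).const_mul (T ^ 2 / 4)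
    refine Integrable.mono' h1 ((Yf_meas hRH hT.1).pow_const 2).aestronglyMeasurable ?_
    refine (ae_restrict_iff' measurableSet_Ioc).2 (Filter.Eventually.of_forall fun v hv => ?_)
    have hv0 : 0 < v := by linarith [hv.1]
    rw [Real.norm_eq_abs, abs_of_nonneg (sq_nonneg _)]
    have h2 : 1 ≤ T ^ 2 / 4 * (4 / v ^ 2) := by
      have e : T ^ 2 / 4 * (4 / v ^ 2) = (T / v) ^ 2 := by field_simp
      rw [e]
      have : 1 ≤ T / v := (one_le_div hv0).2 hv.2
      nlinarith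
    calc Yf η v ^ 2 = 1 * Yf η v ^ 2 := (one_mul _).symm
      _ ≤ (T ^ 2 / 4 * (4 / v ^ 2)) * Yf η v ^ 2 := by gcongr
      _ = _ := by ring
  have hPi := (PU_sq T hT.1).1
  have hIsub : I ⊆ Ioc 1 T := by
    rw [hI]
    exact fun v hv => ⟨by linarith [hv.1], by linarith [hv.2]⟩
  have hvol : volume.real I ≤ T := by
    rw [hI, Real.volume_real_Ioc]
    exact max_le (by linarith) (by linarith)
  have hIf : volume I ≠ ⊤ := by rw [hI]; exact measure_Ioc_lt_top.ne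
  have hIc : IntegrableOn (fun _ : ℝ => (1 + 1 / ε) * B) I := integrableOn_const hIf
  have hIcv : ∫ v in I, (1 + 1 / ε) * B ≤ (1 + 1 / ε) * B * T := by
    rw [setIntegral_const, smul_eq_mul, mul_comm]
    gcongr
  have hYI : IntegrableOn (fun v => Yf η v ^ 2) I := hYi.mono_set hIsub
  have hPI : IntegrableOn (fun v => PU T η v ^ 2) I := hPi.integrableOn
  have m1 : ∫ v in I, PU T η v ^ 2 ≤ (1 + ε) * (∫ v in I, Yf η v ^ 2) + (1 + 1 / ε) * B * T := by
    calc ∫ v in I, PU T η v ^ 2 ≤ ∫ v in I, ((1 + ε) * Yf η v ^ 2 + (1 + 1 / ε) * B) := by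
          refine setIntegral_mono_on hPI ((hYI.const_mul _).add hIc) hIm fun v hv => ?_
          have h1 := sq_split (a := Yf η v) (b := PU T η v - Yf η v) hε
          have h2 := hclose v hv
          rw [show Yf η v + (PU T η v - Yf η v) = PU T η v by ring] at h1
          refine h1.trans ?_
          gcongr
      _ ≤ _ := by
          rw [integral_add (hYI.const_mul _) hIc, integral_const_mul]
          linarith
  have m2 : ∫ v in I, Yf η v ^ 2 ≤ (1 + ε) * (∫ v in I, PU T η v ^ 2) + (1 + 1 / ε) * B * T := by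
    calc ∫ v in I, Yf η v ^ 2 ≤ ∫ v in I, ((1 + ε) * PU T η v ^ 2 + (1 + 1 / ε) * B) := by
          refine setIntegral_mono_on hYI ((hPI.const_mul _).add hIc) hIm fun v hv => ?_
          have h1 := sq_split (a := PU T η v) (b := Yf η v - PU T η v) hε
          have h2 := hclose v hv
          rw [show PU T η v + (Yf η v - PU T η v) = Yf η v by ring] at h1
          rw [show (PU T η v - Yf η v) ^ 2 = (Yf η v - PU T η v) ^ 2 by ring] at h2
          refine h1.trans ?_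
          gcongr
      _ ≤ _ := by
          rw [integral_add (hPI.const_mul _) hIc, integral_const_mul]
          linarith
  have e1 : ∫ v, PU T η v ^ 2 = (∫ v in I, PU T η v ^ 2) + ∫ v in Iᶜ, PU T η v ^ 2 :=
    (integral_add_compl hIm hPi).symm
  have o1 := hout T V0 η hT10 (by linarith) (by linarith) hT.1 (by linarith [hT.2])
  rw [← hI, hηL, hLη] at o1
  have p0 : 0 ≤ ∫ v in Iᶜ, PU T η v ^ 2 := integral_nonneg fun v => sq_nonneg _
  have p1 : ∫ v in I, Yf η v ^ 2 ≤ ∫ v in Ioc 1 T, Yf η v ^ 2 :=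
    setIntegral_mono_set hYi (ae_of_all _ fun v => sq_nonneg _) hIsub.eventuallyLE
  have hcη : C2 / η ^ 2 = 4 * C2 / c ^ 2 * Real.log T ^ 2 := by rw [hηd]; field_simp; ring
  have e2 : ∫ v in Ioc 1 T, Yf η v ^ 2 = (∫ v in Ioc 1 V0, Yf η v ^ 2) + (∫ v in I, Yf η v ^ 2) +
      ∫ v in Ioc (T - 1) T, Yf η v ^ 2 := by
    have q1 : Ioc 1 T = (Ioc 1 V0 ∪ I) ∪ Ioc (T - 1) T := by
      rw [hI, Ioc_union_Ioc_eq_Ioc (by linarith) (by linarith), Ioc_union_Ioc_eq_Ioc (by linarith) (by linarith)]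
    have q2 : IntegrableOn (fun v => Yf η v ^ 2) (Ioc 1 V0) := hYi.mono_set (Ioc_subset_Ioc_right (by linarith))
    have q3 : IntegrableOn (fun v => Yf η v ^ 2) (Ioc (T - 1) T) := hYi.mono_set (Ioc_subset_Ioc_left (by linarith))
    have q4 : Disjoint (Ioc 1 V0) I := by
      rw [hI]
      exact Set.disjoint_left.2 fun v hv1 hv2 => absurd hv1.2 (not_le.2 hv2.1)
    have q5 : Disjoint (Ioc 1 V0 ∪ I) (Ioc (T - 1) T) := by
      rw [hI, Ioc_union_Ioc_eq_Ioc (by linarith) (by linarith)]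
      exact Set.disjoint_left.2 fun v hv1 hv2 => absurd hv1.2 (not_le.2 hv2.1)
    rw [q1, setIntegral_union q5 measurableSet_Ioc (q2.union hYI) q3, setIntegral_union q4 hIm q2 hYI]
  have e3 : ∫ v in Ioc 1 V0, Yf η v ^ 2 ≤ C2 / η ^ 2 * (V0 * V0 ^ ((1 : ℝ) / 2)) := by
    calc ∫ v in Ioc 1 V0, Yf η v ^ 2 ≤ ∫ v in Ioc 1 V0, C2 / η ^ 2 * V0 ^ ((1 : ℝ) / 2) := by
          refine setIntegral_mono_on (hYi.mono_set (Ioc_subset_Ioc_right (by linarith)))
            (integrableOn_const measure_Ioc_lt_top.ne) measurableSet_Ioc fun v hv => ?_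
          have hv1 : (1 : ℝ) < v := hv.1
          refine (hcr η v hT.1 hT.2 hv1.le).trans ?_
          gcongr
          exact hv.2
      _ = (V0 - 1) * (C2 / η ^ 2 * V0 ^ ((1 : ℝ) / 2)) := by
          rw [setIntegral_const, Real.volume_real_Ioc, max_eq_left (by linarith), smul_eq_mul]
      _ ≤ V0 * (C2 / η ^ 2 * V0 ^ ((1 : ℝ) / 2)) := by gcongr; linarith
      _ = _ := by ring
  have e4 : ∫ v in Ioc (T - 1) T, Yf η v ^ 2 ≤ C2 / η ^ 2 * T ^ ((1 : ℝ) / 2) := by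
    calc ∫ v in Ioc (T - 1) T, Yf η v ^ 2 ≤ ∫ v in Ioc (T - 1) T, C2 / η ^ 2 * T ^ ((1 : ℝ) / 2) := by
          refine setIntegral_mono_on (hYi.mono_set (Ioc_subset_Ioc_left (by linarith)))
            (integrableOn_const measure_Ioc_lt_top.ne) measurableSet_Ioc fun v hv => ?_
          have hv1 : (1 : ℝ) < v := by linarith [hv.1]
          refine (hcr η v hT.1 hT.2 hv1.le).trans ?_
          gcongr
          exact hv.2
      _ = _ := by
          rw [setIntegral_const, Real.volume_real_Ioc, max_eq_left (by linarith), smul_eq_mul]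
          ring
  rw [hcη] at e3 e4
  obtain ⟨N, hN⟩ : ∃ N : ℝ, N = T * Real.log T ^ 2 := ⟨_, rfl⟩
  have hN0 : 0 < N := by rw [hN]; positivity
  -- the errors divided by `N`
  have r1 : (1 + 1 / ε) * B * T / N = (1 + 1 / ε) * B * (1 / Real.log T * (1 / Real.log T)) := by
    rw [hN]; field_simp
  have r2 : C1 * ((V0 + 4) * (2 * Real.log T ^ 2 / c) ^ 2 + c / 2 * (T * Real.log T)) / N =
      C1 * (4 * (V0 + 4) / c ^ 2 * (Real.log T ^ 2 / T) + c / 2 * (1 / Real.log T)) := by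
    rw [hN]; field_simp; ring
  have r3 : (4 * C2 / c ^ 2 * Real.log T ^ 2 * (V0 * V0 ^ ((1 : ℝ) / 2)) + 4 * C2 / c ^ 2 * Real.log T ^ 2 * T ^ ((1 : ℝ) / 2)) / N =
      4 * C2 / c ^ 2 * (V0 * (V0 ^ ((1 : ℝ) / 2)) * (1 / T) + T ^ (-(1 / 2) : ℝ)) := by
    have h1 : T ^ (-(1 / 2) : ℝ) = T ^ ((1 : ℝ) / 2) / T := by
      rw [show (-(1 / 2) : ℝ) = 1 / 2 - 1 by norm_num, Real.rpow_sub hT0, Real.rpow_one]
    rw [hN, h1]; field_simp
  have n1 : 0 ≤ (1 + 1 / ε) * B * (1 / Real.log T * (1 / Real.log T)) := by positivity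
  have n2 : 0 ≤ C1 * (4 * (V0 + 4) / c ^ 2 * (Real.log T ^ 2 / T) + c / 2 * (1 / Real.log T)) := by positivity
  have n3 : 0 ≤ C2 / c ^ 2 * (V0 * (V0 ^ ((1 : ℝ) / 2)) * (1 / T) + T ^ (-(1 / 2) : ℝ)) := by positivity
  have e8 : 8 * C2 / c ^ 2 * (V0 * (V0 ^ ((1 : ℝ) / 2)) * (1 / T) + T ^ (-(1 / 2) : ℝ)) =
    8 * (C2 / c ^ 2 * (V0 * (V0 ^ ((1 : ℝ) / 2)) * (1 / T) + T ^ (-(1 / 2) : ℝ))) := by ring
  rw [e8] at hTe
  rw [← hN]
  constructor
  · have t1 : ∫ v, PU T η v ^ 2 ≤ (1 + ε) * (∫ v in Ioc 1 T, Yf η v ^ 2) + (1 + 1 / ε) * B * T +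
        C1 * ((V0 + 4) * (2 * Real.log T ^ 2 / c) ^ 2 + c / 2 * (T * Real.log T)) := by
      have : (1 + ε) * (∫ v in I, Yf η v ^ 2) ≤ (1 + ε) * (∫ v in Ioc 1 T, Yf η v ^ 2) := by gcongr
      linarith
    calc (∫ v, PU T η v ^ 2) / N ≤ ((1 + ε) * (∫ v in Ioc 1 T, Yf η v ^ 2) + (1 + 1 / ε) * B * T +
        C1 * ((V0 + 4) * (2 * Real.log T ^ 2 / c) ^ 2 + c / 2 * (T * Real.log T))) / N := by gcongr
      _ = (1 + ε) * ((∫ v in Ioc 1 T, Yf η v ^ 2) / N) + (1 + 1 / ε) * B * T / N +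
          C1 * ((V0 + 4) * (2 * Real.log T ^ 2 / c) ^ 2 + c / 2 * (T * Real.log T)) / N := by ring
      _ ≤ _ := by
          rw [r1, r2]
          linarith
  · have t1 : ∫ v in Ioc 1 T, Yf η v ^ 2 ≤ (1 + ε) * (∫ v, PU T η v ^ 2) + (1 + 1 / ε) * B * T +
        (4 * C2 / c ^ 2 * Real.log T ^ 2 * (V0 * V0 ^ ((1 : ℝ) / 2)) + 4 * C2 / c ^ 2 * Real.log T ^ 2 * T ^ ((1 : ℝ) / 2)) := by
      have : (1 + ε) * (∫ v in I, PU T η v ^ 2) ≤ (1 + ε) * (∫ v, PU T η v ^ 2) :=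
        mul_le_mul_of_nonneg_left (by linarith) (by linarith)
      linarith
    calc (∫ v in Ioc 1 T, Yf η v ^ 2) / N ≤ ((1 + ε) * (∫ v, PU T η v ^ 2) + (1 + 1 / ε) * B * T +
        (4 * C2 / c ^ 2 * Real.log T ^ 2 * (V0 * V0 ^ ((1 : ℝ) / 2)) + 4 * C2 / c ^ 2 * Real.log T ^ 2 * T ^ ((1 : ℝ) / 2))) / N := by
          gcongr
      _ = (1 + ε) * ((∫ v, PU T η v ^ 2) / N) + (1 + 1 / ε) * B * T / N +
          (4 * C2 / c ^ 2 * Real.log T ^ 2 * (V0 * V0 ^ ((1 : ℝ) / 2)) + 4 * C2 / c ^ 2 * Real.log T ^ 2 * T ^ ((1 : ℝ) / 2)) / N := by ring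
      _ ≤ _ := by
          rw [r1, r3]
          have e4 : 4 * C2 / c ^ 2 * (V0 * (V0 ^ ((1 : ℝ) / 2)) * (1 / T) + T ^ (-(1 / 2) : ℝ)) =
            4 * (C2 / c ^ 2 * (V0 * (V0 ^ ((1 : ℝ) / 2)) * (1 / T) + T ^ (-(1 / 2) : ℝ))) := by ring
          rw [e4]
          linarith

end Pool.Agent.U507.PC
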