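import Pool.Agent.U507.PC.FS
import Pool.Agent.U507.GM.ZUc

/-!
# Montgomery's function and the mean square of the sums of Poisson kernels
-/

set_option autoImplicit false

open MeasureTheory Filter Topology Set
open scoped Real

namespace Pool.Agent.U507.PC

open Pool.Agent.Y749.Rig (Fr Fr_cont Fr_nonneg Fr_even Fr_lim Mp Mp_integral nT nT_pos RR QD fl ZZ mm mm_nonneg)
open Pool.Agent.U507.GM (PU PU_sq phi_int phi_prod int_even)

/-- the logarithm of the quotient of the two denominators -/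
lemma log_quot_lim {η : ℝ} (hη : 0 < η) (a : ℝ) (l : Filter ℝ) (hl : Tendsto (fun v : ℝ => |v|) l atTop) :
    Tendsto (fun v : ℝ => Real.log (η ^ 2 + v ^ 2) - Real.log (η ^ 2 + (v - a) ^ 2)) l (𝓝 0) := by
  have h1 : Tendsto (fun v : ℝ => (2 * |a| * |v| + a ^ 2) / v ^ 2) l (𝓝 0) := by
    have e : ∀ᶠ v in l, (2 * |a|) / |v| + a ^ 2 / (|v| * |v|) = (2 * |a| * |v| + a ^ 2) / v ^ 2 := by
      filter_upwards [hl.eventually_gt_atTop 0] with v hv
      rw [← sq_abs v]
      field_simp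
    refine Tendsto.congr' e ?_
    have h2 : Tendsto (fun v : ℝ => (2 * |a|) / |v|) l (𝓝 0) := tendsto_const_nhds.div_atTop hl
    have h3 : Tendsto (fun v : ℝ => a ^ 2 / (|v| * |v|)) l (𝓝 0) :=
      tendsto_const_nhds.div_atTop (hl.atTop_mul_atTop₀ hl)
    simpa using h2.add h3
  have hq : Tendsto (fun v : ℝ => (η ^ 2 + (v - a) ^ 2) / (η ^ 2 + v ^ 2)) l (𝓝 1) := by
    rw [tendsto_iff_norm_sub_tendsto_zero]
    refine squeeze_zero' (Eventually.of_forall fun v => norm_nonneg _) ?_ h1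
    filter_upwards [hl.eventually_gt_atTop 0] with v hv
    have hv0 : v ≠ 0 := abs_pos.1 hv
    have hv2 : 0 < v ^ 2 := by positivity
    have h4 : 0 < η ^ 2 + v ^ 2 := by positivity
    have e : (η ^ 2 + (v - a) ^ 2) / (η ^ 2 + v ^ 2) - 1 = (-(2 * a * v) + a ^ 2) / (η ^ 2 + v ^ 2) := by
      field_simp
      ring
    rw [e, Real.norm_eq_abs, abs_div, abs_of_pos h4]
    apply div_le_div₀ (by positivity) _ hv2 (by nlinarith [sq_nonneg η])
    refine (abs_add_le _ _).trans ?_
    rw [abs_neg, abs_mul, abs_mul, abs_two, abs_of_nonneg (sq_nonneg a)]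
  have h5 := (Real.continuousAt_log one_ne_zero).tendsto.comp hq
  rw [Real.log_one] at h5
  have h6 := h5.neg
  rw [neg_zero] at h6
  refine h6.congr fun v => ?_
  have h4 : 0 < η ^ 2 + v ^ 2 := by positivity
  have h7 : 0 < η ^ 2 + (v - a) ^ 2 := by positivity
  simp only [Function.comp_apply]
  rw [Real.log_div h7.ne' h4.ne']
  ring

/-- the convolution of two Poisson kernels -/
lemma cauchy0 {η : ℝ} (hη : 0 < η) (a : ℝ) :
    ∫ v : ℝ, (η / (η ^ 2 + (v - 0) ^ 2)) * (η / (η ^ 2 + (v - a) ^ 2)) = π * (2 * η / (4 * η ^ 2 + a ^ 2)) := by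
  obtain ⟨hi, -⟩ := phi_prod hη 0 a
  rcases eq_or_ne a 0 with ha | ha
  · -- the diagonal
    subst ha
    have hd : ∀ v : ℝ, HasDerivAt (fun v : ℝ => 1 / (2 * η) * (Real.arctan (v / η) + η * v / (η ^ 2 + v ^ 2)))
        ((η / (η ^ 2 + (v - 0) ^ 2)) * (η / (η ^ 2 + (v - 0) ^ 2))) v := by
      intro v
      have h0 : 0 < η ^ 2 + v ^ 2 := by positivity
      have h1 : HasDerivAt (fun v : ℝ => Real.arctan (v / η)) (1 / (1 + (v / η) ^ 2) * (1 / η)) v :=
        ((hasDerivAt_id v).div_const η).arctan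
      have h2 : HasDerivAt (fun v : ℝ => η * v / (η ^ 2 + v ^ 2))
          ((η * (η ^ 2 + v ^ 2) - η * v * (2 * v)) / (η ^ 2 + v ^ 2) ^ 2) v := by
        have h3 : HasDerivAt (fun v : ℝ => η * v) η v := by simpa using (hasDerivAt_id v).const_mul η
        have h4 : HasDerivAt (fun v : ℝ => η ^ 2 + v ^ 2) (2 * v) v := by
          have := (hasDerivAt_pow 2 v).const_add (η ^ 2)
          simpa using this
        exact h3.div h4 h0.ne'
      refine ((h1.add h2).const_mul (1 / (2 * η))).congr_deriv ?_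
      have h5 : 0 < 1 + (v / η) ^ 2 := by positivity
      rw [sub_zero]
      have e1 : 1 + (v / η) ^ 2 = (η ^ 2 + v ^ 2) / η ^ 2 := by field_simp
      rw [e1]
      field_simp
      ring
    have hv1 : ∀ (l : Filter ℝ), Tendsto (fun v : ℝ => |v|) l atTop →
        Tendsto (fun v : ℝ => η * v / (η ^ 2 + v ^ 2)) l (𝓝 0) := by
      intro l hl
      rw [tendsto_zero_iff_norm_tendsto_zero]
      refine squeeze_zero' (Eventually.of_forall fun v => norm_nonneg _) ?_
        (tendsto_const_nhds.div_atTop hl : Tendsto (fun v : ℝ => η / |v|) l (𝓝 0))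
      filter_upwards [hl.eventually_gt_atTop 0] with v hv
      have hv0 : v ≠ 0 := abs_pos.1 hv
      have hv2 : 0 < v ^ 2 := by positivity
      have h4 : 0 < η ^ 2 + v ^ 2 := by positivity
      rw [Real.norm_eq_abs, abs_div, abs_of_pos h4, abs_mul, abs_of_pos hη, div_le_div_iff₀ h4 hv]
      have : |v| * |v| = v ^ 2 := by rw [← sq, sq_abs]
      nlinarith [sq_nonneg η]
    have ht : Tendsto (fun v : ℝ => 1 / (2 * η) * (Real.arctan (v / η) + η * v / (η ^ 2 + v ^ 2))) atTop
        (𝓝 (1 / (2 * η) * (π / 2 + 0))) :=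
      (((Real.tendsto_arctan_atTop.mono_right nhdsWithin_le_nhds).comp (tendsto_id.atTop_div_const hη)).add
        (hv1 _ tendsto_abs_atTop_atTop)).const_mul _
    have hb : Tendsto (fun v : ℝ => 1 / (2 * η) * (Real.arctan (v / η) + η * v / (η ^ 2 + v ^ 2))) atBot
        (𝓝 (1 / (2 * η) * (-(π / 2) + 0))) :=
      (((Real.tendsto_arctan_atBot.mono_right nhdsWithin_le_nhds).comp (tendsto_id.atBot_div_const hη)).add
        (hv1 _ tendsto_abs_atBot_atTop)).const_mul _
    rw [integral_of_hasDerivAt_of_tendsto hd hi hb ht]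
    field_simp
    ring
  · obtain ⟨B, hB⟩ : ∃ B : ℝ, B = η ^ 2 / (a ^ 2 + 4 * η ^ 2) := ⟨_, rfl⟩
    have hd : ∀ v : ℝ, HasDerivAt (fun v : ℝ => B / η * (Real.arctan (v / η) + Real.arctan ((v - a) / η)) +
        B / a * (Real.log (η ^ 2 + v ^ 2) - Real.log (η ^ 2 + (v - a) ^ 2)))
        ((η / (η ^ 2 + (v - 0) ^ 2)) * (η / (η ^ 2 + (v - a) ^ 2))) v := by
      intro v
      have h0 : 0 < η ^ 2 + v ^ 2 := by positivity
      have h0' : 0 < η ^ 2 + (v - a) ^ 2 := by positivity
      have h1 : HasDerivAt (fun v : ℝ => Real.arctan (v / η)) (1 / (1 + (v / η) ^ 2) * (1 / η)) v :=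
        ((hasDerivAt_id v).div_const η).arctan
      have h2 : HasDerivAt (fun v : ℝ => Real.arctan ((v - a) / η)) (1 / (1 + ((v - a) / η) ^ 2) * (1 / η)) v :=
        (((hasDerivAt_id v).sub_const a).div_const η).arctan
      have h3 : HasDerivAt (fun v : ℝ => Real.log (η ^ 2 + v ^ 2)) (2 * v / (η ^ 2 + v ^ 2)) v := by
        have h4 : HasDerivAt (fun v : ℝ => η ^ 2 + v ^ 2) (2 * v) v := by
          have := (hasDerivAt_pow 2 v).const_add (η ^ 2)
          simpa using this
        exact h4.log h0.ne'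
      have h5 : HasDerivAt (fun v : ℝ => Real.log (η ^ 2 + (v - a) ^ 2)) (2 * (v - a) / (η ^ 2 + (v - a) ^ 2)) v := by
        have h4 : HasDerivAt (fun v : ℝ => η ^ 2 + (v - a) ^ 2) (2 * (v - a)) v := by
          have := (((hasDerivAt_id v).sub_const a).pow 2).const_add (η ^ 2)
          simpa using this
        exact h4.log h0'.ne'
      refine (((h1.add h2).const_mul (B / η)).add ((h3.sub h5).const_mul (B / a))).congr_deriv ?_
      have e1 : 1 + (v / η) ^ 2 = (η ^ 2 + v ^ 2) / η ^ 2 := by field_simp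
      have e2 : 1 + ((v - a) / η) ^ 2 = (η ^ 2 + (v - a) ^ 2) / η ^ 2 := by field_simp
      have h6 : 0 < a ^ 2 + 4 * η ^ 2 := by positivity
      rw [e1, e2, hB, sub_zero]
      field_simp
      ring
    have htop : Tendsto (fun v : ℝ => B / η * (Real.arctan (v / η) + Real.arctan ((v - a) / η)) +
        B / a * (Real.log (η ^ 2 + v ^ 2) - Real.log (η ^ 2 + (v - a) ^ 2))) atTop
        (𝓝 (B / η * (π / 2 + π / 2) + B / a * 0)) := by
      refine ((((Real.tendsto_arctan_atTop.mono_right nhdsWithin_le_nhds).comp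
        (tendsto_id.atTop_div_const hη)).add ((Real.tendsto_arctan_atTop.mono_right nhdsWithin_le_nhds).comp
        ((tendsto_atTop_add_const_right _ (-a) tendsto_id).atTop_div_const hη))).const_mul _).add
        ((log_quot_lim hη a _ tendsto_abs_atTop_atTop).const_mul _)
    have hbot : Tendsto (fun v : ℝ => B / η * (Real.arctan (v / η) + Real.arctan ((v - a) / η)) +
        B / a * (Real.log (η ^ 2 + v ^ 2) - Real.log (η ^ 2 + (v - a) ^ 2))) atBot
        (𝓝 (B / η * (-(π / 2) + -(π / 2)) + B / a * 0)) := by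
      refine ((((Real.tendsto_arctan_atBot.mono_right nhdsWithin_le_nhds).comp
        (tendsto_id.atBot_div_const hη)).add ((Real.tendsto_arctan_atBot.mono_right nhdsWithin_le_nhds).comp
        ((tendsto_atBot_add_const_right _ (-a) tendsto_id).atBot_div_const hη))).const_mul _).add
        ((log_quot_lim hη a _ tendsto_abs_atBot_atTop).const_mul _)
    rw [integral_of_hasDerivAt_of_tendsto hd hi hbot htop, hB]
    have h6 : 0 < a ^ 2 + 4 * η ^ 2 := by positivity
    have e : 4 * η ^ 2 + a ^ 2 = a ^ 2 + 4 * η ^ 2 := by ring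
    rw [e]
    field_simp
    ring

lemma cauchy_conv {η : ℝ} (hη : 0 < η) (a b : ℝ) :
    ∫ v : ℝ, (η / (η ^ 2 + (v - a) ^ 2)) * (η / (η ^ 2 + (v - b) ^ 2)) =
      π * (2 * η / (4 * η ^ 2 + (a - b) ^ 2)) := by
  have h := cauchy0 hη (b - a)
  have e : (a - b) ^ 2 = (b - a) ^ 2 := by ring
  rw [e, ← h, ← integral_sub_right_eq_self (fun v : ℝ => (η / (η ^ 2 + (v - 0) ^ 2)) *
    (η / (η ^ 2 + (v - (b - a)) ^ 2))) a]
  refine integral_congr_ae (Eventually.of_forall fun v => ?_)
  simp only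
  rw [show v - a - 0 = v - a by ring, show v - a - (b - a) = v - b by ring]

lemma PU_sq_eq (T : ℝ) {η : ℝ} (hη : 0 < η) :
    ∫ v, PU T η v ^ 2 = ∑ s ∈ ZZ T, ∑ s' ∈ ZZ T, mm s * mm s' *
      (π * (2 * η / (4 * η ^ 2 + (s.im - s'.im) ^ 2))) := by
  have e : (fun v => PU T η v ^ 2) = fun v => ∑ s ∈ ZZ T, ∑ s' ∈ ZZ T,
      (mm s * mm s') * ((η / (η ^ 2 + (v - s.im) ^ 2)) * (η / (η ^ 2 + (v - s'.im) ^ 2))) := by
    funext v
    unfold PU
    rw [pow_two, Finset.sum_mul_sum]
    refine Finset.sum_congr rfl fun s _ => Finset.sum_congr rfl fun s' _ => ?_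
    ring
  have hi : ∀ s s' : ℂ, Integrable fun v : ℝ =>
      (mm s * mm s') * ((η / (η ^ 2 + (v - s.im) ^ 2)) * (η / (η ^ 2 + (v - s'.im) ^ 2))) := fun s s' =>
    ((phi_prod hη s.im s'.im).1).const_mul _
  rw [e, integral_finsetSum _ fun s _ => integrable_finsetSum _ fun s' _ => hi s s']
  refine Finset.sum_congr rfl fun s _ => ?_
  rw [integral_finsetSum _ fun s' _ => hi s s']
  refine Finset.sum_congr rfl fun s' _ => ?_
  rw [integral_const_mul, cauchy_conv hη]

lemma exp_cos {c : ℝ} (hc : 0 < c) (u : ℝ) :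
    IntegrableOn (fun s : ℝ => Real.exp (-(c * s)) * Real.cos (s * u)) (Ioi 0) ∧
    ∫ s in Ioi (0 : ℝ), Real.exp (-(c * s)) * Real.cos (s * u) = c / (c ^ 2 + u ^ 2) := by
  have hre : ((-c : ℂ) + u * Complex.I).re < 0 := by simp; exact hc
  have h1 := integral_exp_mul_complex_Ioi hre 0
  have h2 := congrArg Complex.re h1
  have hi := integrableOn_exp_mul_complex_Ioi hre 0
  have h3 : (∫ x : ℝ in Ioi 0, Complex.exp ((-c + u * Complex.I) * x)).re =
      ∫ x : ℝ in Ioi 0, (Complex.exp ((-c + u * Complex.I) * x)).re := by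
    have := integral_re (𝕜 := ℂ) hi
    simpa using this.symm
  have h4 : ∀ x : ℝ, (Complex.exp ((-c + u * Complex.I) * x)).re =
      Real.exp (-(c * x)) * Real.cos (x * u) := by
    intro x
    rw [Complex.exp_re]
    congr 2
    · simp
    · simp; ring
  have h7 : IntegrableOn (fun x : ℝ => (Complex.exp ((-c + u * Complex.I) * x)).re) (Ioi 0) := hi.re
  rw [h3] at h2
  simp_rw [h4] at h2 h7
  refine ⟨h7, ?_⟩
  rw [h2]
  have h5 : (-c + u * Complex.I : ℂ) ≠ 0 := by
    intro h
    have := congrArg Complex.re h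
    simp at this
    linarith
  rw [Complex.ofReal_zero, mul_zero, Complex.exp_zero, Complex.div_re]
  have h8 : 0 < c ^ 2 + u ^ 2 := by positivity
  have h9 : 0 < c * c + u * u := by nlinarith
  simp [Complex.normSq_apply]
  field_simp

lemma expabs_int {c : ℝ} (hc : 0 < c) : Integrable fun α : ℝ => Real.exp (-(c * |α|)) := by
  have h1 : IntegrableOn (fun α : ℝ => Real.exp (-c * α)) (Ioi 0) := integrableOn_exp_mul_Ioi (by linarith) 0
  have h2 : IntegrableOn (fun α : ℝ => Real.exp (-(c * |α|))) (Ioi 0) :=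
    (integrableOn_congr_fun (fun α hα => by
      have h0 : (0 : ℝ) < α := hα
      rw [abs_of_pos h0]
      congr 1
      ring) measurableSet_Ioi).1 h1
  have h3 : IntegrableOn (fun α : ℝ => Real.exp (-(c * |α|))) (Iio 0) := by
    have h4 := h2.comp_neg
    rw [Set.neg_Ioi, neg_zero] at h4
    refine h4.congr (Eventually.of_forall fun α => ?_)
    simp only [abs_neg]
  rw [← integrableOn_univ, ← Iio_union_Ici (a := (0 : ℝ)), integrableOn_union]
  exact ⟨h3, (integrableOn_Ici_iff_integrableOn_Ioi).2 h2⟩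

lemma fl_exp {c : ℝ} (hc : 0 < c) (x : ℝ) :
    fl (fun α => Real.exp (-(c * |α|))) x = 2 * c / (c ^ 2 + (2 * π * x) ^ 2) := by
  unfold fl
  have hi : Integrable fun α : ℝ => Real.exp (-(c * |α|)) * Real.cos (2 * π * α * x) := by
    refine Integrable.mono' (expabs_int hc) (by fun_prop) (Eventually.of_forall fun α => ?_)
    rw [norm_mul, Real.norm_eq_abs, Real.norm_eq_abs, abs_of_pos (Real.exp_pos _)]
    exact mul_le_of_le_one_right (Real.exp_pos _).le (Real.abs_cos_le_one _)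
  rw [int_even (fun t => by rw [abs_neg, show 2 * π * -t * x = -(2 * π * t * x) by ring, Real.cos_neg]) hi]
  have h1 : ∫ α in Ioi 0, Real.exp (-(c * |α|)) * Real.cos (2 * π * α * x) = c / (c ^ 2 + (2 * π * x) ^ 2) := by
    rw [← (exp_cos hc (2 * π * x)).2]
    refine setIntegral_congr_fun measurableSet_Ioi fun α hα => ?_
    have h0 : (0 : ℝ) < α := hα
    rw [abs_of_pos h0, show 2 * π * α * x = α * (2 * π * x) by ring]
  rw [h1]
  ring

/-- **the Laplace transform of Montgomery's function** -/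
theorem lap_of_PU {l : Filter ℝ} (hl : l ≤ atTop) {c : ℝ} (hc : 0 < c) {D : ℝ}
    (h : Tendsto (fun T => (∫ v, PU T (c / (2 * Real.log T)) v ^ 2) / (T * Real.log T ^ 2)) l (𝓝 D)) :
    (∀ᶠ T in l, IntegrableOn (fun α => Fr T α * Real.exp (-c * α)) (Ioi 0)) ∧
    Tendsto (fun T => ∫ α in Ioi 0, Fr T α * Real.exp (-c * α)) l (𝓝 (2 * D)) := by
  have hψ := expabs_int hc
  have hq : QD (fl fun α => Real.exp (-(c * |α|))) := by
    refine ⟨2 * c * (1 / c ^ 2 + 1), fun x => ?_⟩
    rw [fl_exp hc]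
    have h1 : 0 < c ^ 2 + (2 * π * x) ^ 2 := by positivity
    rw [abs_of_nonneg (by positivity), div_le_div_iff₀ h1 (by positivity)]
    have e : 2 * c * (1 / c ^ 2 + 1) * (c ^ 2 + (2 * π * x) ^ 2) =
        2 * c * (1 + c ^ 2 + (1 / c ^ 2 + 1) * (2 * π * x) ^ 2) := by
      field_simp
    rw [e]
    have h2 : x ^ 2 ≤ (2 * π * x) ^ 2 := by
      have h3 := Real.pi_gt_three
      have h4 : (2 * π * x) ^ 2 = (4 * π ^ 2) * x ^ 2 := by ring
      rw [h4]
      apply le_mul_of_one_le_left (sq_nonneg x)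
      nlinarith
    have h3 : (2 * π * x) ^ 2 ≤ (1 / c ^ 2 + 1) * (2 * π * x) ^ 2 := by
      apply le_mul_of_one_le_left (sq_nonneg _)
      have : 0 < 1 / c ^ 2 := by positivity
      linarith
    have h4 : 0 ≤ c ^ 2 := sq_nonneg c
    have : 1 + x ^ 2 ≤ 1 + c ^ 2 + (1 / c ^ 2 + 1) * (2 * π * x) ^ 2 := by linarith
    gcongr
  have key : Tendsto (fun T => ∫ x, fl (fun α => Real.exp (-(c * |α|))) x ∂(Mp T)) l (𝓝 (4 * D)) := by
    refine (h.const_mul 4).congr' ?_
    filter_upwards [hl (eventually_ge_atTop 10)] with T hT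
    have hT0 : 0 < T := by linarith
    have hL : 0 < Real.log T := Real.log_pos (by linarith)
    rw [Mp_integral hT, PU_sq_eq T (by positivity)]
    unfold RR nT
    rw [← mul_div_assoc, div_eq_div_iff (by positivity) (by positivity), Finset.mul_sum, Finset.sum_mul, Finset.sum_mul]
    refine Finset.sum_congr rfl fun s _ => ?_
    rw [Finset.mul_sum, Finset.sum_mul, Finset.sum_mul]
    refine Finset.sum_congr rfl fun s' _ => ?_
    rw [fl_exp hc]
    have hp := Real.pi_pos
    obtain ⟨L, hLd⟩ : ∃ L : ℝ, L = Real.log T := ⟨_, rfl⟩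
    obtain ⟨d, hd⟩ : ∃ d : ℝ, d = s.im - s'.im := ⟨_, rfl⟩
    rw [← hLd, ← hd]
    rw [← hLd] at hL
    have e1 : 2 * π * (d * L / (2 * π)) = d * L := by field_simp
    rw [e1]
    have h1 : 0 < c ^ 2 + (d * L) ^ 2 := by positivity
    have e2 : 4 * (c / (2 * L)) ^ 2 + d ^ 2 = (c ^ 2 + (d * L) ^ 2) / L ^ 2 := by
      field_simp
      ring
    rw [e2]
    field_simp
    ring
  have h2 := Fr_lim hψ hq hl key
  have hev : ∀ T : ℝ, ∀ α : ℝ, Real.exp (-(c * |-α|)) * Fr T (-α) = Real.exp (-(c * |α|)) * Fr T α := fun T α => by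
    rw [abs_neg, Fr_even]
  have hint : ∀ᶠ T in l, Integrable fun α => Real.exp (-(c * |α|)) * Fr T α := by
    filter_upwards [hl (eventually_ge_atTop 10)] with T hT
    have hfin := Pool.Agent.Y749.Rig.Mp_fin T
    refine Integrable.mul_bdd (c := (Mp T).real univ) hψ (Fr_cont T).aestronglyMeasurable
      (Eventually.of_forall fun α => ?_)
    unfold Fr
    have h1 := norm_integral_le_of_norm_le_const (μ := Mp T) (C := 1)
      (f := fun x => Real.cos (2 * π * α * x) * Pool.Agent.Y749.Rig.ww (2 * π * x / Real.log T))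
      (Eventually.of_forall fun x => by
        rw [norm_mul, Real.norm_eq_abs, Real.norm_eq_abs, abs_of_pos (Pool.Agent.Y749.Rig.ww_pos _)]
        have h1 := Real.abs_cos_le_one (2 * Real.pi * α * x)
        have h2 := Pool.Agent.Y749.Rig.ww_le (2 * Real.pi * x / Real.log T)
        have h3 := Pool.Agent.Y749.Rig.ww_pos (2 * Real.pi * x / Real.log T)
        nlinarith [abs_nonneg (Real.cos (2 * Real.pi * α * x))])
    rw [one_mul] at h1
    exact h1
  have hc1 : ∀ (T : ℝ) (α : ℝ), α ∈ Ioi (0 : ℝ) → Real.exp (-(c * |α|)) * Fr T α = Fr T α * Real.exp (-c * α) := by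
    intro T α hα
    have h0 : (0 : ℝ) < α := hα
    rw [abs_of_pos h0, mul_comm]
    congr 2
    ring
  constructor
  · filter_upwards [hint] with T hT
    exact (integrableOn_congr_fun (fun α hα => hc1 T α hα) measurableSet_Ioi).1 hT.integrableOn
  · have h3 := h2.const_mul (1 / 2)
    rw [show 1 / 2 * (4 * D) = 2 * D by ring] at h3
    refine h3.congr' ?_
    filter_upwards [hint] with T hT
    rw [int_even (hev T) hT, setIntegral_congr_fun measurableSet_Ioi fun α hα => hc1 T α hα]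
    ring

end Pool.Agent.U507.PC
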