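import Pool.Agent.U507.PC.CD

/-!
# Converse, fifth step: the weighted mean square converges
-/

set_option autoImplicit false

open Complex Filter Topology Set MeasureTheory Metric
open scoped Real

namespace Pool.Agent.U507.PC

open Pool.Agent.U507.GM hiding step_low low_pt low_unif rigid

lemma four_le {s : ℝ} (hs : 0 < s) (hs1 : s ≤ 1) : s * (1 + |Real.log s|) ^ 4 ≤ 4096 * √s := by
  obtain ⟨x, hx⟩ : ∃ x : ℝ, x = -Real.log s := ⟨_, rfl⟩
  have hx0 : 0 ≤ x := by rw [hx]; have := Real.log_nonpos hs.le hs1; linarith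
  have hax : |Real.log s| = x := by rw [hx, abs_of_nonpos (by linarith)]
  have h1 : (1 + x) ^ 4 ≤ 4096 * Real.exp (x / 2) := by
    have h2 : 1 + x ≤ 8 * Real.exp (x / 8) := by
      have := Real.add_one_le_exp (x / 8)
      linarith
    calc (1 + x) ^ 4 ≤ (8 * Real.exp (x / 8)) ^ 4 := pow_le_pow_left₀ (by linarith) h2 4
      _ = 4096 * Real.exp (x / 2) := by
          rw [mul_pow, ← Real.exp_nat_mul]
          congr 1
          · norm_num
          · congr 1
            push_cast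
            ring
  have h3 : s * Real.exp (x / 2) = √s := by
    have h4 : √s = Real.exp (-x / 2) := by
      rw [Real.sqrt_eq_rpow, Real.rpow_def_of_pos hs, hx]
      congr 1
      ring
    have h5 : s = Real.exp (-x) := by rw [hx, neg_neg, Real.exp_log hs]
    rw [h4]
    conv_lhs => rw [h5]
    rw [← Real.exp_add]
    congr 1
    ring
  rw [hax]
  calc s * (1 + x) ^ 4 ≤ s * (4096 * Real.exp (x / 2)) := by gcongr
    _ = 4096 * (s * Real.exp (x / 2)) := by ring
    _ = _ := by rw [h3]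

lemma avg_gh {s0 T v : ℝ} (hs0 : 0 < s0) (hT : 0 < T) (hv : 0 < v) (h : 2 ≤ s0 * (v / T)) :
    s0 / v ^ 2 ≤ ∫ s in Ioc 0 s0, gh (s / T) v ^ 2 := by
  obtain ⟨lam, hlam⟩ : ∃ lam : ℝ, lam = v / T := ⟨_, rfl⟩
  have hl0 : 0 < lam := by rw [hlam]; positivity
  rw [← hlam] at h
  have e1 : ∀ s ∈ Ioc 0 s0, gh (s / T) v ^ 2 = 2 / v ^ 2 * (1 - Real.cos (s * lam)) := by
    intro s _
    rw [gh_cos _ hv, show s / T * v = s * lam by rw [hlam]; ring]
    ring
  rw [setIntegral_congr_fun measurableSet_Ioc e1, integral_const_mul, ← intervalIntegral.integral_of_le hs0.le,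
    intervalIntegral.integral_sub (by simp) ((by fun_prop : Continuous fun s : ℝ => Real.cos (s * lam)).intervalIntegrable _ _),
    intervalIntegral.integral_comp_mul_right (fun x => Real.cos x) hl0.ne', integral_cos]
  have h2 : Real.sin (s0 * lam) ≤ 1 := Real.sin_le_one _
  have h3 : lam⁻¹ ≤ s0 / 2 := by
    rw [inv_le_iff_one_le_mul₀ hl0]
    linarith
  simp only [intervalIntegral.integral_const, smul_eq_mul, mul_one, zero_mul, Real.sin_zero, sub_zero]
  have h4 : lam⁻¹ * Real.sin (s0 * lam) ≤ s0 / 2 := by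
    have : 0 ≤ lam⁻¹ := by positivity
    nlinarith
  calc s0 / v ^ 2 = 2 / v ^ 2 * (s0 / 2) := by ring
    _ ≤ 2 / v ^ 2 * (s0 - lam⁻¹ * Real.sin (s0 * lam)) := by
        gcongr
        linarith

/-- the tails are small -/
lemma tail_small (hRH : RiemannHypothesis) {c : ℝ} (hc : 0 < c) : ∃ C T0 : ℝ, 0 < C ∧ 16 ≤ T0 ∧ ∀ T Lam : ℝ, T0 ≤ T →
    2 ≤ Lam → T / Real.log T ^ 2 * (∫ v in Ioi (Lam * T), 4 / v ^ 2 * Yf (c / (2 * Real.log T)) v ^ 2) ≤ C * √(2 / Lam) := by
  obtain ⟨C1, T1, hC1, hT1, hdom⟩ := Q_dom2 hRH hc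
  obtain ⟨C5, -, hgY⟩ := gY_int hRH
  refine ⟨4 * (C1 * 4096), max T1 (Real.exp (8 * c + 1)), by positivity, hT1.trans (le_max_left _ _),
    fun T Lam hT hLam => ?_⟩
  have hTT1 : T1 ≤ T := (le_max_left _ _).trans hT
  have hT16 : 16 ≤ T := hT1.trans hTT1
  have hT0 : 0 < T := by linarith
  have hTe : Real.exp (8 * c + 1) ≤ T := (le_max_right _ _).trans hT
  have hLL : 8 * c + 1 ≤ Real.log T := by rwa [Real.le_log_iff_exp_le hT0]
  obtain ⟨L, hL⟩ : ∃ L : ℝ, L = Real.log T := ⟨_, rfl⟩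
  rw [← hL] at hLL ⊢
  have hL0 : 0 < L := by linarith
  obtain ⟨η, hη⟩ : ∃ η : ℝ, η = c / (2 * L) := ⟨_, rfl⟩
  have hη0 : 0 < η := by rw [hη]; positivity
  have hη1 : η ≤ 1 / 16 := by
    rw [hη, div_le_div_iff₀ (by positivity) (by norm_num)]
    linarith
  rw [← hη]
  obtain ⟨s0, hs0⟩ : ∃ s0 : ℝ, s0 = 2 / Lam := ⟨_, rfl⟩
  have hLp : 0 < Lam := by linarith
  have hs00 : 0 < s0 := by rw [hs0]; positivity
  have hs01 : s0 ≤ 1 := by rw [hs0, div_le_one hLp]; exact hLam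
  rw [← hs0]
  have hLT : 1 ≤ Lam * T := by nlinarith
  have hsub : Ioi (Lam * T) ⊆ Ioi (1 : ℝ) := Ioi_subset_Ioi hLT
  have hgi : IntegrableOn (fun v => 4 / v ^ 2 * Yf η v ^ 2) (Ioi (Lam * T)) := (hgY η hη0 hη1).1.mono_set hsub
  -- Fubini
  have hint : Integrable (Function.uncurry fun s v : ℝ => gh (s / T) v ^ 2 * Yf η v ^ 2)
      ((volume.restrict (Ioc 0 s0)).prod (volume.restrict (Ioi (Lam * T)))) := by
    have h1 : Integrable (fun _ : ℝ => (1 : ℝ)) (volume.restrict (Ioc 0 s0)) := integrableOn_const measure_Ioc_lt_top.ne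
    refine (h1.mul_prod hgi).mono' ?_ ?_
    · have hm2 : Measurable fun p : ℝ × ℝ => gh (p.1 / T) p.2 := by
        have : Continuous fun p : ℝ × ℝ => gh (p.1 / T) p.2 := by
          unfold gh
          exact (by fun_prop : Continuous fun p : ℝ × ℝ => p.1 / T).mul
            (Real.continuous_sinc.comp (by fun_prop : Continuous fun p : ℝ × ℝ => p.2 * (p.1 / T) / 2))
        exact this.measurable
      have hm3 : Measurable fun p : ℝ × ℝ => Yf η p.2 := (Yf_meas hRH hη0).comp measurable_snd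
      exact ((hm2.pow_const 2).mul (hm3.pow_const 2)).aestronglyMeasurable
    · rw [Measure.prod_restrict]
      refine (ae_restrict_iff' (measurableSet_Ioc.prod measurableSet_Ioi)).2 (Filter.Eventually.of_forall fun p hp => ?_)
      have hv : (1 : ℝ) < p.2 := hsub hp.2
      simp only [Function.uncurry]
      rw [Real.norm_eq_abs, abs_of_nonneg (by positivity), one_mul]
      exact mul_le_mul_of_nonneg_right (gh_sq_inv _ (by linarith)) (sq_nonneg _)
  have hsw := integral_integral_swap hint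
  have h1 : ∫ v in Ioi (Lam * T), 4 / v ^ 2 * Yf η v ^ 2 ≤
      ∫ v in Ioi (Lam * T), 4 / s0 * ∫ s in Ioc 0 s0, gh (s / T) v ^ 2 * Yf η v ^ 2 := by
    refine integral_mono_of_nonneg (ae_of_all _ fun v => by simp only [Pi.zero_apply]; positivity)
      (hint.integral_prod_right.const_mul _) ?_
    refine (ae_restrict_iff' measurableSet_Ioi).2 (Filter.Eventually.of_forall fun v hv => ?_)
    have hv1 : Lam * T < v := hv
    have hv0 : 0 < v := by linarith
    have hcond : 2 ≤ s0 * (v / T) := by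
      rw [hs0, div_mul_div_comm, le_div_iff₀ (by positivity)]
      nlinarith
    have h2 := avg_gh hs00 hT0 hv0 hcond
    simp only []
    rw [integral_mul_const]
    calc 4 / v ^ 2 * Yf η v ^ 2 = 4 / s0 * (s0 / v ^ 2 * Yf η v ^ 2) := by field_simp
      _ ≤ _ := by gcongr
  have h2 : ∫ s in Ioc 0 s0, ∫ v in Ioi (Lam * T), gh (s / T) v ^ 2 * Yf η v ^ 2 ≤
      ∫ s in Ioc 0 s0, L ^ 2 / T * (C1 * (4096 * √s0)) := by
    refine integral_mono_of_nonneg (ae_of_all _ fun s => integral_nonneg fun v => by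
      simp only [Pi.zero_apply]; positivity) (integrableOn_const measure_Ioc_lt_top.ne) ?_
    refine (ae_restrict_iff' measurableSet_Ioc).2 (Filter.Eventually.of_forall fun s hs => ?_)
    have hs1 : s ≤ 1 := hs.2.trans hs01
    have h3 := hdom T s hTT1 hs.1 hs1
    rw [← hL, ← hη] at h3
    have h4 : ∫ v in Ioi (Lam * T), gh (s / T) v ^ 2 * Yf η v ^ 2 ≤ Qf η (s / T) := by
      unfold Qf
      exact setIntegral_mono_set (gQ_int hRH hη0 hη1 _) (ae_of_all _ fun v => by positivity) hsub.eventuallyLE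
    have h5 := four_le hs.1 hs1
    have h6 : √s ≤ √s0 := Real.sqrt_le_sqrt hs.2
    have h7 : T / L ^ 2 * Qf η (s / T) ≤ C1 * (4096 * √s0) :=
      h3.trans (mul_le_mul_of_nonneg_left (h5.trans (mul_le_mul_of_nonneg_left h6 (by norm_num))) hC1.le)
    calc ∫ v in Ioi (Lam * T), gh (s / T) v ^ 2 * Yf η v ^ 2 ≤ Qf η (s / T) := h4
      _ = L ^ 2 / T * (T / L ^ 2 * Qf η (s / T)) := by field_simp
      _ ≤ _ := mul_le_mul_of_nonneg_left h7 (by positivity)
  rw [setIntegral_const, Real.volume_real_Ioc, sub_zero, max_eq_left hs00.le, smul_eq_mul] at h2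
  rw [integral_const_mul, ← hsw] at h1
  calc T / L ^ 2 * (∫ v in Ioi (Lam * T), 4 / v ^ 2 * Yf η v ^ 2) ≤
        T / L ^ 2 * (4 / s0 * (s0 * (L ^ 2 / T * (C1 * (4096 * √s0))))) := by
        gcongr
        refine h1.trans ?_
        gcongr
    _ = _ := by field_simp

lemma cos_diff (a b : ℝ) : |Real.cos a - Real.cos b| ≤ |a ^ 2 - b ^ 2| / 2 := by
  rw [Real.cos_sub_cos, abs_mul, abs_mul]
  have h1 : |Real.sin ((a + b) / 2)| ≤ |(a + b) / 2| := Real.abs_sin_le_abs
  have h2 : |Real.sin ((a - b) / 2)| ≤ |(a - b) / 2| := Real.abs_sin_le_abs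
  have e : |a ^ 2 - b ^ 2| / 2 = 2 * (|(a + b) / 2| * |(a - b) / 2|) := by
    rw [← abs_mul, show a ^ 2 - b ^ 2 = 4 * ((a + b) / 2 * ((a - b) / 2)) by ring, abs_mul]
    norm_num
    ring
  rw [e]
  have h3 : |(-2 : ℝ)| = 2 := by norm_num
  rw [h3, mul_assoc]
  gcongr

lemma gh_half : IntegrableOn (fun x => gh 1 x ^ 2) (Ioi 0) ∧ ∫ x in Ioi (0 : ℝ), gh 1 x ^ 2 = π := by
  obtain ⟨h1, h2⟩ := gh_sq_int one_pos
  refine ⟨h1.integrableOn, ?_⟩
  rw [int_even (fun x => by rw [gh_neg]) h1] at h2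
  linarith

/-- **the weighted mean square converges** -/
theorem Q_conv (hRH : RiemannHypothesis) (h : Pool.Agent.Y744.G.Montgomery atTop) {c : ℝ} (hc : 0 < c) :
    Tendsto (fun T => T / Real.log T ^ 2 * Qf (c / (2 * Real.log T)) (dl T 1)) atTop
      (𝓝 (π * ((sg c + 1 / 2) / 2))) := by
  obtain ⟨D, hD⟩ : ∃ D : ℝ, D = (sg c + 1 / 2) / 2 := ⟨_, rfl⟩
  have hD0 : 0 < D := by rw [hD]; have := sg_pos hc; positivity
  rw [← hD]
  obtain ⟨C, T0, hC, hT0, htail⟩ := tail_small hRH hc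
  obtain ⟨g1, g2⟩ := gh_half
  rw [Metric.tendsto_nhds]
  intro ε hε
  -- choice of the cut
  have hcut1 : Tendsto (fun x : ℝ => C * √(2 / x)) atTop (𝓝 0) := by
    have h1 : Tendsto (fun x : ℝ => 2 / x) atTop (𝓝 0) := tendsto_const_nhds.div_atTop tendsto_id
    have h2 := (Real.continuous_sqrt.tendsto 0).comp h1
    rw [Real.sqrt_zero] at h2
    simpa using h2.const_mul C
  have hcut2 : Tendsto (fun x : ℝ => ∫ y in Ioc 0 x, gh 1 y ^ 2 * D) atTop (𝓝 (π * D)) := by
    have h1 := intervalIntegral_tendsto_integral_Ioi 0 (g1.mul_const D) tendsto_id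
    rw [integral_mul_const, g2] at h1
    refine h1.congr' ?_
    filter_upwards [eventually_ge_atTop 0] with x hx
    simp only [id_eq]
    rw [intervalIntegral.integral_of_le hx]
  rw [Metric.tendsto_nhds] at hcut2
  obtain ⟨Lam, ⟨hL1, hL2⟩, hL3⟩ := (((hcut1.eventually_lt_const (show (0 : ℝ) < ε / 4 by linarith)).and
    (hcut2 (ε / 4) (by linarith))).and (eventually_ge_atTop (2 : ℝ))).exists
  have hLp : 0 < Lam := by linarith
  -- the compact part
  have hη : ∀ᶠ T : ℝ in atTop, 0 < c / (2 * Real.log T) ∧ c / (2 * Real.log T) ≤ 1 / 16 := by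
    filter_upwards [Real.tendsto_log_atTop.eventually_ge_atTop (8 * c + 1)] with T hT
    have hl : 0 < Real.log T := by linarith
    refine ⟨by positivity, ?_⟩
    rw [div_le_div_iff₀ (by positivity) (by norm_num)]
    linarith
  have hwi : ∀ T : ℝ, 16 ≤ T → 0 < c / (2 * Real.log T) → c / (2 * Real.log T) ≤ 1 / 16 → ∀ R : ℝ,
      IntegrableOn (fun v => Yf (c / (2 * Real.log T)) v ^ 2 / (T * Real.log T ^ 2)) (Ioc 1 R) := by
    intro T hT k1 k2 R
    obtain ⟨C5, -, hgY⟩ := gY_int hRH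
    have hlog : 0 < Real.log T := Real.log_pos (by linarith)
    have hT00 : 0 < T := by linarith
    have h1 := ((hgY _ k1 k2).1.mono_set (s := Ioc 1 R) Ioc_subset_Ioi_self).const_mul (R ^ 2 / 4)
    have h2 : IntegrableOn (fun v => Yf (c / (2 * Real.log T)) v ^ 2) (Ioc 1 R) := by
      refine Integrable.mono' h1 ((Yf_meas hRH k1).pow_const 2).aestronglyMeasurable ?_
      refine (ae_restrict_iff' measurableSet_Ioc).2 (Filter.Eventually.of_forall fun v hv => ?_)
      have hv0 : 0 < v := by linarith [hv.1]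
      rw [Real.norm_eq_abs, abs_of_nonneg (sq_nonneg _)]
      have h2 : 1 ≤ R ^ 2 / 4 * (4 / v ^ 2) := by
        have e : R ^ 2 / 4 * (4 / v ^ 2) = (R / v) ^ 2 := by field_simp
        rw [e]
        have : 1 ≤ R / v := (one_le_div hv0).2 hv.2
        nlinarith
      calc Yf (c / (2 * Real.log T)) v ^ 2 = 1 * Yf (c / (2 * Real.log T)) v ^ 2 := (one_mul _).symm
        _ ≤ (R ^ 2 / 4 * (4 / v ^ 2)) * Yf (c / (2 * Real.log T)) v ^ 2 := by gcongr
        _ = _ := by ring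
    exact h2.div_const _
  have hF : ∀ x : ℝ, 0 < x → Tendsto (fun T => ∫ v in Ioc 1 (x * T),
      Yf (c / (2 * Real.log T)) v ^ 2 / (T * Real.log T ^ 2)) atTop (𝓝 (x * D)) := by
    intro x hx
    have := Y_lam hRH h hc hx
    rw [← hD] at this
    refine this.congr fun T => ?_
    rw [integral_div]
  have hcomp := step_conv (Lam := Lam) (D := D) hLp hD0.le
    (w := fun T v => Yf (c / (2 * Real.log T)) v ^ 2 / (T * Real.log T ^ 2))
    (by
      filter_upwards [hη, eventually_ge_atTop 16] with T hT hT1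
      exact ⟨hwi T hT1 hT.1 hT.2 _, fun v => by positivity⟩) hF (G := fun x => gh 1 x ^ 2) ((gh_cont 1).pow 2)
  rw [Metric.tendsto_nhds] at hcomp
  have hsmall : Tendsto (fun T : ℝ => 2 / T * (Lam * D + 1)) atTop (𝓝 0) := by
    have h1 : Tendsto (fun x : ℝ => 2 / x) atTop (𝓝 0) := tendsto_const_nhds.div_atTop tendsto_id
    simpa using h1.mul_const (Lam * D + 1)
  filter_upwards [hη, eventually_ge_atTop T0, hcomp (ε / 4) (by linarith),
    hsmall.eventually_lt_const (show (0 : ℝ) < ε / 4 by linarith),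
    (hF Lam hLp).eventually_lt_const (show Lam * D < Lam * D + 1 by linarith)] with T k1 k2 k3 k4 k5
  have hT16 : 16 ≤ T := hT0.trans k2
  have hTp : 0 < T := by linarith
  have hlog : 0 < Real.log T := Real.log_pos (by linarith)
  obtain ⟨d1, d2, d3, d4⟩ := dl1 hT16
  obtain ⟨δ, hδ⟩ : ∃ δ : ℝ, δ = dl T 1 := ⟨_, rfl⟩
  rw [← hδ] at d1 d2 d3 ⊢
  obtain ⟨L, hL⟩ : ∃ L : ℝ, L = Real.log T := ⟨_, rfl⟩
  obtain ⟨η, hηd⟩ : ∃ η : ℝ, η = c / (2 * L) := ⟨_, rfl⟩
  have htl := htail T Lam k2 hL3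
  have hwT := hwi T hT16 k1.1 k1.2 (Lam * T)
  rw [← hL] at hlog k1 k3 k5 htl hwT ⊢
  rw [← hηd] at k1 k3 k5 htl hwT ⊢
  have hLT : 1 ≤ Lam * T := by nlinarith
  have hsplit : Qf η δ = (∫ v in Ioc 1 (Lam * T), gh δ v ^ 2 * Yf η v ^ 2) + ∫ v in Ioi (Lam * T), gh δ v ^ 2 * Yf η v ^ 2 := by
    have hi := gQ_int hRH k1.1 k1.2 δ
    unfold Qf
    rw [← setIntegral_union Ioc_disjoint_Ioi_same measurableSet_Ioi (hi.mono_set Ioc_subset_Ioi_self)
      (hi.mono_set (Ioi_subset_Ioi hLT)), Ioc_union_Ioi_eq_Ioi hLT]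
  have htl0 : 0 ≤ T / L ^ 2 * ∫ v in Ioi (Lam * T), gh δ v ^ 2 * Yf η v ^ 2 := by
    have : 0 ≤ ∫ v in Ioi (Lam * T), gh δ v ^ 2 * Yf η v ^ 2 := integral_nonneg fun v => by positivity
    positivity
  have htl2 : T / L ^ 2 * (∫ v in Ioi (Lam * T), gh δ v ^ 2 * Yf η v ^ 2) < ε / 4 := by
    refine lt_of_le_of_lt (le_trans ?_ htl) hL1
    obtain ⟨C5, -, hgY⟩ := gY_int hRH
    have hle : ∫ v in Ioi (Lam * T), gh δ v ^ 2 * Yf η v ^ 2 ≤ ∫ v in Ioi (Lam * T), 4 / v ^ 2 * Yf η v ^ 2 := by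
      refine setIntegral_mono_on ((gQ_int hRH k1.1 k1.2 δ).mono_set (Ioi_subset_Ioi hLT))
        ((hgY η k1.1 k1.2).1.mono_set (Ioi_subset_Ioi hLT)) measurableSet_Ioi fun v hv => ?_
      have hv1 : Lam * T < v := hv
      exact mul_le_mul_of_nonneg_right (gh_sq_inv δ (by linarith)) (sq_nonneg _)
    gcongr
  -- the compact part, kernel at `δ` against kernel at `1 / T`
  have hker : |T / L ^ 2 * (∫ v in Ioc 1 (Lam * T), gh δ v ^ 2 * Yf η v ^ 2) -
      ∫ v in Ioc 1 (Lam * T), gh 1 (v / T) ^ 2 * (Yf η v ^ 2 / (T * L ^ 2))| ≤ 2 / T * (Lam * D + 1) := by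
    have hgc : Continuous fun v : ℝ => gh 1 (v / T) ^ 2 := ((gh_cont 1).comp (by fun_prop : Continuous fun v : ℝ => v / T)).pow 2
    have i1 : IntegrableOn (fun v => gh 1 (v / T) ^ 2 * (Yf η v ^ 2 / (T * L ^ 2))) (Ioc 1 (Lam * T)) := by
      refine Integrable.mono' hwT (hgc.aestronglyMeasurable.mul hwT.aestronglyMeasurable)
        (Filter.Eventually.of_forall fun v => ?_)
      rw [Real.norm_eq_abs, abs_of_nonneg (by positivity)]
      have : gh 1 (v / T) ^ 2 ≤ 1 := by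
        have := gh_abs one_pos (v / T)
        rw [← sq_abs]
        calc |gh 1 (v / T)| ^ 2 ≤ 1 ^ 2 := pow_le_pow_left₀ (abs_nonneg _) this 2
          _ = 1 := one_pow 2
      exact mul_le_of_le_one_left (by positivity) this
    have i2 : IntegrableOn (fun v => T ^ 2 * gh δ v ^ 2 * (Yf η v ^ 2 / (T * L ^ 2))) (Ioc 1 (Lam * T)) := by
      have := ((gQ_int hRH k1.1 k1.2 δ).mono_set (s := Ioc 1 (Lam * T)) Ioc_subset_Ioi_self).const_mul (T / L ^ 2)
      refine this.congr (ae_of_all _ fun v => ?_)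
      simp only []
      field_simp
    have e1 : T / L ^ 2 * (∫ v in Ioc 1 (Lam * T), gh δ v ^ 2 * Yf η v ^ 2) =
        ∫ v in Ioc 1 (Lam * T), T ^ 2 * gh δ v ^ 2 * (Yf η v ^ 2 / (T * L ^ 2)) := by
      rw [← integral_const_mul]
      refine integral_congr_ae (ae_of_all _ fun v => ?_)
      simp only []
      field_simp
    rw [e1, ← integral_sub i2 i1]
    refine abs_integral_le_integral_abs.trans ?_
    calc ∫ v in Ioc 1 (Lam * T), |T ^ 2 * gh δ v ^ 2 * (Yf η v ^ 2 / (T * L ^ 2)) -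
          gh 1 (v / T) ^ 2 * (Yf η v ^ 2 / (T * L ^ 2))| ≤
          ∫ v in Ioc 1 (Lam * T), 2 / T * (Yf η v ^ 2 / (T * L ^ 2)) := by
          refine setIntegral_mono_on (i2.sub i1).abs (hwT.const_mul _) measurableSet_Ioc fun v hv => ?_
          have hv0 : 0 < v := by linarith [hv.1]
          rw [← sub_mul, abs_mul, abs_of_nonneg (show 0 ≤ Yf η v ^ 2 / (T * L ^ 2) by positivity)]
          refine mul_le_mul_of_nonneg_right ?_ (by positivity)
          have e2 : T ^ 2 * gh δ v ^ 2 - gh 1 (v / T) ^ 2 = 2 * T ^ 2 / v ^ 2 * (Real.cos (v / T) - Real.cos (δ * v)) := by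
            rw [gh_cos δ hv0, gh_cos 1 (show 0 < v / T by positivity), one_mul]
            field_simp
            ring
          rw [e2, abs_mul, abs_of_pos (by positivity)]
          have h3 := cos_diff (v / T) (δ * v)
          have h4 : |(v / T) ^ 2 - (δ * v) ^ 2| ≤ v ^ 2 / T ^ 2 * (2 / T) := by
            have e3 : (v / T) ^ 2 - (δ * v) ^ 2 = v ^ 2 / T ^ 2 * (1 - (δ * T) ^ 2) := by field_simp
            have h5 : 0 ≤ δ * T := by positivity
            have h6 : δ * T ≤ 1 := by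
              rw [le_div_iff₀ hTp] at d2
              exact d2
            have h7 : 0 ≤ 1 - (δ * T) ^ 2 := by nlinarith
            have h8 : 1 - (δ * T) ^ 2 ≤ 2 / T := by
              have : 2 / T = 2 * (1 / T) := by ring
              rw [this]
              nlinarith
            rw [e3, abs_of_nonneg (by positivity)]
            gcongr
          calc 2 * T ^ 2 / v ^ 2 * |Real.cos (v / T) - Real.cos (δ * v)| ≤
                2 * T ^ 2 / v ^ 2 * (v ^ 2 / T ^ 2 * (2 / T) / 2) := by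
                gcongr
                linarith
            _ = 2 / T := by field_simp
      _ = 2 / T * ∫ v in Ioc 1 (Lam * T), Yf η v ^ 2 / (T * L ^ 2) := integral_const_mul _ _
      _ ≤ _ := by gcongr
  rw [hsplit, mul_add]
  rw [Real.dist_eq] at k3 hL2 ⊢
  rw [abs_lt] at k3 hL2 ⊢
  rw [abs_le] at hker
  constructor <;> linarith [k3.1, k3.2, hL2.1, hL2.2, hker.1, hker.2]

end Pool.Agent.U507.PC
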