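import Mathlib

/-!
# Laplace transforms: convergence at the positive integers
-/

set_option autoImplicit false

open MeasureTheory Filter Topology Set

namespace Pool.Agent.U507.PC

/-- convergence of Laplace transforms at the positive integers implies convergence of the integrals of
continuous functions with compact support -/
theorem lap_conv {Ω Ω₀ : Type} [MeasurableSpace Ω] [MeasurableSpace Ω₀] {l : Filter ℝ}
    {ρ : Measure Ω} {w X : ℝ → Ω → ℝ} {ρ₀ : Measure Ω₀} {w₀ X₀ : Ω₀ → ℝ}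
    (hw : ∀ᶠ T in l, Measurable (w T) ∧ Measurable (X T) ∧ ∀ᵐ ω ∂ρ, 0 ≤ w T ω ∧ 0 ≤ X T ω)
    (hw₀ : Measurable w₀ ∧ Measurable X₀ ∧ ∀ᵐ ω ∂ρ₀, 0 ≤ w₀ ω ∧ 0 ≤ X₀ ω)
    (hi : ∀ n : ℕ, ∀ᶠ T in l, Integrable (fun ω => w T ω * Real.exp (-((n : ℝ) + 1) * X T ω)) ρ)
    (hi₀ : ∀ n : ℕ, Integrable (fun ω => w₀ ω * Real.exp (-((n : ℝ) + 1) * X₀ ω)) ρ₀)
    (hlim : ∀ n : ℕ, Tendsto (fun T => ∫ ω, w T ω * Real.exp (-((n : ℝ) + 1) * X T ω) ∂ρ) l
      (𝓝 (∫ ω, w₀ ω * Real.exp (-((n : ℝ) + 1) * X₀ ω) ∂ρ₀)))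
    {f : ℝ → ℝ} (hf : Continuous f) {M : ℝ} (hM : ∀ x, M ≤ x → f x = 0) :
    Tendsto (fun T => ∫ ω, w T ω * f (X T ω) ∂ρ) l (𝓝 (∫ ω, w₀ ω * f (X₀ ω) ∂ρ₀)) := by
  -- the function on `[0, 1]`
  obtain ⟨g, hg⟩ : ∃ g : ℝ → ℝ, g = fun u => f (-Real.log (max u (Real.exp (-M)))) * (max u (Real.exp (-M)))⁻¹ :=
    ⟨_, rfl⟩
  have hgc : Continuous g := by
    rw [hg]
    have h1 : Continuous fun u : ℝ => max u (Real.exp (-M)) := by fun_prop
    have h2 : ∀ u : ℝ, max u (Real.exp (-M)) ≠ 0 := fun u =>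
      (lt_max_of_lt_right (Real.exp_pos _)).ne'
    exact (hf.comp (h1.log h2).neg).mul (h1.inv₀ h2)
  have hge : ∀ x : ℝ, Real.exp (-x) * g (Real.exp (-x)) = f x := by
    intro x
    rw [hg]
    simp only
    rcases le_total x M with h | h
    · rw [max_eq_left (Real.exp_le_exp.2 (by linarith)), Real.log_exp, neg_neg]
      have := (Real.exp_pos (-x)).ne'
      field_simp
    · rw [max_eq_right (Real.exp_le_exp.2 (by linarith)), Real.log_exp, neg_neg, hM M le_rfl, hM x h]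
      simp
  -- generic estimates for one weighted space
  have poly_eq : ∀ (p : Polynomial ℝ) (x : ℝ), Real.exp (-x) * p.eval (Real.exp (-x)) =
      ∑ k ∈ Finset.range (p.natDegree + 1), p.coeff k * Real.exp (-((k : ℝ) + 1) * x) := by
    intro p x
    rw [Polynomial.eval_eq_sum_range, Finset.mul_sum]
    refine Finset.sum_congr rfl fun k _ => ?_
    rw [← Real.exp_nat_mul, mul_left_comm, ← Real.exp_add]
    congr 2
    ring
  have gen : ∀ {Θ : Type} [MeasurableSpace Θ] (ν : Measure Θ) (a x : Θ → ℝ), Measurable a → Measurable x →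
      (∀ᵐ ω ∂ν, 0 ≤ a ω ∧ 0 ≤ x ω) → ∀ (p : Polynomial ℝ) (e : ℝ), 0 ≤ e →
      (∀ u ∈ Icc (0 : ℝ) 1, |p.eval u - g u| < e) →
      (∀ k ∈ Finset.range (p.natDegree + 1), Integrable (fun ω => a ω * Real.exp (-((k : ℝ) + 1) * x ω)) ν) →
      Integrable (fun ω => a ω * Real.exp (-(((0 : ℕ) : ℝ) + 1) * x ω)) ν →
      |(∫ ω, a ω * f (x ω) ∂ν) - ∑ k ∈ Finset.range (p.natDegree + 1),
        p.coeff k * ∫ ω, a ω * Real.exp (-((k : ℝ) + 1) * x ω) ∂ν| ≤
        e * ∫ ω, a ω * Real.exp (-(((0 : ℕ) : ℝ) + 1) * x ω) ∂ν := by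
    intro Θ _ ν a x ham hxm hpos p e he hp hk h0
    have hsum : ∑ k ∈ Finset.range (p.natDegree + 1), p.coeff k * ∫ ω, a ω * Real.exp (-((k : ℝ) + 1) * x ω) ∂ν =
        ∫ ω, a ω * (Real.exp (-x ω) * p.eval (Real.exp (-x ω))) ∂ν := by
      simp_rw [poly_eq]
      rw [← integral_congr_ae (f := fun ω => ∑ k ∈ Finset.range (p.natDegree + 1),
        p.coeff k * (a ω * Real.exp (-((k : ℝ) + 1) * x ω)))]
      · rw [integral_finsetSum _ fun k hk' => (hk k hk').const_mul _]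
        refine Finset.sum_congr rfl fun k _ => ?_
        rw [integral_const_mul]
      · refine Eventually.of_forall fun ω => ?_
        simp only
        rw [Finset.mul_sum]
        refine Finset.sum_congr rfl fun k _ => ?_
        ring
    have hpi : Integrable (fun ω => a ω * (Real.exp (-x ω) * p.eval (Real.exp (-x ω)))) ν := by
      have h1 : Integrable (fun ω => ∑ k ∈ Finset.range (p.natDegree + 1),
          p.coeff k * (a ω * Real.exp (-((k : ℝ) + 1) * x ω))) ν :=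
        integrable_finsetSum _ fun k hk' => (hk k hk').const_mul _
      refine h1.congr (Eventually.of_forall fun ω => ?_)
      simp only
      rw [poly_eq, Finset.mul_sum]
      refine Finset.sum_congr rfl fun k _ => ?_
      ring
    have hb : ∀ᵐ ω ∂ν, ‖a ω * f (x ω) - a ω * (Real.exp (-x ω) * p.eval (Real.exp (-x ω)))‖ ≤
        e * (a ω * Real.exp (-(((0 : ℕ) : ℝ) + 1) * x ω)) := by
      filter_upwards [hpos] with ω hω
      rw [← hge (x ω), Real.norm_eq_abs, ← mul_sub, ← mul_sub, abs_mul, abs_of_nonneg hω.1, abs_mul,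
        abs_of_pos (Real.exp_pos _), abs_sub_comm]
      have h1 := hp (Real.exp (-x ω)) ⟨(Real.exp_pos _).le, Real.exp_le_one_iff.2 (by linarith [hω.2])⟩
      have e1 : -(((0 : ℕ) : ℝ) + 1) * x ω = -x ω := by push_cast; ring
      rw [e1]
      have h2 : 0 ≤ a ω * Real.exp (-x ω) := mul_nonneg hω.1 (Real.exp_pos _).le
      calc a ω * (Real.exp (-x ω) * |p.eval (Real.exp (-x ω)) - g (Real.exp (-x ω))|) =
          a ω * Real.exp (-x ω) * |p.eval (Real.exp (-x ω)) - g (Real.exp (-x ω))| := by ring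
        _ ≤ a ω * Real.exp (-x ω) * e := by gcongr
        _ = _ := by ring
    have hdi : Integrable (fun ω => a ω * f (x ω) - a ω * (Real.exp (-x ω) * p.eval (Real.exp (-x ω)))) ν := by
      refine Integrable.mono' (h0.const_mul e) ?_ hb
      exact ((ham.mul (hf.measurable.comp hxm)).sub (ham.mul ((Real.measurable_exp.comp hxm.neg).mul
        (p.continuous.measurable.comp (Real.measurable_exp.comp hxm.neg))))).aestronglyMeasurable
    have hfi : Integrable (fun ω => a ω * f (x ω)) ν := by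
      refine (hdi.add hpi).congr (Eventually.of_forall fun ω => ?_)
      simp
    rw [hsum, ← integral_sub hfi hpi, ← integral_const_mul, ← Real.norm_eq_abs]
    exact norm_integral_le_of_norm_le (h0.const_mul e) hb
  -- the conclusion
  obtain ⟨Λ, hΛ⟩ : ∃ Λ : ℝ, Λ = ∫ ω, w₀ ω * Real.exp (-(((0 : ℕ) : ℝ) + 1) * X₀ ω) ∂ρ₀ := ⟨_, rfl⟩
  rw [Metric.tendsto_nhds]
  intro ε hε
  obtain ⟨e, he⟩ : ∃ e : ℝ, e = ε / (4 * (|Λ| + 1)) := ⟨_, rfl⟩
  have he0 : 0 < e := by rw [he]; positivity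
  have he1 : e * (|Λ| + 1) = ε / 4 := by rw [he]; field_simp
  obtain ⟨p, hp⟩ := exists_polynomial_near_of_continuousOn 0 1 g hgc.continuousOn e he0
  have hP : Tendsto (fun T => ∑ k ∈ Finset.range (p.natDegree + 1),
      p.coeff k * ∫ ω, w T ω * Real.exp (-((k : ℝ) + 1) * X T ω) ∂ρ) l
      (𝓝 (∑ k ∈ Finset.range (p.natDegree + 1),
        p.coeff k * ∫ ω, w₀ ω * Real.exp (-((k : ℝ) + 1) * X₀ ω) ∂ρ₀)) :=
    tendsto_finsetSum _ fun k _ => (hlim k).const_mul _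
  have hk : ∀ᶠ T in l, ∀ k ∈ Finset.range (p.natDegree + 1),
      Integrable (fun ω => w T ω * Real.exp (-((k : ℝ) + 1) * X T ω)) ρ := by
    rw [Filter.eventually_all_finset]
    exact fun k _ => hi k
  have h00 := gen ρ₀ w₀ X₀ hw₀.1 hw₀.2.1 hw₀.2.2 p e he0.le hp (fun k _ => hi₀ k) (hi₀ 0)
  rw [← hΛ] at h00
  have h1 := (hlim 0).eventually (Metric.ball_mem_nhds _ one_pos)
  rw [← hΛ] at h1
  filter_upwards [hw, hk, hi 0, h1, hP.eventually (Metric.ball_mem_nhds _ (show 0 < ε / 4 by linarith))] with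
    T k1 k2 k3 k4 k5
  have h2 := gen ρ (w T) (X T) k1.1 k1.2.1 k1.2.2 p e he0.le hp k2 k3
  rw [Real.dist_eq] at k4 k5
  rw [Real.dist_eq]
  obtain ⟨I1, hI1⟩ : ∃ I1 : ℝ, I1 = ∫ ω, w T ω * Real.exp (-(((0 : ℕ) : ℝ) + 1) * X T ω) ∂ρ := ⟨_, rfl⟩
  rw [← hI1] at h2 k4
  have k4' := abs_lt.1 k4
  have hI2 : I1 ≤ |Λ| + 1 := by linarith [le_abs_self Λ]
  have h3 : e * I1 ≤ ε / 4 := by
    rw [← he1]
    gcongr
  have h4 : e * Λ ≤ ε / 4 := by
    rw [← he1]
    gcongr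
    linarith [le_abs_self Λ]
  have a1 := abs_le.1 (h2.trans h3)
  have a2 := abs_le.1 (h00.trans h4)
  have a3 := abs_lt.1 k5
  rw [abs_lt]
  constructor <;> linarith [a1.1, a1.2, a2.1, a2.2, a3.1, a3.2]

end Pool.Agent.U507.PC
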