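import Pool.Agent.U507.PC.Fo

/-!
# Converse, first step: pair correlation gives the mean square of the Poisson sums
-/

set_option autoImplicit false

open MeasureTheory Filter Topology Set
open scoped Real

namespace Pool.Agent.U507.PC

open Pool.Agent.Y749.Rig (Mp Mp_integral nT nT_pos RR QD fl fl_cont fl_even fl_tr tr tr_int tr_cont adm_tr inv_four
  parseval fl_int fl_bound mG mG_integral FF mn mn_cont mn_nonneg mn_even weak_win Weak ZZ mm mm_nonneg tr_even)
open Pool.Agent.U507.GM (PU PU_sq phi_int phi_prod int_even)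

lemma qd_exp {c : ℝ} (hc : 0 < c) : QD (fl fun α => Real.exp (-(c * |α|))) := by
  refine ⟨2 * c * (1 / c ^ 2 + 1), fun x => ?_⟩
  rw [fl_exp hc]
  have h1 : 0 < c ^ 2 + (2 * π * x) ^ 2 := by positivity
  rw [abs_of_nonneg (by positivity), div_le_div_iff₀ h1 (by positivity)]
  have e : 2 * c * (1 / c ^ 2 + 1) * (c ^ 2 + (2 * π * x) ^ 2) =
      2 * c * (1 + c ^ 2 + (1 / c ^ 2 + 1) * (2 * π * x) ^ 2) := by
    field_simp
  rw [e]
  have h2 : x ^ 2 ≤ (2 * π * x) ^ 2 := by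
    have h3 := Real.pi_gt_three
    have h4 : (2 * π * x) ^ 2 = (4 * π ^ 2) * x ^ 2 := by ring
    rw [h4]
    apply le_mul_of_one_le_left (sq_nonneg x)
    nlinarith
  have h3 : (2 * π * x) ^ 2 ≤ (1 / c ^ 2 + 1) * (2 * π * x) ^ 2 := by
    apply le_mul_of_one_le_left (sq_nonneg _)
    have : 0 < 1 / c ^ 2 := by positivity
    linarith
  have h4 : 0 ≤ c ^ 2 := sq_nonneg c
  have : 1 + x ^ 2 ≤ 1 + c ^ 2 + (1 / c ^ 2 + 1) * (2 * π * x) ^ 2 := by linarith
  gcongr

lemma PU_Mp {c T : ℝ} (hc : 0 < c) (hT : 10 ≤ T) :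
    4 * ((∫ v, PU T (c / (2 * Real.log T)) v ^ 2) / (T * Real.log T ^ 2)) =
      ∫ x, fl (fun α => Real.exp (-(c * |α|))) x ∂(Mp T) := by
  have hT0 : 0 < T := by linarith
  have hL : 0 < Real.log T := Real.log_pos (by linarith)
  rw [Mp_integral hT, PU_sq_eq T (by positivity)]
  unfold RR nT
  rw [← mul_div_assoc, div_eq_div_iff (by positivity) (by positivity), Finset.mul_sum, Finset.sum_mul, Finset.sum_mul]
  refine Finset.sum_congr rfl fun s _ => ?_
  rw [Finset.mul_sum, Finset.sum_mul, Finset.sum_mul]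
  refine Finset.sum_congr rfl fun s' _ => ?_
  rw [fl_exp hc]
  have hp := Real.pi_pos
  obtain ⟨L, hLd⟩ : ∃ L : ℝ, L = Real.log T := ⟨_, rfl⟩
  obtain ⟨d, hd⟩ : ∃ d : ℝ, d = s.im - s'.im := ⟨_, rfl⟩
  rw [← hLd, ← hd]
  rw [← hLd] at hL
  have e1 : 2 * π * (d * L / (2 * π)) = d * L := by field_simp
  rw [e1]
  have h1 : 0 < c ^ 2 + (d * L) ^ 2 := by positivity
  have e2 : 4 * (c / (2 * L)) ^ 2 + d ^ 2 = (c ^ 2 + (d * L) ^ 2) / L ^ 2 := by
    field_simp
    ring
  rw [e2]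
  field_simp
  ring

lemma fl_exp_int {c : ℝ} (hc : 0 < c) : Integrable (fl fun α => Real.exp (-(c * |α|))) ∧
    ∫ x, fl (fun α => Real.exp (-(c * |α|))) x = 1 := by
  have hp := Real.pi_pos
  have e : (fl fun α => Real.exp (-(c * |α|))) = fun x => 1 / π * ((c / (2 * π)) / ((c / (2 * π)) ^ 2 + (x - 0) ^ 2)) := by
    funext x
    rw [fl_exp hc]
    have h1 : 0 < c ^ 2 + (2 * π * x) ^ 2 := by positivity
    have h2 : (c / (2 * π)) ^ 2 + (x - 0) ^ 2 = (c ^ 2 + (2 * π * x) ^ 2) / (4 * π ^ 2) := by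
      field_simp
      ring
    rw [h2]
    field_simp
    ring
  obtain ⟨h1, h2⟩ := phi_int (η := c / (2 * π)) (by positivity) 0
  constructor
  · rw [e]
    exact h1.const_mul _
  · have e2 : ∫ x, fl (fun α => Real.exp (-(c * |α|))) x =
        ∫ x, 1 / π * ((c / (2 * π)) / ((c / (2 * π)) ^ 2 + (x - 0) ^ 2)) := by rw [← e]
    rw [e2, integral_const_mul, h2]
    field_simp

lemma mn_exp_int {c : ℝ} (hc : 0 < c) : Integrable (fun x => mn x * Real.exp (-(c * |x|))) := by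
  refine Integrable.mono' (expabs_int hc) (mn_cont.mul (by fun_prop)).aestronglyMeasurable
    (Eventually.of_forall fun α => ?_)
  rw [norm_mul, Real.norm_eq_abs, Real.norm_eq_abs, abs_of_pos (Real.exp_pos _), abs_of_nonneg (mn_nonneg α)]
  exact mul_le_of_le_one_left (Real.exp_pos _).le (by unfold mn; exact min_le_right _ _)

lemma gue_exp {c : ℝ} (hc : 0 < c) : ∫ x, fl (fun α => Real.exp (-(c * |α|))) x ∂mG = 1 + 2 * sg c := by
  obtain ⟨ψ, hψd⟩ : ∃ ψ : ℝ → ℝ, ψ = fun α => Real.exp (-(c * |α|)) := ⟨_, rfl⟩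
  have hψ : Integrable ψ := by rw [hψd]; exact expabs_int hc
  have hq : QD (fl ψ) := by rw [hψd]; exact qd_exp hc
  have hev : ∀ x, ψ (-x) = ψ x := fun x => by rw [hψd]; simp
  obtain ⟨i1, i1v⟩ := fl_exp_int hc
  rw [← hψd] at i1 i1v ⊢
  rw [mG_integral (fl_cont hψ) hq]
  have h1 : ∫ x, fl ψ x * fl (tr 1) x = ∫ x, ψ x * tr 1 x := by
    rw [parseval hψ (fl_int (adm_tr one_pos)) hev fun x => fl_even x]
    refine integral_congr_ae (ae_of_all _ fun x => ?_)
    simp only
    rw [inv_four (adm_tr one_pos)]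
  have h2 : ∫ x, fl ψ x * FF x = ∫ x, (fl ψ x - fl ψ x * fl (tr 1) x) := by
    refine integral_congr_ae ?_
    have : ∀ᵐ x : ℝ, x ≠ 0 := by
      rw [ae_iff]
      simp
    filter_upwards [this] with x hx
    rw [fl_tr one_pos hx, FF, mul_one]
    ring
  have i2 : Integrable fun x => fl ψ x * fl (tr 1) x := by
    obtain ⟨B, hB⟩ := fl_bound (adm_tr one_pos)
    have hc := fl_cont (tr_int one_pos)
    have hB0 : 0 ≤ B := by
      have := (abs_nonneg _).trans (hB 0)
      simpa using this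
    refine i1.mul_bdd (c := B) hc.aestronglyMeasurable (ae_of_all _ fun x => ?_)
    rw [Real.norm_eq_abs]
    refine (hB x).trans ?_
    apply div_le_self hB0
    nlinarith [sq_nonneg x]
  rw [h2, integral_sub i1 i2, i1v, h1]
  have h3 : ∀ x, ψ x * tr 1 x = ψ x - mn x * ψ x := by
    intro x
    unfold tr mn
    rw [div_one, div_one]
    rcases le_or_gt 1 |x| with hx | hx
    · rw [max_eq_left (by linarith), min_eq_right hx]; ring
    · rw [max_eq_right (by linarith), min_eq_left hx.le]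
      ring
  have i3 : Integrable fun x => mn x * ψ x := by rw [hψd]; exact mn_exp_int hc
  simp_rw [h3]
  rw [integral_sub hψ i3]
  have h4 : fl ψ 0 = ∫ x, ψ x := by
    unfold fl; simp
  rw [h4]
  have h5 : ∫ x, mn x * ψ x = 2 * sg c := by
    rw [int_even (fun x => by rw [mn_even, hev]) i3, ← sg_eq hc]
    congr 1
    refine setIntegral_congr_fun measurableSet_Ioi fun α hα => ?_
    have h0 : (0 : ℝ) < α := hα
    simp only [hψd, mn, abs_of_pos h0]
    rw [mul_comm]
    congr 2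
    ring
  rw [h5]
  ring

/-- **pair correlation gives the mean square of the Poisson sums** -/
theorem PU_of_mont (h : Pool.Agent.Y744.G.Montgomery atTop) {c : ℝ} (hc : 0 < c) :
    Tendsto (fun T => (∫ v, PU T (c / (2 * Real.log T)) v ^ 2) / (T * Real.log T ^ 2)) atTop
      (𝓝 ((sg c + 1 / 2) / 2)) := by
  have hw : Weak atTop := weak_win le_rfl ((Pool.Agent.Y744.G.Mont_iff le_rfl).1 h)
  have h1 := hw _ (fl_cont (expabs_int hc)) (qd_exp hc)
  rw [gue_exp hc] at h1
  have h2 := h1.const_mul (1 / 4)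
  rw [show 1 / 4 * (1 + 2 * sg c) = (sg c + 1 / 2) / 2 by ring] at h2
  refine h2.congr' ?_
  filter_upwards [eventually_ge_atTop 10] with T hT
  rw [← PU_Mp hc hT]
  ring

end Pool.Agent.U507.PC
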