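import Pool.Agent.U507.PC.CA

/-!
# Converse, second step: comparison with the logarithmic derivative, uniformly in the parameter
-/

set_option autoImplicit false

open Complex Filter Topology Set MeasureTheory Metric
open scoped Real

namespace Pool.Agent.U507.PC

open Pool.Agent.U507.GM hiding step_low low_pt low_unif rigid
open Pool.Agent.Y749.Rig (ZZ mm mm_nonneg mem_ZZ fw fw_eq fw_meas fw_nonneg sup_fw)

/-- comparison of the two mean squares, uniformly in the parameter -/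
theorem comp (hRH : RiemannHypothesis) {c0 c1 ε : ℝ} (hc0 : 0 < c0) (hc1 : 0 < c1) (hε : 0 < ε) :
    ∀ᶠ T in atTop, ∀ η : ℝ, 0 < η → c0 ≤ 2 * η * Real.log T → 2 * η * Real.log T ≤ c1 →
      (∫ v, PU T η v ^ 2) / (T * Real.log T ^ 2) ≤
        (1 + ε) * ((∫ v in Ioc 1 T, Yf η v ^ 2) / (T * Real.log T ^ 2)) + ε ∧
      (∫ v in Ioc 1 T, Yf η v ^ 2) / (T * Real.log T ^ 2) ≤
        (1 + ε) * ((∫ v, PU T η v ^ 2) / (T * Real.log T ^ 2)) + ε := by
  obtain ⟨K, V0, hK, hV0, hYP⟩ := Y_PU hRH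
  obtain ⟨C1, hC1, hout⟩ := PU_out
  obtain ⟨C2, hC2, hcr⟩ := Yf_crude hRH
  obtain ⟨B, hB⟩ : ∃ B : ℝ, B = (K * (1 + c1)) ^ 2 := ⟨_, rfl⟩
  have hB0 : 0 ≤ B := by rw [hB]; positivity
  -- error terms
  have hl2 : Tendsto (fun T : ℝ => Real.log T ^ 2 / T) atTop (𝓝 0) := by
    have := (isLittleO_log_rpow_atTop (r := 1 / 2) (by norm_num)).tendsto_div_nhds_zero
    have h2 := this.pow 2
    rw [zero_pow (by norm_num)] at h2
    refine h2.congr' ?_
    filter_upwards [eventually_gt_atTop 0] with T hT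
    rw [div_pow, ← Real.rpow_natCast (T ^ (1 / 2 : ℝ)), ← Real.rpow_mul hT.le]
    norm_num
  have hl1 : Tendsto (fun T : ℝ => 1 / Real.log T) atTop (𝓝 0) := by
    refine (tendsto_inv_atTop_zero.comp Real.tendsto_log_atTop).congr fun T => ?_
    simp
  have hl3 : Tendsto (fun T : ℝ => T ^ (-(1 / 2) : ℝ)) atTop (𝓝 0) := tendsto_rpow_neg_atTop (by norm_num)
  have herr : Tendsto (fun T : ℝ => (1 + 1 / ε) * B * (1 / Real.log T * (1 / Real.log T)) +
      C1 * (4 * (V0 + 4) / c0 ^ 2 * (Real.log T ^ 2 / T) + c1 / 2 * (1 / Real.log T)) +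
      8 * C2 / c0 ^ 2 * (V0 * (V0 ^ ((1 : ℝ) / 2)) * (1 / T) + T ^ (-(1 / 2) : ℝ))) atTop (𝓝 0) := by
    have h1 := ((hl1.mul hl1).const_mul ((1 + 1 / ε) * B)).add
      ((((hl2.const_mul (4 * (V0 + 4) / c0 ^ 2)).add (hl1.const_mul (c1 / 2))).const_mul C1))
    have hT1 : Tendsto (fun T : ℝ => 1 / T) atTop (𝓝 0) := by
      simpa using tendsto_inv_atTop_zero (𝕜 := ℝ)
    have h2 := h1.add (((hT1.const_mul (V0 * (V0 ^ ((1 : ℝ) / 2)))).add hl3).const_mul (8 * C2 / c0 ^ 2))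
    simpa using h2
  filter_upwards [Real.tendsto_log_atTop.eventually_ge_atTop (8 * c1 + 1), eventually_ge_atTop (V0 + 2),
    herr.eventually_lt_const hε] with T hTc hT1 hTe η hη0 hηc0 hηc1
  have hT : 0 < η ∧ η ≤ 1 / 16 := ⟨hη0, by nlinarith⟩
  have hT10 : 10 ≤ T := by linarith
  have hT0 : 0 < T := by linarith
  have hlog : 0 < Real.log T := Real.log_pos (by linarith)
  have hηL : η * Real.log T ≤ c1 / 2 := by linarith
  have hLη : Real.log T / η ≤ 2 * Real.log T ^ 2 / c0 := by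
    rw [div_le_div_iff₀ hη0 hc0]
    nlinarith
  -- the middle range
  obtain ⟨I, hI⟩ : ∃ I : Set ℝ, I = Ioc V0 (T - 1) := ⟨_, rfl⟩
  have hIm : MeasurableSet I := by rw [hI]; exact measurableSet_Ioc
  have hclose : ∀ v ∈ I, (PU T η v - Yf η v) ^ 2 ≤ B := by
    intro v hv
    rw [hI] at hv
    have h1 := hYP T v η hv.1.le hv.2 hT.1 hT.2
    rw [← sq_abs, hB]
    refine pow_le_pow_left₀ (abs_nonneg _) (h1.trans ?_) 2
    gcongr
    linarith
  have hYi : IntegrableOn (fun v => Yf η v ^ 2) (Ioc 1 T) := by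
    obtain ⟨C, -, hg⟩ := gY_int hRH
    have h1 := ((hg η hT.1 hT.2).1.mono_set Ioc_subset_Ioi_self (s := Ioc 1 T)).const_mul (T ^ 2 / 4)
    refine Integrable.mono' h1 ((Yf_meas hRH hT.1).pow_const 2).aestronglyMeasurable ?_
    refine (ae_restrict_iff' measurableSet_Ioc).2 (Filter.Eventually.of_forall fun v hv => ?_)
    have hv0 : 0 < v := by linarith [hv.1]
    rw [Real.norm_eq_abs, abs_of_nonneg (sq_nonneg _)]
    have h2 : 1 ≤ T ^ 2 / 4 * (4 / v ^ 2) := by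
      have e : T ^ 2 / 4 * (4 / v ^ 2) = (T / v) ^ 2 := by field_simp
      rw [e]
      have : 1 ≤ T / v := (one_le_div hv0).2 hv.2
      nlinarith
    calc Yf η v ^ 2 = 1 * Yf η v ^ 2 := (one_mul _).symm
      _ ≤ (T ^ 2 / 4 * (4 / v ^ 2)) * Yf η v ^ 2 := by gcongr
      _ = _ := by ring
  have hPi := (PU_sq T hT.1).1
  have hIsub : I ⊆ Ioc 1 T := by
    rw [hI]
    exact fun v hv => ⟨by linarith [hv.1], by linarith [hv.2]⟩
  have hvol : volume.real I ≤ T := by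
    rw [hI, Real.volume_real_Ioc]
    exact max_le (by linarith) (by linarith)
  have hIf : volume I ≠ ⊤ := by rw [hI]; exact measure_Ioc_lt_top.ne
  have hIc : IntegrableOn (fun _ : ℝ => (1 + 1 / ε) * B) I := integrableOn_const hIf
  have hIcv : ∫ v in I, (1 + 1 / ε) * B ≤ (1 + 1 / ε) * B * T := by
    rw [setIntegral_const, smul_eq_mul, mul_comm]
    gcongr
  have hYI : IntegrableOn (fun v => Yf η v ^ 2) I := hYi.mono_set hIsub
  have hPI : IntegrableOn (fun v => PU T η v ^ 2) I := hPi.integrableOn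
  have m1 : ∫ v in I, PU T η v ^ 2 ≤ (1 + ε) * (∫ v in I, Yf η v ^ 2) + (1 + 1 / ε) * B * T := by
    calc ∫ v in I, PU T η v ^ 2 ≤ ∫ v in I, ((1 + ε) * Yf η v ^ 2 + (1 + 1 / ε) * B) := by
          refine setIntegral_mono_on hPI ((hYI.const_mul _).add hIc) hIm fun v hv => ?_
          have h1 := sq_split (a := Yf η v) (b := PU T η v - Yf η v) hε
          have h2 := hclose v hv
          rw [show Yf η v + (PU T η v - Yf η v) = PU T η v by ring] at h1
          refine h1.trans ?_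
          gcongr
      _ ≤ _ := by
          rw [integral_add (hYI.const_mul _) hIc, integral_const_mul]
          linarith
  have m2 : ∫ v in I, Yf η v ^ 2 ≤ (1 + ε) * (∫ v in I, PU T η v ^ 2) + (1 + 1 / ε) * B * T := by
    calc ∫ v in I, Yf η v ^ 2 ≤ ∫ v in I, ((1 + ε) * PU T η v ^ 2 + (1 + 1 / ε) * B) := by
          refine setIntegral_mono_on hYI ((hPI.const_mul _).add hIc) hIm fun v hv => ?_
          have h1 := sq_split (a := PU T η v) (b := Yf η v - PU T η v) hε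
          have h2 := hclose v hv
          rw [show PU T η v + (Yf η v - PU T η v) = Yf η v by ring] at h1
          rw [show (PU T η v - Yf η v) ^ 2 = (Yf η v - PU T η v) ^ 2 by ring] at h2
          refine h1.trans ?_
          gcongr
      _ ≤ _ := by
          rw [integral_add (hPI.const_mul _) hIc, integral_const_mul]
          linarith
  have e1 : ∫ v, PU T η v ^ 2 = (∫ v in I, PU T η v ^ 2) + ∫ v in Iᶜ, PU T η v ^ 2 :=
    (integral_add_compl hIm hPi).symm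
  have o1 := hout T V0 η hT10 (by linarith) (by linarith) hT.1 (by linarith [hT.2])
  have o1 : ∫ v in Iᶜ, PU T η v ^ 2 ≤ C1 * ((V0 + 4) * (2 * Real.log T ^ 2 / c0) ^ 2 + c1 / 2 * (T * Real.log T)) := by
    rw [hI]
    refine o1.trans ?_
    gcongr
  have p0 : 0 ≤ ∫ v in Iᶜ, PU T η v ^ 2 := integral_nonneg fun v => sq_nonneg _
  have p1 : ∫ v in I, Yf η v ^ 2 ≤ ∫ v in Ioc 1 T, Yf η v ^ 2 :=
    setIntegral_mono_set hYi (ae_of_all _ fun v => sq_nonneg _) hIsub.eventuallyLE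
  have hcη : C2 / η ^ 2 ≤ 4 * C2 / c0 ^ 2 * Real.log T ^ 2 := by
    have h1 : 1 / η ≤ 2 * Real.log T / c0 := by
      rw [div_le_div_iff₀ hη0 hc0]
      linarith
    calc C2 / η ^ 2 = C2 * (1 / η) ^ 2 := by ring
      _ ≤ C2 * (2 * Real.log T / c0) ^ 2 := by gcongr
      _ = _ := by ring
  have e2 : ∫ v in Ioc 1 T, Yf η v ^ 2 = (∫ v in Ioc 1 V0, Yf η v ^ 2) + (∫ v in I, Yf η v ^ 2) +
      ∫ v in Ioc (T - 1) T, Yf η v ^ 2 := by
    have q1 : Ioc 1 T = (Ioc 1 V0 ∪ I) ∪ Ioc (T - 1) T := by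
      rw [hI, Ioc_union_Ioc_eq_Ioc (by linarith) (by linarith), Ioc_union_Ioc_eq_Ioc (by linarith) (by linarith)]
    have q2 : IntegrableOn (fun v => Yf η v ^ 2) (Ioc 1 V0) := hYi.mono_set (Ioc_subset_Ioc_right (by linarith))
    have q3 : IntegrableOn (fun v => Yf η v ^ 2) (Ioc (T - 1) T) := hYi.mono_set (Ioc_subset_Ioc_left (by linarith))
    have q4 : Disjoint (Ioc 1 V0) I := by
      rw [hI]
      exact Set.disjoint_left.2 fun v hv1 hv2 => absurd hv1.2 (not_le.2 hv2.1)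
    have q5 : Disjoint (Ioc 1 V0 ∪ I) (Ioc (T - 1) T) := by
      rw [hI, Ioc_union_Ioc_eq_Ioc (by linarith) (by linarith)]
      exact Set.disjoint_left.2 fun v hv1 hv2 => absurd hv1.2 (not_le.2 hv2.1)
    rw [q1, setIntegral_union q5 measurableSet_Ioc (q2.union hYI) q3, setIntegral_union q4 hIm q2 hYI]
  have e3 : ∫ v in Ioc 1 V0, Yf η v ^ 2 ≤ C2 / η ^ 2 * (V0 * V0 ^ ((1 : ℝ) / 2)) := by
    calc ∫ v in Ioc 1 V0, Yf η v ^ 2 ≤ ∫ v in Ioc 1 V0, C2 / η ^ 2 * V0 ^ ((1 : ℝ) / 2) := by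
          refine setIntegral_mono_on (hYi.mono_set (Ioc_subset_Ioc_right (by linarith)))
            (integrableOn_const measure_Ioc_lt_top.ne) measurableSet_Ioc fun v hv => ?_
          have hv1 : (1 : ℝ) < v := hv.1
          refine (hcr η v hT.1 hT.2 hv1.le).trans ?_
          gcongr
          exact hv.2
      _ = (V0 - 1) * (C2 / η ^ 2 * V0 ^ ((1 : ℝ) / 2)) := by
          rw [setIntegral_const, Real.volume_real_Ioc, max_eq_left (by linarith), smul_eq_mul]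
      _ ≤ V0 * (C2 / η ^ 2 * V0 ^ ((1 : ℝ) / 2)) := by gcongr; linarith
      _ = _ := by ring
  have e4 : ∫ v in Ioc (T - 1) T, Yf η v ^ 2 ≤ C2 / η ^ 2 * T ^ ((1 : ℝ) / 2) := by
    calc ∫ v in Ioc (T - 1) T, Yf η v ^ 2 ≤ ∫ v in Ioc (T - 1) T, C2 / η ^ 2 * T ^ ((1 : ℝ) / 2) := by
          refine setIntegral_mono_on (hYi.mono_set (Ioc_subset_Ioc_left (by linarith)))
            (integrableOn_const measure_Ioc_lt_top.ne) measurableSet_Ioc fun v hv => ?_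
          have hv1 : (1 : ℝ) < v := by linarith [hv.1]
          refine (hcr η v hT.1 hT.2 hv1.le).trans ?_
          gcongr
          exact hv.2
      _ = _ := by
          rw [setIntegral_const, Real.volume_real_Ioc, max_eq_left (by linarith), smul_eq_mul]
          ring
  have e3 : ∫ v in Ioc 1 V0, Yf η v ^ 2 ≤ 4 * C2 / c0 ^ 2 * Real.log T ^ 2 * (V0 * V0 ^ ((1 : ℝ) / 2)) :=
    e3.trans (by gcongr)
  have e4 : ∫ v in Ioc (T - 1) T, Yf η v ^ 2 ≤ 4 * C2 / c0 ^ 2 * Real.log T ^ 2 * T ^ ((1 : ℝ) / 2) :=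
    e4.trans (by gcongr)
  obtain ⟨N, hN⟩ : ∃ N : ℝ, N = T * Real.log T ^ 2 := ⟨_, rfl⟩
  have hN0 : 0 < N := by rw [hN]; positivity
  -- the errors divided by `N`
  have r1 : (1 + 1 / ε) * B * T / N = (1 + 1 / ε) * B * (1 / Real.log T * (1 / Real.log T)) := by
    rw [hN]; field_simp
  have r2 : C1 * ((V0 + 4) * (2 * Real.log T ^ 2 / c0) ^ 2 + c1 / 2 * (T * Real.log T)) / N =
      C1 * (4 * (V0 + 4) / c0 ^ 2 * (Real.log T ^ 2 / T) + c1 / 2 * (1 / Real.log T)) := by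
    rw [hN]; field_simp; ring
  have r3 : (4 * C2 / c0 ^ 2 * Real.log T ^ 2 * (V0 * V0 ^ ((1 : ℝ) / 2)) + 4 * C2 / c0 ^ 2 * Real.log T ^ 2 * T ^ ((1 : ℝ) / 2)) / N =
      4 * C2 / c0 ^ 2 * (V0 * (V0 ^ ((1 : ℝ) / 2)) * (1 / T) + T ^ (-(1 / 2) : ℝ)) := by
    have h1 : T ^ (-(1 / 2) : ℝ) = T ^ ((1 : ℝ) / 2) / T := by
      rw [show (-(1 / 2) : ℝ) = 1 / 2 - 1 by norm_num, Real.rpow_sub hT0, Real.rpow_one]
    rw [hN, h1]; field_simp
  have n1 : 0 ≤ (1 + 1 / ε) * B * (1 / Real.log T * (1 / Real.log T)) := by positivity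
  have n2 : 0 ≤ C1 * (4 * (V0 + 4) / c0 ^ 2 * (Real.log T ^ 2 / T) + c1 / 2 * (1 / Real.log T)) := by positivity
  have n3 : 0 ≤ C2 / c0 ^ 2 * (V0 * (V0 ^ ((1 : ℝ) / 2)) * (1 / T) + T ^ (-(1 / 2) : ℝ)) := by positivity
  have e8 : 8 * C2 / c0 ^ 2 * (V0 * (V0 ^ ((1 : ℝ) / 2)) * (1 / T) + T ^ (-(1 / 2) : ℝ)) =
    8 * (C2 / c0 ^ 2 * (V0 * (V0 ^ ((1 : ℝ) / 2)) * (1 / T) + T ^ (-(1 / 2) : ℝ))) := by ring
  rw [e8] at hTe
  rw [← hN]
  constructor
  · have t1 : ∫ v, PU T η v ^ 2 ≤ (1 + ε) * (∫ v in Ioc 1 T, Yf η v ^ 2) + (1 + 1 / ε) * B * T +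
        C1 * ((V0 + 4) * (2 * Real.log T ^ 2 / c0) ^ 2 + c1 / 2 * (T * Real.log T)) := by
      have : (1 + ε) * (∫ v in I, Yf η v ^ 2) ≤ (1 + ε) * (∫ v in Ioc 1 T, Yf η v ^ 2) := by gcongr
      linarith
    calc (∫ v, PU T η v ^ 2) / N ≤ ((1 + ε) * (∫ v in Ioc 1 T, Yf η v ^ 2) + (1 + 1 / ε) * B * T +
        C1 * ((V0 + 4) * (2 * Real.log T ^ 2 / c0) ^ 2 + c1 / 2 * (T * Real.log T))) / N := by gcongr
      _ = (1 + ε) * ((∫ v in Ioc 1 T, Yf η v ^ 2) / N) + (1 + 1 / ε) * B * T / N +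
          C1 * ((V0 + 4) * (2 * Real.log T ^ 2 / c0) ^ 2 + c1 / 2 * (T * Real.log T)) / N := by ring
      _ ≤ _ := by
          rw [r1, r2]
          linarith
  · have t1 : ∫ v in Ioc 1 T, Yf η v ^ 2 ≤ (1 + ε) * (∫ v, PU T η v ^ 2) + (1 + 1 / ε) * B * T +
        (4 * C2 / c0 ^ 2 * Real.log T ^ 2 * (V0 * V0 ^ ((1 : ℝ) / 2)) + 4 * C2 / c0 ^ 2 * Real.log T ^ 2 * T ^ ((1 : ℝ) / 2)) := by
      have : (1 + ε) * (∫ v in I, PU T η v ^ 2) ≤ (1 + ε) * (∫ v, PU T η v ^ 2) :=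
        mul_le_mul_of_nonneg_left (by linarith) (by linarith)
      linarith
    calc (∫ v in Ioc 1 T, Yf η v ^ 2) / N ≤ ((1 + ε) * (∫ v, PU T η v ^ 2) + (1 + 1 / ε) * B * T +
        (4 * C2 / c0 ^ 2 * Real.log T ^ 2 * (V0 * V0 ^ ((1 : ℝ) / 2)) + 4 * C2 / c0 ^ 2 * Real.log T ^ 2 * T ^ ((1 : ℝ) / 2))) / N := by
          gcongr
      _ = (1 + ε) * ((∫ v, PU T η v ^ 2) / N) + (1 + 1 / ε) * B * T / N +
          (4 * C2 / c0 ^ 2 * Real.log T ^ 2 * (V0 * V0 ^ ((1 : ℝ) / 2)) + 4 * C2 / c0 ^ 2 * Real.log T ^ 2 * T ^ ((1 : ℝ) / 2)) / N := by ring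
      _ ≤ _ := by
          rw [r1, r3]
          have e4 : 4 * C2 / c0 ^ 2 * (V0 * (V0 ^ ((1 : ℝ) / 2)) * (1 / T) + T ^ (-(1 / 2) : ℝ)) =
            4 * (C2 / c0 ^ 2 * (V0 * (V0 ^ ((1 : ℝ) / 2)) * (1 / T) + T ^ (-(1 / 2) : ℝ))) := by ring
          rw [e4]
          linarith

lemma PU_mono2 (T v : ℝ) {η0 η : ℝ} (h0 : 0 < η0) (h : η0 ≤ η) : PU T η0 v ≤ η / η0 * PU T η v := by
  unfold PU
  rw [Finset.mul_sum]
  refine Finset.sum_le_sum fun s _ => ?_
  have hm := mm_nonneg s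
  have hη : 0 < η := h0.trans_le h
  have h1 : 0 < η ^ 2 + (v - s.im) ^ 2 := by positivity
  have h2 : 0 < η0 ^ 2 + (v - s.im) ^ 2 := by positivity
  have h3 : η0 / (η0 ^ 2 + (v - s.im) ^ 2) ≤ η / η0 * (η / (η ^ 2 + (v - s.im) ^ 2)) := by
    rw [div_mul_div_comm, div_le_div_iff₀ h2 (by positivity)]
    have h4 : η0 ^ 2 ≤ η ^ 2 := pow_le_pow_left₀ h0.le h 2
    nlinarith [mul_nonneg (sub_nonneg.2 h4) (sq_nonneg (v - s.im))]
  calc mm s * (η0 / (η0 ^ 2 + (v - s.im) ^ 2)) ≤ mm s * (η / η0 * (η / (η ^ 2 + (v - s.im) ^ 2))) := by gcongr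
    _ = _ := by ring

lemma PU_sq_ratio {T η0 η ρ : ℝ} (h0 : 0 < η0) (h1 : 0 < η) (h2 : η ≤ ρ * η0) (h3 : η0 ≤ ρ * η) :
    ∫ v, PU T η v ^ 2 ≤ ρ ^ 2 * ∫ v, PU T η0 v ^ 2 := by
  have hpt : ∀ v, PU T η v ≤ ρ * PU T η0 v := by
    intro v
    have hp := PU_nonneg T v h0
    rcases le_total η0 η with h | h
    · refine (PU_eta T v h0 h).trans ?_
      have : η / η0 ≤ ρ := by rw [div_le_iff₀ h0]; exact h2
      gcongr
    · refine (PU_mono2 T v h1 h).trans ?_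
      have : η0 / η ≤ ρ := by rw [div_le_iff₀ h1]; exact h3
      gcongr
  rw [← integral_const_mul]
  refine integral_mono (PU_sq T h1).1 ((PU_sq T h0).1.const_mul _) fun v => ?_
  simp only []
  rw [← mul_pow]
  exact pow_le_pow_left₀ (PU_nonneg T v h1) (hpt v) 2

lemma log_ratio {lam : ℝ} (hl : 0 < lam) : Tendsto (fun T : ℝ => Real.log (lam * T) / Real.log T) atTop (𝓝 1) := by
  have h1 : Tendsto (fun T : ℝ => Real.log lam * (Real.log T)⁻¹ + 1) atTop (𝓝 (Real.log lam * 0 + 1)) :=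
    ((tendsto_inv_atTop_zero.comp Real.tendsto_log_atTop).const_mul _).add_const _
  rw [mul_zero, zero_add] at h1
  refine h1.congr' ?_
  filter_upwards [eventually_gt_atTop 1] with T hT
  have hlog : 0 < Real.log T := Real.log_pos hT
  rw [Real.log_mul hl.ne' (by linarith)]
  field_simp

/-- **the mean square over `[1, λ T]`** -/
theorem Y_lam (hRH : RiemannHypothesis) (h : Pool.Agent.Y744.G.Montgomery atTop) {c lam : ℝ} (hc : 0 < c) (hl : 0 < lam) :
    Tendsto (fun T => (∫ v in Ioc 1 (lam * T), Yf (c / (2 * Real.log T)) v ^ 2) / (T * Real.log T ^ 2)) atTop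
      (𝓝 (lam * ((sg c + 1 / 2) / 2))) := by
  obtain ⟨D, hD⟩ : ∃ D : ℝ, D = (sg c + 1 / 2) / 2 := ⟨_, rfl⟩
  have hlT : Tendsto (fun T : ℝ => lam * T) atTop atTop := tendsto_id.const_mul_atTop hl
  have hr := log_ratio hl
  have E1 : Tendsto (fun T => (∫ v, PU (lam * T) (c / (2 * Real.log (lam * T))) v ^ 2) /
      ((lam * T) * Real.log (lam * T) ^ 2)) atTop (𝓝 D) := by
    rw [hD]
    exact (PU_of_mont h hc).comp hlT
  have E2 : Tendsto (fun T => (∫ v, PU (lam * T) (c / (2 * Real.log T)) v ^ 2) /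
      ((lam * T) * Real.log (lam * T) ^ 2)) atTop (𝓝 D) := by
    refine eps_lim E1 fun ε hε hε1 => ?_
    obtain ⟨ρ, hρ⟩ : ∃ ρ : ℝ, ρ = 1 + ε / 4 := ⟨_, rfl⟩
    have hρ1 : 1 < ρ := by rw [hρ]; linarith
    have hρ2 : ρ ^ 2 ≤ 1 + ε := by rw [hρ]; nlinarith
    have hr1 : ∀ᶠ T : ℝ in atTop, Real.log (lam * T) / Real.log T < ρ := hr.eventually_lt_const hρ1
    have hr2 : ∀ᶠ T : ℝ in atTop, 1 / ρ < Real.log (lam * T) / Real.log T :=
      hr.eventually_const_lt (by rw [div_lt_one (by linarith)]; exact hρ1)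
    filter_upwards [hr1, hr2, eventually_gt_atTop 1, hlT.eventually_gt_atTop 1] with T k1 k2 k3 k4
    have hL : 0 < Real.log T := Real.log_pos k3
    have hL' : 0 < Real.log (lam * T) := Real.log_pos k4
    have hN : 0 < (lam * T) * Real.log (lam * T) ^ 2 := by positivity
    rw [div_lt_iff₀ hL] at k1
    rw [div_lt_div_iff₀ (by linarith) hL, one_mul] at k2
    have a1 : c / (2 * Real.log T) ≤ ρ * (c / (2 * Real.log (lam * T))) := by
      rw [← mul_div_assoc, div_le_div_iff₀ (by positivity) (by positivity)]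
      nlinarith
    have a2 : c / (2 * Real.log (lam * T)) ≤ ρ * (c / (2 * Real.log T)) := by
      rw [← mul_div_assoc, div_le_div_iff₀ (by positivity) (by positivity)]
      nlinarith
    have b1 := PU_sq_ratio (T := lam * T) (by positivity) (by positivity) a1 a2
    have b2 := PU_sq_ratio (T := lam * T) (by positivity) (by positivity) a2 a1
    have c1 : 0 ≤ ∫ v, PU (lam * T) (c / (2 * Real.log T)) v ^ 2 := integral_nonneg fun v => sq_nonneg _
    have c2 : 0 ≤ ∫ v, PU (lam * T) (c / (2 * Real.log (lam * T))) v ^ 2 := integral_nonneg fun v => sq_nonneg _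
    constructor
    · calc _ ≤ (ρ ^ 2 * ∫ v, PU (lam * T) (c / (2 * Real.log (lam * T))) v ^ 2) / ((lam * T) * Real.log (lam * T) ^ 2) := by gcongr
        _ ≤ ((1 + ε) * ∫ v, PU (lam * T) (c / (2 * Real.log (lam * T))) v ^ 2) / ((lam * T) * Real.log (lam * T) ^ 2) := by gcongr
        _ ≤ _ := by rw [mul_div_assoc]; linarith
    · calc _ ≤ (ρ ^ 2 * ∫ v, PU (lam * T) (c / (2 * Real.log T)) v ^ 2) / ((lam * T) * Real.log (lam * T) ^ 2) := by gcongr
        _ ≤ ((1 + ε) * ∫ v, PU (lam * T) (c / (2 * Real.log T)) v ^ 2) / ((lam * T) * Real.log (lam * T) ^ 2) := by gcongr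
        _ ≤ _ := by rw [mul_div_assoc]; linarith
  have Y2 : Tendsto (fun T => (∫ v in Ioc 1 (lam * T), Yf (c / (2 * Real.log T)) v ^ 2) /
      ((lam * T) * Real.log (lam * T) ^ 2)) atTop (𝓝 D) := by
    refine eps_lim E2 fun ε hε hε1 => ?_
    have hr1 : ∀ᶠ T : ℝ in atTop, Real.log (lam * T) / Real.log T < 2 := hr.eventually_lt_const (by norm_num)
    have hr2 : ∀ᶠ T : ℝ in atTop, 1 / 2 < Real.log (lam * T) / Real.log T := hr.eventually_const_lt (by norm_num)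
    filter_upwards [hr1, hr2, eventually_gt_atTop 1, hlT.eventually (comp hRH (c0 := c / 2) (c1 := 2 * c)
      (by positivity) (by positivity) hε)] with T k1 k2 k3 k4
    have hL : 0 < Real.log T := Real.log_pos k3
    have e : 2 * (c / (2 * Real.log T)) * Real.log (lam * T) = c * (Real.log (lam * T) / Real.log T) := by field_simp
    have := k4 (c / (2 * Real.log T)) (by positivity) (by rw [e]; nlinarith) (by rw [e]; nlinarith)
    exact ⟨this.2, this.1⟩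
  have hfin := (Y2.mul ((hr.pow 2).const_mul lam))
  rw [show D * (lam * 1 ^ 2) = lam * D by ring, hD] at hfin
  refine hfin.congr' ?_
  filter_upwards [eventually_gt_atTop 1, hlT.eventually_gt_atTop 1] with T k3 k4
  have hL : 0 < Real.log T := Real.log_pos k3
  have hL' : 0 < Real.log (lam * T) := Real.log_pos k4
  have hT0 : 0 < T := by linarith
  field_simp

end Pool.Agent.U507.PC
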