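import Pool.Agent.U507.PC.CB

/-!
# Converse, third step: the weighted mean squares
-/

set_option autoImplicit false

open Complex Filter Topology Set MeasureTheory Metric
open scoped Real

namespace Pool.Agent.U507.PC

open Pool.Agent.U507.GM hiding step_low low_pt low_unif rigid

/-- domination, sharper for small `s` -/
theorem Q_dom2 (hRH : RiemannHypothesis) {c : ℝ} (hc : 0 < c) : ∃ C T0 : ℝ, 0 < C ∧ 16 ≤ T0 ∧ ∀ T s : ℝ, T0 ≤ T →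
    0 < s → s ≤ 1 → T / Real.log T ^ 2 * Qf (c / (2 * Real.log T)) (s / T) ≤ C * (s * (1 + |Real.log s|) ^ 4) := by
  obtain ⟨C1, hC1, hpl⟩ := pl hRH
  obtain ⟨C2, V1, hC2, hV1, hM⟩ := M_bound2 hRH
  obtain ⟨C3, hC3, hn⟩ := near_zero hRH V1 (by linarith)
  obtain ⟨C4, hC4, ht⟩ := tail_bound hRH
  obtain ⟨K, hK, hw⟩ := wb
  obtain ⟨C5, hC5, hg⟩ := gY_int hRH
  obtain ⟨δ0, hδ0⟩ : ∃ δ0 : ℝ, δ0 = min (1 / 2) (1 / V1) := ⟨_, rfl⟩
  have hV10 : 0 < V1 := by linarith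
  have hδ00 : 0 < δ0 := by rw [hδ0]; exact lt_min (by norm_num) (by positivity)
  have hδ01 : δ0 ≤ 1 / 2 := by rw [hδ0]; exact min_le_left _ _
  have hδ02 : δ0 ≤ 1 / V1 := by rw [hδ0]; exact min_le_right _ _
  obtain ⟨G, hG⟩ : ∃ G : ℝ, G = 8 * (C3 + C4) / c ^ 2 + 144 * (C2 * (8 / c + 16 + 64 * c ^ 2)) + 2 * K := ⟨_, rfl⟩
  have hG0 : 0 < G := by rw [hG]; positivity
  refine ⟨G, max 16 (max (Real.exp (8 * c + 1)) (1 / δ0)), by positivity, le_max_left _ _,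
    fun T s hT hs hs1 => ?_⟩
  have hT16 : 16 ≤ T := (le_max_left _ _).trans hT
  have hT0 : 0 < T := by linarith
  have hTe : Real.exp (8 * c + 1) ≤ T := ((le_max_left _ _).trans (le_max_right _ _)).trans hT
  have hTδ0 : 1 / δ0 ≤ T := ((le_max_right _ _).trans (le_max_right _ _)).trans hT
  have hLL : 8 * c + 1 ≤ Real.log T := by rwa [Real.le_log_iff_exp_le hT0]
  obtain ⟨L, hL⟩ : ∃ L : ℝ, L = Real.log T := ⟨_, rfl⟩
  rw [← hL] at hLL ⊢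
  have hL1 : 1 ≤ L := by linarith
  have hL0 : 0 < L := by linarith
  obtain ⟨η, hη⟩ : ∃ η : ℝ, η = c / (2 * L) := ⟨_, rfl⟩
  rw [← hη]
  have hη0 : 0 < η := by rw [hη]; positivity
  have hη1 : η ≤ 1 / 16 := by
    rw [hη, div_le_div_iff₀ (by positivity) (by norm_num)]
    linarith
  obtain ⟨δ, hδ⟩ : ∃ δ : ℝ, δ = s / T := ⟨_, rfl⟩
  rw [← hδ]
  have hδp : 0 < δ := by rw [hδ]; positivity
  have hTδ : T * δ = s := by rw [hδ]; field_simp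
  have hη2 : 1 / η ^ 2 = 4 * L ^ 2 / c ^ 2 := by rw [hη]; field_simp; norm_num
  have hs2 : 0 ≤ s ^ 2 := sq_nonneg s
  have hcase : δ ≤ δ0 := by
    rw [hδ, div_le_iff₀ hT0]
    rw [div_le_iff₀ hδ00] at hTδ0
    linarith
  · -- small `δ`
    have hδ2 : δ ≤ 1 / 2 := hcase.trans hδ01
    obtain ⟨L1, hL1d⟩ : ∃ L1 : ℝ, L1 = -Real.log δ := ⟨_, rfl⟩
    have hL10 : 0 ≤ L1 := by
      rw [hL1d]
      have := Real.log_nonpos hδp.le (by linarith)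
      linarith
    obtain ⟨p1, -⟩ := hpl η δ hη0 hη1 hδp hδ2
    obtain ⟨U, hU⟩ : ∃ U : ℝ, U = (δ ^ 3)⁻¹ := ⟨_, rfl⟩
    have hd3 : δ ^ 3 ≤ δ := by
      have : δ ^ 2 ≤ 1 := by nlinarith
      nlinarith
    have hVU : V1 ≤ U := by
      have h1 : δ ≤ 1 / V1 := hcase.trans hδ02
      have h2 : V1 ≤ δ⁻¹ := by
        rw [le_inv_comm₀ hV10 hδp, ← one_div]
        exact h1
      have h3 : δ⁻¹ ≤ U := by
        rw [hU]
        exact inv_anti₀ (by positivity) hd3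
      linarith
    have hU0 : 0 < U := by linarith
    obtain ⟨ℓ, hℓ⟩ : ∃ ℓ : ℝ, ℓ = 1 + 3 * L1 := ⟨_, rfl⟩
    have hℓ0 : 0 < ℓ := by rw [hℓ]; linarith
    have hlogU : ∀ u ∈ Icc V1 U, Real.log (u + 1) ≤ ℓ := by
      intro u hu
      have h1 : u + 1 ≤ 2 * U := by linarith [hu.2]
      have h2 : Real.log (u + 1) ≤ Real.log (2 * U) := Real.log_le_log (by linarith [hu.1]) h1
      have h3 : Real.log (2 * U) = Real.log 2 - 3 * Real.log δ := by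
        rw [Real.log_mul (by norm_num) hU0.ne', hU, Real.log_inv, Real.log_pow]
        push_cast
        ring
      have h4 : Real.log 2 < 1 := by
        have := Real.log_two_lt_d9
        linarith
      rw [hℓ, hL1d]
      linarith
    obtain ⟨K', hK'⟩ : ∃ K' : ℝ, K' = C2 * (ℓ / η + ℓ ^ 2 + η ^ 2 * ℓ ^ 4) := ⟨_, rfl⟩
    have hK'0 : 0 ≤ K' := by rw [hK']; positivity
    have hKb : ∀ u ∈ Icc V1 U, ∫ v in V1..u, (fun v : ℝ => (ZF ⟨1 / 2 + η, v⟩).re) v ^ 2 ≤ K' * u := by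
      intro u hu
      have h1 := hlogU u hu
      have h0 : 0 ≤ Real.log (u + 1) := Real.log_nonneg (by linarith [hu.1])
      refine (hM u η hu.1 hη0 hη1).trans ?_
      have hu0 : 0 < u := by linarith [hu.1]
      calc C2 * u * (Real.log (u + 1) / η + Real.log (u + 1) ^ 2 + η ^ 2 * Real.log (u + 1) ^ 4) ≤
            C2 * u * (ℓ / η + ℓ ^ 2 + η ^ 2 * ℓ ^ 4) := by gcongr
        _ = _ := by rw [hK']; ring
    have hzc : Continuous fun v : ℝ => (ZF ⟨1 / 2 + η, v⟩).re := Complex.continuous_re.comp (zf_cont hRH hη0)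
    have hmid := parts_bound hzc hδp hV10 hVU hK'0 hKb
    have hmid2 : 8 * K' / U + 16 * π * K' * δ ≤ 72 * K' * δ := by
      have e1 : 8 * K' / U = 8 * K' * δ ^ 3 := by rw [hU]; field_simp
      have h1 : 8 * K' * δ ^ 3 ≤ 8 * K' * δ := by gcongr
      have h2 : 16 * π * K' * δ ≤ 16 * 4 * K' * δ := by
        gcongr
        exact Real.pi_le_four
      rw [e1]
      linarith
    obtain ⟨-, hnear⟩ := hn η δ hη0 hη1 hδp
    have htail := ht η δ hη0 hη1 hδp (by linarith)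
    rw [← hU] at htail
    have hsplit : ∫ v in Ioi 0, gh δ v ^ 2 * (ZF ⟨1 / 2 + η, v⟩).re ^ 2 =
        (∫ v in Ioc 0 V1, gh δ v ^ 2 * (ZF ⟨1 / 2 + η, v⟩).re ^ 2) +
        ((∫ v in Ioc V1 U, gh δ v ^ 2 * (ZF ⟨1 / 2 + η, v⟩).re ^ 2) +
          ∫ v in Ioi U, gh δ v ^ 2 * (ZF ⟨1 / 2 + η, v⟩).re ^ 2) := by
      rw [← setIntegral_union Ioc_disjoint_Ioi_same measurableSet_Ioi p1.integrableOn p1.integrableOn,
        Ioc_union_Ioi_eq_Ioi hVU, ← setIntegral_union Ioc_disjoint_Ioi_same measurableSet_Ioi p1.integrableOn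
        p1.integrableOn, Ioc_union_Ioi_eq_Ioi (by linarith)]
    have hz1 : ∫ v in Ioi 1, gh δ v ^ 2 * (ZF ⟨1 / 2 + η, v⟩).re ^ 2 ≤
        ∫ v in Ioi 0, gh δ v ^ 2 * (ZF ⟨1 / 2 + η, v⟩).re ^ 2 :=
      setIntegral_mono_set p1.integrableOn (Filter.Eventually.of_forall fun v => mul_nonneg (sq_nonneg _)
        (sq_nonneg _)) (Ioi_subset_Ioi (by norm_num)).eventuallyLE
    rw [hsplit, ← intervalIntegral.integral_of_le hVU] at hz1
    have hz2 : ∫ v in Ioi 1, gh δ v ^ 2 * (ZF ⟨1 / 2 + η, v⟩).re ^ 2 ≤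
        C3 * δ ^ 2 / η ^ 2 + (72 * K' * δ + C4 * (δ * √δ) / η ^ 2) := by linarith
    obtain ⟨w1, w2⟩ := hw δ L1 hδp (by rw [hL1d, neg_add_cancel, abs_zero]; norm_num)
    have w3 : IntegrableOn (fun v => gh δ v ^ 2 * (1 + (Real.log v - L1) ^ 2)) (Ioi 1) :=
      w1.mono_set (Ioi_subset_Ioi (by norm_num))
    have hQ : Qf η δ ≤ 2 * (∫ v in Ioi 1, gh δ v ^ 2 * (ZF ⟨1 / 2 + η, v⟩).re ^ 2) + (1 + L1 ^ 2) * (K * δ) := by
      have h1 : Qf η δ ≤ ∫ v in Ioi 1, (2 * (gh δ v ^ 2 * (ZF ⟨1 / 2 + η, v⟩).re ^ 2) +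
          (1 + L1 ^ 2) * (gh δ v ^ 2 * (1 + (Real.log v - L1) ^ 2))) := by
        unfold Qf
        refine setIntegral_mono_on (gQ_int hRH hη0 hη1 δ) ((p1.integrableOn.const_mul _).add (w3.const_mul _))
          measurableSet_Ioi fun v _ => ?_
        have h2 : Yf η v ^ 2 ≤ 2 * (ZF ⟨1 / 2 + η, v⟩).re ^ 2 + (1 + L1 ^ 2) * (1 + (Real.log v - L1) ^ 2) := by
          unfold Yf
          obtain ⟨a, ha⟩ : ∃ a : ℝ, a = (ZF ⟨1 / 2 + η, v⟩).re := ⟨_, rfl⟩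
          obtain ⟨m, hm⟩ : ∃ m : ℝ, m = Real.log v - L1 := ⟨_, rfl⟩
          have hlv : Real.log v = L1 + m := by rw [hm]; ring
          rw [← ha, ← hm, hlv]
          have : 0 ≤ L1 ^ 2 * m ^ 2 := by positivity
          nlinarith [sq_nonneg (1 / 2 * (L1 + m) + a), sq_nonneg (L1 - m)]
        calc gh δ v ^ 2 * Yf η v ^ 2 ≤ gh δ v ^ 2 * (2 * (ZF ⟨1 / 2 + η, v⟩).re ^ 2 +
              (1 + L1 ^ 2) * (1 + (Real.log v - L1) ^ 2)) := mul_le_mul_of_nonneg_left h2 (sq_nonneg _)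
          _ = _ := by ring
      rw [integral_add (p1.integrableOn.const_mul _) (w3.const_mul _), integral_const_mul, integral_const_mul] at h1
      have h3 : ∫ v in Ioi 1, gh δ v ^ 2 * (1 + (Real.log v - L1) ^ 2) ≤ K * δ := by
        refine le_trans ?_ w2
        exact setIntegral_mono_set w1 (Filter.Eventually.of_forall fun v => mul_nonneg (sq_nonneg _) (by positivity))
          (Ioi_subset_Ioi (by norm_num)).eventuallyLE
      have h4 : (1 + L1 ^ 2) * ∫ v in Ioi 1, gh δ v ^ 2 * (1 + (Real.log v - L1) ^ 2) ≤ (1 + L1 ^ 2) * (K * δ) := by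
        gcongr
      linarith
    -- everything in terms of `ψ`
    obtain ⟨x, hx⟩ : ∃ x : ℝ, x = |Real.log s| := ⟨_, rfl⟩
    have hx0 : 0 ≤ x := by rw [hx]; exact abs_nonneg _
    obtain ⟨ψ, hψ⟩ : ∃ ψ : ℝ, ψ = 1 + x := ⟨_, rfl⟩
    have hψ1 : 1 ≤ ψ := by rw [hψ]; linarith
    have hL1x : L1 ≤ L + x := by
      rw [hL1d, hδ, Real.log_div hs.ne' hT0.ne', ← hL]
      have := neg_abs_le (Real.log s)
      linarith
    have hL1ψ : L1 ≤ L * ψ := by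
      rw [hψ]
      nlinarith
    have hℓψ : ℓ ≤ 4 * L * ψ := by
      rw [hℓ, hψ]
      nlinarith
    have hψ2 : ψ ^ 2 ≤ ψ ^ 4 := pow_le_pow_right₀ hψ1 (by norm_num)
    have hψ3 : ψ ≤ ψ ^ 4 := by
      calc ψ = ψ ^ 1 := (pow_one ψ).symm
        _ ≤ ψ ^ 4 := pow_le_pow_right₀ hψ1 (by norm_num)
    have hψ4 : 1 ≤ ψ ^ 4 := one_le_pow₀ hψ1
    have hds : δ ≤ √δ := by
      have hs2' : √δ * √δ = δ := Real.mul_self_sqrt hδp.le
      have hs1 : √δ ≤ 1 := Real.sqrt_le_one.2 (by linarith)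
      have hs0 : 0 < √δ := Real.sqrt_pos.2 hδp
      nlinarith
    have hsd1 : √δ ≤ 1 := Real.sqrt_le_one.2 (by linarith)
    have b1 : C3 * δ ^ 2 / η ^ 2 ≤ 4 * C3 / c ^ 2 * (L ^ 2 * δ) := by
      have e : C3 * δ ^ 2 / η ^ 2 = C3 * δ ^ 2 * (1 / η ^ 2) := by ring
      rw [e, hη2]
      calc C3 * δ ^ 2 * (4 * L ^ 2 / c ^ 2) = 4 * C3 / c ^ 2 * (L ^ 2 * δ) * δ := by ring
        _ ≤ _ := mul_le_of_le_one_right (by positivity) (by linarith)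
    have b2 : C4 * (δ * √δ) / η ^ 2 ≤ 4 * C4 / c ^ 2 * (L ^ 2 * δ) := by
      have e : C4 * (δ * √δ) / η ^ 2 = C4 * (δ * √δ) * (1 / η ^ 2) := by ring
      rw [e, hη2]
      calc C4 * (δ * √δ) * (4 * L ^ 2 / c ^ 2) = 4 * C4 / c ^ 2 * (L ^ 2 * δ) * √δ := by ring
        _ ≤ _ := mul_le_of_le_one_right (by positivity) hsd1
    have b3 : K' ≤ C2 * (8 / c + 16 + 64 * c ^ 2) * (L ^ 2 * ψ ^ 4) := by
      have e1 : ℓ / η ≤ 8 / c * (L ^ 2 * ψ ^ 4) := by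
        rw [div_le_iff₀ hη0]
        have : 8 / c * (L ^ 2 * ψ ^ 4) * η = 4 * L * ψ ^ 4 := by
          rw [hη]
          field_simp
          norm_num
        rw [this]
        refine hℓψ.trans ?_
        gcongr
      have e2 : ℓ ^ 2 ≤ 16 * (L ^ 2 * ψ ^ 4) := by
        calc ℓ ^ 2 ≤ (4 * L * ψ) ^ 2 := pow_le_pow_left₀ hℓ0.le hℓψ 2
          _ = 16 * (L ^ 2 * ψ ^ 2) := by ring
          _ ≤ _ := by gcongr
      have e3 : η ^ 2 * ℓ ^ 4 ≤ 64 * c ^ 2 * (L ^ 2 * ψ ^ 4) := by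
        calc η ^ 2 * ℓ ^ 4 ≤ η ^ 2 * (4 * L * ψ) ^ 4 := by gcongr
          _ = 64 * c ^ 2 * (L ^ 2 * ψ ^ 4) := by
              rw [hη]
              field_simp
              norm_num
      rw [hK']
      calc C2 * (ℓ / η + ℓ ^ 2 + η ^ 2 * ℓ ^ 4) ≤ C2 * (8 / c * (L ^ 2 * ψ ^ 4) + 16 * (L ^ 2 * ψ ^ 4) +
            64 * c ^ 2 * (L ^ 2 * ψ ^ 4)) := by gcongr
        _ = _ := by ring
    have b4 : 1 + L1 ^ 2 ≤ 2 * (L ^ 2 * ψ ^ 4) := by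
      have h1 : L1 ^ 2 ≤ (L * ψ) ^ 2 := pow_le_pow_left₀ hL10 hL1ψ 2
      have h2 : (L * ψ) ^ 2 ≤ L ^ 2 * ψ ^ 4 := by
        rw [mul_pow]
        gcongr
      have h3 : 1 ≤ L ^ 2 * ψ ^ 4 := by
        have : (1 : ℝ) ≤ L ^ 2 := one_le_pow₀ hL1
        nlinarith
      linarith
    have hQ2 : Qf η δ ≤ G * (L ^ 2 * δ * ψ ^ 4) := by
      have h1 : Qf η δ ≤ 2 * (C3 * δ ^ 2 / η ^ 2 + (72 * K' * δ + C4 * (δ * √δ) / η ^ 2)) +
          (1 + L1 ^ 2) * (K * δ) := by linarith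
      refine h1.trans ?_
      have h2 : 72 * K' * δ ≤ 72 * (C2 * (8 / c + 16 + 64 * c ^ 2) * (L ^ 2 * ψ ^ 4)) * δ := by gcongr
      have h3 : (1 + L1 ^ 2) * (K * δ) ≤ 2 * (L ^ 2 * ψ ^ 4) * (K * δ) := by gcongr
      have h4 : 4 * C3 / c ^ 2 * (L ^ 2 * δ) ≤ 4 * C3 / c ^ 2 * (L ^ 2 * δ) * ψ ^ 4 :=
        le_mul_of_one_le_right (by positivity) hψ4
      have h5 : 4 * C4 / c ^ 2 * (L ^ 2 * δ) ≤ 4 * C4 / c ^ 2 * (L ^ 2 * δ) * ψ ^ 4 :=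
        le_mul_of_one_le_right (by positivity) hψ4
      have e : G * (L ^ 2 * δ * ψ ^ 4) = 2 * (4 * C3 / c ^ 2 * (L ^ 2 * δ) * ψ ^ 4 +
          (72 * (C2 * (8 / c + 16 + 64 * c ^ 2) * (L ^ 2 * ψ ^ 4)) * δ + 4 * C4 / c ^ 2 * (L ^ 2 * δ) * ψ ^ 4)) +
          2 * (L ^ 2 * ψ ^ 4) * (K * δ) := by
        rw [hG]
        ring
      rw [e]
      linarith
    calc T / L ^ 2 * Qf η δ ≤ T / L ^ 2 * (G * (L ^ 2 * δ * ψ ^ 4)) := by gcongr
      _ = G * ((T * δ) * ψ ^ 4) := by field_simp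
      _ = G * (s * ψ ^ 4) := by rw [hTδ]
      _ = _ := by rw [hψ, hx]

end Pool.Agent.U507.PC
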