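import Pool.Agent.U507.PC.CC

/-!
# Converse, fourth step: Riemann sums
-/

set_option autoImplicit false

open Complex Filter Topology Set MeasureTheory Metric
open scoped Real

namespace Pool.Agent.U507.PC

open Pool.Agent.U507.GM hiding step_low low_pt low_unif rigid

/-- Riemann sums for a monotone family of sets -/
lemma riem {A : ℕ → Set ℝ} (hA : ∀ j, MeasurableSet (A j)) (hmono : Monotone A) (h0 : A 0 = ∅)
    {w g : ℝ → ℝ} {N : ℕ} (hw : IntegrableOn w (A N)) (hgw : IntegrableOn (fun v => g v * w v) (A N))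
    (hw0 : ∀ v, 0 ≤ w v) {c : ℕ → ℝ} {ω : ℝ} (hcl : ∀ j, j < N → ∀ v ∈ A (j + 1) \ A j, |g v - c j| ≤ ω) :
    |(∫ v in A N, g v * w v) - ∑ j ∈ Finset.range N, c j * ((∫ v in A (j + 1), w v) - ∫ v in A j, w v)| ≤
      ω * ∫ v in A N, w v := by
  have key : ∀ n : ℕ, n ≤ N →
      |(∫ v in A n, g v * w v) - ∑ j ∈ Finset.range n, c j * ((∫ v in A (j + 1), w v) - ∫ v in A j, w v)| ≤
      ω * ∫ v in A n, w v := by
    intro n
    induction n with
    | zero =>
      intro _
      rw [h0]
      simp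
    | succ n ih =>
      intro hn
      have h1 := ih (by omega)
      have hsub : A n ⊆ A (n + 1) := hmono (Nat.le_succ n)
      have hsubN : A (n + 1) ⊆ A N := hmono hn
      have i1 : IntegrableOn w (A (n + 1)) := hw.mono_set hsubN
      have i2 : IntegrableOn (fun v => g v * w v) (A (n + 1)) := hgw.mono_set hsubN
      have d1 := setIntegral_sdiff (hA n) i1 hsub
      have d2 := setIntegral_sdiff (hA n) i2 hsub
      have i1' : IntegrableOn w (A (n + 1) \ A n) := i1.mono_set sdiff_subset
      have i2' : IntegrableOn (fun v => g v * w v) (A (n + 1) \ A n) := i2.mono_set sdiff_subset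
      have h2 : |(∫ v in A (n + 1) \ A n, g v * w v) - c n * ∫ v in A (n + 1) \ A n, w v| ≤
          ω * ∫ v in A (n + 1) \ A n, w v := by
        rw [← integral_const_mul, ← integral_sub i2' (i1'.const_mul _), ← integral_const_mul]
        refine abs_integral_le_integral_abs.trans ?_
        refine setIntegral_mono_on (i2'.sub (i1'.const_mul _)).abs (i1'.const_mul _) ((hA _).diff (hA _)) fun v hv => ?_
        rw [← sub_mul, abs_mul, abs_of_nonneg (hw0 v)]
        exact mul_le_mul_of_nonneg_right (hcl n (by omega) v hv) (hw0 v)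
      rw [Finset.sum_range_succ]
      rw [d1, d2] at h2
      have e : (∫ v in A (n + 1), g v * w v) - (∑ j ∈ Finset.range n, c j * ((∫ v in A (j + 1), w v) - ∫ v in A j, w v) +
          c n * ((∫ v in A (n + 1), w v) - ∫ v in A n, w v)) =
          ((∫ v in A n, g v * w v) - ∑ j ∈ Finset.range n, c j * ((∫ v in A (j + 1), w v) - ∫ v in A j, w v)) +
          (((∫ v in A (n + 1), g v * w v) - ∫ v in A n, g v * w v) - c n * ((∫ v in A (n + 1), w v) - ∫ v in A n, w v)) := by
        ring
      rw [e]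
      refine (abs_add_le _ _).trans ?_
      linarith
  exact key N le_rfl

/-- convergence of weighted integrals from convergence of the distribution functions -/
lemma step_conv {Lam D : ℝ} (hL : 0 < Lam) (hD : 0 ≤ D) {w : ℝ → ℝ → ℝ}
    (hw : ∀ᶠ T in atTop, IntegrableOn (w T) (Ioc 1 (Lam * T)) ∧ ∀ v, 0 ≤ w T v)
    (hF : ∀ x : ℝ, 0 < x → Tendsto (fun T => ∫ v in Ioc 1 (x * T), w T v) atTop (𝓝 (x * D)))
    {G : ℝ → ℝ} (hG : Continuous G) :
    Tendsto (fun T => ∫ v in Ioc 1 (Lam * T), G (v / T) * w T v) atTop (𝓝 (∫ x in Ioc 0 Lam, G x * D)) := by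
  rw [Metric.tendsto_nhds]
  intro ε hε
  obtain ⟨ω, hω⟩ : ∃ ω : ℝ, ω = ε / (4 * (Lam * D + 1)) := ⟨_, rfl⟩
  have hLD : 0 ≤ Lam * D := by positivity
  have hω0 : 0 < ω := by rw [hω]; positivity
  have hωε : ω * (Lam * D + 1) = ε / 4 := by rw [hω]; field_simp
  have huc := (isCompact_Icc (a := 0) (b := Lam)).uniformContinuousOn_of_continuous hG.continuousOn
  rw [Metric.uniformContinuousOn_iff] at huc
  obtain ⟨d, hd, hd2⟩ := huc ω hω0
  obtain ⟨N, hN⟩ := exists_nat_gt (Lam / d)
  have hN0 : (0 : ℝ) < N := lt_of_le_of_lt (by positivity) hN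
  rw [div_lt_iff₀ hd] at hN
  obtain ⟨p, hp⟩ : ∃ p : ℕ → ℝ, p = fun j : ℕ => (j : ℝ) * (Lam / N) := ⟨_, rfl⟩
  have hp0 : p 0 = 0 := by rw [hp]; simp
  have hpN : p N = Lam := by rw [hp]; field_simp
  have hpm : Monotone p := by
    rw [hp]
    intro i j hij
    have : (i : ℝ) ≤ j := by exact_mod_cast hij
    have : 0 ≤ Lam / N := by positivity
    simp only
    gcongr
  have hps : ∀ j, p (j + 1) - p j < d := by
    intro j
    rw [hp]
    push_cast
    have : ((j : ℝ) + 1) * (Lam / N) - j * (Lam / N) = Lam / N := by ring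
    rw [this, div_lt_iff₀ hN0]
    linarith
  have hclose : ∀ j, j < N → ∀ x, p j < x → x ≤ p (j + 1) → |G x - G (p (j + 1))| ≤ ω := by
    intro j hj x h1 h2
    have hpj : 0 ≤ p j := by rw [← hp0]; exact hpm (Nat.zero_le j)
    have hpj1 : p (j + 1) ≤ Lam := by rw [← hpN]; exact hpm hj
    have := hd2 x ⟨by linarith, h2.trans hpj1⟩ (p (j + 1)) ⟨by linarith, hpj1⟩ (by
      rw [Real.dist_eq, abs_lt]
      have := hps j
      constructor <;> linarith)
    rw [Real.dist_eq] at this
    exact this.le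
  -- the limit integral
  have hlimI : |(∫ x in Ioc 0 Lam, G x * D) - ∑ j ∈ Finset.range N, G (p (j + 1)) * (p (j + 1) * D - p j * D)| ≤
      ω * (Lam * D) := by
    have hB : ∀ j, (∫ x in Ioc 0 (p j), D) = p j * D := by
      intro j
      have hpj : 0 ≤ p j := by rw [← hp0]; exact hpm (Nat.zero_le j)
      rw [setIntegral_const, Real.volume_real_Ioc, sub_zero, max_eq_left hpj, smul_eq_mul]
    have h := riem (A := fun j => Ioc 0 (p j)) (fun j => measurableSet_Ioc)
      (fun i j hij => Ioc_subset_Ioc_right (hpm hij)) (by simp [hp0]) (w := fun _ => D) (g := G) (N := N)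
      (integrableOn_const measure_Ioc_lt_top.ne)
      ((hG.mul continuous_const).integrableOn_Icc.mono_set Ioc_subset_Icc_self) (fun _ => hD)
      (c := fun j => G (p (j + 1))) (ω := ω) (fun j hj x hx => by
        refine hclose j hj x ?_ hx.1.2
        by_contra hcon
        exact hx.2 ⟨hx.1.1, not_lt.1 hcon⟩)
    simp only [hB] at h
    rw [hpN] at h
    exact h
  -- the sums converge
  have hsum : Tendsto (fun T => ∑ j ∈ Finset.range N, G (p (j + 1)) *
      ((∫ v in Ioc 1 (p (j + 1) * T), w T v) - ∫ v in Ioc 1 (p j * T), w T v)) atTop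
      (𝓝 (∑ j ∈ Finset.range N, G (p (j + 1)) * (p (j + 1) * D - p j * D))) := by
    have hFj : ∀ j, Tendsto (fun T => ∫ v in Ioc 1 (p j * T), w T v) atTop (𝓝 (p j * D)) := by
      intro j
      rcases Nat.eq_zero_or_pos j with hj | hj
      · rw [hj, hp0]
        simp only [zero_mul]
        refine tendsto_const_nhds.congr fun T => ?_
        rw [Ioc_eq_empty (by norm_num)]
        simp
      · have hpj : 0 < p j := by
          rw [hp]
          have : (0 : ℝ) < j := by exact_mod_cast hj
          positivity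
        exact hF _ hpj
    exact tendsto_finsetSum _ fun j _ => ((hFj (j + 1)).sub (hFj j)).const_mul _
  rw [Metric.tendsto_nhds] at hsum
  filter_upwards [hw, hsum (ε / 4) (by linarith), (hF Lam hL).eventually_lt_const (show Lam * D < Lam * D + 1 by linarith),
    eventually_gt_atTop 0] with T ⟨k1, k2⟩ k3 k4 hT
  have hgc : Continuous fun v => G (v / T) := hG.comp (by fun_prop)
  have hgw : IntegrableOn (fun v => G (v / T) * w T v) (Ioc 1 (Lam * T)) := by
    obtain ⟨B, hB⟩ := (isCompact_Icc (a := 1) (b := Lam * T)).exists_bound_of_continuousOn hgc.continuousOn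
    have h1 : IntegrableOn (fun v => B * w T v) (Ioc 1 (Lam * T)) := k1.const_mul B
    refine Integrable.mono' h1 (hgc.aestronglyMeasurable.mul k1.aestronglyMeasurable) ?_
    refine (ae_restrict_iff' measurableSet_Ioc).2 (Filter.Eventually.of_forall fun v hv => ?_)
    rw [norm_mul, Real.norm_eq_abs (w T v), abs_of_nonneg (k2 v)]
    exact mul_le_mul_of_nonneg_right (hB v (Ioc_subset_Icc_self hv)) (k2 v)
  have h := riem (A := fun j => Ioc 1 (p j * T)) (fun j => measurableSet_Ioc)
    (fun i j hij => Ioc_subset_Ioc_right (by have := hpm hij; gcongr))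
    (by simp only [hp0, zero_mul]; exact Ioc_eq_empty (by norm_num)) (w := w T) (g := fun v => G (v / T)) (N := N)
    (by simp only [hpN]; exact k1) (by simp only [hpN]; exact hgw) k2
    (c := fun j => G (p (j + 1))) (ω := ω) (fun j hj v hv => by
      have hv2 : v / T ≤ p (j + 1) := by rw [div_le_iff₀ hT]; exact hv.1.2
      have hv1 : p j < v / T := by
        rw [lt_div_iff₀ hT]
        by_contra hcon
        exact hv.2 ⟨hv.1.1, not_lt.1 hcon⟩
      exact hclose j hj (v / T) hv1 hv2)
  simp only [hpN] at h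
  have h5 : ω * ∫ v in Ioc 1 (Lam * T), w T v ≤ ω * (Lam * D + 1) := by gcongr
  have h6 : ω * (Lam * D) ≤ ω * (Lam * D + 1) := by gcongr; linarith
  rw [Real.dist_eq] at k3 ⊢
  rw [abs_lt] at k3 ⊢
  rw [abs_le] at h hlimI
  constructor <;> linarith [h.1, h.2, hlimI.1, hlimI.2, k3.1, k3.2]

end Pool.Agent.U507.PC
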