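import Pool.Agent.U507.PC.CE

/-!
# Converse, conclusion
-/

set_option autoImplicit false

open Complex Filter Topology Set MeasureTheory Metric
open scoped Real

namespace Pool.Agent.U507.PC

open Pool.Agent.U507.GM hiding step_low low_pt low_unif rigid

/-- the Laplace transforms -/
theorem lap_of_mont (hRH : RiemannHypothesis) (h : Pool.Agent.Y744.G.Montgomery atTop) {c : ℝ} (hc : 0 < c) :
    Tendsto (fun T => ∫ α in Ioi 0, Real.exp (-c * α) * vs T α) atTop (𝓝 (sg c)) := by
  have hQ := Q_conv hRH h hc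
  rw [Metric.tendsto_nhds] at hQ ⊢
  intro ε hε
  obtain ⟨L0, hL0, hts⟩ := ts_lim hRH (c1 := c / 2) (c2 := c / 2) (ε := min 1 (ε / 4)) (by positivity)
    (lt_min one_pos (by positivity)) (min_le_left _ _)
  filter_upwards [hQ (ε / 4) (by linarith), eventually_ge_atTop 16,
    Real.tendsto_log_atTop.eventually_ge_atTop (max L0 (max c 1)), eventually_ge_atTop (4 / ε)] with T k1 hT16 k2 k3
  have hT0 : 0 < T := by linarith
  have h1 : L0 ≤ Real.log T := (le_max_left _ _).trans k2
  have h2 : c ≤ Real.log T := ((le_max_left _ _).trans (le_max_right _ _)).trans k2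
  obtain ⟨d1, d2, d3, d4⟩ := dl1 hT16
  have hlog : 0 < Real.log T := Real.log_pos (by linarith)
  rw [(vs_lap hRH hT16 hc h2).2]
  obtain ⟨δ, hδ⟩ : ∃ δ : ℝ, δ = dl T 1 := ⟨_, rfl⟩
  rw [← hδ] at d1 d2 d3 d4 k1 ⊢
  obtain ⟨L, hL⟩ : ∃ L : ℝ, L = Real.log T := ⟨_, rfl⟩
  have hηL : c / (2 * Real.log T) * Real.log T = c / 2 := by field_simp
  have h3 := hts (Real.log T) δ (c / (2 * Real.log T)) h1 d1 d4 (by rw [hηL]) (by rw [hηL])
  obtain ⟨η, hη⟩ : ∃ η : ℝ, η = c / (2 * Real.log T) := ⟨_, rfl⟩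
  rw [← hη] at h3 k1 ⊢
  rw [← hL] at h3 k1 hlog ⊢
  have h4 : min 1 (ε / 4) * (δ * L ^ 2) ≤ ε / 4 * (δ * L ^ 2) := by
    gcongr
    exact min_le_right _ _
  have h5 : |π / 2 * Wv η δ - (Qf η δ - π / 4 * (δ * L ^ 2))| ≤ ε / 4 * (δ * L ^ 2) := h3.trans h4
  have hTδ : δ * T ≤ 1 := by
    rw [le_div_iff₀ hT0] at d2
    exact d2
  have hTL : 0 < T / L ^ 2 := by positivity
  have h6 : |π / 2 * (T / L ^ 2 * Wv η δ) - (T / L ^ 2 * Qf η δ - π / 4 * (δ * T))| ≤ ε / 4 := by
    have e : π / 2 * (T / L ^ 2 * Wv η δ) - (T / L ^ 2 * Qf η δ - π / 4 * (δ * T)) =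
        T / L ^ 2 * (π / 2 * Wv η δ - (Qf η δ - π / 4 * (δ * L ^ 2))) := by
      field_simp
    rw [e, abs_mul, abs_of_pos hTL]
    calc T / L ^ 2 * |π / 2 * Wv η δ - (Qf η δ - π / 4 * (δ * L ^ 2))| ≤ T / L ^ 2 * (ε / 4 * (δ * L ^ 2)) := by gcongr
      _ = ε / 4 * (δ * T) := by field_simp
      _ ≤ ε / 4 * 1 := by gcongr
      _ = ε / 4 := mul_one _
  have hp4 := Real.pi_le_four
  have hp3 := Real.pi_gt_three
  have h7 : |π / 4 * (δ * T) - π / 4| ≤ ε / 4 := by
    have h8 : 1 / T ≤ ε / 4 := by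
      rw [div_le_iff₀ hε] at k3
      rw [div_le_div_iff₀ hT0 (by norm_num)]
      linarith
    rw [abs_le]
    constructor
    · have : 1 - ε / 4 ≤ δ * T := by linarith
      nlinarith
    · nlinarith
  rw [Real.dist_eq] at k1 ⊢
  have h9 : |π / 2 * (T / L ^ 2 * Wv η δ) - π / 2 * sg c| ≤ 3 * ε / 4 := by
    have e : π / 2 * (T / L ^ 2 * Wv η δ) - π / 2 * sg c =
        (π / 2 * (T / L ^ 2 * Wv η δ) - (T / L ^ 2 * Qf η δ - π / 4 * (δ * T))) +
        (T / L ^ 2 * Qf η δ - π * ((sg c + 1 / 2) / 2)) - (π / 4 * (δ * T) - π / 4) := by ring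
    rw [e]
    refine (abs_sub _ _).trans ?_
    have := abs_add_le (π / 2 * (T / L ^ 2 * Wv η δ) - (T / L ^ 2 * Qf η δ - π / 4 * (δ * T)))
      (T / L ^ 2 * Qf η δ - π * ((sg c + 1 / 2) / 2))
    linarith
  rw [← mul_sub, abs_mul, abs_of_pos (by positivity)] at h9
  have h10 : 0 ≤ |T / L ^ 2 * Wv η δ - sg c| := abs_nonneg _
  nlinarith

/-- from the Laplace transforms to the windows -/
theorem Ph_of_lap (hRH : RiemannHypothesis)
    (h : ∀ c : ℝ, 0 < c → Tendsto (fun T => ∫ α in Ioi 0, Real.exp (-c * α) * vs T α) atTop (𝓝 (sg c)))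
    {b : ℝ} (hb : 0 ≤ b) : Tendsto (fun T => Ph (vs T) b) atTop (𝓝 (mp b)) := by
  have hcomm : ∀ (c : ℝ) (g : ℝ → ℝ), ∫ α in Ioi (0 : ℝ), g α * Real.exp (-c * α) = ∫ α in Ioi (0 : ℝ), Real.exp (-c * α) * g α :=
    fun c g => integral_congr_ae (ae_of_all _ fun α => mul_comm _ _)
  have hint : ∀ c : ℝ, 0 < c → ∀ᶠ T in atTop, IntegrableOn (fun α => vs T α * Real.exp (-c * α)) (Ioi 0) := by
    intro c hc
    obtain ⟨C, T0, hC, hT0, hup⟩ := vs_up hRH hc
    filter_upwards [eventually_ge_atTop T0] with T hT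
    exact (hup T hT).1.congr (ae_of_all _ fun α => mul_comm _ _)
  have hlc : ∀ (f : ℝ → ℝ), Continuous f → ∀ M : ℝ, (∀ x, M ≤ x → f x = 0) →
      Tendsto (fun T => ∫ α in Ioi 0, vs T α * f α) atTop (𝓝 (∫ α in Ioi (0 : ℝ), min α 1 * f α)) := by
    intro f hf M hM
    refine lap_conv (ρ := volume.restrict (Ioi 0)) (w := fun T α => vs T α) (X := fun _ α => α)
      (ρ₀ := volume.restrict (Ioi 0)) (w₀ := fun α => min α 1) (X₀ := fun α => α) ?_ ?_ ?_ ?_ ?_ hf hM
    · filter_upwards [eventually_ge_atTop (16 : ℝ)] with T hT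
      refine ⟨vs_meas (by linarith), measurable_id, ?_⟩
      refine (ae_restrict_iff' measurableSet_Ioi).2 (Filter.Eventually.of_forall fun α hα => ?_)
      exact ⟨vs_nonneg (by linarith) α, le_of_lt hα⟩
    · refine ⟨min_cont.measurable, measurable_id, ?_⟩
      refine (ae_restrict_iff' measurableSet_Ioi).2 (Filter.Eventually.of_forall fun α hα => ?_)
      exact ⟨le_min (le_of_lt hα) zero_le_one, le_of_lt hα⟩
    · intro n
      exact hint _ (by positivity)
    · intro n
      exact (lap_min (c := (n : ℝ) + 1) (by positivity)).1.congr (ae_of_all _ fun α => mul_comm _ _)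
    · intro n
      have hn : (0 : ℝ) < (n : ℝ) + 1 := by positivity
      rw [hcomm, sg_eq hn]
      refine (h _ hn).congr fun T => ?_
      rw [hcomm]
  have hst : ∀ (m δ : ℝ), 0 ≤ m → 0 < δ → mp m ≤ ∫ α in Ioi (0 : ℝ), min α 1 * stp m δ α ∧
      ∫ α in Ioi (0 : ℝ), min α 1 * stp m δ α ≤ mp (m + δ) := by
    intro m δ hm hδ
    have hc : Continuous fun α : ℝ => min α 1 * stp m δ α := min_cont.mul (stp_cont m δ)
    have hsplit : ∫ α in Ioi (0 : ℝ), min α 1 * stp m δ α = ∫ α in Ioc (0 : ℝ) (m + δ), min α 1 * stp m δ α := by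
      refine setIntegral_eq_of_subset_of_forall_sdiff_eq_zero measurableSet_Ioi Ioc_subset_Ioi_self ?_
      intro α hα
      have : m + δ ≤ α := by
        by_contra hcon
        exact hα.2 ⟨hα.1, (not_le.1 hcon).le⟩
      rw [stp_zero hδ this, mul_zero]
    have hi : ∀ r : ℝ, IntegrableOn (fun α : ℝ => min α 1 * stp m δ α) (Ioc (0 : ℝ) r) := fun r =>
      (hc.integrableOn_Icc (a := 0) (b := r)).mono_set Ioc_subset_Icc_self
    have hi2 : ∀ r : ℝ, IntegrableOn (fun α : ℝ => min α 1) (Ioc (0 : ℝ) r) := fun r =>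
      (min_cont.integrableOn_Icc (a := 0) (b := r)).mono_set Ioc_subset_Icc_self
    rw [hsplit]
    unfold mp
    rw [intervalIntegral.integral_of_le hm, intervalIntegral.integral_of_le (by linarith : (0 : ℝ) ≤ m + δ)]
    constructor
    · calc ∫ α in Ioc 0 m, min α 1 = ∫ α in Ioc 0 m, min α 1 * stp m δ α := by
            refine setIntegral_congr_fun measurableSet_Ioc fun α hα => ?_
            rw [stp_one hδ hα.2, mul_one]
        _ ≤ _ := by
            refine setIntegral_mono_set (hi _) ?_ (Ioc_subset_Ioc_right (by linarith)).eventuallyLE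
            refine (ae_restrict_iff' measurableSet_Ioc).2 (Filter.Eventually.of_forall fun α hα => ?_)
            exact mul_nonneg (le_min hα.1.le zero_le_one) (stp_nonneg _ _ _)
    · refine setIntegral_mono_on (hi _) (hi2 _) measurableSet_Ioc fun α hα => ?_
      exact mul_le_of_le_one_right (le_min hα.1.le zero_le_one) (stp_le _ _ _)
  have hvi : ∀ (f : ℝ → ℝ), Continuous f → (∀ x, 0 ≤ f x) → (∀ x, f x ≤ 1) → ∀ M : ℝ, (∀ x, M ≤ x → f x = 0) →
      ∀ᶠ T in atTop, IntegrableOn (fun α => vs T α * f α) (Ioi 0) := by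
    intro f hf hf0 hf1 M hM
    filter_upwards [hint 1 one_pos, eventually_ge_atTop (16 : ℝ)] with T hT hT16
    refine Integrable.mono' (hT.const_mul (Real.exp M)) ((vs_meas (by linarith)).mul hf.measurable).aestronglyMeasurable
      (Filter.Eventually.of_forall fun α => ?_)
    rw [Real.norm_eq_abs, abs_of_nonneg (mul_nonneg (vs_nonneg (by linarith) α) (hf0 α))]
    have h1 : f α ≤ Real.exp M * Real.exp (-1 * α) := by
      rcases le_total M α with h2 | h2
      · rw [hM α h2]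
        positivity
      · refine (hf1 α).trans ?_
        rw [← Real.exp_add]
        exact Real.one_le_exp (by linarith)
    calc vs T α * f α ≤ vs T α * (Real.exp M * Real.exp (-1 * α)) := by
          gcongr
          exact vs_nonneg (by linarith) α
      _ = _ := by ring
  rw [Metric.tendsto_nhds]
  intro ε hε
  have hδ : 0 < ε / 4 := by linarith
  -- upper bound
  have hupper : ∀ᶠ T in atTop, Ph (vs T) b < mp b + ε := by
    have h1 := hst b (ε / 4) hb hδ
    have h2 := hlc (stp b (ε / 4)) (stp_cont _ _) (b + ε / 4) (fun x hx => stp_zero hδ hx)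
    have h3 := mp_slope (show b ≤ b + ε / 4 by linarith)
    filter_upwards [h2.eventually_lt_const (show _ < mp b + ε by linarith [h1.2]),
      hvi _ (stp_cont b (ε / 4)) (stp_nonneg _ _) (stp_le _ _) (b + ε / 4) (fun x hx => stp_zero hδ hx),
      eventually_ge_atTop (16 : ℝ)] with T k1 k2 hT
    refine lt_of_le_of_lt ?_ k1
    unfold Ph
    rw [intervalIntegral.integral_of_le hb]
    calc ∫ α in Ioc 0 b, vs T α = ∫ α in Ioc 0 b, vs T α * stp b (ε / 4) α := by
          refine setIntegral_congr_fun measurableSet_Ioc fun α hα => ?_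
          rw [stp_one hδ hα.2, mul_one]
      _ ≤ _ := setIntegral_mono_set k2 (Filter.Eventually.of_forall fun α =>
          mul_nonneg (vs_nonneg (by linarith) α) (stp_nonneg _ _ _)) Ioc_subset_Ioi_self.eventuallyLE
  have hlower : ∀ᶠ T in atTop, mp b - ε < Ph (vs T) b := by
    rcases le_or_gt b (ε / 4) with hb4 | hb4
    · have h3 := mp_slope hb
      rw [mp_zero] at h3
      filter_upwards [eventually_ge_atTop (16 : ℝ)] with T hT
      have : 0 ≤ Ph (vs T) b := intervalIntegral.integral_nonneg hb fun α _ => vs_nonneg (by linarith) α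
      linarith
    · have h1 := hst (b - ε / 4) (ε / 4) (by linarith) hδ
      have h2 := hlc (stp (b - ε / 4) (ε / 4)) (stp_cont _ _) b (fun x hx => stp_zero hδ (by linarith))
      have h3 := mp_slope (show b - ε / 4 ≤ b by linarith)
      filter_upwards [h2.eventually_const_lt (show mp b - ε < _ by linarith [h1.1]),
        hvi _ (stp_cont (b - ε / 4) (ε / 4)) (stp_nonneg _ _) (stp_le _ _) b (fun x hx => stp_zero hδ (by linarith)),
        eventually_ge_atTop (16 : ℝ)] with T k1 k2 hT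
      refine lt_of_lt_of_le k1 ?_
      unfold Ph
      rw [intervalIntegral.integral_of_le hb]
      have e : ∫ α in Ioi (0 : ℝ), vs T α * stp (b - ε / 4) (ε / 4) α = ∫ α in Ioc 0 b, vs T α * stp (b - ε / 4) (ε / 4) α := by
        refine setIntegral_eq_of_subset_of_forall_sdiff_eq_zero measurableSet_Ioi Ioc_subset_Ioi_self ?_
        intro α hα
        have : b ≤ α := by
          by_contra hcon
          exact hα.2 ⟨hα.1, (not_le.1 hcon).le⟩
        rw [stp_zero hδ (by linarith), mul_zero]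
      rw [e]
      have hvv := vs_ii hT le_rfl hb
      rw [intervalIntegrable_iff_integrableOn_Ioc_of_le hb] at hvv
      refine setIntegral_mono_on (k2.mono_set Ioc_subset_Ioi_self) hvv measurableSet_Ioc fun α _ => ?_
      exact mul_le_of_le_one_right (vs_nonneg (by linarith) α) (stp_le _ _ _)
  filter_upwards [hupper, hlower] with T k1 k2
  rw [Real.dist_eq, abs_lt]
  constructor <;> linarith

/-- **pair correlation gives the asymptotics for the primes** -/
theorem Mt_of_mont (hRH : RiemannHypothesis) (h : Pool.Agent.Y744.G.Montgomery atTop) {a b : ℝ} (ha : 0 ≤ a)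
    (hab : a ≤ b) : Tendsto (fun T => Mt T a b) atTop (𝓝 (∫ α in a..b, min α 1)) := by
  have hl : ∀ c : ℝ, 0 < c → Tendsto (fun T => ∫ α in Ioi 0, Real.exp (-c * α) * vs T α) atTop (𝓝 (sg c)) :=
    fun c hc => lap_of_mont hRH h hc
  have h1 := (Ph_of_lap hRH hl (ha.trans hab)).sub (Ph_of_lap hRH hl ha)
  rw [mp_sub a b] at h1
  refine h1.congr' ?_
  filter_upwards [eventually_ge_atTop (16 : ℝ)] with T hT
  rw [← vs_M (by linarith) hab]
  exact Ph_sub (fun a b ha hb => vs_ii hT ha hb) ha (ha.trans hab)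

theorem Hyp_of_mont (hRH : RiemannHypothesis) (h : Pool.Agent.Y744.G.Montgomery atTop) {ℓ : ℝ} (hℓ : 0 < ℓ) :
    Hyp ℓ := by
  intro b hb ε hε
  have h1 : (1 : ℝ) ≤ max 1 (b - ℓ) := le_max_left _ _
  have h2 : max 1 (b - ℓ) ≤ b := max_le hb.le (by linarith)
  have h3 := Mt_of_mont hRH h (a := max 1 (b - ℓ)) (b := b) (by linarith) h2
  rw [min_one h1 h2] at h3
  exact h3.eventually_le_const (lt_add_of_pos_right _ hε)

end Pool.Agent.U507.PC
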