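import Pool.Agent.U507.PC.TL

/-!
# Domination of the weighted mean squares
-/

set_option autoImplicit false

open Complex Filter Topology Set MeasureTheory Metric
open scoped ComplexConjugate FourierTransform Real

namespace Pool.Agent.U507.PC

open Pool.Agent.U507.GM
open H370 SP SP.LocAux H370.Loc
open Pool.Agent.Y749.Rig (ZZ mm mm_nonneg mem_ZZ)

/-- comparison of two parameters -/
lemma PU_eta (T v : ℝ) {η0 η : ℝ} (h0 : 0 < η0) (h : η0 ≤ η) : PU T η v ≤ η / η0 * PU T η0 v := by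
  unfold PU
  rw [Finset.mul_sum]
  refine Finset.sum_le_sum fun s _ => ?_
  have hm := mm_nonneg s
  have hη : 0 < η := h0.trans_le h
  have h1 : 0 < η ^ 2 + (v - s.im) ^ 2 := by positivity
  have h2 : 0 < η0 ^ 2 + (v - s.im) ^ 2 := by positivity
  have h3 : η / (η ^ 2 + (v - s.im) ^ 2) ≤ η / η0 * (η0 / (η0 ^ 2 + (v - s.im) ^ 2)) := by
    have e : η / η0 * (η0 / (η0 ^ 2 + (v - s.im) ^ 2)) = η / (η0 ^ 2 + (v - s.im) ^ 2) := by
      field_simp
    rw [e]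
    apply div_le_div_of_nonneg_left hη.le h2
    have : η0 ^ 2 ≤ η ^ 2 := pow_le_pow_left₀ h0.le h 2
    linarith
  calc mm s * (η / (η ^ 2 + (v - s.im) ^ 2)) ≤ mm s * (η / η0 * (η0 / (η0 ^ 2 + (v - s.im) ^ 2))) := by gcongr
    _ = _ := by ring

lemma PU_nonneg (T v : ℝ) {η : ℝ} (hη : 0 < η) : 0 ≤ PU T η v := by
  unfold PU
  refine Finset.sum_nonneg fun s _ => ?_
  have := mm_nonneg s
  positivity

/-- mean square of the sums of Poisson kernels, all parameters -/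
theorem PU_bound2 : ∃ C T0 : ℝ, 0 < C ∧ 10 ≤ T0 ∧ ∀ T η : ℝ, T0 ≤ T → 0 < η →
    ∫ v, PU T η v ^ 2 ≤ C * (T * (Real.log T / η + η ^ 2 * Real.log T ^ 4)) := by
  obtain ⟨C, T0, hC, hT0, h⟩ := PU_bound
  refine ⟨C, T0, hC, hT0, fun T η hT hη => ?_⟩
  have hlog : 0 < Real.log T := Real.log_pos (by linarith)
  have hT10 : 0 < T := by linarith
  rcases le_total (η * Real.log T) π with h1 | h1
  · refine (h T η hT hη h1).trans ?_
    have : 0 ≤ C * (T * (η ^ 2 * Real.log T ^ 4)) := by positivity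
    have e : C * (T * Real.log T) / η = C * (T * (Real.log T / η)) := by ring
    rw [e]
    linarith
  · obtain ⟨η0, hη0⟩ : ∃ η0 : ℝ, η0 = π / Real.log T := ⟨_, rfl⟩
    have hp := Real.pi_pos
    have h0 : 0 < η0 := by rw [hη0]; positivity
    have h2 : η0 ≤ η := by rw [hη0, div_le_iff₀ hlog]; exact h1
    have h3 := h T η0 hT h0 (by rw [hη0]; field_simp; exact le_rfl)
    have h4 : ∫ v, PU T η v ^ 2 ≤ ∫ v, (η / η0) ^ 2 * PU T η0 v ^ 2 := by
      refine integral_mono (PU_sq T hη).1 ((PU_sq T h0).1.const_mul _) fun v => ?_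
      simp only
      rw [← mul_pow]
      exact pow_le_pow_left₀ (PU_nonneg T v hη) (PU_eta T v h0 h2) 2
    rw [integral_const_mul] at h4
    refine h4.trans ?_
    calc (η / η0) ^ 2 * ∫ v, PU T η0 v ^ 2 ≤ (η / η0) ^ 2 * (C * (T * Real.log T) / η0) := by gcongr
      _ = C * (T * (η ^ 2 * Real.log T ^ 4)) / π ^ 3 := by
          rw [hη0]
          field_simp
      _ ≤ C * (T * (η ^ 2 * Real.log T ^ 4)) := by
          apply div_le_self (by positivity)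
          have := Real.pi_gt_three
          nlinarith [pow_pos hp 2]
      _ ≤ _ := by
          have : 0 ≤ C * (T * (Real.log T / η)) := by positivity
          linarith

/-- mean square on a bounded range, all parameters -/
lemma M_bound2 (hRH : RiemannHypothesis) : ∃ C V1 : ℝ, 0 < C ∧ 10 ≤ V1 ∧ ∀ U η : ℝ, V1 ≤ U →
    0 < η → η ≤ 1 / 16 → ∫ v in V1..U, (ZF ⟨1 / 2 + η, v⟩).re ^ 2 ≤
      C * U * (Real.log (U + 1) / η + Real.log (U + 1) ^ 2 + η ^ 2 * Real.log (U + 1) ^ 4) := by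
  obtain ⟨C1, V0, hC1, hV0, hz⟩ := z_pt hRH
  obtain ⟨C2, T0, hC2, hT0, hP⟩ := PU_bound2
  refine ⟨4 * C2 + 8 * C1 ^ 2, max V0 T0, by positivity, hV0.trans (le_max_left _ _), fun U η hU hη hη1 => ?_⟩
  have hUV : V0 ≤ U := (le_max_left _ _).trans hU
  have hUT : T0 ≤ U := (le_max_right _ _).trans hU
  have hU10 : 10 ≤ U := by linarith
  have hp := hP (U + 1) η (by linarith) hη
  obtain ⟨hpi, -⟩ := PU_sq (U + 1) hη
  have hzc : Continuous fun v : ℝ => (ZF ⟨1 / 2 + η, v⟩).re ^ 2 :=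
    (Complex.continuous_re.comp (zf_cont hRH hη)).pow 2
  have hlogU : 1 ≤ Real.log (U + 1) := by
    rw [Real.le_log_iff_exp_le (by linarith)]
    linarith [Real.exp_one_lt_d9]
  obtain ⟨l, hl⟩ : ∃ l : ℝ, l = Real.log (U + 1) := ⟨_, rfl⟩
  rw [← hl] at hp hlogU ⊢
  have h1 : ∀ v ∈ Icc (max V0 T0) U, (ZF ⟨1 / 2 + η, v⟩).re ^ 2 ≤ 2 * PU (U + 1) η v ^ 2 + 8 * C1 ^ 2 * l ^ 2 := by
    intro v hv
    have hv0 : V0 ≤ v := (le_max_left _ _).trans hv.1
    have h2 := hz v U η hv0 hv.2 hη hη1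
    have h3 : Real.log v ≤ l := by
      rw [hl]
      exact Real.log_le_log (by linarith) (by linarith [hv.2])
    have h4 : C1 * (1 + Real.log v) ≤ 2 * C1 * l := by
      have : 1 + Real.log v ≤ 2 * l := by linarith
      calc C1 * (1 + Real.log v) ≤ C1 * (2 * l) := by gcongr
        _ = _ := by ring
    have h5 : |(ZF ⟨1 / 2 + η, v⟩).re| ≤ PU (U + 1) η v + 2 * C1 * l := h2.trans (by linarith)
    rw [← sq_abs]
    calc |(ZF ⟨1 / 2 + η, v⟩).re| ^ 2 ≤ (PU (U + 1) η v + 2 * C1 * l) ^ 2 := pow_le_pow_left₀ (abs_nonneg _) h5 2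
      _ ≤ 2 * PU (U + 1) η v ^ 2 + 8 * C1 ^ 2 * l ^ 2 := by
          nlinarith [sq_nonneg (PU (U + 1) η v - 2 * C1 * l)]
  have h2 : ∫ v in (max V0 T0)..U, (ZF ⟨1 / 2 + η, v⟩).re ^ 2 ≤
      ∫ v in (max V0 T0)..U, (2 * PU (U + 1) η v ^ 2 + 8 * C1 ^ 2 * l ^ 2) := by
    refine intervalIntegral.integral_mono_on hU (hzc.intervalIntegrable _ _) ?_ h1
    exact ((hpi.const_mul 2).intervalIntegrable).add (by simp)
  have h3 : ∫ v in (max V0 T0)..U, (2 * PU (U + 1) η v ^ 2 + 8 * C1 ^ 2 * l ^ 2) ≤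
      2 * (C2 * ((U + 1) * (l / η + η ^ 2 * l ^ 4))) + 8 * C1 ^ 2 * l ^ 2 * U := by
    rw [intervalIntegral.integral_add (hpi.const_mul 2).intervalIntegrable (by simp),
      intervalIntegral.integral_const_mul, intervalIntegral.integral_const, smul_eq_mul]
    have h4 : ∫ v in (max V0 T0)..U, PU (U + 1) η v ^ 2 ≤ ∫ v, PU (U + 1) η v ^ 2 := by
      rw [intervalIntegral.integral_of_le hU]
      exact setIntegral_le_integral hpi (Filter.Eventually.of_forall fun v => sq_nonneg _)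
    have h5 : (U - max V0 T0) * (8 * C1 ^ 2 * l ^ 2) ≤ 8 * C1 ^ 2 * l ^ 2 * U := by
      have h6 : 0 ≤ 8 * C1 ^ 2 * l ^ 2 := by positivity
      have h7 : 0 ≤ max V0 T0 := le_max_of_le_left (by linarith)
      nlinarith
    linarith
  refine h2.trans (h3.trans ?_)
  have e1 : 2 * (C2 * ((U + 1) * (l / η + η ^ 2 * l ^ 4))) ≤ 4 * C2 * U * (l / η + η ^ 2 * l ^ 4) := by
    have e2 : 2 * (C2 * ((U + 1) * (l / η + η ^ 2 * l ^ 4))) = 2 * C2 * (U + 1) * (l / η + η ^ 2 * l ^ 4) := by ring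
    rw [e2]
    have : 0 ≤ l / η + η ^ 2 * l ^ 4 := by positivity
    have : 2 * C2 * (U + 1) ≤ 4 * C2 * U := by nlinarith
    gcongr
  have e3 : (4 * C2 + 8 * C1 ^ 2) * U * (l / η + l ^ 2 + η ^ 2 * l ^ 4) = 4 * C2 * U * (l / η + η ^ 2 * l ^ 4) +
      8 * C1 ^ 2 * l ^ 2 * U + (8 * C1 ^ 2 * U * (l / η + η ^ 2 * l ^ 4) + 4 * C2 * U * l ^ 2) := by ring
  rw [e3]
  have : 0 ≤ 8 * C1 ^ 2 * U * (l / η + η ^ 2 * l ^ 4) + 4 * C2 * U * l ^ 2 := by positivity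
  linarith

/-- a crude bound -/
lemma Yf_crude (hRH : RiemannHypothesis) : ∃ C : ℝ, 0 < C ∧ ∀ η v : ℝ, 0 < η → η ≤ 1 / 16 → 1 ≤ v →
    Yf η v ^ 2 ≤ C / η ^ 2 * v ^ ((1 : ℝ) / 2) := by
  obtain ⟨C, hC, h⟩ := zf_crude hRH
  refine ⟨32 * (1 + C) ^ 2, by positivity, fun η v hη hη1 hv => ?_⟩
  have hv0 : 0 < v := by linarith
  have h2 : |(ZF ⟨1 / 2 + η, v⟩).re| ≤ C * Real.log (|v| + 3) / η := (Complex.abs_re_le_norm _).trans (h v η hη hη1)
  rw [abs_of_pos hv0] at h2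
  have hl0 : 0 ≤ Real.log (v + 3) := Real.log_nonneg (by linarith)
  have h3 : |Yf η v| ≤ (1 + C) * Real.log (v + 3) / η := by
    unfold Yf
    have h4 : Real.log v ≤ Real.log (v + 3) := Real.log_le_log hv0 (by linarith)
    have h5 : 0 ≤ Real.log v := Real.log_nonneg hv
    have h6 : 1 / 2 * Real.log v ≤ Real.log (v + 3) / η := by
      rw [le_div_iff₀ hη]
      nlinarith
    calc |1 / 2 * Real.log v - (ZF ⟨1 / 2 + η, v⟩).re| ≤ |1 / 2 * Real.log v| + |(ZF ⟨1 / 2 + η, v⟩).re| := abs_sub _ _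
      _ ≤ Real.log (v + 3) / η + C * Real.log (v + 3) / η := by
          rw [abs_of_nonneg (by positivity)]
          gcongr
      _ = _ := by ring
  have h4 : Real.log (v + 3) ^ 2 ≤ 32 * v ^ ((1 : ℝ) / 2) := by
    have h5 := log_sq_large (u := v + 3) (by linarith)
    have h6 : (v + 3) ^ ((1 : ℝ) / 2) ≤ 2 * v ^ ((1 : ℝ) / 2) := by
      calc (v + 3) ^ ((1 : ℝ) / 2) ≤ (4 * v) ^ ((1 : ℝ) / 2) := by
            apply Real.rpow_le_rpow (by linarith) (by linarith) (by norm_num)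
        _ = 2 * v ^ ((1 : ℝ) / 2) := by
            rw [Real.mul_rpow (by norm_num) hv0.le]
            congr 1
            rw [show (4 : ℝ) = 2 ^ (2 : ℝ) by norm_num, ← Real.rpow_mul (by norm_num)]
            norm_num
    linarith
  rw [← sq_abs]
  calc |Yf η v| ^ 2 ≤ ((1 + C) * Real.log (v + 3) / η) ^ 2 := pow_le_pow_left₀ (abs_nonneg _) h3 2
    _ = (1 + C) ^ 2 / η ^ 2 * Real.log (v + 3) ^ 2 := by rw [div_pow, mul_pow]; ring
    _ ≤ (1 + C) ^ 2 / η ^ 2 * (32 * v ^ ((1 : ℝ) / 2)) := by gcongr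
    _ = _ := by ring

lemma gh_sq_inv (δ : ℝ) {v : ℝ} (hv : 0 < v) : gh δ v ^ 2 ≤ 4 / v ^ 2 := by
  have := gh_abs' δ hv.ne'
  rw [abs_of_pos hv] at this
  rw [← sq_abs]
  calc |gh δ v| ^ 2 ≤ (2 / v) ^ 2 := pow_le_pow_left₀ (abs_nonneg _) this 2
    _ = 4 / v ^ 2 := by rw [div_pow]; norm_num

lemma Yf_meas (hRH : RiemannHypothesis) {η : ℝ} (hη : 0 < η) : Measurable (Yf η) := by
  unfold Yf
  exact (by fun_prop : Measurable fun v : ℝ => 1 / 2 * Real.log v).sub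
    (Complex.continuous_re.comp (zf_cont hRH hη)).measurable

/-- integrability and a bound independent of `δ` -/
lemma gY_int (hRH : RiemannHypothesis) : ∃ C : ℝ, 0 < C ∧ ∀ η : ℝ, 0 < η → η ≤ 1 / 16 →
    IntegrableOn (fun v => 4 / v ^ 2 * Yf η v ^ 2) (Ioi 1) ∧ ∫ v in Ioi 1, 4 / v ^ 2 * Yf η v ^ 2 ≤ C / η ^ 2 := by
  obtain ⟨C, hC, h⟩ := Yf_crude hRH
  refine ⟨8 * C, by positivity, fun η hη hη1 => ?_⟩
  have hi : IntegrableOn (fun v : ℝ => 4 * (C / η ^ 2) * v ^ (-(3 : ℝ) / 2)) (Ioi 1) :=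
    (integrableOn_Ioi_rpow_of_lt (by norm_num) one_pos).const_mul _
  have hpt : ∀ v ∈ Ioi (1 : ℝ), 4 / v ^ 2 * Yf η v ^ 2 ≤ 4 * (C / η ^ 2) * v ^ (-(3 : ℝ) / 2) := by
    intro v hv
    have hv1 : (1 : ℝ) < v := hv
    have hv0 : 0 < v := by linarith
    have e : v ^ (-(3 : ℝ) / 2) = v ^ ((1 : ℝ) / 2) / v ^ 2 := by
      rw [← Real.rpow_natCast, ← Real.rpow_sub hv0]
      norm_num
    rw [e]
    calc 4 / v ^ 2 * Yf η v ^ 2 ≤ 4 / v ^ 2 * (C / η ^ 2 * v ^ ((1 : ℝ) / 2)) := by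
          gcongr
          exact h η v hη hη1 hv1.le
      _ = _ := by ring
  have hm : Measurable fun v => 4 / v ^ 2 * Yf η v ^ 2 :=
    (by fun_prop : Measurable fun v : ℝ => 4 / v ^ 2).mul ((Yf_meas hRH hη).pow_const 2)
  have hint : IntegrableOn (fun v => 4 / v ^ 2 * Yf η v ^ 2) (Ioi 1) := by
    refine Integrable.mono' hi hm.aestronglyMeasurable ?_
    refine (ae_restrict_iff' measurableSet_Ioi).2 (Filter.Eventually.of_forall fun v hv => ?_)
    rw [Real.norm_eq_abs, abs_of_nonneg (by positivity)]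
    exact hpt v hv
  refine ⟨hint, ?_⟩
  calc ∫ v in Ioi 1, 4 / v ^ 2 * Yf η v ^ 2 ≤ ∫ v in Ioi 1, 4 * (C / η ^ 2) * v ^ (-(3 : ℝ) / 2) :=
        setIntegral_mono_on hint hi measurableSet_Ioi hpt
    _ = 8 * C / η ^ 2 := by
        rw [integral_const_mul, integral_Ioi_rpow_of_lt (by norm_num) one_pos]
        norm_num
        ring

lemma gQ_int (hRH : RiemannHypothesis) {η : ℝ} (hη : 0 < η) (hη1 : η ≤ 1 / 16) (δ : ℝ) :
    IntegrableOn (fun v => gh δ v ^ 2 * Yf η v ^ 2) (Ioi 1) := by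
  obtain ⟨C, -, h⟩ := gY_int hRH
  refine Integrable.mono' (h η hη hη1).1 (((gh_cont δ).pow 2).measurable.mul
    ((Yf_meas hRH hη).pow_const 2)).aestronglyMeasurable ?_
  refine (ae_restrict_iff' measurableSet_Ioi).2 (Filter.Eventually.of_forall fun v hv => ?_)
  have hv1 : (1 : ℝ) < v := hv
  rw [Real.norm_eq_abs, abs_of_nonneg (by positivity)]
  exact mul_le_mul_of_nonneg_right (gh_sq_inv δ (by linarith)) (sq_nonneg _)

end Pool.Agent.U507.PC
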