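import Pool.Agent.U507.PC.KL
import Pool.Agent.Y749.Rig.FFf

/-!
# From Laplace transforms of Montgomery's function to its means
-/

set_option autoImplicit false

open MeasureTheory Filter Topology Set

namespace Pool.Agent.U507.PC

open Pool.Agent.Y749.Rig (Fr Fr_cont Fr_nonneg mn mn_cont MeanUp)

/-- the trapezoid -/
noncomputable def tz (a b δ x : ℝ) : ℝ := max 0 (min 1 (min ((x - a + δ) / δ) ((b + δ - x) / δ)))

lemma tz_cont (a b δ : ℝ) : Continuous (tz a b δ) := by unfold tz; fun_prop

lemma tz_nonneg (a b δ x : ℝ) : 0 ≤ tz a b δ x := le_max_left _ _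

lemma tz_le (a b δ x : ℝ) : tz a b δ x ≤ 1 := max_le zero_le_one (min_le_left _ _)

lemma tz_one {a b δ x : ℝ} (hδ : 0 < δ) (h1 : a ≤ x) (h2 : x ≤ b) : tz a b δ x = 1 := by
  unfold tz
  have e1 : 1 ≤ (x - a + δ) / δ := by rw [le_div_iff₀ hδ]; linarith
  have e2 : 1 ≤ (b + δ - x) / δ := by rw [le_div_iff₀ hδ]; linarith
  rw [min_eq_left (le_min e1 e2), max_eq_right zero_le_one]

lemma tz_left {a b δ x : ℝ} (hδ : 0 < δ) (h1 : x ≤ a - δ) : tz a b δ x = 0 := by
  unfold tz
  have e1 : (x - a + δ) / δ ≤ 0 := div_nonpos_of_nonpos_of_nonneg (by linarith) hδ.le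
  exact max_eq_left ((min_le_right _ _).trans ((min_le_left _ _).trans e1))

lemma tz_right {a b δ x : ℝ} (hδ : 0 < δ) (h1 : b + δ ≤ x) : tz a b δ x = 0 := by
  unfold tz
  have e1 : (b + δ - x) / δ ≤ 0 := div_nonpos_of_nonpos_of_nonneg (by linarith) hδ.le
  exact max_eq_left ((min_le_right _ _).trans ((min_le_right _ _).trans e1))

lemma tz_hcs (a b : ℝ) {δ : ℝ} (hδ : 0 < δ) : HasCompactSupport (tz a b δ) := by
  refine HasCompactSupport.of_support_subset_isCompact (isCompact_Icc (a := a - δ) (b := b + δ)) ?_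
  intro x hx
  by_contra hcon
  apply hx
  rw [mem_Icc, not_and_or, not_le, not_le] at hcon
  rcases hcon with h | h
  · exact tz_left hδ h.le
  · exact tz_right hδ h.le

/-- the measure of the limit -/
noncomputable def w0 (α : ℝ) : ℝ := if α = 0 then 1 / 2 else min α 1

lemma w0_meas : Measurable w0 := by
  unfold w0
  exact Measurable.ite (measurableSet_singleton 0) measurable_const (by fun_prop)

lemma w0_pos {α : ℝ} (h : 0 < α) : w0 α = min α 1 := by
  unfold w0
  rw [if_neg h.ne']

lemma w0_int {f : ℝ → ℝ} (hi : IntegrableOn (fun α => min α 1 * f α) (Ioi 0)) (hf : StronglyMeasurable f) :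
    Integrable (fun α => w0 α * f α) (volume.restrict (Ioi 0) + Measure.dirac 0) ∧
    ∫ α, w0 α * f α ∂(volume.restrict (Ioi 0) + Measure.dirac 0) = (∫ α in Ioi 0, min α 1 * f α) + 1 / 2 * f 0 := by
  have h1 : IntegrableOn (fun α => w0 α * f α) (Ioi 0) :=
    (integrableOn_congr_fun (fun α hα => by rw [w0_pos hα]) measurableSet_Ioi).2 hi
  have h2 : Integrable (fun α => w0 α * f α) (Measure.dirac 0) := by
    refine integrable_dirac' (w0_meas.stronglyMeasurable.mul hf) ?_
    exact enorm_lt_top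
  constructor
  · exact Integrable.add_measure h1 h2
  · have e0 : ∫ α, w0 α * f α ∂Measure.dirac (0 : ℝ) = w0 0 * f 0 :=
      integral_dirac' (fun α => w0 α * f α) 0 (w0_meas.stronglyMeasurable.mul hf)
    rw [integral_add_measure h1 h2, e0]
    congr 1
    · exact setIntegral_congr_fun measurableSet_Ioi fun α hα => by rw [w0_pos hα]
    · unfold w0
      rw [if_pos rfl]

lemma min_exp_int (n : ℕ) : IntegrableOn (fun α : ℝ => min α 1 * Real.exp (-((n : ℝ) + 1) * α)) (Ioi 0) := by
  have hn : (0 : ℝ) < (n : ℝ) + 1 := by positivity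
  have h1 : IntegrableOn (fun α : ℝ => Real.exp (-((n : ℝ) + 1) * α)) (Ioi 0) :=
    integrableOn_exp_mul_Ioi (by linarith) 0
  refine Integrable.mono' h1 (by fun_prop) ?_
  refine (ae_restrict_iff' measurableSet_Ioi).2 (Eventually.of_forall fun α hα => ?_)
  have h0 : (0 : ℝ) < α := hα
  rw [Real.norm_eq_abs, abs_of_nonneg (mul_nonneg (le_min h0.le zero_le_one) (Real.exp_pos _).le)]
  exact mul_le_of_le_one_left (Real.exp_pos _).le (min_le_right _ _)

/-- **from Laplace transforms to means** -/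
theorem mean_of_lap {l : Filter ℝ} (hl : l ≤ atTop)
    (hi : ∀ n : ℕ, ∀ᶠ T in l, IntegrableOn (fun α => Fr T α * Real.exp (-((n : ℝ) + 1) * α)) (Ioi 0))
    (h : ∀ n : ℕ, Tendsto (fun T => ∫ α in Ioi 0, Fr T α * Real.exp (-((n : ℝ) + 1) * α)) l
      (𝓝 ((∫ α in Ioi 0, min α 1 * Real.exp (-((n : ℝ) + 1) * α)) + 1 / 2))) (R : ℝ) : MeanUp l R := by
  intro a b ha hab _ ε hε
  obtain ⟨δ, hδ⟩ : ∃ δ : ℝ, δ = min (a / 2) (ε / 4) := ⟨_, rfl⟩
  have hδ0 : 0 < δ := by rw [hδ]; exact lt_min (by linarith) (by linarith)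
  have hδa : δ ≤ a / 2 := by rw [hδ]; exact min_le_left _ _
  have hδε : δ ≤ ε / 4 := by rw [hδ]; exact min_le_right _ _
  have hconv := lap_conv (l := l) (ρ := volume.restrict (Ioi 0)) (w := fun T α => Fr T α) (X := fun _ α => α)
    (ρ₀ := volume.restrict (Ioi 0) + Measure.dirac 0) (w₀ := w0) (X₀ := fun α => α)
    (by
      filter_upwards [hl (eventually_ge_atTop 10)] with T hT
      refine ⟨(Fr_cont T).measurable, measurable_id, ?_⟩
      refine (ae_restrict_iff' measurableSet_Ioi).2 (Eventually.of_forall fun α hα => ?_)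
      exact ⟨Fr_nonneg hT α, le_of_lt hα⟩)
    (by
      refine ⟨w0_meas, measurable_id, ?_⟩
      rw [ae_add_measure_iff]
      constructor
      · refine (ae_restrict_iff' measurableSet_Ioi).2 (Eventually.of_forall fun α hα => ?_)
        have h0 : (0 : ℝ) < α := hα
        rw [w0_pos h0]
        exact ⟨le_min h0.le zero_le_one, h0.le⟩
      · rw [ae_dirac_eq]
        show 0 ≤ w0 0 ∧ (0 : ℝ) ≤ 0
        unfold w0
        rw [if_pos rfl]
        norm_num)
    hi
    (fun n => (w0_int (min_exp_int n) (by fun_prop)).1)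
    (fun n => by
      rw [(w0_int (min_exp_int n) (by fun_prop)).2]
      have := h n
      simpa using this)
    (tz_cont a b δ) (M := b + δ) fun x hx => tz_right hδ0 hx
  have hmi : IntegrableOn (fun α => min α 1 * tz a b δ α) (Ioi 0) := by
    have : Integrable (fun α : ℝ => min α 1 * tz a b δ α) :=
      Continuous.integrable_of_hasCompactSupport ((by fun_prop : Continuous fun α : ℝ => min α 1).mul (tz_cont a b δ))
        (tz_hcs a b hδ0).mul_left
    exact this.integrableOn
  rw [(w0_int hmi (tz_cont a b δ).stronglyMeasurable).2, tz_left hδ0 (by linarith : (0 : ℝ) ≤ a - δ), mul_zero,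
    add_zero] at hconv
  -- the limit is close to the integral over `[a, b]`
  have hlim : ∫ α in Ioi 0, min α 1 * tz a b δ α ≤ (∫ α in a..b, mn α) + 2 * δ := by
    have h1 : ∫ α in Ioi 0, min α 1 * tz a b δ α = ∫ α in Ioc (a - δ) (b + δ), min α 1 * tz a b δ α := by
      have hsub : Ioc (a - δ) (b + δ) ⊆ Ioi (0 : ℝ) := fun x hx => by
        have := hx.1
        exact mem_Ioi.2 (by linarith)
      refine (setIntegral_eq_of_subset_of_forall_sdiff_eq_zero measurableSet_Ioi hsub fun x hx => ?_)
      have : x ∉ Ioc (a - δ) (b + δ) := hx.2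
      rw [mem_Ioc, not_and_or, not_lt, not_le] at this
      rcases this with h | h
      · rw [tz_left hδ0 h, mul_zero]
      · rw [tz_right hδ0 h.le, mul_zero]
    rw [h1, ← intervalIntegral.integral_of_le (by linarith)]
    have ii : ∀ x y : ℝ, IntervalIntegrable (fun α : ℝ => min α 1 * tz a b δ α) volume x y := fun x y =>
      ((by fun_prop : Continuous fun α : ℝ => min α 1).mul (tz_cont a b δ)).intervalIntegrable _ _
    rw [← intervalIntegral.integral_add_adjacent_intervals (ii (a - δ) a) (ii a (b + δ)),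
      ← intervalIntegral.integral_add_adjacent_intervals (ii a b) (ii b (b + δ))]
    have hbd : ∀ x y : ℝ, 0 ≤ x → x ≤ y → ∫ α in x..y, min α 1 * tz a b δ α ≤ y - x := by
      intro x y hx hxy
      have := intervalIntegral.integral_mono_on hxy (ii x y) (by simp : IntervalIntegrable (fun _ => (1 : ℝ)) volume x y)
        fun α hα => by
          have h0 : 0 ≤ α := hx.trans hα.1
          calc min α 1 * tz a b δ α ≤ 1 * 1 :=
                mul_le_mul (min_le_right _ _) (tz_le _ _ _ _) (tz_nonneg _ _ _ _) zero_le_one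
            _ = 1 := one_mul 1
      rw [intervalIntegral.integral_const, smul_eq_mul, mul_one] at this
      exact this
    have k1 := hbd (a - δ) a (by linarith) (by linarith)
    have k2 := hbd b (b + δ) (by linarith) (by linarith)
    have k3 : ∫ α in a..b, min α 1 * tz a b δ α = ∫ α in a..b, mn α := by
      refine intervalIntegral.integral_congr fun α hα => ?_
      rw [uIcc_of_le hab.le] at hα
      rw [tz_one hδ0 hα.1 hα.2, mul_one]
      unfold mn
      rw [abs_of_nonneg (ha.le.trans hα.1)]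
    rw [k3]
    linarith
  filter_upwards [hl (eventually_ge_atTop 10), hconv.eventually (gt_mem_nhds (show (∫ α in Ioi 0, min α 1 * tz a b δ α) <
    (∫ α in Ioi 0, min α 1 * tz a b δ α) + ε / 4 by linarith))] with T hT hT2
  have h2 : ∫ α in a..b, Fr T α ≤ ∫ α in Ioi 0, Fr T α * tz a b δ α := by
    have hFi : Integrable (fun α : ℝ => Fr T α * tz a b δ α) :=
      Continuous.integrable_of_hasCompactSupport ((Fr_cont T).mul (tz_cont a b δ)) (tz_hcs a b hδ0).mul_left
    rw [intervalIntegral.integral_of_le hab.le]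
    have e1 : ∫ α in Ioc a b, Fr T α = ∫ α in Ioc a b, Fr T α * tz a b δ α :=
      setIntegral_congr_fun measurableSet_Ioc fun α hα => by
        rw [tz_one hδ0 hα.1.le hα.2, mul_one]
    rw [e1]
    refine setIntegral_mono_set hFi.integrableOn (Eventually.of_forall fun α =>
      mul_nonneg (Fr_nonneg hT α) (tz_nonneg _ _ _ _)) ?_
    exact (show Ioc a b ⊆ Ioi (0 : ℝ) from fun x hx => mem_Ioi.2 (ha.trans hx.1)).eventuallyLE
  linarith

end Pool.Agent.U507.PC
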