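import Pool.Agent.U507.PC.PP
import Pool.Agent.U507.PC.FS
import Pool.Agent.U507.PC.FP
import Pool.Agent.Y749.Rig.FFf

/-!
# Pair correlation from the one-sided bound for the primes
-/

set_option autoImplicit false

open Complex Filter Topology Set MeasureTheory Metric
open scoped Real

namespace Pool.Agent.U507.PC

open Pool.Agent.U507.GM hiding step_low low_pt low_unif rigid

theorem mean_up (hRH : RiemannHypothesis)
    (h : ∀ a b : ℝ, 0 ≤ a → a ≤ b → ∀ ε : ℝ, 0 < ε → ∀ᶠ T in atTop,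
      ∫ α in a..b, vs T α ≤ (∫ α in a..b, min α 1) + ε) (R : ℝ) : Pool.Agent.Y749.Rig.MeanUp atTop R := by
  have hw : ∀ b : ℝ, 0 ≤ b → Tendsto (fun T => Ph (vs T) b) atTop (𝓝 (mp b)) := fun b hb => vs_lim hRH h hb
  have hl : ∀ n : ℕ, (∀ᶠ T : ℝ in atTop, IntegrableOn (fun α => Pool.Agent.Y749.Rig.Fr T α * Real.exp (-((n : ℝ) + 1) * α)) (Ioi 0)) ∧
      Tendsto (fun T => ∫ α in Ioi 0, Pool.Agent.Y749.Rig.Fr T α * Real.exp (-((n : ℝ) + 1) * α)) atTop
        (𝓝 ((∫ α in Ioi 0, min α 1 * Real.exp (-((n : ℝ) + 1) * α)) + 1 / 2)) := by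
    intro n
    have hc : (0 : ℝ) < (n : ℝ) + 1 := by positivity
    obtain ⟨h1, h2⟩ := lap_of_PU le_rfl hc (PU_mean hRH hw hc)
    refine ⟨h1, ?_⟩
    have e : (∫ α in Ioi (0 : ℝ), min α 1 * Real.exp (-((n : ℝ) + 1) * α)) + 1 / 2 = 2 * ((sg ((n : ℝ) + 1) + 1 / 2) / 2) := by
      rw [← sg_eq hc]
      have : ∀ α ∈ Ioi (0 : ℝ), min α 1 * Real.exp (-((n : ℝ) + 1) * α) = Real.exp (-((n : ℝ) + 1) * α) * min α 1 :=
        fun α _ => mul_comm _ _
      rw [setIntegral_congr_fun measurableSet_Ioi this]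
      ring
    rw [e]
    exact h2
  exact mean_of_lap le_rfl (fun n => (hl n).1) (fun n => (hl n).2) R

/-- **pair correlation from the primes**, Riemann hypothesis assumed -/
theorem pcc_of_vs (hRH : RiemannHypothesis)
    (h : ∀ a b : ℝ, 0 ≤ a → a ≤ b → ∀ ε : ℝ, 0 < ε → ∀ᶠ T in atTop,
      ∫ α in a..b, vs T α ≤ (∫ α in a..b, min α 1) + ε) : Pool.Agent.Y744.G.Montgomery atTop :=
  (Pool.Agent.Y749.Rig.P.main hRH atTop le_rfl).1.2 fun R =>
    (Pool.Agent.Y749.Rig.P.up_iff le_rfl R).2 (mean_up hRH h R)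

end Pool.Agent.U507.PC
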