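import Pool.Agent.U507.PC.Fn
import Pool.Agent.U507.PC.RHp

/-!
# The Riemann hypothesis and pair correlation from a one-sided bound for the primes
-/

set_option autoImplicit false

open Complex Filter Topology Set MeasureTheory Metric
open scoped Real

namespace Pool.Agent.U507.PC

open Pool.Agent.U507.GM hiding step_low low_pt low_unif rigid

/-- the one-sided bounds for the windows `[max(1, b - ℓ), b]` -/
def Hyp (ℓ : ℝ) : Prop := ∀ b : ℝ, 1 < b → ∀ ε : ℝ, 0 < ε →
  ∀ᶠ T in atTop, Mt T (max 1 (b - ℓ)) b ≤ b - max 1 (b - ℓ) + ε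

lemma min_one {a b : ℝ} (ha : 1 ≤ a) (hab : a ≤ b) : ∫ α in a..b, min α 1 = b - a := by
  have : ∫ α in a..b, min α 1 = ∫ α in a..b, (1 : ℝ) := by
    refine intervalIntegral.integral_congr fun α hα => ?_
    rw [uIcc_of_le hab] at hα
    exact min_eq_right (ha.trans hα.1)
  rw [this]
  simp

lemma min_sq {a b : ℝ} (hab : a ≤ b) (hb : b ≤ 1) : ∫ α in a..b, min α 1 = (b ^ 2 - a ^ 2) / 2 := by
  have : ∫ α in a..b, min α 1 = ∫ α in a..b, α := by
    refine intervalIntegral.integral_congr fun α hα => ?_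
    rw [uIcc_of_le hab] at hα
    exact min_eq_left (hα.2.trans hb)
  rw [this, integral_id]

lemma min_add (a b c : ℝ) : (∫ α in a..b, min α 1) + ∫ α in b..c, min α 1 = ∫ α in a..c, min α 1 :=
  intervalIntegral.integral_add_adjacent_intervals (min_cont.intervalIntegrable _ _) (min_cont.intervalIntegrable _ _)

lemma Mt_add {T a b c : ℝ} (hT : 16 ≤ T) (ha : 0 ≤ a) (hab : a ≤ b) (hbc : b ≤ c) :
    Mt T a c = Mt T a b + Mt T b c := by
  rw [← vs_M (by linarith) hab, ← vs_M (by linarith) hbc, ← vs_M (by linarith) (hab.trans hbc)]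
  exact (intervalIntegral.integral_add_adjacent_intervals (vs_ii hT ha (ha.trans hab))
    (vs_ii hT (ha.trans hab) (ha.trans (hab.trans hbc)))).symm

lemma Mt_nonneg {T a b : ℝ} (hT : 16 ≤ T) (hab : a ≤ b) : 0 ≤ Mt T a b := by
  rw [← vs_M (by linarith) hab]
  exact intervalIntegral.integral_nonneg hab fun α _ => vs_nonneg (by linarith) α

theorem rh_of_Hyp {ℓ : ℝ} (hℓ : 0 < ℓ) (h : Hyp ℓ) : RiemannHypothesis := by
  refine rh_of_M fun a ha => ?_
  obtain ⟨n, hn⟩ := exists_nat_gt (1 / ℓ)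
  rw [div_lt_iff₀ hℓ] at hn
  have key : ∀ k : ℕ, ∀ᶠ T in atTop, Mt T a (a + k * ℓ) ≤ k * (ℓ + 1) := by
    intro k
    induction k with
    | zero =>
      filter_upwards [eventually_ge_atTop (16 : ℝ)] with T hT
      have : Mt T a a = 0 := by rw [← vs_M (by linarith) le_rfl]; simp
      simp [this]
    | succ k ih =>
      have hk : 0 ≤ (k : ℝ) * ℓ := by positivity
      filter_upwards [ih, h (a + (k + 1) * ℓ) (by nlinarith) 1 one_pos, eventually_ge_atTop (16 : ℝ)] with T h1 h2 hT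
      have e : a + (k + 1) * ℓ - ℓ = a + k * ℓ := by ring
      rw [e, max_eq_right (by linarith)] at h2
      push_cast
      rw [Mt_add hT (b := a + k * ℓ) (by linarith) (by linarith) (by nlinarith)]
      nlinarith
  refine ⟨n * (ℓ + 1), ?_⟩
  filter_upwards [key n, eventually_ge_atTop (16 : ℝ)] with T h1 hT
  rw [Mt_add hT (b := a + 1) (by linarith) (by linarith) (by linarith)] at h1
  linarith [Mt_nonneg (a := a + 1) (b := a + n * ℓ) hT (by linarith)]

theorem vs_lim2 (hRH : RiemannHypothesis) {ℓ : ℝ} (hℓ : 0 < ℓ) (h : Hyp ℓ) {b : ℝ} (hb : 0 ≤ b) :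
    Tendsto (fun T => Ph (vs T) b) atTop (𝓝 (mp b)) := by
  have hpr : ∀ a b : ℝ, 0 ≤ a → a ≤ b → b ≤ 1 → ∀ ε : ℝ, 0 < ε →
      ∀ᶠ T in atTop, ∫ α in a..b, vs T α ≤ (∫ α in a..b, min α 1) + ε := by
    intro a b ha hab hb ε hε
    filter_upwards [sw_lim ha hab hb hε, eventually_ge_atTop (16 : ℝ)] with T h1 hT
    rw [vs_M (by linarith) hab, min_sq hab hb]
    exact h1
  have hone : ∀ a b : ℝ, 0 ≤ a → a ≤ 1 → 1 < b → b ≤ 1 + ℓ ∨ b - ℓ ≤ 1 → ∀ ε : ℝ, 0 < ε →
      ∀ᶠ T in atTop, ∫ α in a..b, vs T α ≤ (∫ α in a..b, min α 1) + ε := by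
    intro a b ha ha1 hb hbℓ ε hε
    have hb2 : b - ℓ ≤ 1 := by rcases hbℓ with h | h <;> linarith
    filter_upwards [hpr a 1 ha ha1 le_rfl (ε / 2) (by linarith), h b hb (ε / 2) (by linarith),
      eventually_ge_atTop (16 : ℝ)] with T h1 h2 hT
    rw [max_eq_left hb2, ← vs_M (by linarith) hb.le] at h2
    rw [← intervalIntegral.integral_add_adjacent_intervals (vs_ii hT ha zero_le_one)
      (vs_ii hT zero_le_one (by linarith : 0 ≤ b)), ← min_add a 1 b, min_one le_rfl hb.le]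
    linarith
  refine rigid (l := atTop) (V := vs) (ℓ := ℓ) hℓ ?_ ?_ ?_ ?_ hpr ?_ hb
  · intro b hb1 hbℓ ε hε
    have := hone 0 b le_rfl zero_le_one hb1 (Or.inl (by linarith)) ε hε
    exact this
  · filter_upwards [eventually_ge_atTop (16 : ℝ)] with T hT
    exact ⟨vs_meas (by linarith), vs_nonneg (by linarith), fun a b ha hb => vs_ii hT ha hb⟩
  · intro c hc _
    obtain ⟨C, T0, -, -, h1⟩ := vs_up hRH hc
    refine ⟨C, ?_⟩
    filter_upwards [eventually_ge_atTop T0] with T hT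
    exact h1 T hT
  · intro c hc hc1 ε hε
    exact vs_low hRH hc hc1 hε
  · intro a ha haℓ ε hε
    rcases le_total a 1 with h1 | h1
    · exact hone a (a + ℓ) ha.le h1 haℓ (Or.inr (by linarith)) ε hε
    · filter_upwards [h (a + ℓ) haℓ ε hε, eventually_ge_atTop (16 : ℝ)] with T h2 hT
      rw [add_sub_cancel_right, max_eq_right h1, ← vs_M (by linarith) (by linarith)] at h2
      rw [min_one h1 (by linarith)]
      exact h2

/-- **the limits** -/
theorem Mt_lim (hRH : RiemannHypothesis) {ℓ : ℝ} (hℓ : 0 < ℓ) (h : Hyp ℓ) {a b : ℝ} (ha : 0 ≤ a) (hab : a ≤ b) :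
    Tendsto (fun T => Mt T a b) atTop (𝓝 (∫ α in a..b, min α 1)) := by
  have h1 := (vs_lim2 hRH hℓ h (ha.trans hab)).sub (vs_lim2 hRH hℓ h ha)
  rw [mp_sub a b] at h1
  refine h1.congr' ?_
  filter_upwards [eventually_ge_atTop (16 : ℝ)] with T hT
  rw [← vs_M (by linarith) hab]
  exact Ph_sub (fun a b ha hb => vs_ii hT ha hb) ha (ha.trans hab)

/-- **pair correlation** -/
theorem pcc_of_Hyp (hRH : RiemannHypothesis) {ℓ : ℝ} (hℓ : 0 < ℓ) (h : Hyp ℓ) :
    Pool.Agent.Y744.G.Montgomery atTop := by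
  refine pcc_of_vs hRH fun a b ha hab ε hε => ?_
  filter_upwards [(Mt_lim hRH hℓ h ha hab).eventually_le_const (lt_add_of_pos_right _ hε),
    eventually_ge_atTop (16 : ℝ)] with T h1 hT
  rw [vs_M (by linarith) hab]
  exact h1

end Pool.Agent.U507.PC
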