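import Pool.Agent.U507.PC.GK
import Pool.Agent.U507.PC.KL

/-!
# The unweighted mean square on `[1, T]`
-/

set_option autoImplicit false

open Complex Filter Topology Set MeasureTheory Metric
open scoped Real

namespace Pool.Agent.U507.PC

open Pool.Agent.U507.GM hiding step_low low_pt low_unif rigid

/-- a continuous step -/
noncomputable def stp (m δ x : ℝ) : ℝ := max 0 (min 1 ((m + δ - x) / δ))

lemma stp_cont (m δ : ℝ) : Continuous (stp m δ) := by
  unfold stp
  exact continuous_const.max (continuous_const.min ((continuous_const.sub continuous_id).div_const _))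

lemma stp_nonneg (m δ x : ℝ) : 0 ≤ stp m δ x := le_max_left _ _

lemma stp_le (m δ x : ℝ) : stp m δ x ≤ 1 := max_le zero_le_one (min_le_left _ _)

lemma stp_one {m δ x : ℝ} (hδ : 0 < δ) (hx : x ≤ m) : stp m δ x = 1 := by
  have h : 1 ≤ (m + δ - x) / δ := by rw [le_div_iff₀ hδ]; linarith
  rw [stp, min_eq_left h, max_eq_right zero_le_one]

lemma stp_zero {m δ x : ℝ} (hδ : 0 < δ) (hx : m + δ ≤ x) : stp m δ x = 0 := by
  have h : (m + δ - x) / δ ≤ 0 := div_nonpos_of_nonpos_of_nonneg (by linarith) hδ.le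
  rw [stp, max_eq_left ((min_le_right _ _).trans h)]

lemma stp_lim {m δ D : ℝ} (hm : 0 ≤ m) (hδ : 0 < δ) (hD : 0 ≤ D) :
    D * √(2 * m) ≤ ∫ y in Ioi (0 : ℝ), D * stp m δ (y ^ 2 / 2) ∧
    ∫ y in Ioi (0 : ℝ), D * stp m δ (y ^ 2 / 2) ≤ D * √(2 * (m + δ)) := by
  have hc : Continuous fun y : ℝ => D * stp m δ (y ^ 2 / 2) :=
    continuous_const.mul ((stp_cont m δ).comp (by fun_prop))
  have hz : ∀ y : ℝ, √(2 * (m + δ)) < y → D * stp m δ (y ^ 2 / 2) = 0 := by
    intro y hy
    have h0 : 0 ≤ √(2 * (m + δ)) := Real.sqrt_nonneg _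
    have h1 : 2 * (m + δ) ≤ y ^ 2 := by
      rw [← Real.sqrt_le_left (by linarith)]
      exact hy.le
    rw [stp_zero hδ (by linarith), mul_zero]
  have hsplit : ∫ y in Ioi (0 : ℝ), D * stp m δ (y ^ 2 / 2) = ∫ y in Ioc (0 : ℝ) (√(2 * (m + δ))), D * stp m δ (y ^ 2 / 2) := by
    refine setIntegral_eq_of_subset_of_forall_sdiff_eq_zero measurableSet_Ioi Ioc_subset_Ioi_self ?_
    intro y hy
    refine hz y ?_
    by_contra hcon
    exact hy.2 ⟨hy.1, not_lt.1 hcon⟩
  have hi : ∀ r : ℝ, IntegrableOn (fun y : ℝ => D * stp m δ (y ^ 2 / 2)) (Ioc (0 : ℝ) r) := fun r =>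
    (hc.integrableOn_Icc (a := 0) (b := r)).mono_set Ioc_subset_Icc_self
  have hle : √(2 * m) ≤ √(2 * (m + δ)) := Real.sqrt_le_sqrt (by linarith)
  constructor
  · rw [hsplit]
    calc D * √(2 * m) = ∫ y in Ioc (0 : ℝ) (√(2 * m)), D * stp m δ (y ^ 2 / 2) := by
          have h1 : ∀ y ∈ Ioc (0 : ℝ) (√(2 * m)), D * stp m δ (y ^ 2 / 2) = D := by
            intro y hy
            have h2 : y ^ 2 ≤ 2 * m := by
              rw [← Real.le_sqrt hy.1.le (by linarith)]
              exact hy.2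
            rw [stp_one hδ (by linarith), mul_one]
          rw [setIntegral_congr_fun measurableSet_Ioc h1, setIntegral_const]
          simp [Real.sqrt_nonneg, mul_comm]
      _ ≤ _ := by
          refine setIntegral_mono_set (hi _) (ae_of_all _ fun y => mul_nonneg hD (stp_nonneg _ _ _)) ?_
          exact (Ioc_subset_Ioc_right hle).eventuallyLE
  · rw [hsplit]
    calc ∫ y in Ioc (0 : ℝ) (√(2 * (m + δ))), D * stp m δ (y ^ 2 / 2) ≤ ∫ y in Ioc (0 : ℝ) (√(2 * (m + δ))), D := by
          refine setIntegral_mono_on (hi _) (integrableOn_const (measure_Ioc_lt_top.ne)) measurableSet_Ioc fun y _ => ?_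
          exact mul_le_of_le_one_right hD (stp_le _ _ _)
      _ = _ := by
          rw [setIntegral_const]
          simp [Real.sqrt_nonneg, mul_comm]

lemma sg_pos {c : ℝ} (hc : 0 < c) : 0 < sg c := by
  have : Real.exp (-c) < 1 := Real.exp_lt_one_iff.2 (by linarith)
  unfold sg
  have : 0 < 1 - Real.exp (-c) := by linarith
  positivity

/-- the mean square over `[1, T]` -/
theorem mean_Y (hRH : RiemannHypothesis)
    (h : ∀ b : ℝ, 0 ≤ b → Tendsto (fun T => Ph (vs T) b) atTop (𝓝 (mp b))) {c : ℝ} (hc : 0 < c) :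
    Tendsto (fun T => (∫ v in Ioc 1 T, Yf (c / (2 * Real.log T)) v ^ 2) / (T * Real.log T ^ 2)) atTop
      (𝓝 ((sg c + 1 / 2) / 2)) := by
  obtain ⟨D, hD⟩ : ∃ D : ℝ, D = (sg c + 1 / 2) / 2 := ⟨_, rfl⟩
  have hD0 : 0 < D := by rw [hD]; have := sg_pos hc; positivity
  obtain ⟨C, hC, hgY⟩ := gY_int hRH
  have hη : ∀ᶠ T : ℝ in atTop, 0 < c / (2 * Real.log T) ∧ c / (2 * Real.log T) ≤ 1 / 16 := by
    filter_upwards [Real.tendsto_log_atTop.eventually_ge_atTop (8 * c + 1)] with T hT
    have hl : 0 < Real.log T := by linarith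
    refine ⟨by positivity, ?_⟩
    rw [div_le_div_iff₀ (by positivity) (by norm_num)]
    linarith
  -- integrability
  have hint : ∀ (b : ℝ), 0 < b → ∀ᶠ T : ℝ in atTop,
      Integrable (fun v => Yf (c / (2 * Real.log T)) v ^ 2 / (T * Real.log T ^ 2) * Real.exp (-b * ((v / T) ^ 2 / 2)))
        (volume.restrict (Ioi 1)) := by
    intro b hb
    filter_upwards [hη, eventually_ge_atTop 16] with T hT hT1
    have hT0 : 0 < T := by linarith
    have hl : 0 < Real.log T := Real.log_pos (by linarith)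
    have h1 := (hgY _ hT.1 hT.2).1
    refine Integrable.mono' (h1.const_mul (T ^ 2 / (2 * b) / (T * Real.log T ^ 2))) ?_ ?_
    · refine Measurable.aestronglyMeasurable ?_
      exact (((Yf_meas hRH hT.1).pow_const 2).div_const _).mul (by fun_prop)
    · refine (ae_restrict_iff' measurableSet_Ioi).2 (Filter.Eventually.of_forall fun v hv => ?_)
      have hv1 : (1 : ℝ) < v := hv
      have hv0 : 0 < v := by linarith
      rw [Real.norm_eq_abs, abs_of_nonneg (by positivity)]
      have h2 : Real.exp (-b * ((v / T) ^ 2 / 2)) ≤ T ^ 2 / (2 * b) * (4 / v ^ 2) := by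
        have h3 : b * ((v / T) ^ 2 / 2) ≤ Real.exp (b * ((v / T) ^ 2 / 2)) := by
          have := Real.add_one_le_exp (b * ((v / T) ^ 2 / 2))
          linarith
        rw [neg_mul, Real.exp_neg]
        calc (Real.exp (b * ((v / T) ^ 2 / 2)))⁻¹ ≤ (b * ((v / T) ^ 2 / 2))⁻¹ :=
              inv_anti₀ (by positivity) h3
          _ = T ^ 2 / (2 * b) * (4 / v ^ 2) := by field_simp; ring
      calc Yf (c / (2 * Real.log T)) v ^ 2 / (T * Real.log T ^ 2) * Real.exp (-b * ((v / T) ^ 2 / 2))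
          ≤ Yf (c / (2 * Real.log T)) v ^ 2 / (T * Real.log T ^ 2) * (T ^ 2 / (2 * b) * (4 / v ^ 2)) := by gcongr
        _ = _ := by ring
  have hlc : ∀ (f : ℝ → ℝ), Continuous f → ∀ M : ℝ, (∀ x, M ≤ x → f x = 0) →
      Tendsto (fun T => ∫ v in Ioi 1, Yf (c / (2 * Real.log T)) v ^ 2 / (T * Real.log T ^ 2) * f ((v / T) ^ 2 / 2)) atTop
        (𝓝 (∫ y in Ioi (0 : ℝ), D * f (y ^ 2 / 2))) := by
    intro f hf M hM
    refine lap_conv (ρ := volume.restrict (Ioi 1))
      (w := fun T v => Yf (c / (2 * Real.log T)) v ^ 2 / (T * Real.log T ^ 2)) (X := fun T v => (v / T) ^ 2 / 2)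
      (ρ₀ := volume.restrict (Ioi 0)) (w₀ := fun _ => D) (X₀ := fun y => y ^ 2 / 2) ?_ ?_ ?_ ?_ ?_ hf hM
    · filter_upwards [hη, eventually_ge_atTop 16] with T hT hT1
      have hT0 : 0 < T := by linarith
      refine ⟨((Yf_meas hRH hT.1).pow_const 2).div_const _, by fun_prop, ae_of_all _ fun v => ⟨by positivity, by positivity⟩⟩
    · exact ⟨measurable_const, by fun_prop, ae_of_all _ fun v => ⟨hD0.le, by positivity⟩⟩
    · intro n
      exact hint _ (by positivity)
    · intro n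
      have h1 := (integrable_exp_neg_mul_sq (b := ((n : ℝ) + 1) / 2) (by positivity)).const_mul D
      refine (h1.congr (ae_of_all _ fun y => ?_)).integrableOn
      simp only []
      congr 2
      ring
    · intro n
      have ha : 0 < √((n : ℝ) + 1) := Real.sqrt_pos.2 (by positivity)
      have h1 := gauss_lim hRH h hc ha
      have hsq : √((n : ℝ) + 1) ^ 2 = (n : ℝ) + 1 := Real.sq_sqrt (by positivity)
      have e0 : ∫ y in Ioi (0 : ℝ), D * Real.exp (-((n : ℝ) + 1) * (y ^ 2 / 2)) =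
          (sg c + 1 / 2) / 2 * (√(π / 2) / √((n : ℝ) + 1)) := by
        have h2 : ∀ y ∈ Ioi (0 : ℝ), D * Real.exp (-((n : ℝ) + 1) * (y ^ 2 / 2)) =
            D * Real.exp (-(((n : ℝ) + 1) / 2) * y ^ 2) := by
          intro y _
          congr 2
          ring
        rw [setIntegral_congr_fun measurableSet_Ioi h2, integral_const_mul, integral_gaussian_Ioi, ← hD]
        congr 1
        rw [show π / (((n : ℝ) + 1) / 2) = 2 ^ 2 * ((π / 2) / ((n : ℝ) + 1)) by field_simp,
          Real.sqrt_mul (by norm_num), Real.sqrt_sq (by norm_num), Real.sqrt_div (by positivity)]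
        ring
      rw [e0]
      refine h1.congr' (Filter.Eventually.of_forall fun T => ?_)
      simp only []
      rw [← integral_div]
      refine integral_congr_ae (ae_of_all _ fun v => ?_)
      simp only []
      rw [hsq, neg_mul]
      ring
  -- comparison
  have hcmp : ∀ᶠ T : ℝ in atTop, ∀ m δ : ℝ, 0 < δ →
      ((m + δ ≤ 1 / 2 → ∫ v in Ioi 1, Yf (c / (2 * Real.log T)) v ^ 2 / (T * Real.log T ^ 2) * stp m δ ((v / T) ^ 2 / 2) ≤
        (∫ v in Ioc 1 T, Yf (c / (2 * Real.log T)) v ^ 2) / (T * Real.log T ^ 2)) ∧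
      (1 / 2 ≤ m → (∫ v in Ioc 1 T, Yf (c / (2 * Real.log T)) v ^ 2) / (T * Real.log T ^ 2) ≤
        ∫ v in Ioi 1, Yf (c / (2 * Real.log T)) v ^ 2 / (T * Real.log T ^ 2) * stp m δ ((v / T) ^ 2 / 2))) := by
    filter_upwards [hη, eventually_ge_atTop 16, hint 1 one_pos] with T hT hT1 hi1 m δ hδ
    have hT0 : 0 < T := by linarith
    have hl : 0 < Real.log T := Real.log_pos (by linarith)
    obtain ⟨w, hw⟩ : ∃ w : ℝ → ℝ, w = fun v => Yf (c / (2 * Real.log T)) v ^ 2 / (T * Real.log T ^ 2) := ⟨_, rfl⟩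
    have hwm : Measurable w := by rw [hw]; exact ((Yf_meas hRH hT.1).pow_const 2).div_const _
    have hw0 : ∀ v, 0 ≤ w v := fun v => by rw [hw]; positivity
    have hi2 : IntegrableOn (fun v => w v * stp m δ ((v / T) ^ 2 / 2)) (Ioi 1) := by
      refine Integrable.mono' (hi1.const_mul (Real.exp (m + δ))) ?_ ?_
      · exact (hwm.mul ((stp_cont m δ).measurable.comp (by fun_prop))).aestronglyMeasurable
      · refine ae_of_all _ fun v => ?_
        rw [Real.norm_eq_abs, abs_of_nonneg (mul_nonneg (hw0 v) (stp_nonneg _ _ _))]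
        have h1 : stp m δ ((v / T) ^ 2 / 2) ≤ Real.exp (m + δ) * Real.exp (-1 * ((v / T) ^ 2 / 2)) := by
          rw [← Real.exp_add]
          rcases le_total (m + δ) ((v / T) ^ 2 / 2) with h2 | h2
          · rw [stp_zero hδ h2]
            exact (Real.exp_pos _).le
          · exact (stp_le _ _ _).trans (Real.one_le_exp (by linarith))
        calc w v * stp m δ ((v / T) ^ 2 / 2) ≤ w v * (Real.exp (m + δ) * Real.exp (-1 * ((v / T) ^ 2 / 2))) := by
              gcongr
              exact hw0 v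
          _ = _ := by rw [hw]; ring
    have hi3 : IntegrableOn w (Ioc 1 T) := by
      refine Integrable.mono' ((hi1.const_mul (Real.exp (1 / 2))).mono_measure
        (Measure.restrict_mono Ioc_subset_Ioi_self le_rfl)) hwm.aestronglyMeasurable ?_
      refine (ae_restrict_iff' measurableSet_Ioc).2 (Filter.Eventually.of_forall fun v hv => ?_)
      rw [Real.norm_eq_abs, abs_of_nonneg (hw0 v)]
      have hv0 : 0 < v := by linarith [hv.1]
      have h1 : (1 : ℝ) ≤ Real.exp (1 / 2) * Real.exp (-1 * ((v / T) ^ 2 / 2)) := by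
        rw [← Real.exp_add]
        refine Real.one_le_exp ?_
        have h2 : v / T ≤ 1 := (div_le_one hT0).2 hv.2
        have h3 : 0 ≤ v / T := by positivity
        nlinarith
      calc w v = w v * 1 := (mul_one _).symm
        _ ≤ w v * (Real.exp (1 / 2) * Real.exp (-1 * ((v / T) ^ 2 / 2))) := by
            gcongr
            exact hw0 v
        _ = _ := by rw [hw]; ring
    have e1 : (∫ v in Ioc 1 T, Yf (c / (2 * Real.log T)) v ^ 2) / (T * Real.log T ^ 2) = ∫ v in Ioc 1 T, w v := by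
      rw [← integral_div, hw]
    have e2 : ∫ v in Ioi 1, Yf (c / (2 * Real.log T)) v ^ 2 / (T * Real.log T ^ 2) * stp m δ ((v / T) ^ 2 / 2) =
        ∫ v in Ioi 1, w v * stp m δ ((v / T) ^ 2 / 2) := by rw [hw]
    rw [e1, e2]
    constructor
    · intro hm
      have h1 : ∫ v in Ioi 1, w v * stp m δ ((v / T) ^ 2 / 2) = ∫ v in Ioc 1 T, w v * stp m δ ((v / T) ^ 2 / 2) := by
        refine setIntegral_eq_of_subset_of_forall_sdiff_eq_zero measurableSet_Ioi Ioc_subset_Ioi_self ?_
        intro v hv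
        have hvT : T < v := by
          by_contra hcon
          exact hv.2 ⟨hv.1, not_lt.1 hcon⟩
        have h2 : 1 < v / T := (one_lt_div hT0).2 hvT
        rw [stp_zero hδ (by nlinarith), mul_zero]
      rw [h1]
      refine setIntegral_mono_on (hi2.mono_set Ioc_subset_Ioi_self) hi3 measurableSet_Ioc fun v _ => ?_
      exact mul_le_of_le_one_right (hw0 v) (stp_le _ _ _)
    · intro hm
      calc ∫ v in Ioc 1 T, w v = ∫ v in Ioc 1 T, w v * stp m δ ((v / T) ^ 2 / 2) := by
            refine setIntegral_congr_fun measurableSet_Ioc fun v hv => ?_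
            have hv0 : 0 < v := by linarith [hv.1]
            have h2 : v / T ≤ 1 := (div_le_one hT0).2 hv.2
            have h3 : 0 ≤ v / T := by positivity
            rw [stp_one hδ (by nlinarith), mul_one]
        _ ≤ _ := by
            refine setIntegral_mono_set hi2 (ae_of_all _ fun v => mul_nonneg (hw0 v) (stp_nonneg _ _ _)) ?_
            exact Ioc_subset_Ioi_self.eventuallyLE
  rw [← hD]
  rw [tendsto_order]
  constructor
  · intro x hx
    -- lower bound
    obtain ⟨δ, hδ, hδ1, hδ2⟩ : ∃ δ : ℝ, 0 < δ ∧ δ ≤ 1 / 2 ∧ x < D * √(2 * (1 / 2 - δ)) := by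
      have h1 : Tendsto (fun δ : ℝ => D * √(2 * (1 / 2 - δ))) (𝓝[>] 0) (𝓝 (D * √(2 * (1 / 2 - 0)))) := by
        apply Tendsto.mono_left _ nhdsWithin_le_nhds
        exact ((Real.continuous_sqrt.comp (by fun_prop)).const_mul D).tendsto 0
      have h2 : D * √(2 * (1 / 2 - 0)) = D := by norm_num
      rw [h2] at h1
      have h3 := (h1.eventually_const_lt hx).and ((eventually_nhdsWithin_of_forall fun δ (hδ : δ ∈ Ioi (0 : ℝ)) => hδ).and
        (Ioo_mem_nhdsGT (show (0 : ℝ) < 1 / 2 by norm_num)))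
      obtain ⟨δ, h4, h5, h6⟩ := h3.exists
      exact ⟨δ, h5, h6.2.le, h4⟩
    have h1 := (stp_lim (m := 1 / 2 - δ) (δ := δ) (by linarith) hδ hD0.le).1
    have h2 := hlc (stp (1 / 2 - δ) δ) (stp_cont _ _) (1 / 2) (fun y hy => stp_zero hδ (by linarith))
    filter_upwards [h2.eventually_const_lt (lt_of_lt_of_le hδ2 h1), hcmp] with T hT1 hT2
    exact lt_of_lt_of_le hT1 ((hT2 _ _ hδ).1 (by linarith))
  · intro x hx
    obtain ⟨δ, hδ, hδ2⟩ : ∃ δ : ℝ, 0 < δ ∧ D * √(2 * (1 / 2 + δ)) < x := by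
      have h1 : Tendsto (fun δ : ℝ => D * √(2 * (1 / 2 + δ))) (𝓝[>] 0) (𝓝 (D * √(2 * (1 / 2 + 0)))) := by
        apply Tendsto.mono_left _ nhdsWithin_le_nhds
        exact ((Real.continuous_sqrt.comp (by fun_prop)).const_mul D).tendsto 0
      have h2 : D * √(2 * (1 / 2 + 0)) = D := by norm_num
      rw [h2] at h1
      have h3 := (h1.eventually_lt_const hx).and (eventually_nhdsWithin_of_forall fun δ (hδ : δ ∈ Ioi (0 : ℝ)) => hδ)
      obtain ⟨δ, h4, h5⟩ := h3.exists
      exact ⟨δ, h5, h4⟩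
    have h1 := (stp_lim (m := 1 / 2) (δ := δ) (by norm_num) hδ hD0.le).2
    have h2 := hlc (stp (1 / 2) δ) (stp_cont _ _) (1 / 2 + δ) (fun y hy => stp_zero hδ (by linarith))
    filter_upwards [h2.eventually_lt_const (lt_of_le_of_lt h1 hδ2), hcmp] with T hT1 hT2
    exact lt_of_le_of_lt ((hT2 _ _ hδ).2 le_rfl) hT1

end Pool.Agent.U507.PC
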