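import Pool.Agent.U507.GM.ZUc

/-!
# Plancherel: the reverse inequality
-/

set_option autoImplicit false

open Complex Filter Topology Set MeasureTheory Metric
open scoped ComplexConjugate FourierTransform Real

namespace Pool.Agent.U507.PC

open Pool.Agent.U507.GM

/-- the variance integral is bounded by the mean square of the real part, sharp constant -/
theorem pl2 (hRH : RiemannHypothesis) : ∃ C : ℝ, 0 < C ∧ ∀ η δ : ℝ, 0 < η → η ≤ 1 / 16 → 0 < δ → δ ≤ 1 / 2 →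
    ∀ ε : ℝ, 0 < ε → ε ≤ 1 → π * (∫ y, Ef η δ y ^ 2) ≤
      (1 + ε) * (∫ t, gh δ t ^ 2 * (ZF ⟨1 / 2 + η, t⟩).re ^ 2) + C / ε * δ ^ 2 / η ^ 2 := by
  obtain ⟨CJ, hCJ, hJ⟩ := J_bound hRH
  refine ⟨1000 * (1 + CJ), by positivity, fun η δ hη hη1 hδ hδ1 => ?_⟩
  obtain ⟨hJi, hJ⟩ := hJ η hη hη1
  have hη2 : η ≤ 1 / 2 := by linarith
  have hEi := Ef_int hRH hη hη2 δ
  have hEs := Ef_sq hRH hη hη2 δ
  obtain ⟨hq, hqe⟩ := re_planch hEi hEs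
  obtain ⟨hc, hce⟩ := re_chi hEi hEs hδ
  obtain ⟨hg, hge⟩ := gh_sq_int hδ
  have hx := abs_le.1 (cross_small hη hη2 hδ hδ1)
  have hxc := abs_le.1 (evchi_small hη hη2 hδ hδ1)
  obtain ⟨j, hj⟩ : ∃ j : ℝ → ℝ, j = fun t => ‖ZF ⟨1 / 2 + η, t⟩‖ / ‖(⟨1 / 2 + η, t⟩ : ℂ)‖ := ⟨_, rfl⟩
  have hj' : ∀ t, ‖ZF ⟨1 / 2 + η, t⟩‖ / ‖(⟨1 / 2 + η, t⟩ : ℂ)‖ = j t := fun t => by rw [hj]
  simp_rw [hj'] at hJi hJ
  obtain ⟨z, hz⟩ : ∃ z : ℝ → ℝ, z = fun t => (ZF ⟨1 / 2 + η, t⟩).re := ⟨_, rfl⟩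
  have hz' : ∀ t, (ZF ⟨1 / 2 + η, t⟩).re = z t := fun t => by rw [hz]
  simp_rw [hz']
  have hzc : Continuous z := by
    rw [hz]
    exact Complex.continuous_re.comp (zf_cont hRH hη)
  obtain ⟨q, hqd⟩ : ∃ q : ℝ → ℝ, q = fun t => (FT (Ef η δ) t).re := ⟨_, rfl⟩
  have hq' : ∀ t, (FT (Ef η δ) t).re = q t := fun t => by rw [hqd]
  have hqc : Continuous q := by
    rw [hqd]
    exact Complex.continuous_re.comp (ft_cont hEi)
  have hdiff : ∀ t, |q t - gh δ t * z t| ≤ 5 * δ * j t := by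
    intro t
    rw [hqd, hz, hj]
    simp only
    rw [ft_Ef hRH hη hη2]
    have h1 : (bb η δ t * ZF ⟨1 / 2 + η, t⟩).re - gh δ t * (ZF ⟨1 / 2 + η, t⟩).re =
        ((bb η δ t - (gh δ t : ℂ)) * ZF ⟨1 / 2 + η, t⟩).re := by
      rw [sub_mul, Complex.sub_re, Complex.re_ofReal_mul]
    rw [h1]
    refine (Complex.abs_re_le_norm _).trans ?_
    rw [norm_mul]
    have h2 := bb_gh hη hη2 hδ hδ1 t
    calc ‖bb η δ t - (gh δ t : ℂ)‖ * ‖ZF ⟨1 / 2 + η, t⟩‖ ≤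
          5 * δ / ‖(⟨1 / 2 + η, t⟩ : ℂ)‖ * ‖ZF ⟨1 / 2 + η, t⟩‖ := by gcongr
      _ = _ := by ring
  simp_rw [hq'] at hq hqe hc hce
  have hj0 : ∀ t, 0 ≤ j t := fun t => by rw [hj]; positivity
  have hηp : 0 < η ^ 2 := by positivity
  have hd2 : δ ^ 2 ≤ δ ^ 2 / η ^ 2 := by
    rw [le_div_iff₀ hηp]
    have : η ^ 2 ≤ 1 := by nlinarith
    nlinarith [sq_nonneg δ]
  have hCJ2 : δ ^ 2 * (∫ t, j t ^ 2) ≤ CJ * (δ ^ 2 / η ^ 2) := by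
    calc δ ^ 2 * (∫ t, j t ^ 2) ≤ δ ^ 2 * (CJ / η ^ 2) := by gcongr
      _ = _ := by ring
  obtain ⟨D, hD⟩ : ∃ D : ℝ, D = δ ^ 2 / η ^ 2 := ⟨_, rfl⟩
  rw [← hD] at hCJ2 hd2
  have hD0 : 0 ≤ D := by rw [hD]; positivity
  have e9 : ∀ a : ℝ, a * δ ^ 2 / η ^ 2 = a * D := fun a => by rw [hD]; ring
  simp_rw [e9]
  have hd3 : δ ^ 3 ≤ D := by
    refine le_trans ?_ hd2
    have : 0 ≤ δ ^ 2 := sq_nonneg δ
    nlinarith
  -- pointwise inequalities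
  have p1 : ∀ ε : ℝ, 0 < ε → ∀ t, gh δ t ^ 2 * z t ^ 2 ≤ (1 + ε) * q t ^ 2 + (1 + 1 / ε) * (25 * δ ^ 2) * j t ^ 2 := by
    intro ε hε t
    have h1 := abs_le.1 (hdiff t)
    obtain ⟨e, he⟩ : ∃ e : ℝ, e = q t - gh δ t * z t := ⟨_, rfl⟩
    have h2 : e ^ 2 ≤ 25 * δ ^ 2 * j t ^ 2 := by
      have : |e| ≤ 5 * δ * j t := by rw [he]; exact hdiff t
      calc e ^ 2 = |e| ^ 2 := (sq_abs e).symm
        _ ≤ (5 * δ * j t) ^ 2 := pow_le_pow_left₀ (abs_nonneg _) this 2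
        _ = _ := by ring
    have h3 : gh δ t * z t = q t - e := by rw [he]; ring
    have h4 : gh δ t ^ 2 * z t ^ 2 = (q t - e) ^ 2 := by rw [← h3]; ring
    rw [h4]
    have h5 : (q t - e) ^ 2 ≤ (1 + ε) * q t ^ 2 + (1 + 1 / ε) * e ^ 2 := by
      have h6 : 0 ≤ (1 / ε) * (ε * q t + e) ^ 2 := by positivity
      have h7 : (1 / ε) * (ε * q t + e) ^ 2 = ε * q t ^ 2 + 2 * (q t * e) + (1 / ε) * e ^ 2 := by
        field_simp
        ring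
      nlinarith
    have h8 : (1 + 1 / ε) * e ^ 2 ≤ (1 + 1 / ε) * (25 * δ ^ 2 * j t ^ 2) := by gcongr
    linarith
  have p2 : ∀ ε : ℝ, 0 < ε → ∀ t, q t ^ 2 ≤ (1 + ε) * (gh δ t ^ 2 * z t ^ 2) + (1 + 1 / ε) * (25 * δ ^ 2) * j t ^ 2 := by
    intro ε hε t
    obtain ⟨e, he⟩ : ∃ e : ℝ, e = q t - gh δ t * z t := ⟨_, rfl⟩
    have h2 : e ^ 2 ≤ 25 * δ ^ 2 * j t ^ 2 := by
      have : |e| ≤ 5 * δ * j t := by rw [he]; exact hdiff t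
      calc e ^ 2 = |e| ^ 2 := (sq_abs e).symm
        _ ≤ (5 * δ * j t) ^ 2 := pow_le_pow_left₀ (abs_nonneg _) this 2
        _ = _ := by ring
    obtain ⟨r, hr⟩ : ∃ r : ℝ, r = gh δ t * z t := ⟨_, rfl⟩
    have h3 : q t = r + e := by rw [he, hr]; ring
    have h4 : gh δ t ^ 2 * z t ^ 2 = r ^ 2 := by rw [hr]; ring
    rw [h4, h3]
    have h5 : (r + e) ^ 2 ≤ (1 + ε) * r ^ 2 + (1 + 1 / ε) * e ^ 2 := by
      have h6 : 0 ≤ (1 / ε) * (ε * r - e) ^ 2 := by positivity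
      have h7 : (1 / ε) * (ε * r - e) ^ 2 = ε * r ^ 2 - 2 * (r * e) + (1 / ε) * e ^ 2 := by
        field_simp
        ring
      nlinarith
    have h8 : (1 + 1 / ε) * e ^ 2 ≤ (1 + 1 / ε) * (25 * δ ^ 2 * j t ^ 2) := by gcongr
    linarith
  have hN : Integrable (fun t => gh δ t ^ 2 * z t ^ 2) := by
    refine Integrable.mono' ((hq.const_mul (1 + 1)).add (hJi.const_mul ((1 + 1 / 1) * (25 * δ ^ 2))))
      (((gh_cont δ).pow 2).mul (hzc.pow 2)).aestronglyMeasurable (Filter.Eventually.of_forall fun t => ?_)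
    rw [Real.norm_eq_abs, abs_of_nonneg (by positivity)]
    exact p1 1 one_pos t
  intro ε hε hε1
  have h1 : ∫ t, q t ^ 2 ≤ ∫ t, ((1 + ε) * (gh δ t ^ 2 * z t ^ 2) + (1 + 1 / ε) * (25 * δ ^ 2) * j t ^ 2) :=
    integral_mono hq ((hN.const_mul _).add (hJi.const_mul _)) fun t => p2 ε hε t
  rw [integral_add (hN.const_mul _) (hJi.const_mul _), integral_const_mul, integral_const_mul, hqe] at h1
  have h4 : -(4 * (16 * D)) ≤ π * ∫ y, Ef η δ y * Ef η δ (-y) := by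
    have hp : π ≤ 4 := Real.pi_le_four
    have hx2 : -(16 * D) ≤ ∫ y, Ef η δ y * Ef η δ (-y) := by linarith [hx.1]
    have hpp := Real.pi_pos
    have h16 : 0 ≤ 16 * D := by positivity
    nlinarith
  have h3 : (1 + 1 / ε) * (25 * δ ^ 2) * (∫ t, j t ^ 2) ≤ 50 / ε * (CJ * D) := by
    calc (1 + 1 / ε) * (25 * δ ^ 2) * (∫ t, j t ^ 2) = (1 + 1 / ε) * 25 * (δ ^ 2 * ∫ t, j t ^ 2) := by ring
      _ ≤ (1 + 1 / ε) * 25 * (CJ * D) := by gcongr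
      _ ≤ (2 / ε) * 25 * (CJ * D) := by
          gcongr
          rw [le_div_iff₀ hε]
          have : (1 + 1 / ε) * ε = ε + 1 := by field_simp
          linarith
      _ = _ := by ring
  have h5 : 64 * D ≤ 64 / ε * D := by
    gcongr
    rw [le_div_iff₀ hε]
    linarith
  calc π * ∫ y, Ef η δ y ^ 2 ≤ (1 + ε) * (∫ t, gh δ t ^ 2 * z t ^ 2) + (64 / ε * D + 50 / ε * (CJ * D)) := by
        linarith
    _ ≤ (1 + ε) * (∫ t, gh δ t ^ 2 * z t ^ 2) + 1000 * (1 + CJ) / ε * D := by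
        have : 64 / ε * D + 50 / ε * (CJ * D) = (64 + 50 * CJ) / ε * D := by ring
        rw [this]
        gcongr
        linarith

end Pool.Agent.U507.PC
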