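import Pool.Agent.U507.PC.TS

/-!
# The variance integral and the zeros: the limit form
-/

set_option autoImplicit false

open Complex Filter Topology Set MeasureTheory Metric
open scoped Real

namespace Pool.Agent.U507.PC

open Pool.Agent.U507.GM

lemma Wv_nonneg (η δ : ℝ) : 0 ≤ Wv η δ := by
  unfold Wv
  exact integral_nonneg fun y => mul_nonneg (Real.exp_pos _).le (sq_nonneg _)

lemma Qf_nonneg (η δ : ℝ) : 0 ≤ Qf η δ := by
  unfold Qf
  exact integral_nonneg fun y => mul_nonneg (sq_nonneg _) (sq_nonneg _)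

/-- the variance integral is bounded, uniformly for `η L` in a compact set -/
theorem Wv_up (hRH : RiemannHypothesis) {c1 : ℝ} (hc1 : 0 < c1) : ∃ C L0 : ℝ, 0 < C ∧ 16 ≤ L0 ∧ ∀ L δ η : ℝ, L0 ≤ L →
    0 < δ → |L + Real.log δ| ≤ 2 → c1 ≤ η * L → η ≤ 1 / 2 → Wv η δ ≤ C * (δ * L ^ 2) := by
  obtain ⟨c0, hc0⟩ : ∃ c0 : ℝ, c0 = min (2 * c1) 1 := ⟨_, rfl⟩
  have h0 : 0 < c0 := by rw [hc0]; exact lt_min (by linarith) one_pos
  have h1 : c0 ≤ 1 := by rw [hc0]; exact min_le_right _ _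
  have h2 : c0 ≤ 2 * c1 := by rw [hc0]; exact min_le_left _ _
  obtain ⟨C, L0, hC, hL0, h⟩ := ub_fin hRH h0 h1
  refine ⟨C, L0, hC, hL0, fun L δ η hL hδ hLδ hη hη2 => ?_⟩
  have hLp : 0 < L := by linarith
  have h3 : c0 / (2 * L) ≤ η := by
    rw [div_le_iff₀ (by positivity)]
    nlinarith
  exact (Wv_anti hRH (by positivity) h3 hη2 δ).trans (h L δ hL hδ hLδ)

/-- **the relation, limit form** -/
theorem ts_lim (hRH : RiemannHypothesis) {c1 c2 ε : ℝ} (hc1 : 0 < c1) (hε : 0 < ε) (hε1 : ε ≤ 1) :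
    ∃ L0 : ℝ, 16 ≤ L0 ∧ ∀ L δ η : ℝ, L0 ≤ L → 0 < δ → |L + Real.log δ| ≤ 2 → c1 ≤ η * L → η * L ≤ c2 →
      |π / 2 * Wv η δ - (Qf η δ - π / 4 * (δ * L ^ 2))| ≤ ε * (δ * L ^ 2) := by
  obtain ⟨C, hC, hts⟩ := ts1 hRH
  obtain ⟨C', L1, hC', hL1, hup⟩ := Wv_up hRH hc1
  obtain ⟨K1, hK1⟩ : ∃ K1 : ℝ, K1 = 81 + 80 / c1 ^ 2 := ⟨_, rfl⟩
  have hK10 : 0 < K1 := by rw [hK1]; positivity
  obtain ⟨κ, hκ⟩ : ∃ κ : ℝ, κ = min 1 (ε / (100 * (C' + 1))) := ⟨_, rfl⟩
  have hκ0 : 0 < κ := by rw [hκ]; exact lt_min one_pos (by positivity)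
  have hκ1 : κ ≤ 1 := by rw [hκ]; exact min_le_left _ _
  have hκ2 : κ * (C' + 1) ≤ ε / 100 := by
    have h1 : κ ≤ ε / (100 * (C' + 1)) := by rw [hκ]; exact min_le_right _ _
    rw [le_div_iff₀ (by positivity)] at h1
    linarith
  refine ⟨max L1 (max (16 * (c2 + 1)) (max (100 * (C / κ * K1) / ε) (100000 * (C' + 1) / ε + 16))),
    hL1.trans (le_max_left _ _), fun L δ η hL hδ hLδ hη1 hη2 => ?_⟩
  have l1 : L1 ≤ L := (le_max_left _ _).trans hL
  have l2 : 16 * (c2 + 1) ≤ L := ((le_max_left _ _).trans (le_max_right _ _)).trans hL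
  have l3 : 100 * (C / κ * K1) / ε ≤ L :=
    ((le_max_left _ _).trans ((le_max_right _ _).trans (le_max_right _ _))).trans hL
  have l4 : 100000 * (C' + 1) / ε + 16 ≤ L :=
    ((le_max_right _ _).trans ((le_max_right _ _).trans (le_max_right _ _))).trans hL
  have hL16 : 16 ≤ L := hL1.trans l1
  have hL0 : 0 < L := by linarith
  have hη0 : 0 < η := by
    by_contra hcon
    push Not at hcon
    nlinarith
  have hη16 : η ≤ 1 / 16 := by
    by_contra hcon
    push Not at hcon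
    nlinarith
  obtain ⟨x1, x2, x3⟩ := exp_facts (by linarith) hδ hLδ
  have hδ1 := x3 hL16
  obtain ⟨-, hI, hII⟩ := hts η δ L κ hη0 hη16 hδ hδ1 hLδ (by linarith) hκ0 hκ1
  have hW := hup L δ η l1 hδ hLδ hη1 (by linarith)
  have hW0 := Wv_nonneg η δ
  obtain ⟨E, hE⟩ : ∃ E : ℝ, E = δ * L ^ 2 := ⟨_, rfl⟩
  obtain ⟨W, hWd⟩ : ∃ W : ℝ, W = π / 2 * Wv η δ := ⟨_, rfl⟩
  obtain ⟨B, hB⟩ : ∃ B : ℝ, B = Qf η δ - π / 4 * (δ * L ^ 2) := ⟨_, rfl⟩
  rw [← hWd, ← hB] at hI hII ⊢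
  rw [← hE] at hW ⊢
  have hE0 : 0 < E := by rw [hE]; positivity
  have hp3 := Real.pi_gt_three
  have hp4 := Real.pi_le_four
  have hWE : W ≤ 2 * (C' * E) := by
    rw [hWd]
    calc π / 2 * Wv η δ ≤ 4 / 2 * (C' * E) := by gcongr
      _ = _ := by ring
  have hWW0 : 0 ≤ W := by rw [hWd]; positivity
  -- the error
  have hs0 : 0 < √δ := Real.sqrt_pos.2 hδ
  have herr : δ * L + δ * √δ * L / η ^ 2 + δ ^ 2 * L ^ 2 ≤ E * (K1 / L) := by
    have e1 : δ * L = E * (1 / L) := by rw [hE]; field_simp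
    have e2 : δ * √δ * L / η ^ 2 ≤ E * (80 / c1 ^ 2 / L) := by
      have h1 : c1 ^ 2 ≤ (η * L) ^ 2 := pow_le_pow_left₀ hc1.le hη1 2
      have h2 : δ * √δ * L / η ^ 2 = E * ((L ^ 2 * √δ) / ((η * L) ^ 2) / L) := by
        rw [hE]
        field_simp
      rw [h2]
      gcongr
    have e3 : δ ^ 2 * L ^ 2 ≤ E * (80 / L) := by
      have h1 : δ ^ 2 * L ^ 2 = E * ((L ^ 2 * δ) / L ^ 2) := by rw [hE]; field_simp
      rw [h1]
      have h2 : (L ^ 2 * δ) / L ^ 2 ≤ 80 / L ^ 2 := by gcongr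
      have h3 : 80 / L ^ 2 ≤ 80 / L := by
        apply div_le_div_of_nonneg_left (by norm_num) hL0
        nlinarith
      have := h2.trans h3
      gcongr
    rw [e1]
    have e4 : E * (K1 / L) = E * (1 / L) + E * (80 / c1 ^ 2 / L) + E * (80 / L) := by
      rw [hK1]
      field_simp
      ring
    rw [e4]
    linarith
  have herr2 : C / κ * (δ * L + δ * √δ * L / η ^ 2 + δ ^ 2 * L ^ 2) ≤ ε / 100 * E := by
    calc C / κ * (δ * L + δ * √δ * L / η ^ 2 + δ ^ 2 * L ^ 2) ≤ C / κ * (E * (K1 / L)) := by gcongr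
      _ = E * (C / κ * K1 / L) := by ring
      _ ≤ E * (ε / 100) := by
          have : C / κ * K1 / L ≤ ε / 100 := by
            rw [div_le_iff₀ hε] at l3
            rw [div_le_div_iff₀ hL0 (by norm_num)]
            linarith
          gcongr
      _ = _ := by ring
  have hδs : δ * (C' + 1) ≤ ε / 1000 := by
    have h1 : δ ≤ 80 / L := by
      rw [le_div_iff₀ hL0]
      have : δ * L ≤ L ^ 2 * δ := by nlinarith
      linarith
    have h2 : 80 / L * (C' + 1) ≤ ε / 1000 := by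
      have h3 : 100000 * (C' + 1) / ε ≤ L := by linarith
      rw [div_le_iff₀ hε] at h3
      rw [div_mul_eq_mul_div, div_le_div_iff₀ hL0 (by norm_num)]
      linarith
    calc δ * (C' + 1) ≤ 80 / L * (C' + 1) := by gcongr
      _ ≤ _ := h2
  -- second inequality
  have k2 : B ≤ W + ε / 4 * E := by
    have h1 : (1 + κ) * ((1 + κ) * W) ≤ W + 3 * κ * W := by
      have : κ ^ 2 * W ≤ κ * W := by
        have : κ ^ 2 ≤ κ := by nlinarith
        gcongr
      nlinarith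
    have h2 : κ * W ≤ 2 * (ε / 100) * E := by
      calc κ * W ≤ κ * (2 * (C' * E)) := by gcongr
        _ = 2 * (κ * C') * E := by ring
        _ ≤ 2 * (ε / 100) * E := by
            gcongr
            linarith
    nlinarith
  have hBup : B ≤ (2 * C' + ε / 4) * E := by linarith
  have k1 : W ≤ B + ε / 4 * E := by
    by_cases hBn : B ≤ 0
    · have h1 : (1 + 2 * δ) * ((1 + κ) * ((1 + κ) * B)) ≤ B := by
        have h2 : (1 + κ) * B ≤ B := by nlinarith
        have h3 : (1 + κ) * ((1 + κ) * B) ≤ (1 + κ) * B := by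
          apply mul_le_mul_of_nonneg_left h2 (by linarith)
        have h4 : (1 + κ) * ((1 + κ) * B) ≤ B := h3.trans h2
        have h5 : (1 + κ) * ((1 + κ) * B) ≤ 0 := h4.trans hBn
        nlinarith
      have : 0 ≤ ε * E := by positivity
      linarith
    · push Not at hBn
      have h1 : (1 + 2 * δ) * ((1 + κ) * ((1 + κ) * B)) ≤ B + (3 * κ + 8 * δ) * B := by
        have h2 : (1 + κ) * ((1 + κ) * B) ≤ B + 3 * κ * B := by
          have : κ ^ 2 * B ≤ κ * B := by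
            have : κ ^ 2 ≤ κ := by nlinarith
            gcongr
          nlinarith
        have h3 : (1 + κ) * ((1 + κ) * B) ≤ 2 * (2 * B) := by gcongr <;> linarith
        have h4 : 2 * δ * ((1 + κ) * ((1 + κ) * B)) ≤ 2 * δ * (2 * (2 * B)) := by gcongr
        linarith
      have h2 : (3 * κ + 8 * δ) * B ≤ (3 * κ + 8 * δ) * (2 * (C' + 1) * E) := by
        have : B ≤ 2 * (C' + 1) * E := by
          refine hBup.trans ?_
          gcongr
          linarith
        gcongr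
      have h3 : (3 * κ + 8 * δ) * (2 * (C' + 1) * E) ≤ (ε / 8) * E := by
        have e1 : (3 * κ + 8 * δ) * (2 * (C' + 1) * E) = (6 * (κ * (C' + 1)) + 16 * (δ * (C' + 1))) * E := by ring
        rw [e1]
        gcongr
        linarith
      linarith
  rw [abs_le]
  constructor <;> nlinarith

end Pool.Agent.U507.PC
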