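import Pool.Agent.U507.PC.PL2

/-!
# The variance integral and the zeros: the two-sided relation
-/

set_option autoImplicit false

open Complex Filter Topology Set MeasureTheory Metric
open scoped Real

namespace Pool.Agent.U507.PC

open Pool.Agent.U507.GM

/-- half of the logarithm minus the real part of the logarithmic derivative -/
noncomputable def Yf (η v : ℝ) : ℝ := 1 / 2 * Real.log v - (ZF ⟨1 / 2 + η, v⟩).re

/-- the weighted mean square -/
noncomputable def Qf (η δ : ℝ) : ℝ := ∫ v in Ioi 1, gh δ v ^ 2 * Yf η v ^ 2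

lemma Wv_Iv (hRH : RiemannHypothesis) {η δ : ℝ} (hη : 0 < η) (hη1 : η ≤ 1 / 2) (hδ : 0 < δ) (hδ1 : δ ≤ 1 / 2) :
    Wv η δ ≤ (1 + 2 * δ) * Iv η δ := by
  have hi := Ef_sq hRH hη hη1 δ
  have h2 : Wv η δ = Real.exp ((1 / 2 + η) * δ) * ∫ y in Ioi (δ / 2), Ef η δ y ^ 2 := by
    unfold Wv
    simp_rw [Wv_eq]
    rw [integral_const_mul]
    congr 1
    have h3 := shift_Ioi (fun y => Ef η δ y ^ 2) 0 (δ / 2)
    rw [zero_add] at h3
    exact h3
  have h3 : ∫ y in Ioi (δ / 2), Ef η δ y ^ 2 ≤ Iv η δ :=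
    setIntegral_le_integral hi (Filter.Eventually.of_forall fun y => sq_nonneg _)
  have h4 : Real.exp ((1 / 2 + η) * δ) ≤ 1 + 2 * δ := by
    have h5 : (1 / 2 + η) * δ ≤ δ := by nlinarith
    have h6 := Real.exp_bound_div_one_sub_of_interval (x := δ) hδ.le (by linarith)
    have h7 : Real.exp ((1 / 2 + η) * δ) ≤ Real.exp δ := Real.exp_le_exp.2 h5
    have h8 : 1 / (1 - δ) ≤ 1 + 2 * δ := by
      rw [div_le_iff₀ (by linarith)]
      nlinarith
    linarith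
  have h5 : 0 ≤ ∫ y in Ioi (δ / 2), Ef η δ y ^ 2 := integral_nonneg fun y => sq_nonneg _
  rw [h2]
  have h6 : 0 ≤ 1 + 2 * δ := by linarith
  calc _ ≤ (1 + 2 * δ) * ∫ y in Ioi (δ / 2), Ef η δ y ^ 2 := by gcongr
    _ ≤ _ := by gcongr

lemma sq_split {ε a b : ℝ} (hε : 0 < ε) : (a + b) ^ 2 ≤ (1 + ε) * a ^ 2 + (1 + 1 / ε) * b ^ 2 := by
  have h6 : 0 ≤ (1 / ε) * (ε * a - b) ^ 2 := by positivity
  have h7 : (1 / ε) * (ε * a - b) ^ 2 = ε * a ^ 2 - 2 * (a * b) + (1 / ε) * b ^ 2 := by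
    field_simp
    ring
  nlinarith

/-- **the relation, with error terms** -/
theorem ts1 (hRH : RiemannHypothesis) : ∃ C : ℝ, 0 < C ∧ ∀ η δ L ε : ℝ, 0 < η → η ≤ 1 / 16 → 0 < δ → δ ≤ 1 / 2 →
    |L + Real.log δ| ≤ 2 → 1 ≤ L → 0 < ε → ε ≤ 1 →
    IntegrableOn (fun v => gh δ v ^ 2 * Yf η v ^ 2) (Ioi 1) ∧
    π / 2 * Wv η δ ≤ (1 + 2 * δ) * ((1 + ε) * ((1 + ε) * (Qf η δ - π / 4 * (δ * L ^ 2)))) +
      C / ε * (δ * L + δ * √δ * L / η ^ 2 + δ ^ 2 * L ^ 2) ∧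
    Qf η δ - π / 4 * (δ * L ^ 2) ≤ (1 + ε) * ((1 + ε) * (π / 2 * Wv η δ)) +
      C / ε * (δ * L + δ * √δ * L / η ^ 2 + δ ^ 2 * L ^ 2) := by
  obtain ⟨C1, hC1, hpl⟩ := pl hRH
  obtain ⟨C2, hC2, hpl2⟩ := pl2 hRH
  obtain ⟨C3, hC3, hn⟩ := near_zero hRH 1 one_pos
  obtain ⟨K, hK, hw⟩ := wb
  refine ⟨1000 * (1 + C1 + C2 + C3 + K), by positivity, fun η δ L ε hη hη1 hδ hδ1 hL hL1 hε hε1 => ?_⟩
  obtain ⟨p1, p2, p3, -, p5⟩ := hpl η δ hη hη1 hδ hδ1
  have p3' := p3 ε hε hε1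
  have p4' := hpl2 η δ hη hη1 hδ hδ1 ε hε hε1
  obtain ⟨n1, n2⟩ := hn η δ hη hη1 hδ
  obtain ⟨w1, w2⟩ := hw δ L hδ hL
  obtain ⟨g1, g2⟩ := gh_sq_int hδ
  obtain ⟨s1, -⟩ := Iv_split hRH hη (by linarith) hδ hδ1
  have s2 := Wv_Iv hRH hη (by linarith) hδ hδ1
  obtain ⟨x, hx⟩ : ∃ x : ℝ → ℝ, x = fun v => (ZF ⟨1 / 2 + η, v⟩).re := ⟨_, rfl⟩
  obtain ⟨g, hg⟩ : ∃ g : ℝ → ℝ, g = fun v => gh δ v ^ 2 := ⟨_, rfl⟩
  have hxv : ∀ v, (ZF ⟨1 / 2 + η, v⟩).re = x v := fun v => by rw [hx]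
  have hgv : ∀ v, gh δ v ^ 2 = g v := fun v => by rw [hg]
  have hxe : ∀ v, x (-v) = x v := fun v => by rw [hx]; exact zre_even η v
  have hge : ∀ v, g (-v) = g v := fun v => by rw [hg]; simp only; rw [gh_neg]
  have hg0 : ∀ v, 0 ≤ g v := fun v => by rw [hg]; positivity
  have hxc : Continuous x := by rw [hx]; exact Complex.continuous_re.comp (zf_cont hRH hη)
  have hgc : Continuous g := by rw [hg]; exact (gh_cont δ).pow 2
  simp_rw [hxv, hgv] at p1 p2 p3' p4' p5 n1 n2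
  simp_rw [hgv] at w1 w2 g1 g2
  have hYv : ∀ v, Yf η v = 1 / 2 * Real.log v - x v := fun v => by unfold Yf; rw [hxv]
  change ∫ t, g t * x t ^ 2 ≤ (1 + ε) * π * Iv η δ + _ at p3'
  change π * Iv η δ ≤ _ at p4'
  rw [int_even (fun t => by rw [hge, hxe]) p1] at p3' p4'
  rw [int_even (fun t => by rw [hge, hxe]) p2] at p5
  rw [int_even hge g1] at g2
  have hsub : Ioi (1 : ℝ) ⊆ Ioi (0 : ℝ) := Ioi_subset_Ioi (by norm_num)
  have hsplit : ∀ f : ℝ → ℝ, Integrable f → ∫ v in Ioi 0, f v = (∫ v in Ioc 0 1, f v) + ∫ v in Ioi 1, f v := by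
    intro f hf
    rw [← setIntegral_union Ioc_disjoint_Ioi_same measurableSet_Ioi hf.integrableOn hf.integrableOn,
      Ioc_union_Ioi_eq_Ioi (by norm_num)]
  rw [hsplit _ p1] at p3' p4'
  rw [hsplit _ p2] at p5
  rw [hsplit _ g1] at g2
  have i1 := g1.integrableOn (s := Ioi 1)
  have i2 := p2.integrableOn (s := Ioi 1)
  have i3 := p1.integrableOn (s := Ioi 1)
  have i4 : IntegrableOn (fun v => g v * (1 + (Real.log v - L) ^ 2)) (Ioi 1) := w1.mono_set hsub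
  have hm5 : Measurable fun v => g v * (Real.log v - L) := hgc.measurable.mul (by fun_prop)
  have i5 : IntegrableOn (fun v => g v * (Real.log v - L)) (Ioi 1) := by
    refine Integrable.mono' i4 hm5.aestronglyMeasurable (Filter.Eventually.of_forall fun v => ?_)
    rw [norm_mul, Real.norm_eq_abs, Real.norm_eq_abs, abs_of_nonneg (hg0 v)]
    exact mul_le_mul_of_nonneg_left (abs_aux _).2.2 (hg0 v)
  have hm6 : Measurable fun v => g v * (Real.log v - L) ^ 2 := hgc.measurable.mul (by fun_prop)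
  have i6 : IntegrableOn (fun v => g v * (Real.log v - L) ^ 2) (Ioi 1) := by
    refine Integrable.mono' i4 hm6.aestronglyMeasurable (Filter.Eventually.of_forall fun v => ?_)
    rw [Real.norm_eq_abs, abs_of_nonneg (mul_nonneg (hg0 v) (sq_nonneg _))]
    exact mul_le_mul_of_nonneg_left (by linarith) (hg0 v)
  have hYm : Measurable (Yf η) := by
    have : Yf η = fun v => 1 / 2 * Real.log v - x v := funext hYv
    rw [this]
    exact (by fun_prop : Measurable fun v : ℝ => 1 / 2 * Real.log v).sub hxc.measurable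
  have i7 : IntegrableOn (fun v => g v * Yf η v ^ 2) (Ioi 1) := by
    refine Integrable.mono' ((i1.const_mul (L ^ 2)).add ((i6.const_mul 1).add (i3.const_mul 3)))
      (hgc.measurable.mul (hYm.pow_const 2)).aestronglyMeasurable (Filter.Eventually.of_forall fun v => ?_)
    rw [Real.norm_eq_abs, abs_of_nonneg (mul_nonneg (hg0 v) (sq_nonneg _)), hYv]
    simp only [Pi.add_apply]
    have h1 : (1 / 2 * Real.log v - x v) ^ 2 ≤ L ^ 2 + (1 * (Real.log v - L) ^ 2 + 3 * x v ^ 2) := by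
      obtain ⟨l, hl⟩ : ∃ l : ℝ, l = Real.log v - L := ⟨_, rfl⟩
      have : Real.log v = L + l := by rw [hl]; ring
      rw [← hl, this]
      nlinarith [sq_nonneg (L - l), sq_nonneg (L + 2 * x v), sq_nonneg (l + 2 * x v)]
    calc g v * (1 / 2 * Real.log v - x v) ^ 2 ≤ g v * (L ^ 2 + (1 * (Real.log v - L) ^ 2 + 3 * x v ^ 2)) :=
          mul_le_mul_of_nonneg_left h1 (hg0 v)
      _ = _ := by ring
  -- names for the integrals
  obtain ⟨Q, hQ⟩ : ∃ Q : ℝ, Q = Qf η δ := ⟨_, rfl⟩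
  have hQ' : Q = ∫ v in Ioi 1, g v * Yf η v ^ 2 := by rw [hQ, hg]; rfl
  obtain ⟨M, hM⟩ : ∃ M : ℝ, M = ∫ v in Ioi 1, g v := ⟨_, rfl⟩
  obtain ⟨S, hS⟩ : ∃ S : ℝ, S = ∫ v in Ioi 1, g v * (1 + (Real.log v - L) ^ 2) := ⟨_, rfl⟩
  obtain ⟨Z, hZ⟩ : ∃ Z : ℝ, Z = ∫ v in Ioi 1, g v * x v := ⟨_, rfl⟩
  obtain ⟨N, hN⟩ : ∃ N : ℝ, N = ∫ v in Ioi 1, g v * x v ^ 2 := ⟨_, rfl⟩
  obtain ⟨Λ, hΛ⟩ : ∃ Λ : ℝ, Λ = ∫ v in Ioi 1, g v * (Real.log v - L) := ⟨_, rfl⟩
  obtain ⟨Λ2, hΛ2⟩ : ∃ Λ2 : ℝ, Λ2 = ∫ v in Ioi 1, g v * (Real.log v - L) ^ 2 := ⟨_, rfl⟩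
  obtain ⟨B, hB⟩ : ∃ B : ℝ, B = ∫ v in Ioi 1, g v * (1 / 2 * L - Yf η v) ^ 2 := ⟨_, rfl⟩
  rw [← hN] at p3' p4'
  rw [← hZ] at p5
  rw [← hM] at g2
  rw [← hQ]
  have hBint : IntegrableOn (fun v => g v * (1 / 2 * L - Yf η v) ^ 2) (Ioi 1) := by
    refine Integrable.mono' ((i1.const_mul (L ^ 2)).add (i7.const_mul 2))
      (hgc.measurable.mul ((measurable_const.sub hYm).pow_const 2)).aestronglyMeasurable
      (Filter.Eventually.of_forall fun v => ?_)
    rw [Real.norm_eq_abs, abs_of_nonneg (mul_nonneg (hg0 v) (sq_nonneg _))]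
    simp only [Pi.add_apply]
    have h1 : (1 / 2 * L - Yf η v) ^ 2 ≤ L ^ 2 + 2 * Yf η v ^ 2 := by
      nlinarith [sq_nonneg (L + 2 * Yf η v)]
    calc g v * (1 / 2 * L - Yf η v) ^ 2 ≤ g v * (L ^ 2 + 2 * Yf η v ^ 2) := mul_le_mul_of_nonneg_left h1 (hg0 v)
      _ = _ := by ring
  have hS1 : S ≤ K * δ := by
    rw [hS]
    refine le_trans ?_ w2
    exact setIntegral_mono_set w1 (Filter.Eventually.of_forall fun v => mul_nonneg (hg0 v) (by positivity))
      hsub.eventuallyLE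
  have hΛ1 : |Λ| ≤ S := by
    rw [hΛ, hS, ← Real.norm_eq_abs]
    refine norm_integral_le_of_norm_le i4 (Filter.Eventually.of_forall fun v => ?_)
    rw [norm_mul, Real.norm_eq_abs, Real.norm_eq_abs, abs_of_nonneg (hg0 v)]
    exact mul_le_mul_of_nonneg_left (abs_aux _).2.2 (hg0 v)
  have hΛ22 : Λ2 ≤ S := by
    rw [hΛ2, hS]
    refine setIntegral_mono_on i6 i4 measurableSet_Ioi fun v _ => ?_
    exact mul_le_mul_of_nonneg_left (by linarith) (hg0 v)
  -- the expansion of `B`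
  have hBQ : B = Q - 1 / 4 * L ^ 2 * M - L * (1 / 2 * Λ - Z) := by
    have e1 : ∀ v, g v * (1 / 2 * L - Yf η v) ^ 2 = (g v * Yf η v ^ 2 + (-(1 / 4 * L ^ 2)) * g v) +
        ((-(1 / 2 * L)) * (g v * (Real.log v - L)) + L * (g v * x v)) := by
      intro v
      rw [hYv]
      ring
    have j1 : IntegrableOn (fun v => g v * Yf η v ^ 2 + (-(1 / 4 * L ^ 2)) * g v) (Ioi 1) := i7.add (i1.const_mul _)
    have j2 : IntegrableOn (fun v => (-(1 / 2 * L)) * (g v * (Real.log v - L)) + L * (g v * x v)) (Ioi 1) :=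
      (i5.const_mul _).add (i2.const_mul _)
    rw [hB]
    simp_rw [e1]
    rw [integral_add j1 j2, integral_add i7 (i1.const_mul _), integral_add (i5.const_mul _) (i2.const_mul _),
      integral_const_mul, integral_const_mul, integral_const_mul, ← hQ', ← hM, ← hΛ, ← hZ]
    ring
  -- `N` against `B`
  have hNB : N ≤ (1 + ε) * B + (1 + 1 / ε) * (1 / 4 * Λ2) := by
    rw [hN, hB, hΛ2, ← integral_const_mul, ← integral_const_mul, ← integral_const_mul,
      ← integral_add (hBint.const_mul _) ((i6.const_mul _).const_mul _)]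
    refine setIntegral_mono_on i3 ((hBint.const_mul _).add ((i6.const_mul _).const_mul _)) measurableSet_Ioi
      fun v _ => ?_
    have h1 : x v = (1 / 2 * L - Yf η v) + 1 / 2 * (Real.log v - L) := by rw [hYv]; ring
    have h2 := sq_split (a := 1 / 2 * L - Yf η v) (b := 1 / 2 * (Real.log v - L)) hε
    rw [← h1] at h2
    calc g v * x v ^ 2 ≤ g v * ((1 + ε) * (1 / 2 * L - Yf η v) ^ 2 + (1 + 1 / ε) * (1 / 2 * (Real.log v - L)) ^ 2) :=
          mul_le_mul_of_nonneg_left h2 (hg0 v)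
      _ = _ := by ring
  have hBN : B ≤ (1 + ε) * N + (1 + 1 / ε) * (1 / 4 * Λ2) := by
    rw [hN, hB, hΛ2, ← integral_const_mul, ← integral_const_mul, ← integral_const_mul,
      ← integral_add (i3.const_mul _) ((i6.const_mul _).const_mul _)]
    refine setIntegral_mono_on hBint ((i3.const_mul _).add ((i6.const_mul _).const_mul _)) measurableSet_Ioi
      fun v _ => ?_
    have h1 : 1 / 2 * L - Yf η v = x v + -(1 / 2 * (Real.log v - L)) := by rw [hYv]; ring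
    have h2 := sq_split (a := x v) (b := -(1 / 2 * (Real.log v - L))) hε
    rw [← h1] at h2
    calc g v * (1 / 2 * L - Yf η v) ^ 2 ≤ g v * ((1 + ε) * x v ^ 2 + (1 + 1 / ε) * (-(1 / 2 * (Real.log v - L))) ^ 2) :=
          mul_le_mul_of_nonneg_left h2 (hg0 v)
      _ = _ := by ring
  -- the error term
  have hs0 : 0 < √δ := Real.sqrt_pos.2 hδ
  have hs2 : √δ * √δ = δ := Real.mul_self_sqrt hδ.le
  have hs1 : √δ ≤ 1 := Real.sqrt_le_one.2 (by linarith)
  obtain ⟨E, hE⟩ : ∃ E : ℝ, E = δ * L + δ * √δ * L / η ^ 2 + δ ^ 2 * L ^ 2 := ⟨_, rfl⟩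
  rw [← hE]
  have r1 : δ ≤ E := by
    rw [hE]
    have h1 : δ * 1 ≤ δ * L := by gcongr
    have h2 : 0 ≤ δ * √δ * L / η ^ 2 := by positivity
    have h3 : 0 ≤ δ ^ 2 * L ^ 2 := by positivity
    linarith
  have r2 : δ * L ≤ E := by
    rw [hE]
    have h2 : 0 ≤ δ * √δ * L / η ^ 2 := by positivity
    have h3 : 0 ≤ δ ^ 2 * L ^ 2 := by positivity
    linarith
  have r3 : δ * √δ * L / η ^ 2 ≤ E := by
    rw [hE]
    have h2 : 0 ≤ δ * L := by positivity
    have h3 : 0 ≤ δ ^ 2 * L ^ 2 := by positivity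
    linarith
  have r4 : δ ^ 2 * L ^ 2 ≤ E := by
    rw [hE]
    have h2 : 0 ≤ δ * L := by positivity
    have h3 : 0 ≤ δ * √δ * L / η ^ 2 := by positivity
    linarith
  have hds : δ ^ 2 ≤ δ * √δ * L := by
    calc δ ^ 2 = δ * √δ * √δ := by rw [mul_assoc, hs2]; ring
      _ ≤ δ * √δ * L := by gcongr; linarith
  have r5 : δ ^ 2 / η ^ 2 ≤ E := by
    refine le_trans ?_ r3
    gcongr
  have r6 : δ ^ 2 / η ≤ E := by
    refine le_trans ?_ r5
    apply div_le_div_of_nonneg_left (sq_nonneg δ) (by positivity)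
    nlinarith
  have r7 : L * (δ * √δ / η ^ 2) ≤ E := by
    refine le_trans (le_of_eq ?_) r3
    ring
  have r8 : L * (δ ^ 2 / η) ≤ E := by
    refine le_trans ?_ r7
    have h1 : δ ^ 2 / η ≤ δ * √δ / η ^ 2 := by
      have h2 : δ ^ 2 ≤ δ * √δ := by
        calc δ ^ 2 = δ * √δ * √δ := by rw [mul_assoc, hs2]; ring
          _ ≤ δ * √δ * 1 := by gcongr
          _ = _ := by ring
      calc δ ^ 2 / η ≤ δ ^ 2 / η ^ 2 := by
            apply div_le_div_of_nonneg_left (sq_nonneg δ) (by positivity)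
            nlinarith
        _ ≤ _ := by gcongr
    gcongr
  have hE0 : 0 < E := by linarith
  have t1 : (1 : ℝ) ≤ 1 / ε := by rw [le_div_iff₀ hε]; linarith
  have hEε : E ≤ 1 / ε * E := le_mul_of_one_le_left hE0.le t1
  -- `M`, `Z`
  have hm0 : 0 ≤ ∫ v in Ioc 0 1, g v := integral_nonneg hg0
  have hm1 : ∫ v in Ioc 0 1, g v ≤ δ ^ 2 := by
    have h1 := norm_setIntegral_le_of_norm_le_const (μ := volume) (s := Ioc (0:ℝ) 1) (C := δ ^ 2)
      (f := g) (by simp) (fun v hv => by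
        rw [Real.norm_eq_abs, abs_of_nonneg (hg0 v), hg]
        simp only
        rw [← sq_abs]
        exact pow_le_pow_left₀ (abs_nonneg _) (gh_abs hδ v) 2)
    have hvol : volume.real (Ioc (0:ℝ) 1) = 1 := by
      rw [Real.volume_real_Ioc]
      norm_num
    rw [hvol] at h1
    have := le_abs_self (∫ v in Ioc 0 1, g v)
    rw [Real.norm_eq_abs] at h1
    linarith
  have hM1 : |M - π * δ| ≤ δ ^ 2 := by
    rw [abs_le]
    constructor <;> linarith
  have hZ1 : L * |Z| ≤ (C1 + C3) * E := by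
    have h1 := abs_le.1 p5
    have h2 := abs_le.1 n1
    have h3 : |Z| ≤ C1 * (δ * √δ / η ^ 2) + C3 * (δ ^ 2 / η) := by
      have e1 : C1 * (δ * √δ) / η ^ 2 = C1 * (δ * √δ / η ^ 2) := by ring
      have e2 : C3 * δ ^ 2 / η = C3 * (δ ^ 2 / η) := by ring
      rw [e1] at h1
      rw [e2] at h2
      have e3 : 0 ≤ C1 * (δ * √δ / η ^ 2) := by positivity
      rw [abs_le]
      constructor <;> linarith [h1.1, h1.2, h2.1, h2.2]
    calc L * |Z| ≤ L * (C1 * (δ * √δ / η ^ 2) + C3 * (δ ^ 2 / η)) := by gcongr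
      _ = C1 * (L * (δ * √δ / η ^ 2)) + C3 * (L * (δ ^ 2 / η)) := by ring
      _ ≤ C1 * E + C3 * E := by gcongr
      _ = _ := by ring
  obtain ⟨B', hB'⟩ : ∃ B' : ℝ, B' = Q - π / 4 * (δ * L ^ 2) := ⟨_, rfl⟩
  rw [← hB']
  have hBB : |B - B'| ≤ (1 + K + C1 + C3) * E := by
    have e1 : B - B' = -(1 / 4 * L ^ 2 * (M - π * δ)) - L * (1 / 2 * Λ) + L * Z := by
      rw [hBQ, hB']
      ring
    have h1 : |1 / 4 * L ^ 2 * (M - π * δ)| ≤ E := by
      rw [abs_mul, abs_of_nonneg (by positivity : 0 ≤ 1 / 4 * L ^ 2)]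
      calc 1 / 4 * L ^ 2 * |M - π * δ| ≤ 1 / 4 * L ^ 2 * δ ^ 2 := by gcongr
        _ ≤ δ ^ 2 * L ^ 2 := by
            have : 0 ≤ δ ^ 2 * L ^ 2 := by positivity
            linarith
        _ ≤ E := r4
    have h2 : |L * (1 / 2 * Λ)| ≤ K * E := by
      rw [abs_mul, abs_mul, abs_of_nonneg (by linarith : 0 ≤ L), abs_of_pos (by norm_num : (0:ℝ) < 1 / 2)]
      have h3 : |Λ| ≤ K * δ := hΛ1.trans hS1
      calc L * (1 / 2 * |Λ|) ≤ L * (1 * (K * δ)) := by gcongr; norm_num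
        _ = K * (δ * L) := by ring
        _ ≤ K * E := by gcongr
    have h3 : |L * Z| ≤ (C1 + C3) * E := by
      rw [abs_mul, abs_of_nonneg (by linarith : 0 ≤ L)]
      exact hZ1
    have a1 := abs_le.1 h1
    have a2 := abs_le.1 h2
    have a3 := abs_le.1 h3
    rw [e1, abs_le]
    constructor <;> linarith [a1.1, a1.2, a2.1, a2.2, a3.1, a3.2]
  have hBB1 := abs_le.1 hBB
  have hΛ3 : (1 + 1 / ε) * (1 / 4 * Λ2) ≤ K * (1 / ε * E) := by
    have h1 : Λ2 ≤ K * E := by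
      calc Λ2 ≤ K * δ := hΛ22.trans hS1
        _ ≤ K * E := by gcongr
    have h2 : 0 ≤ Λ2 := by rw [hΛ2]; exact integral_nonneg fun v => mul_nonneg (hg0 v) (sq_nonneg _)
    calc (1 + 1 / ε) * (1 / 4 * Λ2) ≤ (1 / ε + 1 / ε) * (1 / 4 * (K * E)) := by gcongr
      _ = 1 / 2 * (K * (1 / ε * E)) := by ring
      _ ≤ K * (1 / ε * E) := by
          have : 0 ≤ K * (1 / ε * E) := by positivity
          linarith
  have hW0 : 0 ≤ Wv η δ := by
    unfold Wv
    exact integral_nonneg fun y => mul_nonneg (Real.exp_pos _).le (sq_nonneg _)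
  have hI0 : 0 ≤ Iv η δ := integral_nonneg fun y => sq_nonneg _
  have hB0 : 0 ≤ B := by rw [hB]; exact integral_nonneg fun v => mul_nonneg (hg0 v) (sq_nonneg _)
  have hN0 : 0 ≤ N := by rw [hN]; exact integral_nonneg fun v => mul_nonneg (hg0 v) (sq_nonneg _)
  have hx0 : 0 ≤ ∫ v in Ioc 0 1, g v * x v ^ 2 := integral_nonneg fun v => mul_nonneg (hg0 v) (sq_nonneg _)
  have hn2 : ∫ v in Ioc 0 1, g v * x v ^ 2 ≤ C3 * E := by
    refine n2.trans ?_
    rw [mul_div_assoc]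
    gcongr
  have hc2 : C2 / ε * δ ^ 2 / η ^ 2 ≤ C2 * (1 / ε * E) := by
    calc C2 / ε * δ ^ 2 / η ^ 2 = C2 * (1 / ε * (δ ^ 2 / η ^ 2)) := by ring
      _ ≤ _ := by gcongr
  have hc1 : C1 / ε * δ ^ 2 / η ^ 2 ≤ C1 * (1 / ε * E) := by
    calc C1 / ε * δ ^ 2 / η ^ 2 = C1 * (1 / ε * (δ ^ 2 / η ^ 2)) := by ring
      _ ≤ _ := by gcongr
  obtain ⟨F, hF⟩ : ∃ F : ℝ, F = 1 / ε * E := ⟨_, rfl⟩
  rw [← hF] at hEε hΛ3 hc1 hc2
  have hF0 : 0 ≤ F := by linarith
  have eF : ∀ c : ℝ, c / ε * E = c * F := fun c => by rw [hF]; ring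
  rw [eF]
  refine ⟨by rw [hg] at i7; exact i7, ?_, ?_⟩
  · -- first inequality
    have h1 : π * Iv η δ ≤ (1 + ε) * (2 * (C3 * E + ((1 + ε) * B + K * F))) + C2 * F := by
      have : (1 + ε) * (2 * ((∫ v in Ioc 0 1, g v * x v ^ 2) + N)) ≤
          (1 + ε) * (2 * (C3 * E + ((1 + ε) * B + K * F))) := by
        gcongr
        linarith
      linarith
    have h2 : π / 2 * Iv η δ ≤ (1 + ε) * ((1 + ε) * B') + 50 * (1 + C1 + C2 + C3 + K) * F := by
      have h3 : (1 + ε) * ((1 + ε) * B) ≤ (1 + ε) * ((1 + ε) * B') + 4 * ((1 + K + C1 + C3) * F) := by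
        have h4 : B ≤ B' + (1 + K + C1 + C3) * F := by
          have : (1 + K + C1 + C3) * E ≤ (1 + K + C1 + C3) * F := by gcongr
          linarith [hBB1.2]
        have h5 : (1 + ε) * ((1 + ε) * B) ≤ (1 + ε) * ((1 + ε) * (B' + (1 + K + C1 + C3) * F)) := by gcongr
        have h6 : (1 + ε) * ((1 + ε) * ((1 + K + C1 + C3) * F)) ≤ 2 * (2 * ((1 + K + C1 + C3) * F)) := by
          gcongr <;> linarith
        linarith
      have h7 : (1 + ε) * (C3 * E) ≤ 2 * (C3 * F) := by gcongr; linarith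
      have h8 : (1 + ε) * (K * F) ≤ 2 * (K * F) := by gcongr; linarith
      have h9 : 0 ≤ C1 * F := by positivity
      have h10 : 0 ≤ C2 * F := by positivity
      have h11 : 0 ≤ C3 * F := by positivity
      have h12 : 0 ≤ K * F := by positivity
      have e1 : 50 * (1 + C1 + C2 + C3 + K) * F = 50 * F + 50 * (C1 * F) + 50 * (C2 * F) + 50 * (C3 * F) +
          50 * (K * F) := by ring
      have e2 : (1 + ε) * (2 * (C3 * E + ((1 + ε) * B + K * F))) = 2 * ((1 + ε) * (C3 * E)) +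
          2 * ((1 + ε) * ((1 + ε) * B)) + 2 * ((1 + ε) * (K * F)) := by ring
      rw [e2] at h1
      rw [e1]
      linarith
    have h3 : π / 2 * Wv η δ ≤ (1 + 2 * δ) * (π / 2 * Iv η δ) := by
      have hp := Real.pi_pos
      calc π / 2 * Wv η δ ≤ π / 2 * ((1 + 2 * δ) * Iv η δ) := by gcongr
        _ = _ := by ring
    have h4 : (1 + 2 * δ) * (π / 2 * Iv η δ) ≤ (1 + 2 * δ) * ((1 + ε) * ((1 + ε) * B') +
        50 * (1 + C1 + C2 + C3 + K) * F) := by gcongr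
    have h5 : (1 + 2 * δ) * (50 * (1 + C1 + C2 + C3 + K) * F) ≤ 2 * (50 * (1 + C1 + C2 + C3 + K) * F) := by
      gcongr
      linarith
    have h6 : 0 ≤ (1 + C1 + C2 + C3 + K) * F := by positivity
    linarith
  · -- second inequality
    have h1 : 2 * N ≤ (1 + ε) * π * Iv η δ + C1 * F := by linarith
    have h2 : Iv η δ ≤ 16 * E + Wv η δ := by
      have : 16 * δ ^ 3 ≤ 16 * E := by
        have h3 : δ ^ 3 ≤ δ := by
          have : δ ^ 2 ≤ 1 := by nlinarith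
          nlinarith
        linarith
      linarith
    have h3 : B' ≤ (1 + ε) * N + K * F + (1 + K + C1 + C3) * F := by
      have : (1 + K + C1 + C3) * E ≤ (1 + K + C1 + C3) * F := by gcongr
      linarith [hBB1.1]
    have h4 : (1 + ε) * N ≤ (1 + ε) * ((1 + ε) * (π / 2 * Wv η δ)) + (200 + 2 * C1) * F := by
      have h5 : N ≤ (1 + ε) * (π / 2 * (16 * E + Wv η δ)) + C1 * F := by
        have hp := Real.pi_pos
        have h6 : (1 + ε) * π * Iv η δ ≤ (1 + ε) * π * (16 * E + Wv η δ) := by gcongr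
        have h7 : 0 ≤ C1 * F := by positivity
        linarith
      have h8 : (1 + ε) * N ≤ (1 + ε) * ((1 + ε) * (π / 2 * (16 * E + Wv η δ)) + C1 * F) := by gcongr
      have h9 : (1 + ε) * ((1 + ε) * (π / 2 * (16 * E))) ≤ 2 * (2 * (4 / 2 * (16 * F))) := by
        have := Real.pi_le_four
        have := Real.pi_pos
        gcongr <;> linarith
      have h10 : (1 + ε) * (C1 * F) ≤ 2 * (C1 * F) := by gcongr; linarith
      linarith
    have h9 : 0 ≤ C1 * F := by positivity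
    have h10 : 0 ≤ C2 * F := by positivity
    have h11 : 0 ≤ C3 * F := by positivity
    have h12 : 0 ≤ K * F := by positivity
    have e1 : 1000 * (1 + C1 + C2 + C3 + K) * F = 1000 * F + 1000 * (C1 * F) + 1000 * (C2 * F) + 1000 * (C3 * F) +
        1000 * (K * F) := by ring
    rw [e1]
    linarith

end Pool.Agent.U507.PC
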