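import Pool.Agent.U507.PC.RG
import Pool.Agent.U507.PC.TL
import Pool.Agent.U507.GM.VC
import Pool.Agent.U507.GM.VE
import Pool.Agent.U507.GM.VF

/-!
# The variance of primes in intervals of relative length `1 / T`
-/

set_option autoImplicit false

open Complex Filter Topology Set MeasureTheory Metric
open scoped Real

namespace Pool.Agent.U507.PC

open Pool.Agent.U507.GM hiding step_low low_pt low_unif rigid

/-- the normalised square of the error term at `x = T ^ α` -/
noncomputable def vs (T α : ℝ) : ℝ := T / (T ^ α * Real.log T) * Dd (T ^ α) (T ^ α / T) ^ 2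

lemma vs_meas {T : ℝ} (hT : 2 ≤ T) : Measurable (vs T) := by
  have h1 := rpow_meas T (by linarith)
  unfold vs
  refine (measurable_const.div (h1.mul_const _)).mul (Measurable.pow_const ?_ 2)
  unfold Dd
  exact ((psi_measurable.comp (h1.add (h1.div_const _))).sub (psi_measurable.comp h1)).sub (h1.div_const _)

lemma vs_nonneg {T : ℝ} (hT : 2 ≤ T) (α : ℝ) : 0 ≤ vs T α := by
  have h1 : 0 < T ^ α := Real.rpow_pos_of_pos (by linarith) α
  have h2 : 0 ≤ Real.log T := Real.log_nonneg (by linarith)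
  unfold vs
  positivity

lemma vs_bdd {T B : ℝ} (hT : 16 ≤ T) : ∃ M : ℝ, ∀ α : ℝ, 0 ≤ α → α ≤ B → vs T α ≤ M := by
  have hL := logT hT
  obtain ⟨R, hR⟩ : ∃ R : ℝ, R = 2 * T ^ B := ⟨_, rfl⟩
  refine ⟨T * (Chebyshev.psi R + R) ^ 2, fun α h0 h1 => ?_⟩
  have hT0 : 0 < T := by linarith
  have h2 : 1 ≤ T ^ α := Real.one_le_rpow (by linarith) h0
  have h3 : T ^ α ≤ T ^ B := Real.rpow_le_rpow_of_exponent_le (by linarith) h1
  have h4 : T ^ α / T ≤ T ^ α := div_le_self (by linarith) (by linarith)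
  have h5 : 0 ≤ T ^ α / T := by positivity
  have h6 := Dd_abs_le (x := T ^ α) (h := T ^ α / T) h5 (M := R) (by rw [hR]; linarith)
  have h7 : |Dd (T ^ α) (T ^ α / T)| ≤ Chebyshev.psi R + R := by
    refine h6.trans ?_
    have : T ^ α / T ≤ R := by rw [hR]; linarith
    linarith
  unfold vs
  have h8 : T / (T ^ α * Real.log T) ≤ T := by
    apply div_le_self hT0.le
    nlinarith
  have h9 : Dd (T ^ α) (T ^ α / T) ^ 2 ≤ (Chebyshev.psi R + R) ^ 2 := by
    rw [← sq_abs]
    exact pow_le_pow_left₀ (abs_nonneg _) h7 2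
  have h10 : 0 ≤ T / (T ^ α * Real.log T) := by positivity
  calc _ ≤ T * Dd (T ^ α) (T ^ α / T) ^ 2 := by gcongr
    _ ≤ _ := by gcongr

lemma vs_ii {T a b : ℝ} (hT : 16 ≤ T) (ha : 0 ≤ a) (hb : 0 ≤ b) : IntervalIntegrable (vs T) volume a b := by
  obtain ⟨M, hM⟩ := vs_bdd (B := max a b) hT
  refine IntervalIntegrable.mono_fun' (g := fun _ => M) (by simp) (vs_meas (by linarith)).aestronglyMeasurable ?_
  refine (ae_restrict_iff' measurableSet_uIoc).2 (Filter.Eventually.of_forall fun y hy => ?_)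
  show ‖vs T y‖ ≤ M
  rw [Real.norm_eq_abs, abs_of_nonneg (vs_nonneg (by linarith) _)]
  refine hM y ?_ ?_
  · exact (mem_uIoc.1 hy).elim (fun h => ha.trans h.1.le) fun h => hb.trans h.1.le
  · exact (mem_uIoc.1 hy).elim (fun h => h.2.trans (le_max_right _ _)) fun h => h.2.trans (le_max_left _ _)

/-- the Laplace transform -/
lemma vs_lap (hRH : RiemannHypothesis) {T c : ℝ} (hT : 16 ≤ T) (hc : 0 < c) (hcT : c ≤ Real.log T) :
    IntegrableOn (fun α => Real.exp (-c * α) * vs T α) (Ioi 0) ∧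
    ∫ α in Ioi 0, Real.exp (-c * α) * vs T α = T / Real.log T ^ 2 * Wv (c / (2 * Real.log T)) (dl T 1) := by
  have hT0 : 0 < T := by linarith
  have hL1 := logT hT
  obtain ⟨L, hL⟩ : ∃ L : ℝ, L = Real.log T := ⟨_, rfl⟩
  rw [← hL] at hL1 hcT ⊢
  have hL0 : 0 < L := by linarith
  have hκ : 0 < c / L := by positivity
  have hκ1 : c / L ≤ 1 := by rw [div_le_one hL0]; exact hcT
  obtain ⟨-, hi, hie, -⟩ := gI_intOn hRH (w := 1) hT (by norm_num) hκ hκ1
  have e0 : c / L / 2 = c / (2 * L) := by field_simp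
  rw [e0] at hie
  have key : ∀ α : ℝ, Real.exp (-c * α) * vs T α = (fun s => T / L * gI T (c / L) 1 s) (α * L) := by
    intro α
    simp only
    unfold vs gI
    have e1 : Real.exp (α * L) = T ^ α := by
      rw [Real.rpow_def_of_pos hT0, hL, mul_comm α]
    rw [e1, one_mul, ← hL]
    have e3 : Real.exp (-(1 + c / L) * (α * L)) = Real.exp (-c * α) / T ^ α := by
      rw [← e1, ← Real.exp_sub]
      congr 1
      field_simp
      ring
    rw [e3]
    have : 0 < T ^ α := Real.rpow_pos_of_pos hT0 α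
    field_simp
  constructor
  · have h2 := (integrableOn_Ioi_comp_mul_right_iff (fun s => T / L * gI T (c / L) 1 s) 0 hL0).2
      (by rw [zero_mul]; exact hi.const_mul _)
    refine (integrableOn_congr_fun (fun α _ => ?_) measurableSet_Ioi).2 h2
    exact key α
  · simp_rw [key]
    rw [integral_comp_mul_right_Ioi (fun s => T / L * gI T (c / L) 1 s) 0 hL0, zero_mul, integral_const_mul, hie,
      smul_eq_mul]
    field_simp

lemma dl1 {T : ℝ} (hT : 16 ≤ T) : 0 < dl T 1 ∧ dl T 1 ≤ 1 / T ∧ 1 - 1 / T ≤ dl T 1 * T ∧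
    |Real.log T + Real.log (dl T 1)| ≤ 2 := by
  obtain ⟨h1, h2, h3, h4⟩ := dl_facts hT (w := 1) (by norm_num) (by norm_num)
  rw [one_mul] at h2 h3
  exact ⟨h1, h2, h3, h4⟩

/-- upper bound for the Laplace transform -/
lemma vs_up (hRH : RiemannHypothesis) {c : ℝ} (hc : 0 < c) : ∃ C T0 : ℝ, 0 < C ∧ 16 ≤ T0 ∧ ∀ T : ℝ, T0 ≤ T →
    IntegrableOn (fun α => Real.exp (-c * α) * vs T α) (Ioi 0) ∧
    ∫ α in Ioi 0, Real.exp (-c * α) * vs T α ≤ C := by
  obtain ⟨C, L0, hC, hL0, h⟩ := Wv_up hRH (c1 := c / 2) (by linarith)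
  refine ⟨C, max 16 (Real.exp (max L0 c)), hC, le_max_left _ _, fun T hT => ?_⟩
  have hT16 : 16 ≤ T := (le_max_left _ _).trans hT
  have hT0 : 0 < T := by linarith
  have hTe : Real.exp (max L0 c) ≤ T := (le_max_right _ _).trans hT
  have hLL : max L0 c ≤ Real.log T := by rwa [Real.le_log_iff_exp_le hT0]
  have h1 : L0 ≤ Real.log T := (le_max_left _ _).trans hLL
  have h2 : c ≤ Real.log T := (le_max_right _ _).trans hLL
  obtain ⟨k1, k2⟩ := vs_lap hRH hT16 hc h2
  refine ⟨k1, ?_⟩
  rw [k2]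
  obtain ⟨d1, d2, d3, d4⟩ := dl1 hT16
  have hlog : 0 < Real.log T := by linarith
  have h3 := h (Real.log T) (dl T 1) (c / (2 * Real.log T)) h1 d1 d4 (by
    have : c / (2 * Real.log T) * Real.log T = c / 2 := by field_simp
    rw [this]) (by
    rw [div_le_div_iff₀ (by positivity) (by norm_num)]
    linarith)
  calc T / Real.log T ^ 2 * Wv (c / (2 * Real.log T)) (dl T 1) ≤
        T / Real.log T ^ 2 * (C * (1 / T * Real.log T ^ 2)) := by
        gcongr
        refine h3.trans ?_
        gcongr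
    _ = C := by field_simp

/-- lower bound for the Laplace transform -/
lemma vs_low (hRH : RiemannHypothesis) {c : ℝ} (hc : 0 < c) (hc1 : c ≤ 1) {ε : ℝ} (hε : 0 < ε) :
    ∀ᶠ T in atTop, 1 / c - 1 / 2 - ε ≤ ∫ α in Ioi 0, Real.exp (-c * α) * vs T α := by
  obtain ⟨L0, hL0, h⟩ := lb_fin hRH hc hc1 (ε := ε / 2) (by linarith)
  filter_upwards [eventually_ge_atTop (max 16 (max (Real.exp L0) (2 / (ε * c))))] with T hT
  have hT16 : 16 ≤ T := (le_max_left _ _).trans hT
  have hT0 : 0 < T := by linarith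
  have hTe : Real.exp L0 ≤ T := ((le_max_left _ _).trans (le_max_right _ _)).trans hT
  have hTc : 2 / (ε * c) ≤ T := ((le_max_right _ _).trans (le_max_right _ _)).trans hT
  have hLL : L0 ≤ Real.log T := by rwa [Real.le_log_iff_exp_le hT0]
  obtain ⟨k1, k2⟩ := vs_lap hRH hT16 hc (by linarith)
  rw [k2]
  obtain ⟨d1, d2, d3, d4⟩ := dl1 hT16
  have hlog : 0 < Real.log T := by linarith
  have h3 := h (Real.log T) (dl T 1) hLL d1 d4
  obtain ⟨X, hX⟩ : ∃ X : ℝ, X = 1 / c - 1 / 2 - ε / 2 := ⟨_, rfl⟩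
  rw [← hX] at h3
  have hX1 : 1 / c - 1 / 2 - ε = X - ε / 2 := by rw [hX]; ring
  rw [hX1]
  by_cases hX0 : X < 0
  · have : 0 ≤ T / Real.log T ^ 2 * Wv (c / (2 * Real.log T)) (dl T 1) := by
      have := Wv_nonneg (c / (2 * Real.log T)) (dl T 1)
      positivity
    linarith
  · push Not at hX0
    have h4 : X ≤ 1 / c := by rw [hX]; linarith
    calc X - ε / 2 ≤ (1 - 1 / T) * X := by
          have h5 : 1 / T * X ≤ ε / 2 := by
            calc 1 / T * X ≤ 1 / T * (1 / c) := by gcongr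
              _ = 1 / (T * c) := by field_simp
              _ ≤ ε / 2 := by
                  rw [div_le_iff₀ (by positivity)] at hTc
                  rw [div_le_div_iff₀ (by positivity) (by norm_num)]
                  linarith
          linarith
      _ ≤ (dl T 1 * T) * X := by gcongr
      _ = T / Real.log T ^ 2 * (dl T 1 * Real.log T ^ 2 * X) := by field_simp
      _ ≤ _ := by gcongr

/-- **the means converge** -/
theorem vs_lim (hRH : RiemannHypothesis)
    (h : ∀ a b : ℝ, 0 ≤ a → a ≤ b → ∀ ε : ℝ, 0 < ε → ∀ᶠ T in atTop,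
      ∫ α in a..b, vs T α ≤ (∫ α in a..b, min α 1) + ε) {b : ℝ} (hb : 0 ≤ b) :
    Tendsto (fun T => Ph (vs T) b) atTop (𝓝 (mp b)) := by
  refine rigid (l := atTop) (V := vs) (ℓ := 1) one_pos (fun b hb hb1 => absurd hb (not_lt.2 hb1)) ?_ ?_ ?_ ?_ ?_ hb
  · filter_upwards [eventually_ge_atTop (16 : ℝ)] with T hT
    exact ⟨vs_meas (by linarith), vs_nonneg (by linarith), fun a b ha hb => vs_ii hT ha hb⟩
  · intro c hc _
    obtain ⟨C, T0, -, -, h1⟩ := vs_up hRH hc
    refine ⟨C, ?_⟩
    filter_upwards [eventually_ge_atTop T0] with T hT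
    exact h1 T hT
  · intro c hc hc1 ε hε
    exact vs_low hRH hc hc1 hε
  · intro a b ha hab _ ε hε
    exact h a b ha hab ε hε
  · intro a ha _ ε hε
    exact h a (a + 1) ha.le (by linarith) ε hε

/-- **the Laplace transforms converge** -/
theorem vs_lap_lim (hRH : RiemannHypothesis)
    (h : ∀ b : ℝ, 0 ≤ b → Tendsto (fun T => Ph (vs T) b) atTop (𝓝 (mp b))) {c : ℝ} (hc : 0 < c) :
    Tendsto (fun T => ∫ α in Ioi 0, Real.exp (-c * α) * vs T α) atTop
      (𝓝 (∫ α in Ioi 0, Real.exp (-c * α) * min α 1)) := by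
  obtain ⟨C, T0, hC, hT0, hup⟩ := vs_up hRH (c := c / 2) (by linarith)
  obtain ⟨C1, T1, hC1, hT1, hup1⟩ := vs_up hRH hc
  have e1 : ∫ α in Ioi 0, Real.exp (-c * α) * min α 1 = ∫ b in Ioi 0, c * Real.exp (-c * b) * mp b :=
    (lap_prim min_cont.measurable hc (lap_min hc).1).2.symm
  rw [e1]
  have key : Tendsto (fun T => ∫ b in Ioi 0, c * Real.exp (-c * b) * Ph (vs T) b) atTop
      (𝓝 (∫ b in Ioi 0, c * Real.exp (-c * b) * mp b)) := by
    refine tendsto_integral_filter_of_dominated_convergence (fun b => c * (C * Real.exp (-(c / 2) * b))) ?_ ?_ ?_ ?_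
    · filter_upwards [eventually_ge_atTop (max T0 T1)] with T hT
      have hT16 : 16 ≤ T := hT0.trans ((le_max_left _ _).trans hT)
      have := (lap_prim (vs_meas (T := T) (by linarith)) hc (hup1 T ((le_max_right _ _).trans hT)).1).1
      exact this.aestronglyMeasurable
    · filter_upwards [eventually_ge_atTop (max T0 T1)] with T hT
      have hT16 : 16 ≤ T := hT0.trans ((le_max_left _ _).trans hT)
      obtain ⟨k1, k2⟩ := hup T ((le_max_left _ _).trans hT)
      refine (ae_restrict_iff' measurableSet_Ioi).2 (Filter.Eventually.of_forall fun b hb => ?_)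
      have hb0 : (0 : ℝ) < b := hb
      have hP0 : 0 ≤ Ph (vs T) b := intervalIntegral.integral_nonneg hb0.le fun α _ => vs_nonneg (by linarith) α
      rw [Real.norm_eq_abs, abs_of_nonneg (by positivity)]
      have k3 : Ph (vs T) b ≤ Real.exp (c / 2 * b) * C := by
        have k4 : Ph (vs T) b ≤ ∫ α in (0 : ℝ)..b, Real.exp (c / 2 * b) * (Real.exp (-(c / 2) * α) * vs T α) := by
          refine intervalIntegral.integral_mono_on hb0.le (vs_ii hT16 le_rfl hb0.le) ?_ fun α hα => ?_
          · refine IntervalIntegrable.const_mul ?_ _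
            rw [intervalIntegrable_iff_integrableOn_Ioc_of_le hb0.le]
            exact k1.mono_set Ioc_subset_Ioi_self
          · rw [← mul_assoc, ← Real.exp_add]
            apply le_mul_of_one_le_left (vs_nonneg (by linarith) α)
            apply Real.one_le_exp
            nlinarith [hα.2]
        rw [intervalIntegral.integral_const_mul] at k4
        have k5 : ∫ α in (0 : ℝ)..b, Real.exp (-(c / 2) * α) * vs T α ≤ C := by
          refine le_trans ?_ k2
          rw [intervalIntegral.integral_of_le hb0.le]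
          exact setIntegral_mono_set k1 (Filter.Eventually.of_forall fun α => mul_nonneg (Real.exp_pos _).le
            (vs_nonneg (by linarith) α)) Ioc_subset_Ioi_self.eventuallyLE
        calc Ph (vs T) b ≤ _ := k4
          _ ≤ _ := by gcongr
      calc c * Real.exp (-c * b) * Ph (vs T) b ≤ c * Real.exp (-c * b) * (Real.exp (c / 2 * b) * C) := by gcongr
        _ = c * (C * (Real.exp (-c * b) * Real.exp (c / 2 * b))) := by ring
        _ = _ := by
            rw [← Real.exp_add]
            congr 4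
            ring
    · exact ((integrableOn_exp_mul_Ioi (by linarith : -(c / 2) < 0) 0).const_mul C).const_mul c
    · refine (ae_restrict_iff' measurableSet_Ioi).2 (Filter.Eventually.of_forall fun b hb => ?_)
      exact (h b (le_of_lt hb)).const_mul _
  refine key.congr' ?_
  filter_upwards [eventually_ge_atTop T1] with T hT
  have hT16 : 16 ≤ T := hT1.trans hT
  exact (lap_prim (vs_meas (by linarith)) hc (hup1 T hT).1).2

end Pool.Agent.U507.PC
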